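import Pool.Agent.Lib.MP_87489e_co.HT.Stmts

set_option autoImplicit false

/-!
Holmes-Thompson, dimension three: a combinatorial sphere stays one under subdivision of an edge.
-/

namespace Pool.Agent.Lib.MP_87489e_co.HT

open Finset

namespace A1

variable {V : Type} [DecidableEq V]

/-- the two triangles on the edge `{u, v}` -/
structure Conf (u v w z m : V) (T0 : Finset (Finset V)) : Prop where
  uv : u ≠ v
  uw : u ≠ w
  uz : u ≠ z
  vw : v ≠ w
  vz : v ≠ z
  wz : w ≠ z
  mu : m ≠ u
  mv : m ≠ v
  mw : m ≠ w
  mz : m ≠ z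
  hm : ∀ t ∈ T0, m ∉ t
  huv : ∀ t ∈ T0, ¬ ({u, v} : Finset V) ⊆ t

/-- the complex before the subdivision -/
abbrev old (u v w z : V) (T0 : Finset (Finset V)) : Finset (Finset V) :=
  insert {u, v, w} (insert {u, v, z} T0)

/-- the complex after the subdivision -/
abbrev new (u v w z m : V) (T0 : Finset (Finset V)) : Finset (Finset V) :=
  insert {m, v, w} (insert {m, u, w} (insert {m, v, z} (insert {m, u, z} T0)))

/-- the common edges -/
abbrev RR (u v w z : V) (T0 : Finset (Finset V)) : Finset (Finset V) :=
  edges T0 ∪ {{u, w}, {v, w}, {u, z}, {v, z}}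

lemma pow2 {a b c : V} (hab : a ≠ b) (hac : a ≠ c) (hbc : b ≠ c) :
    ({a, b, c} : Finset V).powersetCard 2 = {{a, b}, {a, c}, {b, c}} := by
  ext e
  simp only [mem_powersetCard, mem_insert, mem_singleton]
  constructor
  · rintro ⟨h1, h2⟩
    obtain ⟨x, y, hxy, rfl⟩ := Finset.card_eq_two.mp h2
    have hx := h1 (mem_insert_self x _)
    have hy := h1 (mem_insert_of_mem (mem_singleton_self y))
    simp only [mem_insert, mem_singleton] at hx hy
    rcases hx with rfl | rfl | rfl <;> rcases hy with rfl | rfl | rfl <;>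
      first
        | exact absurd rfl hxy
        | simp
        | (simp [Finset.pair_comm])
  · rintro (rfl | rfl | rfl)
    · exact ⟨by intro x; simp only [mem_insert, mem_singleton]; tauto, card_pair hab⟩
    · exact ⟨by intro x; simp only [mem_insert, mem_singleton]; tauto, card_pair hac⟩
    · exact ⟨by intro x; simp only [mem_insert, mem_singleton]; tauto, card_pair hbc⟩

lemma edges_insert (t : Finset V) (T : Finset (Finset V)) :
    edges (insert t T) = t.powersetCard 2 ∪ edges T := by
  rw [edges, biUnion_insert, edges]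

lemma mem_edges {T : Finset (Finset V)} {e : Finset V} :
    e ∈ edges T ↔ ∃ t ∈ T, e ⊆ t ∧ e.card = 2 := by
  simp only [edges, mem_biUnion, mem_powersetCard]

section

variable {u v w z m : V} {T0 : Finset (Finset V)}

lemma edges_old (h : Conf u v w z m T0) :
    edges (old u v w z T0) = insert {u, v} (RR u v w z T0) := by
  rw [edges_insert, edges_insert, pow2 h.uv h.uw h.vw, pow2 h.uv h.uz h.vz]
  ext e
  simp only [RR, mem_union, mem_insert, mem_singleton]
  tauto

lemma edges_new (h : Conf u v w z m T0) :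
    edges (new u v w z m T0) =
      RR u v w z T0 ∪ {{m, u}, {m, v}, {m, w}, {m, z}} := by
  rw [edges_insert, edges_insert, edges_insert, edges_insert, pow2 h.mv h.mw h.vw,
    pow2 h.mu h.mw h.uw, pow2 h.mv h.mz h.vz, pow2 h.mu h.mz h.uz]
  ext e
  simp only [RR, mem_union, mem_insert, mem_singleton]
  tauto

lemma RR_prop (h : Conf u v w z m T0) {e : Finset V} (he : e ∈ RR u v w z T0) :
    e.card = 2 ∧ m ∉ e ∧ e ≠ {u, v} := by
  simp only [RR, mem_union, mem_insert, mem_singleton] at he
  rcases he with he | rfl | rfl | rfl | rfl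
  · obtain ⟨t, ht, h1, h2⟩ := mem_edges.mp he
    refine ⟨h2, fun h3 => h.hm t ht (h1 h3), ?_⟩
    rintro rfl
    exact h.huv t ht h1
  · refine ⟨card_pair h.uw, by simp [h.mu, h.mw], fun h1 => ?_⟩
    have : w ∈ ({u, v} : Finset V) := by rw [← h1]; simp
    simp only [mem_insert, mem_singleton] at this
    rcases this with h2 | h2
    · exact h.uw h2.symm
    · exact h.vw h2.symm
  · refine ⟨card_pair h.vw, by simp [h.mv, h.mw], fun h1 => ?_⟩
    have : w ∈ ({u, v} : Finset V) := by rw [← h1]; simp
    simp only [mem_insert, mem_singleton] at this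
    rcases this with h2 | h2
    · exact h.uw h2.symm
    · exact h.vw h2.symm
  · refine ⟨card_pair h.uz, by simp [h.mu, h.mz], fun h1 => ?_⟩
    have : z ∈ ({u, v} : Finset V) := by rw [← h1]; simp
    simp only [mem_insert, mem_singleton] at this
    rcases this with h2 | h2
    · exact h.uz h2.symm
    · exact h.vz h2.symm
  · refine ⟨card_pair h.vz, by simp [h.mv, h.mz], fun h1 => ?_⟩
    have : z ∈ ({u, v} : Finset V) := by rw [← h1]; simp
    simp only [mem_insert, mem_singleton] at this
    rcases this with h2 | h2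
    · exact h.uz h2.symm
    · exact h.vz h2.symm

lemma sub_iff {a b c : V} {e : Finset V} (he : e.card = 2) (ha : a ∉ e) (hbc : b ≠ c) :
    e ⊆ {a, b, c} ↔ e = {b, c} := by
  constructor
  · intro h1
    have h2 : e ⊆ {b, c} := fun x hx => by
      have h3 := h1 hx
      simp only [mem_insert, mem_singleton] at h3 ⊢
      rcases h3 with rfl | h3 | h3
      · exact absurd hx ha
      · exact Or.inl h3
      · exact Or.inr h3
    exact eq_of_subset_of_card_le h2 (by rw [he, card_pair hbc])
  · rintro rfl
    intro x hx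
    exact mem_insert_of_mem hx

lemma ite_old {M : Type*} [AddCommMonoid M] (x : M) {a b c : V} {e : Finset V}
    (hab : a ≠ b) (hac : a ≠ c) (hbc : b ≠ c) (he : e.card = 2) (h1 : e ≠ {a, b}) :
    (if e ⊆ {a, b, c} then x else 0) =
      (if e = {a, c} then x else 0) + (if e = {b, c} then x else 0) := by
  have h2 : e ⊆ {a, b, c} ↔ (e = {a, c} ∨ e = {b, c}) := by
    have h3 : e ⊆ {a, b, c} ↔ e ∈ ({a, b, c} : Finset V).powersetCard 2 := by
      rw [mem_powersetCard]
      exact ⟨fun h => ⟨h, he⟩, fun h => h.1⟩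
    rw [h3, pow2 hab hac hbc]
    simp only [mem_insert, mem_singleton]
    tauto
  have h4 : ({a, c} : Finset V) ≠ {b, c} := fun h => by
    have : a ∈ ({b, c} : Finset V) := by rw [← h]; simp
    simp only [mem_insert, mem_singleton] at this
    tauto
  simp only [h2]
  by_cases h5 : e = {a, c}
  · have h6 : e ≠ {b, c} := by rw [h5]; exact h4
    simp [h5, h4]
  · simp [h5]

/-- sum over the triangles on `e` -/
def sm {M : Type*} [AddCommMonoid M] (T : Finset (Finset V)) (f : Finset V → M) (e : Finset V) : M :=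
  ∑ t ∈ T.filter (fun t => e ⊆ t), f t

lemma sm_insert {M : Type*} [AddCommMonoid M] {T : Finset (Finset V)} {t : Finset V} (ht : t ∉ T)
    (f : Finset V → M) (e : Finset V) :
    sm (insert t T) f e = (if e ⊆ t then f t else 0) + sm T f e := by
  simp only [sm, sum_filter]
  rw [sum_insert ht]

lemma notMem_of_mem {T : Finset (Finset V)} {t : Finset V} {x : V} (hx : x ∈ t)
    (h : ∀ s ∈ T, x ∉ s) : t ∉ T := fun ht => h t ht hx

lemma old_nm2 (h : Conf u v w z m T0) : ({u, v, z} : Finset V) ∉ T0 := fun ht =>
  h.huv _ ht (by intro x; simp only [mem_insert, mem_singleton]; tauto)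

lemma old_nm1 (h : Conf u v w z m T0) : ({u, v, w} : Finset V) ∉ insert {u, v, z} T0 := by
  intro ht
  rcases mem_insert.mp ht with h1 | h1
  · have : w ∈ ({u, v, z} : Finset V) := by rw [← h1]; simp
    simp only [mem_insert, mem_singleton] at this
    rcases this with h2 | h2 | h2
    · exact h.uw h2.symm
    · exact h.vw h2.symm
    · exact h.wz h2
  · exact h.huv _ h1 (by intro x; simp only [mem_insert, mem_singleton]; tauto)

lemma new_nm4 (h : Conf u v w z m T0) : ({m, u, z} : Finset V) ∉ T0 := fun ht =>
  h.hm _ ht (mem_insert_self _ _)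

lemma new_nm3 (h : Conf u v w z m T0) : ({m, v, z} : Finset V) ∉ insert {m, u, z} T0 := by
  intro ht
  rcases mem_insert.mp ht with h1 | h1
  · have : v ∈ ({m, u, z} : Finset V) := by rw [← h1]; simp
    simp only [mem_insert, mem_singleton] at this
    rcases this with h2 | h2 | h2
    · exact h.mv h2.symm
    · exact h.uv h2.symm
    · exact h.vz h2
  · exact h.hm _ h1 (mem_insert_self _ _)

lemma new_nm2 (h : Conf u v w z m T0) :
    ({m, u, w} : Finset V) ∉ insert {m, v, z} (insert {m, u, z} T0) := by
  intro ht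
  have key : ∀ x : V, w ∈ ({m, x, z} : Finset V) → x ≠ w → False := fun x hx hxw => by
    simp only [mem_insert, mem_singleton] at hx
    rcases hx with h2 | h2 | h2
    · exact h.mw h2.symm
    · exact hxw h2.symm
    · exact h.wz h2
  rcases mem_insert.mp ht with h1 | h1
  · exact key v (by rw [← h1]; simp) h.vw
  · rcases mem_insert.mp h1 with h1 | h1
    · exact key u (by rw [← h1]; simp) h.uw
    · exact h.hm _ h1 (mem_insert_self _ _)

lemma new_nm1 (h : Conf u v w z m T0) :
    ({m, v, w} : Finset V) ∉ insert {m, u, w} (insert {m, v, z} (insert {m, u, z} T0)) := by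
  intro ht
  have key : ∀ x : V, w ∈ ({m, x, z} : Finset V) → x ≠ w → False := fun x hx hxw => by
    simp only [mem_insert, mem_singleton] at hx
    rcases hx with h2 | h2 | h2
    · exact h.mw h2.symm
    · exact hxw h2.symm
    · exact h.wz h2
  rcases mem_insert.mp ht with h1 | h1
  · have : v ∈ ({m, u, w} : Finset V) := by rw [← h1]; simp
    simp only [mem_insert, mem_singleton] at this
    rcases this with h2 | h2 | h2
    · exact h.mv h2.symm
    · exact h.uv h2.symm
    · exact h.vw h2
  · rcases mem_insert.mp h1 with h1 | h1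
    · exact key v (by rw [← h1]; simp) h.vw
    · rcases mem_insert.mp h1 with h1 | h1
      · exact key u (by rw [← h1]; simp) h.uw
      · exact h.hm _ h1 (mem_insert_self _ _)

lemma sm_old {M : Type*} [AddCommMonoid M] (h : Conf u v w z m T0) (f : Finset V → M)
    (e : Finset V) : sm (old u v w z T0) f e = (if e ⊆ {u, v, w} then f {u, v, w} else 0) +
      ((if e ⊆ {u, v, z} then f {u, v, z} else 0) + sm T0 f e) := by
  rw [sm_insert (old_nm1 h), sm_insert (old_nm2 h)]

lemma sm_new {M : Type*} [AddCommMonoid M] (h : Conf u v w z m T0) (f : Finset V → M)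
    (e : Finset V) : sm (new u v w z m T0) f e = (if e ⊆ {m, v, w} then f {m, v, w} else 0) +
      ((if e ⊆ {m, u, w} then f {m, u, w} else 0) + ((if e ⊆ {m, v, z} then f {m, v, z} else 0) +
      ((if e ⊆ {m, u, z} then f {m, u, z} else 0) + sm T0 f e))) := by
  rw [sm_insert (new_nm1 h), sm_insert (new_nm2 h), sm_insert (new_nm3 h), sm_insert (new_nm4 h)]

/-- on a common edge, before -/
lemma sm_old_R {M : Type*} [AddCommMonoid M] (h : Conf u v w z m T0) (f : Finset V → M)
    {e : Finset V} (he : e ∈ RR u v w z T0) : sm (old u v w z T0) f e =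
      (if e = {u, w} then f {u, v, w} else 0) + (if e = {v, w} then f {u, v, w} else 0) +
      ((if e = {u, z} then f {u, v, z} else 0) + (if e = {v, z} then f {u, v, z} else 0) +
        sm T0 f e) := by
  obtain ⟨h1, h2, h3⟩ := RR_prop h he
  rw [sm_old h, ite_old _ h.uv h.uw h.vw h1 h3, ite_old _ h.uv h.uz h.vz h1 h3]

/-- on a common edge, after -/
lemma sm_new_R {M : Type*} [AddCommMonoid M] (h : Conf u v w z m T0) (f : Finset V → M)
    {e : Finset V} (he : e ∈ RR u v w z T0) : sm (new u v w z m T0) f e =
      (if e = {u, w} then f {m, u, w} else 0) + (if e = {v, w} then f {m, v, w} else 0) +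
      ((if e = {u, z} then f {m, u, z} else 0) + (if e = {v, z} then f {m, v, z} else 0) +
        sm T0 f e) := by
  obtain ⟨h1, h2, h3⟩ := RR_prop h he
  rw [sm_new h]
  simp only [sub_iff h1 h2 h.vw, sub_iff h1 h2 h.uw, sub_iff h1 h2 h.vz, sub_iff h1 h2 h.uz]
  rw [← add_assoc, add_comm (if e = {v, w} then f {m, v, w} else 0), ← add_assoc
    (if e = {v, z} then f {m, v, z} else 0), add_comm (if e = {v, z} then f {m, v, z} else 0)]

lemma sm_zero {M : Type*} [AddCommMonoid M] (f : Finset V → M) {e : Finset V}
    (he : ∀ t ∈ T0, ¬ e ⊆ t) : sm T0 f e = 0 := by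
  rw [sm, filter_false_of_mem he, sum_empty]

/-- at the old edge -/
lemma sm_old_uv {M : Type*} [AddCommMonoid M] (h : Conf u v w z m T0) (f : Finset V → M) :
    sm (old u v w z T0) f {u, v} = f {u, v, w} + f {u, v, z} := by
  rw [sm_old h, if_pos, if_pos, sm_zero f h.huv, add_zero] <;>
  · intro x
    simp only [mem_insert, mem_singleton]
    tauto

lemma sm_T0_m {M : Type*} [AddCommMonoid M] (h : Conf u v w z m T0) (f : Finset V → M) (x : V) :
    sm T0 f {m, x} = 0 := sm_zero f fun t ht h1 => h.hm t ht (h1 (mem_insert_self _ _))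

lemma pair_sub {a b c x y : V} : ({x, y} : Finset V) ⊆ {a, b, c} ↔
    (x = a ∨ x = b ∨ x = c) ∧ (y = a ∨ y = b ∨ y = c) := by
  rw [insert_subset_iff, singleton_subset_iff]
  simp only [mem_insert, mem_singleton]

lemma sm_new_w {M : Type*} [AddCommMonoid M] (h : Conf u v w z m T0) (f : Finset V → M) :
    sm (new u v w z m T0) f {m, w} = f {m, v, w} + f {m, u, w} := by
  have h1 := h.mu; have h2 := h.mv; have h3 := h.mw; have h4 := h.mz
  have h5 := h.uw.symm; have h6 := h.vw.symm; have h7 := h.wz
  rw [sm_new h, sm_T0_m h]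
  simp only [pair_sub]
  simp [h3.symm, h5, h6, h7]

lemma sm_new_z {M : Type*} [AddCommMonoid M] (h : Conf u v w z m T0) (f : Finset V → M) :
    sm (new u v w z m T0) f {m, z} = f {m, v, z} + f {m, u, z} := by
  have h4 := h.mz
  have h5 := h.uz.symm; have h6 := h.vz.symm; have h7 := h.wz.symm
  rw [sm_new h, sm_T0_m h]
  simp only [pair_sub]
  simp [h4.symm, h5, h6, h7]

lemma sm_new_u {M : Type*} [AddCommMonoid M] (h : Conf u v w z m T0) (f : Finset V → M) :
    sm (new u v w z m T0) f {m, u} = f {m, u, w} + f {m, u, z} := by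
  have h4 := h.mu
  have h5 := h.uz; have h6 := h.uv; have h7 := h.uw
  rw [sm_new h, sm_T0_m h]
  simp only [pair_sub]
  simp [h4.symm, h5, h6, h7]

lemma sm_new_v {M : Type*} [AddCommMonoid M] (h : Conf u v w z m T0) (f : Finset V → M) :
    sm (new u v w z m T0) f {m, v} = f {m, v, w} + f {m, v, z} := by
  have h4 := h.mv
  have h5 := h.vz; have h6 := h.uv.symm; have h7 := h.vw
  rw [sm_new h, sm_T0_m h]
  simp only [pair_sub]
  simp [h4.symm, h5, h6, h7]

/-- the chain before the subdivision, with prescribed values on the two triangles -/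
def up (u v w z : V) (X : Finset V → ZMod 2) (x1 x2 : ZMod 2) : Finset V → ZMod 2 :=
  Function.update (Function.update X {u, v, z} x2) {u, v, w} x1

lemma up_w (X : Finset V → ZMod 2) (x1 x2 : ZMod 2) : up u v w z X x1 x2 {u, v, w} = x1 := by
  rw [up, Function.update_self]

lemma up_z (h : Conf u v w z m T0) (X : Finset V → ZMod 2) (x1 x2 : ZMod 2) :
    up u v w z X x1 x2 {u, v, z} = x2 := by
  have h1 : ({u, v, z} : Finset V) ≠ {u, v, w} := fun h1 =>
    old_nm1 h (by rw [← h1]; exact mem_insert_self _ _)
  rw [up, Function.update_of_ne h1, Function.update_self]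

lemma up_T0 (h : Conf u v w z m T0) (X : Finset V → ZMod 2) (x1 x2 : ZMod 2) {t : Finset V}
    (ht : t ∈ T0) : up u v w z X x1 x2 t = X t := by
  have h1 : t ≠ {u, v, w} := fun h1 => old_nm1 h (by rw [← h1]; exact mem_insert_of_mem ht)
  have h2 : t ≠ {u, v, z} := fun h2 => old_nm2 h (by rw [← h2]; exact ht)
  rw [up, Function.update_of_ne h1, Function.update_of_ne h2]

lemma sm_congr {M : Type*} [AddCommMonoid M] {f g : Finset V → M} (e : Finset V)
    (h : ∀ t ∈ T0, f t = g t) : sm T0 f e = sm T0 g e :=
  sum_congr rfl fun t ht => h t (mem_filter.mp ht).1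

lemma sm_up (h : Conf u v w z m T0) (X : Finset V → ZMod 2) (x1 x2 : ZMod 2)
    {e : Finset V} (he : e ∈ RR u v w z T0) (h1 : e = {u, w} → X {m, u, w} = x1)
    (h2 : e = {v, w} → X {m, v, w} = x1) (h3 : e = {u, z} → X {m, u, z} = x2)
    (h4 : e = {v, z} → X {m, v, z} = x2) :
    sm (old u v w z T0) (up u v w z X x1 x2) e = sm (new u v w z m T0) X e := by
  rw [sm_old_R h _ he, sm_new_R h _ he, up_w, up_z h, sm_congr e fun t ht => up_T0 h X x1 x2 ht]
  have key : ∀ (p : Prop) [Decidable p] (a b : ZMod 2), (p → b = a) →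
      (if p then a else 0) = if p then b else 0 := by
    intro p _ a b hp
    split_ifs with h5
    · exact (hp h5).symm
    · rfl
  rw [key _ _ _ h1, key _ _ _ h2, key _ _ _ h3, key _ _ _ h4]

lemma eq_of_add {a b : ZMod 2} (h : a + b = 0) : a = b := by
  revert h; revert a b; decide

lemma bd_eq (T : Finset (Finset V)) (X : Finset V → ZMod 2) (e : Finset V) :
    bd T X e = sm T X e := rfl

lemma mem_new_u (h : Conf u v w z m T0) : ({m, u} : Finset V) ∈ edges (new u v w z m T0) := by
  rw [edges_new h]; simp

lemma mem_new_v (h : Conf u v w z m T0) : ({m, v} : Finset V) ∈ edges (new u v w z m T0) := by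
  rw [edges_new h]; simp

lemma mem_new_w (h : Conf u v w z m T0) : ({m, w} : Finset V) ∈ edges (new u v w z m T0) := by
  rw [edges_new h]; simp

lemma mem_new_z (h : Conf u v w z m T0) : ({m, z} : Finset V) ∈ edges (new u v w z m T0) := by
  rw [edges_new h]; simp

lemma conn_new (h : Conf u v w z m T0) (hS : Sph (old u v w z T0)) (X : Finset V → ZMod 2)
    (hX : ∀ e ∈ edges (new u v w z m T0), bd (new u v w z m T0) X e = 0) :
    ∀ t ∈ new u v w z m T0, ∀ t' ∈ new u v w z m T0, X t = X t' := by
  have hw : X {m, v, w} = X {m, u, w} := eq_of_add (by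
    rw [← sm_new_w h]; exact hX _ (mem_new_w h))
  have hz : X {m, v, z} = X {m, u, z} := eq_of_add (by
    rw [← sm_new_z h]; exact hX _ (mem_new_z h))
  have hc := hS.conn (up u v w z X (X {m, v, w}) (X {m, v, z})) fun e he => by
    rw [bd_eq]
    rw [edges_old h, mem_insert] at he
    rcases he with rfl | he
    · rw [sm_old_uv h, up_w, up_z h, ← sm_new_v h]
      exact hX _ (mem_new_v h)
    · rw [sm_up h X _ _ he (fun _ => hw.symm) (fun _ => rfl) (fun _ => hz.symm) (fun _ => rfl)]
      exact hX _ (by rw [edges_new h]; exact mem_union_left _ he)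
  have e1 : ({u, v, w} : Finset V) ∈ old u v w z T0 := mem_insert_self _ _
  have e2 : ({u, v, z} : Finset V) ∈ old u v w z T0 := mem_insert_of_mem (mem_insert_self _ _)
  have key : ∀ t ∈ new u v w z m T0, X t = X {m, v, w} := by
    intro t ht
    simp only [mem_insert] at ht
    rcases ht with rfl | rfl | rfl | rfl | ht
    · rfl
    · exact hw.symm
    · have := hc _ e2 _ e1
      rwa [up_w, up_z h] at this
    · have := hc _ e2 _ e1
      rw [up_w, up_z h] at this
      rw [← hz, this]
    · have := hc t (mem_insert_of_mem (mem_insert_of_mem ht)) _ e1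
      rwa [up_w, up_T0 h _ _ _ ht] at this
  intro t ht t' ht'
  rw [key t ht, key t' ht']

lemma star_new (h : Conf u v w z m T0) (hS : Sph (old u v w z T0)) (x : V)
    (X : Finset V → ZMod 2)
    (hX : ∀ e ∈ edges (new u v w z m T0), x ∈ e → bd (new u v w z m T0) X e = 0) :
    ∀ t ∈ new u v w z m T0, ∀ t' ∈ new u v w z m T0, x ∈ t → x ∈ t' → X t = X t' := by
  have hw : x ∈ ({m, w} : Finset V) → X {m, v, w} = X {m, u, w} := fun hx => eq_of_add (by
    rw [← sm_new_w h]; exact hX _ (mem_new_w h) hx)
  have hz : x ∈ ({m, z} : Finset V) → X {m, v, z} = X {m, u, z} := fun hx => eq_of_add (by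
    rw [← sm_new_z h]; exact hX _ (mem_new_z h) hx)
  have hu : x ∈ ({m, u} : Finset V) → X {m, u, w} = X {m, u, z} := fun hx => eq_of_add (by
    rw [← sm_new_u h]; exact hX _ (mem_new_u h) hx)
  have hv : x ∈ ({m, v} : Finset V) → X {m, v, w} = X {m, v, z} := fun hx => eq_of_add (by
    rw [← sm_new_v h]; exact hX _ (mem_new_v h) hx)
  by_cases hxm : x = m
  · subst hxm
    have key : ∀ t ∈ new u v w z x T0, x ∈ t → X t = X {x, v, w} := by
      intro t ht hxt
      simp only [mem_insert] at ht
      rcases ht with rfl | rfl | rfl | rfl | ht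
      · rfl
      · exact (hw (mem_insert_self _ _)).symm
      · exact (hv (mem_insert_self _ _)).symm
      · rw [← hz (mem_insert_self _ _)]
        exact (hv (mem_insert_self _ _)).symm
      · exact absurd hxt (h.hm t ht)
    intro t ht t' ht' h1 h2
    rw [key t ht h1, key t' ht' h2]
  · obtain ⟨x1, hx1⟩ : ∃ x1 : ZMod 2, (x = u → x1 = X {m, u, w}) ∧ (x ≠ u → x1 = X {m, v, w}) := by
      by_cases hxu : x = u
      · exact ⟨X {m, u, w}, fun _ => rfl, fun h => absurd hxu h⟩
      · exact ⟨X {m, v, w}, fun h => absurd h hxu, fun _ => rfl⟩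
    obtain ⟨x2, hx2⟩ : ∃ x2 : ZMod 2, (x = u → x2 = X {m, u, z}) ∧ (x ≠ u → x2 = X {m, v, z}) := by
      by_cases hxu : x = u
      · exact ⟨X {m, u, z}, fun _ => rfl, fun h => absurd hxu h⟩
      · exact ⟨X {m, v, z}, fun h => absurd h hxu, fun _ => rfl⟩
    have a1 : x ∈ ({u, w} : Finset V) → X {m, u, w} = x1 := fun hx => by
      simp only [mem_insert, mem_singleton] at hx
      rcases hx with hx | hx
      · exact (hx1.1 hx).symm
      · rw [hx1.2 (by rw [hx]; exact h.uw.symm)]
        exact (hw (by simp [hx])).symm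
    have a2 : x ∈ ({v, w} : Finset V) → X {m, v, w} = x1 := fun hx => by
      simp only [mem_insert, mem_singleton] at hx
      rcases hx with hx | hx
      · exact (hx1.2 (by rw [hx]; exact h.uv.symm)).symm
      · exact (hx1.2 (by rw [hx]; exact h.uw.symm)).symm
    have a3 : x ∈ ({u, z} : Finset V) → X {m, u, z} = x2 := fun hx => by
      simp only [mem_insert, mem_singleton] at hx
      rcases hx with hx | hx
      · exact (hx2.1 hx).symm
      · rw [hx2.2 (by rw [hx]; exact h.uz.symm)]
        exact (hz (by simp [hx])).symm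
    have a4 : x ∈ ({v, z} : Finset V) → X {m, v, z} = x2 := fun hx => by
      simp only [mem_insert, mem_singleton] at hx
      rcases hx with hx | hx
      · exact (hx2.2 (by rw [hx]; exact h.uv.symm)).symm
      · exact (hx2.2 (by rw [hx]; exact h.uz.symm)).symm
    have hc := hS.star x (up u v w z X x1 x2) fun e he hxe => by
      rw [bd_eq]
      rw [edges_old h, mem_insert] at he
      rcases he with rfl | he
      · rw [sm_old_uv h, up_w, up_z h]
        simp only [mem_insert, mem_singleton] at hxe
        rcases hxe with hx | hx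
        · rw [hx1.1 hx, hx2.1 hx, hu (by simp [hx])]
          exact CharTwo.add_self_eq_zero _
        · have hxu : x ≠ u := by rw [hx]; exact h.uv.symm
          rw [hx1.2 hxu, hx2.2 hxu, hv (by simp [hx])]
          exact CharTwo.add_self_eq_zero _
      · rw [sm_up h X _ _ he (fun h5 => a1 (h5 ▸ hxe)) (fun h5 => a2 (h5 ▸ hxe))
          (fun h5 => a3 (h5 ▸ hxe)) (fun h5 => a4 (h5 ▸ hxe))]
        exact hX _ (by rw [edges_new h]; exact mem_union_left _ he) hxe
    have key : ∀ t ∈ new u v w z m T0, x ∈ t →
        ∃ s ∈ old u v w z T0, x ∈ s ∧ up u v w z X x1 x2 s = X t := by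
      intro t ht hxt
      simp only [mem_insert] at ht
      rcases ht with rfl | rfl | rfl | rfl | ht
      · have hx : x ∈ ({v, w} : Finset V) := (mem_insert.mp hxt).resolve_left hxm
        exact ⟨{u, v, w}, mem_insert_self _ _, mem_insert_of_mem hx, by rw [up_w, a2 hx]⟩
      · have hx : x ∈ ({u, w} : Finset V) := (mem_insert.mp hxt).resolve_left hxm
        refine ⟨{u, v, w}, mem_insert_self _ _, ?_, by rw [up_w, a1 hx]⟩
        simp only [mem_insert, mem_singleton] at hx ⊢
        rcases hx with hx | hx
        · exact Or.inl hx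
        · exact Or.inr (Or.inr hx)
      · have hx : x ∈ ({v, z} : Finset V) := (mem_insert.mp hxt).resolve_left hxm
        exact ⟨{u, v, z}, mem_insert_of_mem (mem_insert_self _ _), mem_insert_of_mem hx,
          by rw [up_z h, a4 hx]⟩
      · have hx : x ∈ ({u, z} : Finset V) := (mem_insert.mp hxt).resolve_left hxm
        refine ⟨{u, v, z}, mem_insert_of_mem (mem_insert_self _ _), ?_, by rw [up_z h, a3 hx]⟩
        simp only [mem_insert, mem_singleton] at hx ⊢
        rcases hx with hx | hx
        · exact Or.inl hx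
        · exact Or.inr (Or.inr hx)
      · exact ⟨t, mem_insert_of_mem (mem_insert_of_mem ht), hxt, up_T0 h _ _ _ ht⟩
    intro t ht t' ht' h1 h2
    obtain ⟨s, hs, hxs, es⟩ := key t ht h1
    obtain ⟨s', hs', hxs', es'⟩ := key t' ht' h2
    rw [← es, ← es', hc s hs s' hs' hxs hxs']

lemma card_sm (T : Finset (Finset V)) (e : Finset V) :
    (T.filter (fun t => e ⊆ t)).card = sm T (fun _ => (1 : ℕ)) e := by
  simp [sm]

lemma two_new (h : Conf u v w z m T0) (hS : Sph (old u v w z T0)) {e : Finset V}
    (he : e ∈ edges (new u v w z m T0)) :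
    ((new u v w z m T0).filter (fun t => e ⊆ t)).card = 2 := by
  rw [edges_new h, mem_union] at he
  rcases he with he | he
  · have h2 := hS.two e (by rw [edges_old h]; exact mem_insert_of_mem he)
    have h3 := sm_old_R h (fun _ => (1 : ℕ)) he
    have h4 := sm_new_R h (fun _ => (1 : ℕ)) he
    beta_reduce at h3 h4
    rw [card_sm] at h2 ⊢
    rw [h4, ← h3, h2]
  · simp only [mem_insert, mem_singleton] at he
    rcases he with rfl | rfl | rfl | rfl
    · have h3 := sm_new_u h (fun _ => (1 : ℕ))
      beta_reduce at h3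
      rw [card_sm, h3]
    · have h3 := sm_new_v h (fun _ => (1 : ℕ))
      beta_reduce at h3
      rw [card_sm, h3]
    · have h3 := sm_new_w h (fun _ => (1 : ℕ))
      beta_reduce at h3
      rw [card_sm, h3]
    · have h3 := sm_new_z h (fun _ => (1 : ℕ))
      beta_reduce at h3
      rw [card_sm, h3]

lemma card3_new (h : Conf u v w z m T0) (hS : Sph (old u v w z T0)) :
    ∀ t ∈ new u v w z m T0, t.card = 3 := by
  intro t ht
  simp only [mem_insert] at ht
  rcases ht with rfl | rfl | rfl | rfl | ht
  · exact card_eq_three.mpr ⟨m, v, w, h.mv, h.mw, h.vw, rfl⟩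
  · exact card_eq_three.mpr ⟨m, u, w, h.mu, h.mw, h.uw, rfl⟩
  · exact card_eq_three.mpr ⟨m, v, z, h.mv, h.mz, h.vz, rfl⟩
  · exact card_eq_three.mpr ⟨m, u, z, h.mu, h.mz, h.uz, rfl⟩
  · exact hS.card3 t (mem_insert_of_mem (mem_insert_of_mem ht))

/-! ### The first homology -/

/-- degree within the common edges -/
def dR (R : Finset (Finset V)) (y : Finset V → ZMod 2) (x : V) : ZMod 2 :=
  ∑ e ∈ R.filter (fun e => x ∈ e), y e

lemma dR_insert {R : Finset (Finset V)} {e : Finset V} (he : e ∉ R) (y : Finset V → ZMod 2)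
    (x : V) : dR (insert e R) y x = (if x ∈ e then y e else 0) + dR R y x := by
  simp only [dR, sum_filter]
  rw [sum_insert he]

lemma deg_eq (T : Finset (Finset V)) (y : Finset V → ZMod 2) (x : V) :
    deg T y x = dR (edges T) y x := rfl

lemma pair_ne {a b c : V} (hbc : b ≠ c) (hac : a ≠ c) : ({a, b} : Finset V) ≠ {a, c} := fun h => by
  have : c ∈ ({a, b} : Finset V) := by rw [h]; simp
  simp only [mem_insert, mem_singleton] at this
  rcases this with h1 | h1
  · exact hac h1.symm
  · exact hbc h1.symm

lemma deg_old (h : Conf u v w z m T0) (y : Finset V → ZMod 2) (x : V) :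
    deg (old u v w z T0) y x = (if x ∈ ({u, v} : Finset V) then y {u, v} else 0) +
      dR (RR u v w z T0) y x := by
  rw [deg_eq, edges_old h, dR_insert fun h1 => (RR_prop h h1).2.2 rfl]

lemma deg_new (h : Conf u v w z m T0) (y : Finset V → ZMod 2) (x : V) :
    deg (new u v w z m T0) y x = (if x ∈ ({m, u} : Finset V) then y {m, u} else 0) +
      ((if x ∈ ({m, v} : Finset V) then y {m, v} else 0) +
      ((if x ∈ ({m, w} : Finset V) then y {m, w} else 0) +
      ((if x ∈ ({m, z} : Finset V) then y {m, z} else 0) + dR (RR u v w z T0) y x))) := by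
  have e : RR u v w z T0 ∪ {{m, u}, {m, v}, {m, w}, {m, z}} = insert ({m, u} : Finset V)
      (insert {m, v} (insert {m, w} (insert {m, z} (RR u v w z T0)))) := by
    ext e
    simp only [mem_union, mem_insert, mem_singleton]
    tauto
  have hR : ∀ a : V, ({m, a} : Finset V) ∉ RR u v w z T0 := fun a h1 =>
    (RR_prop h h1).2.1 (mem_insert_self _ _)
  rw [deg_eq, edges_new h, e, dR_insert, dR_insert, dR_insert, dR_insert]
  · exact hR z
  · rw [mem_insert, not_or]
    exact ⟨pair_ne h.wz h.mz, hR w⟩
  · rw [mem_insert, mem_insert, not_or, not_or]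
    exact ⟨pair_ne h.vw h.mw, pair_ne h.vz h.mz, hR v⟩
  · rw [mem_insert, mem_insert, mem_insert, not_or, not_or, not_or]
    exact ⟨pair_ne h.uv h.mv, pair_ne h.uw h.mw, pair_ne h.uz h.mz, hR u⟩

/-- the chain after the subdivision, with prescribed values on the four triangles -/
def dn (u v w z m : V) (X : Finset V → ZMod 2) (a1 b1 a2 b2 : ZMod 2) : Finset V → ZMod 2 := fun t =>
  if t = {m, v, w} then a1 else if t = {m, u, w} then b1 else if t = {m, v, z} then a2 else
    if t = {m, u, z} then b2 else X t

lemma dn_vals (h : Conf u v w z m T0) (X : Finset V → ZMod 2) (a1 b1 a2 b2 : ZMod 2) :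
    dn u v w z m X a1 b1 a2 b2 {m, v, w} = a1 ∧ dn u v w z m X a1 b1 a2 b2 {m, u, w} = b1 ∧
    dn u v w z m X a1 b1 a2 b2 {m, v, z} = a2 ∧ dn u v w z m X a1 b1 a2 b2 {m, u, z} = b2 ∧
    ∀ t ∈ T0, dn u v w z m X a1 b1 a2 b2 t = X t := by
  have n1 := new_nm1 h
  have n2 := new_nm2 h
  have n3 := new_nm3 h
  rw [mem_insert, mem_insert, mem_insert, not_or, not_or, not_or] at n1
  rw [mem_insert, mem_insert, not_or, not_or] at n2
  rw [mem_insert, not_or] at n3
  refine ⟨?_, ?_, ?_, ?_, ?_⟩
  · rw [dn, if_pos rfl]
  · rw [dn, if_neg (Ne.symm n1.1), if_pos rfl]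
  · rw [dn, if_neg (Ne.symm n1.2.1), if_neg (Ne.symm n2.1), if_pos rfl]
  · rw [dn, if_neg (Ne.symm n1.2.2.1), if_neg (Ne.symm n2.2.1), if_neg (Ne.symm n3.1), if_pos rfl]
  · intro t ht
    have hne : ∀ a b : V, t ≠ {m, a, b} := fun a b h1 => h.hm t ht (by rw [h1]; simp)
    rw [dn, if_neg (hne _ _), if_neg (hne _ _), if_neg (hne _ _), if_neg (hne _ _)]

lemma alg (q1 q2 q3 q4 : Prop) [Decidable q1] [Decidable q2] [Decidable q3] [Decidable q4]
    (p1 p2 p3 p4 p5 p6 : ZMod 2) (h : (if q1 then p1 else 0) + (if q2 then p1 else 0) +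
      ((if q3 then p2 else 0) + (if q4 then p2 else 0) + p5) =
      p6 + ((if q1 then p3 else 0) + (if q3 then p4 else 0))) :
    (if q1 then p1 + p3 else 0) + (if q2 then p1 else 0) +
      ((if q3 then p2 + p4 else 0) + (if q4 then p2 else 0) + p5) = p6 := by
  have h2 : ∀ a : ZMod 2, a + a = 0 := CharTwo.add_self_eq_zero
  have e1 : (if q1 then p1 + p3 else 0) = (if q1 then p1 else 0) + (if q1 then p3 else 0) := by
    split_ifs
    · rfl
    · rw [add_zero]
  have e2 : (if q3 then p2 + p4 else 0) = (if q3 then p2 else 0) + (if q3 then p4 else 0) := by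
    split_ifs
    · rfl
    · rw [add_zero]
  rw [e1, e2]
  generalize (if q1 then p1 else 0) = a1 at *
  generalize (if q2 then p1 else 0) = a2 at *
  generalize (if q3 then p2 else 0) = a3 at *
  generalize (if q4 then p2 else 0) = a4 at *
  generalize (if q1 then p3 else 0) = a5 at *
  generalize (if q3 then p4 else 0) = a6 at *
  have e3 : a1 + a5 + a2 + (a3 + a6 + a4 + p5) = (a1 + a2 + (a3 + a4 + p5)) + (a5 + a6) := by ring
  rw [e3, h]
  have e4 : p6 + (a5 + a6) + (a5 + a6) = p6 + ((a5 + a6) + (a5 + a6)) := by ring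
  rw [e4, h2, add_zero]

lemma h1_new (h : Conf u v w z m T0) (hS : Sph (old u v w z T0)) (y : Finset V → ZMod 2)
    (hy : ∀ x, deg (new u v w z m T0) y x = 0) :
    ∃ X : Finset V → ZMod 2, ∀ e ∈ edges (new u v w z m T0), bd (new u v w z m T0) X e = y e := by
  set α := y {m, w} with hα
  set β := y {m, z} with hβ
  set R := RR u v w z T0 with hR
  set y' : Finset V → ZMod 2 := fun e => if e = {u, v} then y {m, v} else
    y e + ((if e = {u, w} then α else 0) + (if e = {u, z} then β else 0)) with hy'
  have mR1 : ({u, w} : Finset V) ∈ R := by simp [hR]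
  have mR2 : ({u, z} : Finset V) ∈ R := by simp [hR]
  have hRm : dR R y m = 0 := by
    rw [dR, filter_false_of_mem, sum_empty]
    intro e he
    exact (RR_prop h he).2.1
  have hdm := hy m
  rw [deg_new h, if_pos (mem_insert_self _ _), if_pos (mem_insert_self _ _),
    if_pos (mem_insert_self _ _), if_pos (mem_insert_self _ _), hRm, ← hα, ← hβ] at hdm
  have hdR : ∀ x, dR R y' x = dR R y x + ((if x ∈ ({u, w} : Finset V) then α else 0) +
      (if x ∈ ({u, z} : Finset V) then β else 0)) := by
    intro x
    have e1 : dR R y' x = ∑ e ∈ R.filter (fun e => x ∈ e),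
        (y e + ((if e = {u, w} then α else 0) + (if e = {u, z} then β else 0))) := by
      refine sum_congr rfl fun e he => ?_
      rw [hy']
      exact if_neg (RR_prop h (mem_filter.mp he).1).2.2
    rw [e1, sum_add_distrib, sum_add_distrib, sum_ite_eq', sum_ite_eq', dR]
    simp only [mem_filter, mR1, mR2, true_and]
  have hdeg : ∀ x, deg (old u v w z T0) y' x = 0 := by
    intro x
    have hx := hy x
    rw [deg_new h] at hx
    rw [deg_old h, hdR]
    have hyuv : y' {u, v} = y {m, v} := by rw [hy']; exact if_pos rfl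
    rw [hyuv]
    by_cases hxm : x = m
    · subst hxm
      rw [if_neg (by simp [h.mu, h.mv]), if_neg (by simp [h.mu, h.mw]),
        if_neg (by simp [h.mu, h.mz]), hRm]
      decide
    · simp only [mem_insert, mem_singleton, hxm, false_or] at hx ⊢
      have e5 := h.uv
      have e6 := h.uw
      have e7 := h.uz
      have e8 := h.vw
      have e9 := h.vz
      have e10 := h.wz
      by_cases x1 : x = u
      · subst x1
        simp only [true_or, if_true, if_pos, e5, e6, e7, if_false] at hx ⊢
        revert hx hdm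
        generalize y {m, x} = p1
        generalize y {m, v} = p2
        generalize dR R y x = p5
        generalize α = p3
        generalize β = p4
        revert p1 p2 p3 p4 p5
        decide
      · by_cases x2 : x = v
        · subst x2
          simp only [or_true, if_true, if_pos, e5.symm, e8, e9, if_false, or_false,
            false_or] at hx ⊢
          revert hx hdm
          generalize y {m, u} = p1
          generalize y {m, x} = p2
          generalize dR R y x = p5
          generalize α = p3
          generalize β = p4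
          revert p1 p2 p3 p4 p5
          decide
        · by_cases x3 : x = w
          · subst x3
            simp only [or_true, if_true, if_pos, e6.symm, e8.symm, e10, if_false, or_false,
              false_or] at hx ⊢
            rw [← hα] at hx
            revert hx hdm
            generalize y {m, u} = p1
            generalize y {m, v} = p2
            generalize dR R y x = p5
            generalize α = p3
            generalize β = p4
            revert p1 p2 p3 p4 p5
            decide
          · by_cases x4 : x = z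
            · subst x4
              simp only [or_true, if_true, if_pos, e7.symm, e9.symm, e10.symm, if_false,
                or_false, false_or] at hx ⊢
              revert hx hdm
              generalize y {m, u} = p1
              generalize y {m, v} = p2
              generalize dR R y x = p5
              rw [← hβ]
              generalize α = p3
              generalize β = p4
              revert p1 p2 p3 p4 p5
              decide
            · simp only [x1, x2, x3, x4, if_false, or_false, zero_add, add_zero] at hx ⊢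
              exact hx
  obtain ⟨X, hX⟩ := hS.h1 y' hdeg
  have huv := hX {u, v} (by rw [edges_old h]; exact mem_insert_self _ _)
  rw [bd_eq, sm_old_uv h] at huv
  have hyuv : y' {u, v} = y {m, v} := by rw [hy']; exact if_pos rfl
  rw [hyuv] at huv
  obtain ⟨d1, d2, d3, d4, d5⟩ := dn_vals h X (X {u, v, w}) (X {u, v, w} + α) (X {u, v, z})
    (X {u, v, z} + β)
  refine ⟨dn u v w z m X (X {u, v, w}) (X {u, v, w} + α) (X {u, v, z}) (X {u, v, z} + β), ?_⟩
  intro e he
  rw [bd_eq]
  rw [edges_new h, mem_union] at he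
  rcases he with he | he
  · have h2 := hX e (by rw [edges_old h]; exact mem_insert_of_mem he)
    rw [bd_eq, sm_old_R h _ he] at h2
    rw [sm_new_R h _ he, d1, d2, d3, d4, sm_congr e d5]
    have h3 : y' e = y e + ((if e = {u, w} then α else 0) + (if e = {u, z} then β else 0)) := by
      rw [hy']
      exact if_neg (RR_prop h he).2.2
    rw [h3] at h2
    exact alg _ _ _ _ _ _ _ _ _ _ h2
  · simp only [mem_insert, mem_singleton] at he
    rcases he with rfl | rfl | rfl | rfl
    · rw [sm_new_u h, d2, d4]
      revert hdm huv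
      generalize y {m, u} = p1
      generalize y {m, v} = p2
      generalize X {u, v, w} = p5
      generalize X {u, v, z} = p6
      generalize α = p3
      generalize β = p4
      revert p1 p2 p3 p4 p5 p6
      decide
    · rw [sm_new_v h, d1, d3]
      exact huv
    · rw [sm_new_w h, d1, d2, ← hα]
      generalize X {u, v, w} = p5
      generalize α = p3
      revert p3 p5
      decide
    · rw [sm_new_z h, d3, d4, ← hβ]
      generalize X {u, v, z} = p5
      generalize β = p3
      revert p3 p5
      decide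

/-- the sphere after the subdivision -/
lemma sph_new (h : Conf u v w z m T0) (hS : Sph (old u v w z T0)) :
    Sph (new u v w z m T0) where
  card3 := card3_new h hS
  two _ he := two_new h hS he
  conn := conn_new h hS
  star := star_new h hS
  h1 := h1_new h hS

end

lemma third {u v : V} {t : Finset V} (huv : u ≠ v) (ht : t.card = 3)
    (h : ({u, v} : Finset V) ⊆ t) : ∃ w, u ≠ w ∧ v ≠ w ∧ t = {u, v, w} := by
  have h1 : (t \ {u, v}).card = 1 := by
    rw [card_sdiff_of_subset h, ht, card_pair huv]
  obtain ⟨w, hw⟩ := card_eq_one.mp h1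
  have h2 : w ∈ t \ {u, v} := by rw [hw]; exact mem_singleton_self w
  rw [mem_sdiff, mem_insert, mem_singleton, not_or] at h2
  refine ⟨w, Ne.symm h2.2.1, Ne.symm h2.2.2, ?_⟩
  have h3 : t = {u, v} ∪ (t \ {u, v}) := (union_sdiff_of_subset h).symm
  rw [h3, hw]
  ext x
  simp only [mem_union, mem_insert, mem_singleton]
  tauto

lemma erase_u {u v w m : V} (huv : u ≠ v) (huw : u ≠ w) :
    insert m (({u, v, w} : Finset V).erase u) = {m, v, w} := by
  ext x
  simp only [mem_insert, mem_erase, mem_singleton]
  constructor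
  · rintro (h | ⟨h1, h2 | h2 | h2⟩)
    · exact Or.inl h
    · exact absurd h2 h1
    · exact Or.inr (Or.inl h2)
    · exact Or.inr (Or.inr h2)
  · rintro (h | h | h)
    · exact Or.inl h
    · exact Or.inr ⟨by rw [h]; exact huv.symm, Or.inr (Or.inl h)⟩
    · exact Or.inr ⟨by rw [h]; exact huw.symm, Or.inr (Or.inr h)⟩

lemma erase_v {u v w m : V} (huv : u ≠ v) (hvw : v ≠ w) :
    insert m (({u, v, w} : Finset V).erase v) = {m, u, w} := by
  ext x
  simp only [mem_insert, mem_erase, mem_singleton]
  constructor
  · rintro (h | ⟨h1, h2 | h2 | h2⟩)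
    · exact Or.inl h
    · exact Or.inr (Or.inl h2)
    · exact absurd h2 h1
    · exact Or.inr (Or.inr h2)
  · rintro (h | h | h)
    · exact Or.inl h
    · exact Or.inr ⟨by rw [h]; exact huv, Or.inl h⟩
    · exact Or.inr ⟨by rw [h]; exact hvw.symm, Or.inr (Or.inr h)⟩

/-- description of the subdivision -/
lemma exists_conf {T : Finset (Finset V)} {u v m : V} (hS : Sph T) (huv : u ≠ v)
    (he : ({u, v} : Finset V) ∈ edges T) (hm : ∀ t ∈ T, m ∉ t) :
    ∃ (w z : V) (T0 : Finset (Finset V)), Conf u v w z m T0 ∧ T = old u v w z T0 ∧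
      sub T u v m = new u v w z m T0 ∧ T0 = T.filter fun t => ¬ ({u, v} : Finset V) ⊆ t := by
  obtain ⟨t1, t2, h12, hf⟩ := card_eq_two.mp (hS.two _ he)
  have m1 : t1 ∈ T.filter (fun t => ({u, v} : Finset V) ⊆ t) := by rw [hf]; simp
  have m2 : t2 ∈ T.filter (fun t => ({u, v} : Finset V) ⊆ t) := by rw [hf]; simp
  rw [mem_filter] at m1 m2
  obtain ⟨w, huw, hvw, rfl⟩ := third huv (hS.card3 _ m1.1) m1.2
  obtain ⟨z, huz, hvz, rfl⟩ := third huv (hS.card3 _ m2.1) m2.2
  have hwz : w ≠ z := fun h => h12 (by rw [h])
  refine ⟨w, z, T.filter fun t => ¬ ({u, v} : Finset V) ⊆ t, ?_, ?_, ?_, rfl⟩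
  · exact {
      uv := huv
      uw := huw
      uz := huz
      vw := hvw
      vz := hvz
      wz := hwz
      mu := fun h => hm _ m1.1 (by rw [h]; simp)
      mv := fun h => hm _ m1.1 (by rw [h]; simp)
      mw := fun h => hm _ m1.1 (by rw [h]; simp)
      mz := fun h => hm _ m2.1 (by rw [h]; simp)
      hm := fun t ht => hm t (mem_filter.mp ht).1
      huv := fun t ht => (mem_filter.mp ht).2 }
  · have h1 : T = T.filter (fun t => ({u, v} : Finset V) ⊆ t) ∪
        T.filter (fun t => ¬ ({u, v} : Finset V) ⊆ t) := (filter_union_filter_not_eq _ _).symm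
    conv_lhs => rw [h1, hf]
    ext t
    simp only [old, mem_union, mem_insert, mem_singleton, or_assoc]
  · rw [sub, hf]
    simp only [image_insert, image_singleton, erase_u huv huw, erase_u huv huz,
      erase_v huv hvw, erase_v huv hvz]
    ext t
    simp only [new, mem_union, mem_insert, mem_singleton]
    tauto

end A1

/-- A1 -/
theorem stSub : StSub := by
  intro V _ T u v m hS huv he hm
  obtain ⟨w, z, T0, hc, hT, hsub, -⟩ := A1.exists_conf hS huv he hm
  rw [hsub]
  exact A1.sph_new hc (hT ▸ hS)

end Pool.Agent.Lib.MP_87489e_co.HT
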