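import Mathlib

set_option autoImplicit false

/-!
Definitions for the Holmes-Thompson case in dimension three.
-/

namespace Pool.Agent.Lib.MP_87489e_co.HT

open Finset

/-! ### Paths with length and support -/

/-- `Pth R w x y l s`: a path from `x` to `y` with steps in `R`, of total weight `l`; `s` is the
list of its vertices. -/
inductive Pth {V : Type} (R : V → V → Prop) (w : V → V → ℝ) : V → V → ℝ → List V → Prop
  | nil (x : V) : Pth R w x x 0 [x]
  | cons {x y z : V} {l : ℝ} {s : List V} (h : R x y) (p : Pth R w y z l s) :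
      Pth R w x z (w x y + l) (x :: s)

/-! ### Combinatorial spheres (mod 2) -/

section Comb

variable {V : Type} [DecidableEq V]

/-- the edges of a set of triangles -/
def edges (T : Finset (Finset V)) : Finset (Finset V) := T.biUnion fun t => t.powersetCard 2

/-- the boundary mod 2 of the chain `X` -/
def bd (T : Finset (Finset V)) (X : Finset V → ZMod 2) (e : Finset V) : ZMod 2 :=
  ∑ t ∈ T.filter (fun t => e ⊆ t), X t

/-- the degree mod 2 of the chain of edges `z` at `v` -/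
def deg (T : Finset (Finset V)) (z : Finset V → ZMod 2) (v : V) : ZMod 2 :=
  ∑ e ∈ (edges T).filter (fun e => v ∈ e), z e

/-- combinatorial sphere -/
structure Sph (T : Finset (Finset V)) : Prop where
  card3 : ∀ t ∈ T, t.card = 3
  two : ∀ e ∈ edges T, (T.filter (fun t => e ⊆ t)).card = 2
  conn : ∀ X : Finset V → ZMod 2, (∀ e ∈ edges T, bd T X e = 0) → ∀ t ∈ T, ∀ t' ∈ T, X t = X t'
  star : ∀ (v : V) (X : Finset V → ZMod 2), (∀ e ∈ edges T, v ∈ e → bd T X e = 0) →
    ∀ t ∈ T, ∀ t' ∈ T, v ∈ t → v ∈ t' → X t = X t'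
  h1 : ∀ z : Finset V → ZMod 2, (∀ v, deg T z v = 0) →
    ∃ X : Finset V → ZMod 2, ∀ e ∈ edges T, bd T X e = z e

/-- the subdivision at the new vertex `m` of the edge `{u, v}` -/
def sub (T : Finset (Finset V)) (u v m : V) : Finset (Finset V) :=
  (T.filter fun t => ¬ ({u, v} : Finset V) ⊆ t) ∪
    ((T.filter fun t => ({u, v} : Finset V) ⊆ t).image (fun t => insert m (t.erase u)) ∪
     (T.filter fun t => ({u, v} : Finset V) ⊆ t).image (fun t => insert m (t.erase v)))

/-- the octahedron on the vertices `a i b` -/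
def oct (a : Fin 3 → Bool → V) : Finset (Finset V) :=
  univ.image fun s : Fin 3 → Bool => univ.image fun i => a i (s i)

/-- indicator chain -/
def ind (D : Finset (Finset V)) (t : Finset V) : ZMod 2 := if t ∈ D then 1 else 0

/-- `D` is bounded in the combinatorial sphere `T` by the simple closed cycle `G` of period `n` -/
structure Cut (T D : Finset (Finset V)) (n : ℕ) (G : ℤ → V) : Prop where
  sph : Sph T
  sub : D ⊆ T
  pos : 0 < n
  per : ∀ i, G (i + n) = G i
  inj : ∀ i j, G i = G j → (n : ℤ) ∣ i - j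
  edge : ∀ i, ({G i, G (i + 1)} : Finset V) ∈ edges T
  bdry : ∀ e ∈ edges T, bd T (ind D) e = 1 ↔ ∃ i, e = {G i, G (i + 1)}

/-- adjacency through a triangle of `D` -/
def Adj (D : Finset (Finset V)) (u v : V) : Prop := u ≠ v ∧ ∃ t ∈ D, u ∈ t ∧ v ∈ t

end Comb

/-! ### Euclidean part -/

/-- three-space -/
abbrev E := Fin 3 → ℝ

/-- `g` is the maximum of the finitely many linear forms in `P` and a norm -/
structure PN (P : Finset E) (g : E → ℝ) : Prop where
  le : ∀ p ∈ P, ∀ y, p ⬝ᵥ y ≤ g y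
  ex : ∀ y, ∃ p ∈ P, p ⬝ᵥ y = g y
  neg : ∀ p ∈ P, -p ∈ P
  pos : ∀ y, y ≠ 0 → 0 < g y

/-- the weight of a step -/
def wt (g : E → ℝ) (x y : E) : ℝ := g (y - x)

/-- two points of the unit sphere in a common facet -/
def Fac (P : Finset E) (g : E → ℝ) (x y : E) : Prop :=
  g x = 1 ∧ g y = 1 ∧ ∃ p ∈ P, p ⬝ᵥ x = 1 ∧ p ⬝ᵥ y = 1

/-- `a` is a nonnegative representation of `y` by the vertices of a triangle of `T` -/
def IsRep (T : Finset (Finset E)) (y : E) (a : E → ℝ) : Prop :=
  (∀ v, 0 ≤ a v) ∧ ∃ t ∈ T, (∀ v, v ∉ t → a v = 0) ∧ ∑ v ∈ t, a v • v = y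

/-- complete simplicial fan -/
def Fan (T : Finset (Finset E)) : Prop := ∀ y, ∃! a, IsRep T y a

/-- the cone over a finite set of points -/
def cone (t : Finset E) : Set E := {y | ∃ a : E → ℝ, (∀ v, 0 ≤ a v) ∧ ∑ v ∈ t, a v • v = y}

/-- no edge of `T` crosses the plane `h = 0` -/
def NoCross (T : Finset (Finset E)) (h : E) : Prop :=
  ∀ t ∈ T, (∀ v ∈ t, 0 ≤ h ⬝ᵥ v) ∨ (∀ v ∈ t, h ⬝ᵥ v ≤ 0)

/-- symmetric complex on the unit sphere of `g` -/
structure Cx (g : E → ℝ) (T : Finset (Finset E)) : Prop where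
  sph : Sph T
  fan : Fan T
  unit : ∀ t ∈ T, ∀ v ∈ t, g v = 1
  symm : ∀ t ∈ T, t.image (fun v => -v) ∈ T

/-- every triangle lies in a facet -/
def Flat (P : Finset E) (T : Finset (Finset E)) : Prop := ∀ t ∈ T, ∃ p ∈ P, ∀ v ∈ t, p ⬝ᵥ v = 1

/-- `(T', D')` arises from `(T, D)` by subdivisions -/
inductive Ref (g : E → ℝ) (T D : Finset (Finset E)) :
    Finset (Finset E) → Finset (Finset E) → Prop
  | refl : Ref g T D T D
  | step {T' D' : Finset (Finset E)} {u v m : E} {a b : ℝ} (h : Ref g T D T' D') (huv : u ≠ v)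
      (he : ({u, v} : Finset E) ∈ edges T') (ha : 0 < a) (hb : 0 < b) (hm : m = a • u + b • v)
      (hg : g m = 1) : Ref g T D (sub T' u v m) (sub D' u v m)

/-- the symmetric closed curve: `G (i + k) = - G i`, simple, edges of `T`, of length `2 s` -/
structure Gam (g : E → ℝ) (T : Finset (Finset E)) (k : ℕ) (G : ℤ → E) (s : ℝ) : Prop where
  pos : 0 < k
  anti : ∀ i, G (i + k) = - G i
  inj : ∀ i j, G i = G j → ((2 * k : ℕ) : ℤ) ∣ i - j
  edge : ∀ i, ({G i, G (i + 1)} : Finset E) ∈ edges T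
  ne : ∀ i, G i ≠ G (i + 1)
  len : ∑ i ∈ range k, wt g (G i) (G (i + 1)) = s

/-- `s` is a lower bound for the lengths of the paths from a point of the sphere to its
antipode -/
def Sys (P : Finset E) (g : E → ℝ) (s : ℝ) : Prop :=
  ∀ (y : E) (l : ℝ) (L : List E), g y = 1 → Pth (Fac P g) (wt g) y (-y) l L → s ≤ l

/-- length of the curve between `G i` and `G j`, `i ≤ j` -/
noncomputable def arc (g : E → ℝ) (G : ℤ → E) (i j : ℤ) : ℝ :=
  ∑ l ∈ Finset.Ico i j, wt g (G l) (G (l + 1))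

/-- the solid triangle -/
def hull (t : Finset E) : Set E := convexHull ℝ (t : Set E)

/-- two points in a common solid triangle of `D` -/
def InD (D : Finset (Finset E)) (x y : E) : Prop := ∃ t ∈ D, x ∈ hull t ∧ y ∈ hull t

/-- the distance in `D` -/
noncomputable def dst (g : E → ℝ) (D : Finset (Finset E)) (x y : E) : ℝ :=
  sInf {l | ∃ L, Pth (InD D) (wt g) x y l L}

/-- triple product -/
def det3 (u v w : E) : ℝ := u ⬝ᵥ (crossProduct v w)

/-- the planar projection attached to a triangle -/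
def Mt (u v w : E) (x : E) : ℝ × ℝ := (x ⬝ᵥ (v - u), x ⬝ᵥ (w - u))

/-- determinant in the plane -/
def cr (x y : ℝ × ℝ) : ℝ := x.1 * y.2 - x.2 * y.1

/-- gradient of a function of two variables -/
noncomputable def gr (A : ℝ × ℝ → ℝ) (p : ℝ × ℝ) : ℝ × ℝ :=
  (fderiv ℝ A p (1, 0), fderiv ℝ A p (0, 1))

/-- the polar set -/
def pol (N : Set E) : Set E := {y | ∀ x ∈ N, x ⬝ᵥ y ≤ 1}

/-- discrete circulation form along the segment from `x` to `y` with `n` steps -/
noncomputable def Rn {W : Type} [AddCommGroup W] [Module ℝ W] (n : ℕ) (A B : W → ℝ) (x y : W) : ℝ :=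
  (1 / 2) * ∑ k ∈ range n,
    (A (x + ((k : ℝ) / n) • (y - x)) * B (x + (((k : ℝ) + 1) / n) • (y - x)) -
     A (x + (((k : ℝ) + 1) / n) • (y - x)) * B (x + ((k : ℝ) / n) • (y - x)))

/-- cyclic sum of a function of two consecutive indices in `0, ..., m` -/
def cyc (m : ℕ) (F : ℕ → ℕ → ℝ) : ℝ := ∑ i ∈ range m, F i (i + 1) + F m 0

/-- non-interleaving of the numbers `q 0, ..., q m` -/
def NI (m : ℕ) (q : ℕ → ℝ) : Prop :=
  ∀ a b c e : ℕ, a < b → b < c → c < e → e ≤ m → min (q a) (q c) ≤ max (q b) (q e)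

end Pool.Agent.Lib.MP_87489e_co.HT
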