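import Mathlib
import Pool.Agent.Lib.MP_87489e_co.HT.Defs

set_option autoImplicit false

/-!
Basic lemmas: paths, combinatorial spheres, polyhedral norms.
-/

namespace Pool.Agent.Lib.MP_87489e_co.HT

open Finset

/-! ### Paths -/

section Path

variable {V : Type} {R R' : V → V → Prop} {w : V → V → ℝ} {x y z : V} {l l' : ℝ} {s s' : List V}

theorem Pth.mono (hR : ∀ a b, R a b → R' a b) (p : Pth R w x y l s) : Pth R' w x y l s := by
  induction p with
  | nil x => exact Pth.nil x
  | cons h _ ih => exact Pth.cons (hR _ _ h) ih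

theorem Pth.left_mem (p : Pth R w x y l s) : x ∈ s := by
  cases p <;> simp

theorem Pth.right_mem (p : Pth R w x y l s) : y ∈ s := by
  induction p with
  | nil x => simp
  | cons h _ ih => exact List.mem_cons_of_mem _ ih

theorem Pth.single (h : R x y) : Pth R w x y (w x y) [x, y] := by
  have := Pth.cons (w := w) h (Pth.nil (R := R) y)
  simpa using this

theorem Pth.append (p : Pth R w x y l s) (q : Pth R w y z l' s') :
    ∃ s'' : List V, Pth R w x z (l + l') s'' ∧ ∀ v, v ∈ s'' ↔ v ∈ s ∨ v ∈ s' := by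
  induction p with
  | nil x =>
    refine ⟨s', by simpa using q, fun v => ?_⟩
    constructor
    · exact fun h => Or.inr h
    · rintro (h | h)
      · rw [List.mem_singleton] at h
        rw [h]; exact q.left_mem
      · exact h
  | @cons x' y' z' l₀ s₀ h _ ih =>
    obtain ⟨s'', h1, h2⟩ := ih q
    refine ⟨x' :: s'', ?_, fun v => ?_⟩
    · rw [add_assoc]
      exact Pth.cons h h1
    · simp only [List.mem_cons, h2, or_assoc]

theorem Pth.split (p : Pth R w x y l s) {z : V} (hz : z ∈ s) :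
    ∃ (l₁ l₂ : ℝ) (s₁ s₂ : List V), Pth R w x z l₁ s₁ ∧ Pth R w z y l₂ s₂ ∧ l₁ + l₂ = l ∧
      (∀ v ∈ s₁, v ∈ s) ∧ ∀ v ∈ s₂, v ∈ s := by
  induction p with
  | nil x =>
    rw [List.mem_singleton] at hz
    subst hz
    exact ⟨0, 0, [z], [z], Pth.nil z, Pth.nil z, by simp, fun v h => h, fun v h => h⟩
  | @cons x' y' z' l₀ s₀ h q ih =>
    rw [List.mem_cons] at hz
    rcases hz with hz | hz
    · subst hz
      exact ⟨0, w z y' + l₀, [z], z :: s₀, Pth.nil z, Pth.cons h q, by simp,
        fun v hv => by rw [List.mem_singleton] at hv; simp [hv], fun v hv => hv⟩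
    · obtain ⟨l₁, l₂, s₁, s₂, h1, h2, h3, h4, h5⟩ := ih hz
      refine ⟨w x' y' + l₁, l₂, x' :: s₁, s₂, Pth.cons h h1, h2, by rw [add_assoc, h3], ?_, ?_⟩
      · intro v hv
        rw [List.mem_cons] at hv ⊢
        exact hv.imp_right (h4 v)
      · intro v hv
        exact List.mem_cons_of_mem _ (h5 v hv)

theorem Pth.reverse (hR : ∀ a b, R a b → R b a) (hw : ∀ a b, w a b = w b a)
    (p : Pth R w x y l s) : ∃ s' : List V, Pth R w y x l s' ∧ ∀ v, v ∈ s' ↔ v ∈ s := by
  induction p with
  | nil x => exact ⟨[x], Pth.nil x, fun v => Iff.rfl⟩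
  | @cons x' y' z' l₀ s₀ h q ih =>
    obtain ⟨s', h1, h2⟩ := ih
    obtain ⟨s'', h3, h4⟩ := h1.append (Pth.single (w := w) (hR _ _ h))
    refine ⟨s'', ?_, fun v => ?_⟩
    · rw [hw x' y', add_comm]; exact h3
    · rw [h4, h2]
      simp only [List.mem_cons, List.not_mem_nil, or_false]
      constructor
      · rintro (h | h | h)
        · exact Or.inr h
        · rw [h]; exact Or.inr q.left_mem
        · exact Or.inl h
      · rintro (h | h)
        · exact Or.inr (Or.inr h)
        · exact Or.inl h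

theorem Pth.nonneg (hw : ∀ a b, 0 ≤ w a b) (p : Pth R w x y l s) : 0 ≤ l := by
  induction p with
  | nil x => exact le_rfl
  | cons h _ ih => exact add_nonneg (hw _ _) ih

theorem Pth.length_pos (p : Pth R w x y l s) : 0 < s.length := by
  cases p <;> simp

/-- a path as a function on `0, ..., m` -/
theorem Pth.toFun (p : Pth R w x y l s) : ∃ (m : ℕ) (f : ℕ → V), f 0 = x ∧ f m = y ∧
    (∀ i < m, R (f i) (f (i + 1))) ∧ l = ∑ i ∈ range m, w (f i) (f (i + 1)) ∧
    s = (List.range (m + 1)).map f := by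
  induction p with
  | nil x => exact ⟨0, fun _ => x, rfl, rfl, by simp, by simp, by simp⟩
  | @cons x' y' z' l₀ s₀ h q ih =>
    obtain ⟨m, f, h0, h1, h2, h3, h4⟩ := ih
    refine ⟨m + 1, fun i => if i = 0 then x' else f (i - 1), by simp, by simp [h1], ?_, ?_, ?_⟩
    · intro i hi
      rcases Nat.eq_zero_or_pos i with rfl | hi0
      · simpa [h0] using h
      · have : i ≠ 0 := by omega
        have h5 := h2 (i - 1) (by omega)
        have h6 : i - 1 + 1 = i := by omega
        rw [h6] at h5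
        simpa [this] using h5
    · rw [sum_range_succ', h3, add_comm]
      simp [h0]
    · have h5 : (List.range (m + 1 + 1)).map (fun i => if i = 0 then x' else f (i - 1)) =
          x' :: (List.range (m + 1)).map f := by
        rw [List.range_succ_eq_map (n := m + 1), List.map_cons, List.map_map]
        refine congrArg (List.cons x') ?_
        apply List.map_congr_left
        intro i _
        simp
      rw [h5, h4]

/-- a function on `0, ..., m` as a path -/
theorem Pth.ofFun (m : ℕ) (f : ℕ → V) (h : ∀ i < m, R (f i) (f (i + 1))) :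
    Pth R w (f 0) (f m) (∑ i ∈ range m, w (f i) (f (i + 1))) ((List.range (m + 1)).map f) := by
  induction m generalizing f with
  | zero => simpa using Pth.nil (R := R) (w := w) (f 0)
  | succ m ih =>
    have h1 := ih (fun i => f (i + 1)) (fun i hi => h (i + 1) (by omega))
    have h2 := Pth.cons (w := w) (h 0 (by omega)) h1
    have h3 : (List.range (m + 1 + 1)).map f = f 0 :: (List.range (m + 1)).map (fun i => f (i + 1)) := by
      rw [List.range_succ_eq_map, List.map_cons, List.map_map]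
      rfl
    rw [h3, sum_range_succ', add_comm (∑ k ∈ range m, w (f (k + 1)) (f (k + 1 + 1)))]
    exact h2

theorem Pth.map {W : Type} {Q : W → W → Prop} {w' : W → W → ℝ} (φ : V → W)
    (hR : ∀ a b, R a b → Q (φ a) (φ b)) (hw : ∀ a b, R a b → w' (φ a) (φ b) = w a b)
    (p : Pth R w x y l s) : Pth Q w' (φ x) (φ y) l (s.map φ) := by
  induction p with
  | nil x => exact Pth.nil (φ x)
  | @cons x' y' z' l₀ s₀ h q ih =>
    rw [← hw _ _ h]
    exact Pth.cons (hR _ _ h) ih

end Path

/-! ### Combinatorial spheres -/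

section Comb

variable {V : Type} [DecidableEq V] {T D : Finset (Finset V)}

theorem mem_edges {e : Finset V} : e ∈ edges T ↔ ∃ t ∈ T, e ⊆ t ∧ e.card = 2 := by
  simp [edges, mem_powersetCard]

theorem Sph.bd_eq (hT : Sph T) {e : Finset V} (he : e ∈ edges T) :
    ∃ t₁ ∈ T, ∃ t₂ ∈ T, t₁ ≠ t₂ ∧ e ⊆ t₁ ∧ e ⊆ t₂ ∧ (∀ t ∈ T, e ⊆ t → t = t₁ ∨ t = t₂) ∧
      ∀ X : Finset V → ZMod 2, bd T X e = X t₁ + X t₂ := by
  obtain ⟨t₁, t₂, hne, h⟩ := card_eq_two.mp (hT.two e he)
  have h1 : t₁ ∈ T.filter (fun t => e ⊆ t) := by rw [h]; simp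
  have h2 : t₂ ∈ T.filter (fun t => e ⊆ t) := by rw [h]; simp
  rw [mem_filter] at h1 h2
  refine ⟨t₁, h1.1, t₂, h2.1, hne, h1.2, h2.2, fun t ht het => ?_, fun X => ?_⟩
  · have : t ∈ T.filter (fun t => e ⊆ t) := mem_filter.mpr ⟨ht, het⟩
    rw [h] at this
    simpa using this
  · rw [bd, h, sum_pair hne]

theorem zmod2_add_eq_zero {a b : ZMod 2} : a + b = 0 ↔ a = b := by
  revert a b; decide

theorem zmod2_cases (a : ZMod 2) : a = 0 ∨ a = 1 := by
  revert a; decide

theorem ind_mem {t : Finset V} (h : t ∈ D) : ind D t = 1 := if_pos h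

theorem ind_notMem {t : Finset V} (h : t ∉ D) : ind D t = 0 := if_neg h

theorem bd_add (X Y : Finset V → ZMod 2) (e : Finset V) :
    bd T (fun t => X t + Y t) e = bd T X e + bd T Y e := by
  simp [bd, sum_add_distrib]

theorem deg_add (z z' : Finset V → ZMod 2) (v : V) :
    deg T (fun e => z e + z' e) v = deg T z v + deg T z' v := by
  simp [deg, sum_add_distrib]

omit [DecidableEq V] in
theorem Adj.symm {u v : V} (h : Adj D u v) : Adj D v u :=
  ⟨h.1.symm, h.2.imp fun _ ht => ⟨ht.1, ht.2.2, ht.2.1⟩⟩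

/-- the boundary of a chain has even degree at every vertex -/
theorem deg_bd (hT : Sph T) (X : Finset V → ZMod 2) (v : V) : deg T (bd T X) v = 0 := by
  unfold deg bd
  rw [sum_comm' (t' := T) (s' := fun t => (edges T).filter (fun e => v ∈ e ∧ e ⊆ t))]
  · apply sum_eq_zero
    intro t ht
    rw [sum_const]
    by_cases hv : v ∈ t
    · have hc : ((edges T).filter (fun e => v ∈ e ∧ e ⊆ t)).card = 2 := by
        have : (edges T).filter (fun e => v ∈ e ∧ e ⊆ t) = (t.erase v).image (fun u => {v, u}) := by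
          ext e
          simp only [mem_filter, mem_edges, mem_image, mem_erase]
          constructor
          · rintro ⟨⟨t', ht', h1, h2⟩, h3, h4⟩
            obtain ⟨a, b, hab, rfl⟩ := card_eq_two.mp h2
            simp only [mem_insert, mem_singleton] at h3
            rcases h3 with rfl | rfl
            · exact ⟨b, ⟨hab.symm, h4 (by simp)⟩, rfl⟩
            · exact ⟨a, ⟨hab, h4 (by simp)⟩, pair_comm _ _⟩
          · rintro ⟨u, ⟨hu, hut⟩, rfl⟩
            have hs : ({v, u} : Finset V) ⊆ t := by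
              intro x hx
              simp only [mem_insert, mem_singleton] at hx
              rcases hx with rfl | rfl
              · exact hv
              · exact hut
            exact ⟨⟨t, ht, hs, card_pair hu.symm⟩, by simp, hs⟩
        rw [this, card_image_of_injOn, card_erase_of_mem hv, hT.card3 t ht]
        intro a ha b hb hab
        simp only [coe_erase, Set.mem_sdiff, mem_coe, Set.mem_singleton_iff] at ha hb
        have hab' : ({v, a} : Finset V) = {v, b} := hab
        have : a ∈ ({v, b} : Finset V) := by rw [← hab']; simp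
        simp only [mem_insert, mem_singleton] at this
        exact this.resolve_left ha.2
      rw [hc]
      rw [nsmul_eq_mul]
      have : ((2 : ℕ) : ZMod 2) = 0 := rfl
      rw [this, zero_mul]
    · have hc : (edges T).filter (fun e => v ∈ e ∧ e ⊆ t) = ∅ := by
        rw [filter_eq_empty_iff]
        rintro e - ⟨h1, h2⟩
        exact hv (h2 h1)
      rw [hc, card_empty, zero_smul]
  · intro e t
    simp only [mem_filter]
    tauto

end Comb

/-! ### Polyhedral norms -/

section Norm

variable {P : Finset E} {g : E → ℝ}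

theorem PN.add_le (h : PN P g) (x y : E) : g (x + y) ≤ g x + g y := by
  obtain ⟨p, hp, he⟩ := h.ex (x + y)
  rw [← he, dotProduct_add]
  exact add_le_add (h.le p hp x) (h.le p hp y)

theorem PN.zero (h : PN P g) : g 0 = 0 := by
  obtain ⟨p, hp, he⟩ := h.ex 0
  rw [← he, dotProduct_zero]

theorem PN.smul (h : PN P g) {c : ℝ} (hc : 0 ≤ c) (y : E) : g (c • y) = c * g y := by
  apply le_antisymm
  · obtain ⟨p, hp, he⟩ := h.ex (c • y)
    rw [← he, dotProduct_smul, smul_eq_mul]
    exact mul_le_mul_of_nonneg_left (h.le p hp y) hc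
  · obtain ⟨p, hp, he⟩ := h.ex y
    rw [← he]
    have := h.le p hp (c • y)
    rwa [dotProduct_smul, smul_eq_mul] at this

theorem PN.neg' (h : PN P g) (y : E) : g (-y) = g y := by
  have key : ∀ z, g (-z) ≤ g z := by
    intro z
    obtain ⟨p, hp, he⟩ := h.ex (-z)
    rw [← he, dotProduct_neg, ← neg_dotProduct]
    exact h.le _ (h.neg p hp) z
  apply le_antisymm (key y)
  have := key (-y)
  rwa [neg_neg] at this

theorem PN.nonneg (h : PN P g) (y : E) : 0 ≤ g y := by
  by_cases hy : y = 0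
  · rw [hy, h.zero]
  · exact (h.pos y hy).le

theorem PN.abs_smul (h : PN P g) (c : ℝ) (y : E) : g (c • y) = |c| * g y := by
  rcases le_total 0 c with hc | hc
  · rw [abs_of_nonneg hc, h.smul hc]
  · rw [abs_of_nonpos hc, ← h.neg' (c • y), ← neg_smul, h.smul (by linarith)]

theorem PN.eq_zero (h : PN P g) {y : E} : g y = 0 ↔ y = 0 := by
  constructor
  · intro h0
    by_contra hne
    exact (h.pos y hne).ne' h0
  · rintro rfl; exact h.zero

theorem PN.sub_comm' (h : PN P g) (x y : E) : g (x - y) = g (y - x) := by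
  rw [← h.neg' (x - y), neg_sub]

theorem PN.sub_le (h : PN P g) (x y : E) : g x - g y ≤ g (x - y) := by
  have := h.add_le (x - y) y
  rw [sub_add_cancel] at this
  linarith

theorem PN.abs_sub_le (h : PN P g) (x y : E) : |g x - g y| ≤ g (x - y) := by
  rw [abs_le]
  constructor
  · have := h.sub_le y x
    rw [h.sub_comm' y x] at this
    linarith
  · exact h.sub_le x y

theorem PN.sum_le (h : PN P g) {ι : Type} (s : Finset ι) (f : ι → E) :
    g (∑ i ∈ s, f i) ≤ ∑ i ∈ s, g (f i) := by
  classical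
  induction s using Finset.induction_on with
  | empty => simp [h.zero]
  | insert a s ha ih =>
    rw [sum_insert ha, sum_insert ha]
    exact (h.add_le _ _).trans (by linarith)

theorem PN.nonempty (h : PN P g) : P.Nonempty := by
  obtain ⟨p, hp, -⟩ := h.ex 0
  exact ⟨p, hp⟩

theorem abs_dot_le (p y : E) : |p ⬝ᵥ y| ≤ (∑ i, |p i|) * ‖y‖ := by
  rw [dotProduct, sum_mul]
  refine (abs_sum_le_sum_abs _ _).trans (sum_le_sum fun i _ => ?_)
  rw [abs_mul]
  exact mul_le_mul_of_nonneg_left (norm_le_pi_norm y i) (abs_nonneg _)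

theorem PN.upper (h : PN P g) : ∃ C : ℝ, 0 < C ∧ ∀ y, g y ≤ C * ‖y‖ := by
  refine ⟨∑ p ∈ P, ∑ i, |p i| + 1, ?_, fun y => ?_⟩
  · have : 0 ≤ ∑ p ∈ P, ∑ i, |p i| := sum_nonneg fun _ _ => sum_nonneg fun _ _ => abs_nonneg _
    linarith
  · obtain ⟨p, hp, he⟩ := h.ex y
    rw [← he]
    refine (le_abs_self _).trans ((abs_dot_le p y).trans ?_)
    apply mul_le_mul_of_nonneg_right _ (norm_nonneg y)
    have : (fun p : E => ∑ i, |p i|) p ≤ ∑ p ∈ P, ∑ i, |p i| :=
      single_le_sum (f := fun p : E => ∑ i, |p i|)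
        (fun q _ => sum_nonneg fun _ _ => abs_nonneg _) hp
    have h2 : (fun p : E => ∑ i, |p i|) p = ∑ i, |p i| := rfl
    rw [h2] at this
    linarith

theorem PN.continuous (h : PN P g) : Continuous g := by
  obtain ⟨C, hC, hg⟩ := h.upper
  rw [Metric.continuous_iff]
  intro y ε hε
  refine ⟨ε / C, by positivity, fun x hx => ?_⟩
  rw [Real.dist_eq]
  rw [dist_eq_norm] at hx
  calc |g x - g y| ≤ g (x - y) := h.abs_sub_le x y
    _ ≤ C * ‖x - y‖ := hg _
    _ < C * (ε / C) := by gcongr
    _ = ε := by field_simp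

theorem PN.lower (h : PN P g) : ∃ c : ℝ, 0 < c ∧ ∀ y, c * ‖y‖ ≤ g y := by
  have hK : IsCompact (Metric.sphere (0 : E) 1) := isCompact_sphere 0 1
  obtain ⟨x, hx⟩ := (NormedSpace.sphere_nonempty (x := (0 : E)) (r := 1)).mpr zero_le_one
  obtain ⟨y, hy, hmin⟩ := hK.exists_isMinOn ⟨x, hx⟩ h.continuous.continuousOn
  have hy0 : y ≠ 0 := by
    rintro rfl
    simp at hy
  refine ⟨g y, h.pos y hy0, fun z => ?_⟩
  by_cases hz : z = 0
  · simp [hz, h.zero]
  · have hn : 0 < ‖z‖ := norm_pos_iff.mpr hz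
    have h1 : (‖z‖⁻¹ • z) ∈ Metric.sphere (0 : E) 1 := by
      rw [mem_sphere_zero_iff_norm, norm_smul, norm_inv, norm_norm, inv_mul_cancel₀ hn.ne']
    have h2 := hmin h1
    simp only [Set.mem_ofPred_eq] at h2
    rw [h.smul (inv_nonneg.mpr hn.le)] at h2
    calc g y * ‖z‖ ≤ (‖z‖⁻¹ * g z) * ‖z‖ := by gcongr
      _ = g z := by field_simp

theorem PN.compact_ball (h : PN P g) : IsCompact {y : E | g y ≤ 1} := by
  obtain ⟨c, hc, hl⟩ := h.lower
  apply Metric.isCompact_of_isClosed_isBounded (isClosed_le h.continuous continuous_const)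
  rw [isBounded_iff_forall_norm_le]
  refine ⟨1 / c, fun y hy => ?_⟩
  rw [le_div_iff₀ hc]
  have h1 : g y ≤ 1 := hy
  linarith [hl y, mul_comm c ‖y‖]

theorem PN.compact_sphere (h : PN P g) : IsCompact {y : E | g y = 1} := by
  apply h.compact_ball.of_isClosed_subset (isClosed_eq h.continuous continuous_const)
  intro y hy
  exact le_of_eq hy

theorem PN.convex_ball (h : PN P g) (r : ℝ) : Convex ℝ {y : E | g y ≤ r} := by
  intro x hx y hy a b ha hb hab
  have hx' : g x ≤ r := hx
  have hy' : g y ≤ r := hy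
  show g (a • x + b • y) ≤ r
  calc g (a • x + b • y) ≤ g (a • x) + g (b • y) := h.add_le _ _
    _ = a * g x + b * g y := by rw [h.smul ha, h.smul hb]
    _ ≤ a * r + b * r := by gcongr
    _ = r := by rw [← add_mul, hab, one_mul]

theorem PN.wt_nonneg (h : PN P g) (x y : E) : 0 ≤ wt g x y := h.nonneg _

theorem PN.wt_symm (h : PN P g) (x y : E) : wt g x y = wt g y x := by
  rw [wt, wt, h.sub_comm']

theorem PN.wt_neg (h : PN P g) (x y : E) : wt g (-x) (-y) = wt g x y := by
  rw [wt, wt, ← h.neg' (y - x)]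
  congr 1
  abel

theorem PN.wt_self (h : PN P g) (x : E) : wt g x x = 0 := by
  rw [wt, sub_self, h.zero]

theorem PN.wt_triangle (h : PN P g) (x y z : E) : wt g x z ≤ wt g x y + wt g y z := by
  rw [wt, wt, wt, add_comm]
  have := h.add_le (z - y) (y - x)
  rwa [sub_add_sub_cancel] at this

theorem PN.wt_le_pth (h : PN P g) {R : E → E → Prop} {x y : E} {l : ℝ} {s : List E}
    (p : Pth R (wt g) x y l s) : wt g x y ≤ l := by
  induction p with
  | nil x => rw [h.wt_self]
  | @cons x' y' z' l₀ s₀ hR q ih => exact (h.wt_triangle x' y' z').trans (by linarith)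

theorem Fac.symm {x y : E} (h : Fac P g x y) : Fac P g y x :=
  ⟨h.2.1, h.1, h.2.2.imp fun _ hp => ⟨hp.1, hp.2.2, hp.2.1⟩⟩

theorem PN.fac_refl (h : PN P g) {x : E} (hx : g x = 1) : Fac P g x x := by
  obtain ⟨p, hp, he⟩ := h.ex x
  exact ⟨hx, hx, p, hp, by rw [he, hx], by rw [he, hx]⟩

theorem PN.fac_neg (h : PN P g) {x y : E} (hf : Fac P g x y) : Fac P g (-x) (-y) := by
  obtain ⟨hx, hy, p, hp, h1, h2⟩ := hf
  refine ⟨by rw [h.neg', hx], by rw [h.neg', hy], -p, h.neg p hp, ?_, ?_⟩
  · rw [neg_dotProduct_neg, h1]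
  · rw [neg_dotProduct_neg, h2]

/-- on a facet the norm of a convex combination is one -/
theorem PN.flat_hull (h : PN P g) {t : Finset E} {p : E} (hp : p ∈ P)
    (ht : ∀ v ∈ t, p ⬝ᵥ v = 1) (hu : ∀ v ∈ t, g v = 1) {y : E} (hy : y ∈ hull t) :
    p ⬝ᵥ y = 1 ∧ g y = 1 := by
  have h1 : y ∈ {y : E | g y ≤ 1} := by
    apply convexHull_min _ (h.convex_ball 1) hy
    intro v hv
    exact (hu v (mem_coe.mp hv)).le
  have h2 : y ∈ {y : E | p ⬝ᵥ y = 1} := by
    apply convexHull_min _ _ hy
    · intro v hv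
      exact ht v (mem_coe.mp hv)
    · intro a ha b hb α β _ _ hab
      have ha' : p ⬝ᵥ a = 1 := ha
      have hb' : p ⬝ᵥ b = 1 := hb
      show p ⬝ᵥ (α • a + β • b) = 1
      rw [dotProduct_add, dotProduct_smul, dotProduct_smul, ha', hb']
      simpa using hab
  have h3 : p ⬝ᵥ y = 1 := h2
  refine ⟨h3, le_antisymm h1 ?_⟩
  have := h.le p hp y
  linarith

end Norm

end Pool.Agent.Lib.MP_87489e_co.HT
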