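import Mathlib
import Pool.Agent.Lib.MP_87489e_co.HT.Defs
import Pool.Agent.Lib.MP_87489e_co.BusMain
import Pool.Agent.Lib.MP_87489e_co.Simplex

set_option autoImplicit false

/-!
Statements of the modules of the Holmes-Thompson theorem in dimension three.
-/

namespace Pool.Agent.Lib.MP_87489e_co.HT

open Finset MeasureTheory
open scoped Topology Pointwise

/-! ### A. Combinatorics -/

/-- A1 -/
def StSub : Prop := ∀ (V : Type) [DecidableEq V] (T : Finset (Finset V)) (u v m : V),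
  Sph T → u ≠ v → ({u, v} : Finset V) ∈ edges T → (∀ t ∈ T, m ∉ t) → Sph (sub T u v m)

/-- A2 -/
def StOct : Prop := ∀ (V : Type) [DecidableEq V] (a : Fin 3 → Bool → V),
  (∀ i j b c, a i b = a j c → i = j ∧ b = c) → Sph (oct a)

/-- A3 -/
def StDual : Prop := ∀ (V : Type) [DecidableEq V] (T D : Finset (Finset V)) (n : ℕ) (G : ℤ → V),
  Cut T D n G → Cut T (T \ D) n G ∧
  ∀ X : Finset V → ZMod 2, (∀ e ∈ edges T, (∀ i, e ≠ {G i, G (i + 1)}) → (∃ t ∈ D, e ⊆ t) →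
    bd T X e = 0) → ∀ t ∈ D, ∀ t' ∈ D, X t = X t'

/-- A4 -/
def StCross : Prop := ∀ (V : Type) [DecidableEq V] (T D : Finset (Finset V)) (n : ℕ) (G : ℤ → V),
  Cut T D n G → ∀ a b c e : ℤ, a < b → b < c → c < e → e < a + n →
  ∀ (w : V → V → ℝ) (l l' : ℝ) (L L' : List V), Pth (Adj D) w (G a) (G c) l L →
    Pth (Adj D) w (G b) (G e) l' L' → ∃ z, z ∈ L ∧ z ∈ L'

/-- A5 -/
def StCutStep : Prop := ∀ (V : Type) [DecidableEq V] (T D : Finset (Finset V)) (n : ℕ) (G : ℤ → V)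
  (u v m : V), Cut T D n G → u ≠ v → ({u, v} : Finset V) ∈ edges T → (∀ t ∈ T, m ∉ t) →
  ∃ (n' : ℕ) (G' : ℤ → V) (ι : ℤ → ℤ), Cut (sub T u v m) (sub D u v m) n' G' ∧ StrictMono ι ∧
    (∀ i, ι (i + n) = ι i + n') ∧ ∀ i, G' (ι i) = G i

/-- A6 -/
def StReach : Prop := (∀ (V : Type) [DecidableEq V] (T : Finset (Finset V)) (w : V → V → ℝ),
    Sph T → ∀ t ∈ T, ∀ u ∈ t, ∀ t' ∈ T, ∀ v ∈ t', ∃ (l : ℝ) (L : List V), Pth (Adj T) w u v l L) ∧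
  (∀ (V : Type) [DecidableEq V] (T D : Finset (Finset V)) (n : ℕ) (G : ℤ → V) (w : V → V → ℝ),
    Cut T D n G → ∀ t ∈ D, ∀ u ∈ t, ∀ t' ∈ D, ∀ v ∈ t', ∃ (l : ℝ) (L : List V),
      Pth (Adj D) w u v l L)

/-- A7: the disc bounded by the symmetric curve -/
def StExD : Prop := ∀ (P : Finset E) (g : E → ℝ) (T : Finset (Finset E)) (k : ℕ) (G : ℤ → E) (s : ℝ),
  PN P g → Cx g T → Gam g T k G s →
  ∃ D : Finset (Finset E), Cut T D (2 * k) G ∧ ∀ t ∈ T, t ∈ D ↔ t.image (fun v => -v) ∉ D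

/-! ### B. Fans -/

/-- B1 -/
def StFanSub : Prop := ∀ (T : Finset (Finset E)) (u v m : E) (a b : ℝ), (∀ t ∈ T, t.card = 3) →
  Fan T → u ≠ v → ({u, v} : Finset E) ∈ edges T → 0 < a → 0 < b → m = a • u + b • v →
  (∀ t ∈ T, m ∉ t) ∧ Fan (sub T u v m)

/-- B2: the octahedron -/
def StBase : Prop := ∀ (P : Finset E) (g : E → ℝ), PN P g → ∃ T : Finset (Finset E), Cx g T

/-- B3: orientation -/
def StOri : Prop := ∀ T : Finset (Finset E), Sph T → Fan T →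
  (∀ u v w : E, ({u, v, w} : Finset E) ∈ T → det3 u v w ≠ 0) ∧
  ∀ u v w z : E, ({u, v, w} : Finset E) ∈ T → ({u, v, z} : Finset E) ∈ T → w ≠ z →
    det3 u v w * det3 u v z < 0

/-- B4: volume -/
def StVol : Prop := ∀ (P : Finset E) (g : E → ℝ) (T : Finset (Finset E)), PN P g → Cx g T →
  Flat P T → ∀ U V W : Finset E → E, (∀ t ∈ T, t = {U t, V t, W t}) →
  ∑ t ∈ T, |det3 (U t) (V t) (W t)| ≤ 6 * (volume {y : E | g y ≤ 1}).toReal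

/-- B5: refinement by planes -/
def StRefine : Prop := ∀ (P : Finset E) (g : E → ℝ) (T D : Finset (Finset E)), PN P g → Cx g T →
  D ⊆ T → ∀ Hs : Finset E, ∃ T' D' : Finset (Finset E), Ref g T D T' D' ∧ Cx g T' ∧
    ∀ h ∈ Hs, NoCross T' h

/-- B6: general facts on refinements -/
def StRef1 : Prop := ∀ (P : Finset E) (g : E → ℝ) (T D T' D' : Finset (Finset E)), PN P g →
  Cx g T → D ⊆ T → Ref g T D T' D' → Sph T' ∧ Fan T' ∧ D' ⊆ T' ∧ (∀ t ∈ T', ∀ v ∈ t, g v = 1) ∧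
  (∀ t' ∈ D', ∃ t ∈ D, ∀ v ∈ t', v ∈ cone t) ∧
  (∀ t' ∈ T', t' ∉ D' → ∃ t ∈ T, t ∉ D ∧ ∀ v ∈ t', v ∈ cone t) ∧
  (∀ t ∈ T, ∀ v ∈ t, ∃ t' ∈ T', v ∈ t') ∧ (Flat P T → Flat P T')

/-- B7: edges inside a cone of `D` -/
def StRef2 : Prop := ∀ (P : Finset E) (g : E → ℝ) (T D T' D' : Finset (Finset E)), PN P g →
  Cx g T → D ⊆ T → Ref g T D T' D' → ∀ t ∈ D, ∀ e ∈ edges T', (∀ v ∈ e, v ∈ cone t) →
  ∃ t' ∈ D', e ⊆ t'

/-- B8: the boundary curve of the refined disc -/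
def StRef3 : Prop := ∀ (P : Finset E) (g : E → ℝ) (T D T' D' : Finset (Finset E)), PN P g →
  Cx g T → D ⊆ T → Ref g T D T' D' → ∀ (n : ℕ) (G : ℤ → E), Cut T D n G →
  ∃ (n' : ℕ) (G' : ℤ → E) (ι : ℤ → ℤ), Cut T' D' n' G' ∧ StrictMono ι ∧
    (∀ i, ι (i + n) = ι i + n') ∧ ∀ i, G' (ι i) = G i

/-- B9 -/
def StFlat : Prop := ∀ (P : Finset E) (g : E → ℝ) (T : Finset (Finset E)), PN P g → Cx g T →
  (∀ p ∈ P, ∀ q ∈ P, NoCross T (p - q)) → Flat P T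

/-- B10: mesh -/
def StMesh : Prop := ∀ (P : Finset E) (g : E → ℝ), PN P g → ∀ δ : ℝ, 0 < δ → ∃ Hs : Finset E,
  ∀ T : Finset (Finset E), Cx g T → (∀ h ∈ Hs, NoCross T h) →
    ∀ t ∈ T, ∀ u ∈ t, ∀ v ∈ t, wt g u v ≤ δ

/-- B11: points become vertices -/
def StPoint : Prop := ∀ (P : Finset E) (g : E → ℝ), PN P g → ∀ z : E, g z = 1 → ∃ Hs : Finset E,
  ∀ T : Finset (Finset E), Cx g T → (∀ h ∈ Hs, NoCross T h) → ∃ t ∈ T, z ∈ t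

/-- B12: segments become edge paths -/
def StSeg : Prop := ∀ (P : Finset E) (g : E → ℝ), PN P g → ∀ x y : E, Fac P g x y →
  ∃ Hs : Finset E, ∀ T : Finset (Finset E), Cx g T → (∀ h ∈ Hs, NoCross T h) →
    (∃ t ∈ T, x ∈ t) ∧ (∃ t ∈ T, y ∈ t) ∧
    ∃ L : List E, Pth (Adj T) (wt g) x y (g (y - x)) L ∧ ∀ z ∈ L, z ∈ segment ℝ x y

/-! ### C. The systole -/

/-- C1: a shortest path to the antipode exists -/
def StMin : Prop := ∀ (P : Finset E) (g : E → ℝ), PN P g →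
  (∃ (x : E) (l : ℝ) (L : List E), g x = 1 ∧ Pth (Fac P g) (wt g) x (-x) l L) →
  ∃ s : ℝ, 0 < s ∧ Sys P g s ∧ ∃ (x : E) (L : List E), g x = 1 ∧ Pth (Fac P g) (wt g) x (-x) s L

/-- C2: the shortest edge curve -/
def StSigma : Prop := ∀ (P : Finset E) (g : E → ℝ) (T : Finset (Finset E)) (s : ℝ), PN P g →
  Cx g T → Flat P T → Sys P g s → (∃ t ∈ T, ∃ x ∈ t, ∃ L : List E, Pth (Adj T) (wt g) x (-x) s L) →
  ∃ (k : ℕ) (G : ℤ → E), Gam g T k G s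

/-- C3: the two cones -/
def StCones : Prop := ∀ (P : Finset E) (g : E → ℝ) (T D : Finset (Finset E)) (n : ℕ) (G : ℤ → E),
  PN P g → Cx g T → Cut T D n G → (∀ t ∈ T, t ∈ D ↔ t.image (fun v => -v) ∉ D) →
  IsClosed {y : E | ∃ t ∈ D, y ∈ cone t} ∧
  (∀ y : E, (∃ t ∈ D, y ∈ cone t) ∨ (∃ t ∈ D, -y ∈ cone t)) ∧
  ∀ y : E, (∃ t ∈ D, y ∈ cone t) → (∃ t ∈ D, -y ∈ cone t) → ∃ i : ℤ, y ∈ cone {G i, G (i + 1)}

/-- C4: the girth inequality -/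
def StGirth : Prop := ∀ (P : Finset E) (g : E → ℝ), PN P g → ∀ (C : Set E) (k : ℕ) (G : ℤ → E)
  (δ : ℝ), IsClosed C → (∀ y : E, y ∈ C ∨ -y ∈ C) → 0 < k → 0 < δ → (∀ i, G (i + k) = - G i) →
  (∀ i, g (G i) = 1) → (∀ i, wt g (G i) (G (i + 1)) ≤ δ) →
  (∀ y : E, y ∈ C → -y ∈ C → ∃ i : ℤ, y ∈ cone {G i, G (i + 1)}) →
  3 - 60 * δ ≤ ∑ i ∈ range k, wt g (G i) (G (i + 1))

/-! ### D. Distance functions -/

/-- D1 -/
def StDist : Prop := ∀ (P : Finset E) (g : E → ℝ) (T D : Finset (Finset E)) (k : ℕ) (G : ℤ → E)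
  (s : ℝ), PN P g → Cx g T → Flat P T → Gam g T k G s → Sys P g s → Cut T D (2 * k) G →
  (∀ i : ℤ, ∀ t ∈ D, ∀ y ∈ hull t, ∀ y' ∈ hull t,
    dst g D (G i) y' ≤ dst g D (G i) y + g (y' - y)) ∧
  (∀ i j : ℤ, i ≤ j → j ≤ i + k → dst g D (G i) (G j) = arc g G i j ∧
    dst g D (G j) (G i) = arc g G i j) ∧
  (∀ (i j : ℤ) (θ : ℝ), 0 ≤ θ → θ ≤ 1 → dst g D (G i) (G j + θ • (G (j + 1) - G j)) =
    (1 - θ) * dst g D (G i) (G j) + θ * dst g D (G i) (G (j + 1)))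

/-- D2 -/
def StNI : Prop := ∀ (P : Finset E) (g : E → ℝ) (T D : Finset (Finset E)) (n : ℕ) (G : ℤ → E),
  PN P g → Cx g T → Flat P T → Cut T D n G →
  ∀ t ∈ D, ∀ y ∈ hull t, ∀ y' ∈ hull t, ∀ a b c e : ℤ, a < b → b < c → c < e → e < a + n →
  min (dst g D (G a) y' - dst g D (G a) y) (dst g D (G c) y' - dst g D (G c) y) ≤
    max (dst g D (G b) y' - dst g D (G b) y) (dst g D (G e) y' - dst g D (G e) y)

/-! ### F. Analysis -/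

/-- F1: planar lemma -/
def StPlanar : Prop := ∀ (m : ℕ) (ξ : ℕ → ℝ × ℝ) (N : Set (ℝ × ℝ)), IsCompact N → Convex ℝ N →
  (∀ i ≤ m, ξ i ∈ N) → (∀ h : ℝ × ℝ, NI m (fun i => h.1 * (ξ i).1 + h.2 * (ξ i).2)) →
  cyc m (fun i j => cr (ξ i) (ξ j)) ≤ 2 * (volume N).toReal

/-- F2: Stokes on the square -/
def StStokes : Prop := ∀ (A B : ℝ × ℝ → ℝ) (C : NNReal), LipschitzWith C A → LipschitzWith C B →
  Filter.Tendsto (fun n : ℕ => Rn n A B (0, 0) (1, 0) + Rn n A B (1, 0) (1, 1) +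
    Rn n A B (1, 1) (0, 1) + Rn n A B (0, 1) (0, 0)) Filter.atTop
    (𝓝 (∫ p in Set.Icc (0 : ℝ) 1 ×ˢ Set.Icc (0 : ℝ) 1, cr (gr A p) (gr B p)))

/-- F3: one triangle -/
def StLoc : Prop := ∀ (P : Finset E) (g : E → ℝ) (u v w : E) (N : Set E) (m : ℕ) (f : ℕ → E → ℝ),
  PN P g → IsCompact N → Convex ℝ N → (∀ y : E, ∃ ξ ∈ N, g y ≤ ξ ⬝ᵥ y) →
  (∀ i ≤ m, ∀ y ∈ hull {u, v, w}, ∀ y' ∈ hull {u, v, w}, f i y' ≤ f i y + g (y' - y)) →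
  (∀ y ∈ hull {u, v, w}, ∀ y' ∈ hull {u, v, w}, NI m (fun i => f i y' - f i y)) →
  ∀ ε : ℝ, 0 < ε → ∃ n₀ : ℕ, ∀ n : ℕ, n₀ ≤ n →
    cyc m (fun i j => Rn n (f i) (f j) u v + Rn n (f i) (f j) v w + Rn n (f i) (f j) w u) ≤
      (volume (Mt u v w '' N)).toReal + ε

/-- F4: orientation sum -/
def StOrient : Prop := ∀ (T D : Finset (Finset E)) (n : ℕ) (G : ℤ → E), Cut T D n G → Fan T →
  ∀ U V W : Finset E → E, (∀ t ∈ T, t = {U t, V t, W t} ∧ 0 < det3 (U t) (V t) (W t)) →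
  ∃ ε₀ : ℝ, (ε₀ = 1 ∨ ε₀ = -1) ∧ ∀ ρ : E → E → ℝ, (∀ x y, ρ x y = - ρ y x) →
    ∑ t ∈ D, (ρ (U t) (V t) + ρ (V t) (W t) + ρ (W t) (U t)) =
      ε₀ * ∑ j ∈ range n, ρ (G j) (G (j + 1))

/-- F5: the circle -/
def StCirc : Prop := ∀ (k : ℕ) (φ : ℤ → ℝ) (F : ℤ → ℤ → ℝ) (s : ℝ), 0 < k → (∀ i, φ (i + k) = φ i) →
  s = ∑ l ∈ Finset.Ico (0 : ℤ) k, φ l →
  (∀ i j : ℤ, i ≤ j → j ≤ i + k → F i j = ∑ l ∈ Finset.Ico i j, φ l) →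
  (∀ i j : ℤ, i + k ≤ j → j ≤ i + 2 * k → F i j = 2 * s - ∑ l ∈ Finset.Ico i j, φ l) →
  (∀ i j : ℤ, F i (j + 2 * k) = F i j) → (∀ i j : ℤ, F (i + 2 * k) j = F i j) →
  ∀ i : ℤ, (1 / 2) * ∑ j ∈ range (2 * k), (F i j * F (i + 1) (j + 1) - F i (j + 1) * F (i + 1) j) =
    2 * φ i * (s - φ i)

/-! ### G. Convex bodies -/

/-- G1 -/
def StArea : Prop := ∀ K : Set E, IsCompact K → Convex ℝ K → (interior K).Nonempty →
  ∀ p ∈ K - K, ∀ u v w : E, p ⬝ᵥ u = 1 → p ⬝ᵥ v = 1 → p ⬝ᵥ w = 1 → 0 < det3 u v w →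
  4 * (volume (Mt u v w '' K)).toReal ≤ 3 * det3 u v w * (supHull K).toReal

/-- G2: planar Rogers-Shephard -/
def StRS : Prop := ∀ A : Set (ℝ × ℝ), IsCompact A → Convex ℝ A → (interior A).Nonempty →
  (volume (A - A)).toReal ≤ 6 * (volume A).toReal

/-- G3: approximation by polyhedral norms -/
def StApprox : Prop := ∀ N : Set E, IsCompact N → N ∈ 𝓝 (0 : E) → (∀ x ∈ N, -x ∈ N) →
  ∀ ε : ℝ, 0 < ε → ∃ (P : Finset E) (g : E → ℝ), PN P g ∧ (∀ p ∈ P, p ∈ N) ∧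
    (volume {y : E | g y ≤ 1}).toReal ≤ (1 + ε) * (volume (pol N)).toReal

/-- G4: the polar of the difference body of the simplex -/
def StUpper : Prop := volume (pol (Tn 3 - Tn 3)) ≤ 4

/-! ### Z. Assembly -/

/-- Z1 -/
def StCore : Prop := ∀ (P : Finset E) (g : E → ℝ) (N : Set E) (B : ℝ), PN P g → IsCompact N →
  Convex ℝ N → (∀ y : E, ∃ ξ ∈ N, g y ≤ ξ ⬝ᵥ y) → 0 ≤ B →
  (∀ p ∈ P, ∀ u v w : E, p ⬝ᵥ u = 1 → p ⬝ᵥ v = 1 → p ⬝ᵥ w = 1 → 0 < det3 u v w →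
    (volume (Mt u v w '' N)).toReal ≤ B * det3 u v w) →
  12 ≤ B * (volume {y : E | g y ≤ 1}).toReal

end Pool.Agent.Lib.MP_87489e_co.HT
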