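import Mathlib
import Pool.Agent.Lib.MP_87489e_co.HT.Stmts
import Pool.Agent.Lib.MP_87489e_co.HT.Basic

set_option autoImplicit false

/-!
A2: the octahedron is a combinatorial sphere.
-/

namespace Pool.Agent.Lib.MP_87489e_co.HT

open Finset

section A2

variable {V : Type} [DecidableEq V] {a : Fin 3 → Bool → V}

/-- the triangles of the octahedron -/
def A2_tr (a : Fin 3 → Bool → V) (s : Fin 3 → Bool) : Finset V := univ.image fun i => a i (s i)

theorem A2_mem_oct {t : Finset V} : t ∈ oct a ↔ ∃ s, t = A2_tr a s := by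
  simp [oct, A2_tr, eq_comm]

theorem A2_mem_tr0 {s : Fin 3 → Bool} {v : V} : v ∈ A2_tr a s ↔ ∃ i, a i (s i) = v := by
  simp [A2_tr]

theorem A2_mem_tr (ha : ∀ i j b c, a i b = a j c → i = j ∧ b = c) {s : Fin 3 → Bool} {i : Fin 3}
    {b : Bool} : a i b ∈ A2_tr a s ↔ s i = b := by
  simp only [A2_tr, mem_image, mem_univ, true_and]
  constructor
  · rintro ⟨j, hj⟩
    obtain ⟨rfl, h⟩ := ha _ _ _ _ hj
    exact h
  · rintro rfl
    exact ⟨i, rfl⟩

theorem A2_card (ha : ∀ i j b c, a i b = a j c → i = j ∧ b = c) (s : Fin 3 → Bool) :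
    (A2_tr a s).card = 3 := by
  rw [A2_tr, card_image_of_injective]
  · simp
  · intro i j h
    exact (ha _ _ _ _ h).1

theorem A2_tr_inj (ha : ∀ i j b c, a i b = a j c → i = j ∧ b = c) {s s' : Fin 3 → Bool}
    (h : A2_tr a s = A2_tr a s') : s = s' := by
  funext i
  have h1 : a i (s i) ∈ A2_tr a s' := by
    rw [← h]
    exact (A2_mem_tr ha).mpr rfl
  exact ((A2_mem_tr ha).mp h1).symm

theorem A2_mem_edges (ha : ∀ i j b c, a i b = a j c → i = j ∧ b = c) {e : Finset V} :
    e ∈ edges (oct a) ↔ ∃ i j b c, i ≠ j ∧ e = {a i b, a j c} := by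
  rw [mem_edges]
  constructor
  · rintro ⟨t, ht, hs, hc⟩
    obtain ⟨s, rfl⟩ := A2_mem_oct.mp ht
    obtain ⟨x, y, hxy, rfl⟩ := card_eq_two.mp hc
    have hx := hs (mem_insert_self _ _)
    have hy := hs (mem_insert_of_mem (mem_singleton_self _))
    simp only [A2_tr, mem_image, mem_univ, true_and] at hx hy
    obtain ⟨i, rfl⟩ := hx
    obtain ⟨j, rfl⟩ := hy
    exact ⟨i, j, s i, s j, fun h => hxy (by rw [h]), rfl⟩
  · rintro ⟨i, j, b, c, hij, rfl⟩
    refine ⟨A2_tr a (fun l => if l = i then b else c), A2_mem_oct.mpr ⟨_, rfl⟩, ?_, ?_⟩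
    · intro x hx
      simp only [mem_insert, mem_singleton] at hx
      rcases hx with rfl | rfl
      · rw [A2_mem_tr ha]; simp
      · rw [A2_mem_tr ha]; simp [hij.symm]
    · exact card_pair (fun h => hij (ha _ _ _ _ h).1)

theorem A2_third (i j : Fin 3) (h : i ≠ j) : ∃ k, k ≠ i ∧ k ≠ j := by
  revert i j; decide

theorem A2_others (k : Fin 3) : ∃ i j : Fin 3, i ≠ j ∧ k ≠ i ∧ k ≠ j := by
  revert k; decide

theorem A2_all (i j k l : Fin 3) (h : i ≠ j) (h1 : k ≠ i) (h2 : k ≠ j) : l = i ∨ l = j ∨ l = k := by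
  revert i j k l; decide

theorem A2_filter (ha : ∀ i j b c, a i b = a j c → i = j ∧ b = c) {i j k : Fin 3} (hij : i ≠ j)
    (hki : k ≠ i) (hkj : k ≠ j) (s : Fin 3 → Bool) :
    (oct a).filter (fun t => ({a i (s i), a j (s j)} : Finset V) ⊆ t) =
      {A2_tr a s, A2_tr a (Function.update s k (!s k))} := by
  ext t
  rw [mem_filter, mem_insert, mem_singleton, A2_mem_oct]
  constructor
  · rintro ⟨⟨s', rfl⟩, hs⟩
    have h1 := (A2_mem_tr ha).mp (hs (mem_insert_self _ _))
    have h2 := (A2_mem_tr ha).mp (hs (mem_insert_of_mem (mem_singleton_self _)))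
    by_cases h3 : s' k = s k
    · left
      congr 1
      funext l
      rcases A2_all i j k l hij hki hkj with rfl | rfl | rfl <;> assumption
    · right
      congr 1
      funext l
      rcases A2_all i j k l hij hki hkj with rfl | rfl | rfl
      · rw [Function.update_of_ne hki.symm, h1]
      · rw [Function.update_of_ne hkj.symm, h2]
      · rw [Function.update_self]
        revert h3
        cases s' l <;> cases s l <;> decide
  · rintro (rfl | rfl)
    · refine ⟨⟨s, rfl⟩, fun x hx => ?_⟩
      simp only [mem_insert, mem_singleton] at hx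
      rcases hx with rfl | rfl
      · rw [A2_mem_tr ha]
      · rw [A2_mem_tr ha]
    · refine ⟨⟨_, rfl⟩, fun x hx => ?_⟩
      simp only [mem_insert, mem_singleton] at hx
      rcases hx with rfl | rfl
      · rw [A2_mem_tr ha, Function.update_of_ne hki.symm]
      · rw [A2_mem_tr ha, Function.update_of_ne hkj.symm]

theorem A2_ne (ha : ∀ i j b c, a i b = a j c → i = j ∧ b = c) (k : Fin 3) (s : Fin 3 → Bool) :
    A2_tr a s ≠ A2_tr a (Function.update s k (!s k)) := by
  intro h
  have h1 := congrFun (A2_tr_inj ha h) k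
  rw [Function.update_self] at h1
  revert h1
  cases s k <;> decide

theorem A2_bd (ha : ∀ i j b c, a i b = a j c → i = j ∧ b = c) {i j k : Fin 3} (hij : i ≠ j)
    (hki : k ≠ i) (hkj : k ≠ j) (s : Fin 3 → Bool) (X : Finset V → ZMod 2) :
    bd (oct a) X {a i (s i), a j (s j)} =
      X (A2_tr a s) + X (A2_tr a (Function.update s k (!s k))) := by
  rw [bd, A2_filter ha hij hki hkj, sum_pair (A2_ne ha k s)]

theorem A2_upd (ha : ∀ i j b c, a i b = a j c → i = j ∧ b = c) (X : Finset V → ZMod 2)
    (k : Fin 3) (s : Fin 3 → Bool)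
    (h : ∀ i j, i ≠ j → k ≠ i → k ≠ j → bd (oct a) X {a i (s i), a j (s j)} = 0) (c : Bool) :
    X (A2_tr a (Function.update s k c)) = X (A2_tr a s) := by
  by_cases hc : c = s k
  · rw [hc, Function.update_eq_self]
  · have hc' : c = !s k := by
      revert hc
      cases c <;> cases s k <;> decide
    obtain ⟨i, j, hij, hki, hkj⟩ := A2_others k
    have h1 := h i j hij hki hkj
    rw [A2_bd ha hij hki hkj, zmod2_add_eq_zero] at h1
    rw [hc', h1]

theorem A2_chain (s s' : Fin 3 → Bool) :
    Function.update (Function.update (Function.update s 0 (s' 0)) 1 (s' 1)) 2 (s' 2) = s' := by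
  funext l
  fin_cases l <;> simp

theorem A2_conn (ha : ∀ i j b c, a i b = a j c → i = j ∧ b = c) (X : Finset V → ZMod 2)
    (hX : ∀ e ∈ edges (oct a), bd (oct a) X e = 0) (s s' : Fin 3 → Bool) :
    X (A2_tr a s) = X (A2_tr a s') := by
  have step : ∀ k s c, X (A2_tr a (Function.update s k c)) = X (A2_tr a s) := by
    intro k s c
    apply A2_upd ha X k s
    intro i j hij _ _
    apply hX
    rw [A2_mem_edges ha]
    exact ⟨i, j, s i, s j, hij, rfl⟩
  rw [← A2_chain s s', step, step, step]

theorem A2_star (ha : ∀ i j b c, a i b = a j c → i = j ∧ b = c) (X : Finset V → ZMod 2)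
    (i : Fin 3) (b : Bool)
    (hX : ∀ e ∈ edges (oct a), a i b ∈ e → bd (oct a) X e = 0) (s s' : Fin 3 → Bool)
    (hs : s i = b) (hs' : s' i = b) : X (A2_tr a s) = X (A2_tr a s') := by
  have step : ∀ k s c, s i = b → (k = i → c = b) →
      X (A2_tr a (Function.update s k c)) = X (A2_tr a s) := by
    intro k s c hs hk
    by_cases hki : k = i
    · rw [hk hki, hki, ← hs, Function.update_eq_self]
    · apply A2_upd ha X k s _ c
      intro i' j' hij h1 h2
      apply hX
      · rw [A2_mem_edges ha]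
        exact ⟨i', j', s i', s j', hij, rfl⟩
      · rcases A2_all i' j' k i hij h1 h2 with h | h | h
        · rw [← h, hs]; simp
        · rw [← h, hs]; simp
        · exact absurd h.symm hki
  have inv : ∀ k (s : Fin 3 → Bool) c, s i = b → (k = i → c = b) →
      Function.update s k c i = b := by
    intro k s c hs hk
    by_cases hki : k = i
    · rw [hki, Function.update_self, hk hki]
    · rw [Function.update_of_ne (Ne.symm hki), hs]
  have hk : ∀ k, k = i → s' k = b := fun k hk => by rw [hk, hs']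
  have i1 := inv 0 s (s' 0) hs (hk 0)
  have i2 := inv 1 _ (s' 1) i1 (hk 1)
  have e1 := step 0 s (s' 0) hs (hk 0)
  have e2 := step 1 _ (s' 1) i1 (hk 1)
  have e3 := step 2 _ (s' 2) i2 (hk 2)
  rw [A2_chain] at e3
  rw [e3, e2, e1]

theorem A2_deg (ha : ∀ i j b c, a i b = a j c → i = j ∧ b = c) (z : Finset V → ZMod 2)
    (i : Fin 3) (b : Bool) : deg (oct a) z (a i b) =
      ∑ p : Fin 3 × Bool, if p.1 ≠ i then z {a i b, a p.1 p.2} else 0 := by
  have h1 : (edges (oct a)).filter (fun e => a i b ∈ e) =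
      (univ.filter (fun p : Fin 3 × Bool => p.1 ≠ i)).image
        (fun p => ({a i b, a p.1 p.2} : Finset V)) := by
    ext e
    rw [mem_filter, A2_mem_edges ha, mem_image]
    constructor
    · rintro ⟨⟨i', j', b', c', hij, rfl⟩, hm⟩
      rw [mem_insert, mem_singleton] at hm
      rcases hm with hm | hm
      · refine ⟨(j', c'), ?_, ?_⟩
        · rw [mem_filter]
          refine ⟨mem_univ _, ?_⟩
          have := (ha _ _ _ _ hm).1
          rw [this]; exact hij.symm
        · rw [hm]
      · refine ⟨(i', b'), ?_, ?_⟩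
        · rw [mem_filter]
          refine ⟨mem_univ _, ?_⟩
          have := (ha _ _ _ _ hm).1
          rw [this]; exact hij
        · rw [hm, pair_comm]
    · rintro ⟨⟨j, c⟩, hp, rfl⟩
      rw [mem_filter] at hp
      exact ⟨⟨i, j, b, c, Ne.symm hp.2, rfl⟩, by simp⟩
  rw [deg, h1, sum_image, sum_filter]
  rintro ⟨j, c⟩ hp ⟨j', c'⟩ hp' h
  rw [mem_coe, mem_filter] at hp hp'
  have h2 : a j c ∈ ({a i b, a j' c'} : Finset V) := by
    have h3 : ({a i b, a j c} : Finset V) = {a i b, a j' c'} := h
    rw [← h3]; simp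
  rw [mem_insert, mem_singleton] at h2
  rcases h2 with h2 | h2
  · exact absurd (ha _ _ _ _ h2).1 hp.2
  · obtain ⟨h3, h4⟩ := ha _ _ _ _ h2
    rw [h3, h4]

/-- the potential -/
def A2_pot (a : Fin 3 → Bool → V) (z : Finset V → ZMod 2) (x y w : Bool) : ZMod 2 :=
  (if x then z {a 1 false, a 2 false} else 0) + (if y then z {a 0 x, a 2 false} else 0) +
    (if w then z {a 0 x, a 1 y} else 0)

/-- the chain -/
def A2_chn (a : Fin 3 → Bool → V) (z : Finset V → ZMod 2) (t : Finset V) : ZMod 2 :=
  A2_pot a z (decide (a 0 true ∈ t)) (decide (a 1 true ∈ t)) (decide (a 2 true ∈ t))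

theorem A2_chn_tr (ha : ∀ i j b c, a i b = a j c → i = j ∧ b = c) (z : Finset V → ZMod 2)
    (s : Fin 3 → Bool) : A2_chn a z (A2_tr a s) = A2_pot a z (s 0) (s 1) (s 2) := by
  have h : ∀ i, decide (a i true ∈ A2_tr a s) = s i := by
    intro i
    have h1 := A2_mem_tr ha (s := s) (i := i) (b := true)
    by_cases h2 : s i = true
    · rw [h2]; simp [h1, h2]
    · have h3 : s i = false := by simpa using h2
      rw [h3]; simp [h1, h3]
  rw [A2_chn, h, h, h]

theorem A2_h01 (a : Fin 3 → Bool → V) (z : Finset V → ZMod 2) (b c : Bool) :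
    A2_pot a z b c false + A2_pot a z b c true = z {a 0 b, a 1 c} := by
  simp only [A2_pot, if_true, if_false, Bool.false_eq_true]
  generalize (if b = true then z {a 1 false, a 2 false} else 0) = p
  generalize (if c = true then z {a 0 b, a 2 false} else 0) = q
  generalize z {a 0 b, a 1 c} = r
  revert p q r; decide

theorem A2_h02 (a : Fin 3 → Bool → V) (z : Finset V → ZMod 2) (b c : Bool)
    (hd : z {a 0 b, a 1 true} + z {a 0 b, a 1 false} +
      (z {a 0 b, a 2 true} + z {a 0 b, a 2 false}) = 0) :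
    A2_pot a z b false c + A2_pot a z b true c = z {a 0 b, a 2 c} := by
  cases c
  · simp only [A2_pot, if_true, if_false, Bool.false_eq_true]
    generalize (if b = true then z {a 1 false, a 2 false} else 0) = p
    generalize z {a 0 b, a 2 false} = r
    revert p r; decide
  · simp only [A2_pot, if_true, if_false, Bool.false_eq_true]
    revert hd
    generalize (if b = true then z {a 1 false, a 2 false} else 0) = p
    generalize z {a 0 b, a 2 false} = r
    generalize z {a 0 b, a 2 true} = r'
    generalize z {a 0 b, a 1 false} = q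
    generalize z {a 0 b, a 1 true} = q'
    revert p r r' q q'; decide

theorem A2_h12 (a : Fin 3 → Bool → V) (z : Finset V → ZMod 2) (b c : Bool)
    (hd1 : ∀ b, z {a 0 true, a 1 b} + z {a 0 false, a 1 b} +
      (z {a 1 b, a 2 true} + z {a 1 b, a 2 false}) = 0)
    (hd2 : ∀ b, z {a 0 true, a 2 b} + z {a 0 false, a 2 b} +
      (z {a 1 true, a 2 b} + z {a 1 false, a 2 b}) = 0) :
    A2_pot a z false b c + A2_pot a z true b c = z {a 1 b, a 2 c} := by
  have h1 := hd1 false
  have h2 := hd1 true
  have h3 := hd2 false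
  revert h1 h2 h3
  cases b <;> cases c
  · simp only [A2_pot, if_true, if_false, Bool.false_eq_true]
    intro _ _ _
    generalize z {a 1 false, a 2 false} = p
    revert p; decide
  · simp only [A2_pot, if_true, if_false, Bool.false_eq_true]
    intro h1 _ _
    revert h1
    generalize z {a 1 false, a 2 false} = p
    generalize z {a 1 false, a 2 true} = p'
    generalize z {a 0 false, a 1 false} = q
    generalize z {a 0 true, a 1 false} = q'
    revert p p' q q'; decide
  · simp only [A2_pot, if_true, if_false, Bool.false_eq_true]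
    intro _ _ h3
    revert h3
    generalize z {a 1 false, a 2 false} = p
    generalize z {a 1 true, a 2 false} = p'
    generalize z {a 0 false, a 2 false} = q
    generalize z {a 0 true, a 2 false} = q'
    revert p p' q q'; decide
  · simp only [A2_pot, if_true, if_false, Bool.false_eq_true]
    intro _ h2 h3
    revert h2 h3
    generalize z {a 1 false, a 2 false} = p
    generalize z {a 1 true, a 2 false} = p'
    generalize z {a 1 true, a 2 true} = p''
    generalize z {a 0 false, a 2 false} = q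
    generalize z {a 0 true, a 2 false} = q'
    generalize z {a 0 false, a 1 true} = r
    generalize z {a 0 true, a 1 true} = r'
    revert p p' p'' q q' r r'; decide

theorem A2_h1 (ha : ∀ i j b c, a i b = a j c → i = j ∧ b = c) (z : Finset V → ZMod 2)
    (hz : ∀ v, deg (oct a) z v = 0) (i j : Fin 3) (b c : Bool) (hij : i ≠ j) :
    bd (oct a) (A2_chn a z) {a i b, a j c} = z {a i b, a j c} := by
  have hd0 : ∀ b, z {a 0 b, a 1 true} + z {a 0 b, a 1 false} +
      (z {a 0 b, a 2 true} + z {a 0 b, a 2 false}) = 0 := by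
    intro b
    have h := hz (a 0 b)
    rw [A2_deg ha, Fintype.sum_prod_type, Fin.sum_univ_three] at h
    simpa [Fintype.sum_bool] using h
  have hd1 : ∀ b, z {a 0 true, a 1 b} + z {a 0 false, a 1 b} +
      (z {a 1 b, a 2 true} + z {a 1 b, a 2 false}) = 0 := by
    intro b
    have h := hz (a 1 b)
    rw [A2_deg ha, Fintype.sum_prod_type, Fin.sum_univ_three] at h
    rw [pair_comm (a 0 true), pair_comm (a 0 false)]
    simpa [Fintype.sum_bool] using h
  have hd2 : ∀ b, z {a 0 true, a 2 b} + z {a 0 false, a 2 b} +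
      (z {a 1 true, a 2 b} + z {a 1 false, a 2 b}) = 0 := by
    intro b
    have h := hz (a 2 b)
    rw [A2_deg ha, Fintype.sum_prod_type, Fin.sum_univ_three] at h
    rw [pair_comm (a 0 true), pair_comm (a 0 false), pair_comm (a 1 true), pair_comm (a 1 false)]
    simpa [Fintype.sum_bool] using h
  have key : ∀ i j b c, i < j → bd (oct a) (A2_chn a z) {a i b, a j c} = z {a i b, a j c} := by
    clear hij i j b c
    intro i j b c hij
    have h3 : (i = 0 ∧ j = 1) ∨ (i = 0 ∧ j = 2) ∨ (i = 1 ∧ j = 2) := by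
      clear hd0 hd1 hd2 hz
      revert i j; decide
    rcases h3 with ⟨rfl, rfl⟩ | ⟨rfl, rfl⟩ | ⟨rfl, rfl⟩
    · have h := A2_bd ha (i := 0) (j := 1) (k := 2) (by decide) (by decide) (by decide)
        ![b, c, false] (A2_chn a z)
      rw [A2_chn_tr ha, A2_chn_tr ha] at h
      rw [← A2_h01 a z b c]
      exact h
    · have h := A2_bd ha (i := 0) (j := 2) (k := 1) (by decide) (by decide) (by decide)
        ![b, false, c] (A2_chn a z)
      rw [A2_chn_tr ha, A2_chn_tr ha] at h
      rw [← A2_h02 a z b c (hd0 b)]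
      exact h
    · have h := A2_bd ha (i := 1) (j := 2) (k := 0) (by decide) (by decide) (by decide)
        ![false, b, c] (A2_chn a z)
      rw [A2_chn_tr ha, A2_chn_tr ha] at h
      rw [← A2_h12 a z b c hd1 hd2]
      exact h
  rcases lt_or_gt_of_ne hij with h | h
  · exact key i j b c h
  · rw [pair_comm]
    exact key j i c b h

end A2

theorem stOct : StOct := by
  intro V _ a ha
  refine ⟨?_, ?_, ?_, ?_, ?_⟩
  · intro t
    rw [A2_mem_oct]
    rintro ⟨s, rfl⟩
    exact A2_card ha s
  · intro e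
    rw [A2_mem_edges ha]
    rintro ⟨i, j, b, c, hij, rfl⟩
    obtain ⟨k, hki, hkj⟩ := A2_third i j hij
    let s : Fin 3 → Bool := fun l => if l = i then b else c
    have hi : s i = b := if_pos rfl
    have hj : s j = c := if_neg hij.symm
    rw [← hi, ← hj, A2_filter ha hij hki hkj]
    exact card_pair (A2_ne ha k s)
  · intro X hX t
    rw [A2_mem_oct]
    rintro ⟨s, rfl⟩ t'
    rw [A2_mem_oct]
    rintro ⟨s', rfl⟩
    exact A2_conn ha X hX s s'
  · intro v X hX t
    rw [A2_mem_oct]
    rintro ⟨s, rfl⟩ t'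
    rw [A2_mem_oct]
    rintro ⟨s', rfl⟩
    rw [A2_mem_tr0]
    rintro ⟨i, rfl⟩ hv'
    exact A2_star ha X i (s i) hX s s' rfl ((A2_mem_tr ha).mp hv')
  · intro z hz
    refine ⟨A2_chn a z, fun e => ?_⟩
    rw [A2_mem_edges ha]
    rintro ⟨i, j, b, c, hij, rfl⟩
    exact A2_h1 ha z hz i j b c hij

end Pool.Agent.Lib.MP_87489e_co.HT
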