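import Mathlib
import Pool.Agent.Lib.MP_87489e_co.HT.Stmts
import Pool.Agent.Lib.MP_87489e_co.HT.Basic

set_option autoImplicit false

/-!
A3: the complement of the disc, and connectedness of the disc across the edges which are not on
the bounding cycle.
-/

namespace Pool.Agent.Lib.MP_87489e_co.HT

open Finset

section A3

variable {V : Type} [DecidableEq V] {T D : Finset (Finset V)} {n : ℕ} {G : ℤ → V}

theorem A3_ind_sdiff {t : Finset V} (ht : t ∈ T) : ind (T \ D) t = ind D t + 1 := by
  by_cases h : t ∈ D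
  · rw [ind_mem h, ind_notMem (by simp [h])]; decide
  · rw [ind_notMem h, ind_mem (by simp [h, ht])]; decide

theorem A3_bd_sdiff (hT : Sph T) {e : Finset V} (he : e ∈ edges T) :
    bd T (ind (T \ D)) e = bd T (ind D) e := by
  obtain ⟨t₁, h₁, t₂, h₂, -, -, -, -, hb⟩ := hT.bd_eq he
  rw [hb, hb, A3_ind_sdiff h₁, A3_ind_sdiff h₂]
  generalize ind D t₁ = a
  generalize ind D t₂ = b
  revert a b; decide

theorem A3_cut (C : Cut T D n G) : Cut T (T \ D) n G where
  sph := C.sph
  sub := sdiff_subset
  pos := C.pos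
  per := C.per
  inj := C.inj
  edge := C.edge
  bdry e he := by rw [A3_bd_sdiff C.sph he]; exact C.bdry e he

theorem A3_per (C : Cut T D n G) {i j : ℤ} (h : (n : ℤ) ∣ i - j) : G i = G j := by
  obtain ⟨k, hk⟩ := h
  have hp : Function.Periodic G (n : ℤ) := C.per
  have h1 := hp.int_mul k j
  have h2 : i = j + k * (n : ℤ) := by
    rw [mul_comm] at hk
    linarith
  rw [h2]
  simpa using h1

theorem A3_next (C : Cut T D n G) (z : Finset V → ZMod 2) (hd : ∀ v, deg T z v = 0)
    (hz : ∀ e ∈ edges T, (∀ i, e ≠ {G i, G (i + 1)}) → z e = 0) (i : ℤ) :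
    z {G (i + 1), G (i + 1 + 1)} = z {G i, G (i + 1)} := by
  by_cases heq : ({G (i + 1), G (i + 1 + 1)} : Finset V) = {G i, G (i + 1)}
  · rw [heq]
  · have h := hd (G (i + 1))
    unfold deg at h
    rw [← sum_subset (s₁ := {{G (i + 1), G (i + 1 + 1)}, {G i, G (i + 1)}})] at h
    · rw [sum_pair heq] at h
      exact zmod2_add_eq_zero.mp h
    · intro e he
      rw [mem_insert, mem_singleton] at he
      rw [mem_filter]
      rcases he with rfl | rfl
      · exact ⟨C.edge _, by simp⟩
      · exact ⟨C.edge _, by simp⟩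
    · intro e he hne
      rw [mem_filter] at he
      apply hz e he.1
      rintro j rfl
      apply hne
      have hm := he.2
      rw [mem_insert, mem_singleton] at hm
      rw [mem_insert, mem_singleton]
      rcases hm with hm | hm
      · left
        have h1 := C.inj _ _ hm
        rw [hm, A3_per C (i := i + 1 + 1) (j := j + 1) (by simpa using h1)]
      · right
        have h1 := C.inj _ _ hm
        rw [hm, A3_per C (i := i) (j := j) (by simpa using h1)]

theorem A3_const (C : Cut T D n G) (z : Finset V → ZMod 2) (hd : ∀ v, deg T z v = 0)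
    (hz : ∀ e ∈ edges T, (∀ i, e ≠ {G i, G (i + 1)}) → z e = 0) (i : ℤ) :
    z {G i, G (i + 1)} = z {G 0, G (0 + 1)} := by
  induction i using Int.induction_on with
  | zero => rfl
  | succ i ih => rw [A3_next C z hd hz, ih]
  | pred i ih =>
    have h := A3_next C z hd hz (-(i : ℤ) - 1)
    have h2 : -(i : ℤ) - 1 + 1 = -i := by ring
    rw [h2] at h
    rw [h2, ← h, ih]

/-- the two triangles at an edge not on the cycle are on the same side -/
theorem A3_side (C : Cut T D n G) {e : Finset V} (he : e ∈ edges T)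
    (hne : ∀ i, e ≠ {G i, G (i + 1)}) {t₁ t₂ : Finset V}
    (hb : ∀ X : Finset V → ZMod 2, bd T X e = X t₁ + X t₂) : t₁ ∈ D ↔ t₂ ∈ D := by
  have h1 : bd T (ind D) e ≠ 1 := fun h => by
    obtain ⟨i, hi⟩ := (C.bdry e he).mp h
    exact hne i hi
  have h2 : ind D t₁ + ind D t₂ = 0 := by
    rw [← hb]
    exact (zmod2_cases _).resolve_right h1
  have h3 := zmod2_add_eq_zero.mp h2
  unfold ind at h3
  by_cases h4 : t₁ ∈ D <;> by_cases h5 : t₂ ∈ D <;> simp_all

end A3

theorem stDual : StDual := by
  intro V _ T D n G C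
  refine ⟨A3_cut C, fun X hX t ht t' ht' => ?_⟩
  let Y : Finset V → ZMod 2 := fun s => if s ∈ D ∧ X s = X t then 1 else 0
  have hY0 : ∀ e ∈ edges T, (∀ i, e ≠ {G i, G (i + 1)}) → bd T Y e = 0 := by
    intro e he hne
    obtain ⟨t₁, h₁, t₂, h₂, -, he₁, he₂, -, hb⟩ := C.sph.bd_eq he
    have hs := A3_side C he hne hb
    rw [hb]
    by_cases h : t₁ ∈ D
    · have h' := hs.mp h
      have h3 := hX e he hne ⟨t₁, h, he₁⟩
      rw [hb, zmod2_add_eq_zero] at h3
      have h4 : Y t₁ = Y t₂ := by simp only [Y, h, h', h3]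
      rw [zmod2_add_eq_zero, h4]
    · have h' : t₂ ∉ D := fun h2 => h (hs.mpr h2)
      simp [Y, h, h']
  have hc := A3_const C (bd T Y) (deg_bd C.sph Y) hY0
  have hYt : Y t = 1 := by simp [Y, ht]
  have hfin : Y t' = 1 := by
    rcases zmod2_cases (bd T Y {G 0, G (0 + 1)}) with h0 | h0
    · have h1 := C.sph.conn Y (fun e he => by
        by_cases hg : ∃ i, e = {G i, G (i + 1)}
        · obtain ⟨i, rfl⟩ := hg
          rw [hc, h0]
        · exact hY0 e he (fun i hi => hg ⟨i, hi⟩)) t (C.sub ht) t' (C.sub ht')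
      rw [← h1, hYt]
    · have h1 := C.sph.conn (fun s => Y s + ind D s) (fun e he => by
        rw [bd_add]
        by_cases hg : ∃ i, e = {G i, G (i + 1)}
        · have h2 := (C.bdry e he).mpr hg
          obtain ⟨i, rfl⟩ := hg
          rw [hc, h0, h2]; decide
        · have h2 : bd T (ind D) e ≠ 1 := fun h => hg ((C.bdry e he).mp h)
          rw [hY0 e he (fun i hi => hg ⟨i, hi⟩), (zmod2_cases _).resolve_right h2, add_zero])
        t (C.sub ht) t' (C.sub ht')
      simp only [hYt, ind_mem ht, ind_mem ht'] at h1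
      exact (add_right_cancel h1).symm
  by_contra hne
  have : Y t' = 0 := by
    simp only [Y]
    rw [if_neg]
    rintro ⟨-, h⟩
    exact hne h.symm
  rw [this] at hfin
  exact absurd hfin (by decide)

end Pool.Agent.Lib.MP_87489e_co.HT
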