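import Mathlib
import Pool.Agent.Lib.MP_87489e_co.HT.Stmts

set_option autoImplicit false

namespace Pool.Agent.Lib.MP_87489e_co.HT

open Finset

section A4

variable {V : Type} [DecidableEq V]

theorem A4_bd_add (T : Finset (Finset V)) (X Y : Finset V → ZMod 2) (e : Finset V) :
    bd T (fun t => X t + Y t) e = bd T X e + bd T Y e := by
  unfold bd; exact Finset.sum_add_distrib

theorem A4_deg_add (T : Finset (Finset V)) (X Y : Finset V → ZMod 2) (v : V) :
    deg T (fun t => X t + Y t) v = deg T X v + deg T Y v := by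
  unfold deg; exact Finset.sum_add_distrib

theorem A4_deg_sum {ι : Type} (T : Finset (Finset V)) (s : Finset ι) (X : ι → Finset V → ZMod 2)
    (v : V) : deg T (fun t => ∑ i ∈ s, X i t) v = ∑ i ∈ s, deg T (X i) v := by
  unfold deg; exact Finset.sum_comm

/-- the degree of a single edge -/
theorem A4_deg_single (T : Finset (Finset V)) (p q : V) (hpq : p ≠ q)
    (h : ({p, q} : Finset V) ∈ edges T) (v : V) :
    deg T (fun e => if e = {p, q} then 1 else 0) v =
      (if v = p then 1 else 0) + (if v = q then 1 else 0) := by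
  unfold deg
  rw [Finset.sum_ite_eq']
  by_cases h1 : v = p
  · subst h1
    have : v ≠ q := hpq
    simp [h, this]
  · by_cases h2 : v = q
    · subst h2
      simp [h, h1]
    · simp [h1, h2]

theorem A4_mem_edges {T : Finset (Finset V)} {p q : V} {t : Finset V} (ht : t ∈ T) (hp : p ∈ t)
    (hq : q ∈ t) (hpq : p ≠ q) : ({p, q} : Finset V) ∈ edges T := by
  unfold edges
  rw [Finset.mem_biUnion]
  refine ⟨t, ht, ?_⟩
  rw [Finset.mem_powersetCard]
  refine ⟨?_, Finset.card_pair hpq⟩
  intro x hx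
  rw [Finset.mem_insert, Finset.mem_singleton] at hx
  rcases hx with rfl | rfl <;> assumption

/-- the chain of a path -/
theorem A4_chain {T D : Finset (Finset V)} (hD : D ⊆ T) {w : V → V → ℝ} {x y : V} {l : ℝ}
    {L : List V} (h : Pth (Adj D) w x y l L) :
    ∃ z : Finset V → ZMod 2, (∀ e, z e ≠ 0 → ∃ p ∈ L, ∃ q ∈ L, Adj D p q ∧ e = {p, q}) ∧
      (∀ v, deg T z v = (if v = x then 1 else 0) + (if v = y then 1 else 0)) := by
  induction h with
  | nil x =>
    refine ⟨fun _ => 0, fun e he => absurd rfl he, fun v => ?_⟩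
    have h0 : deg T (fun _ => (0 : ZMod 2)) v = 0 := by unfold deg; simp
    rw [h0]
    exact (CharTwo.add_self_eq_zero _).symm
  | @cons x y z l s hxy p ih =>
    obtain ⟨c, hc1, hc2⟩ := ih
    have hy : y ∈ s := by cases p <;> simp
    obtain ⟨hne, t, ht, hxt, hyt⟩ := hxy
    refine ⟨fun e => (if e = {x, y} then 1 else 0) + c e, fun e he => ?_, fun v => ?_⟩
    · by_cases h1 : e = {x, y}
      · exact ⟨x, by simp, y, by simp [hy], ⟨hne, t, ht, hxt, hyt⟩, h1⟩
      · simp only [h1, if_false, zero_add] at he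
        obtain ⟨p', hp', q', hq', h2, h3⟩ := hc1 e he
        exact ⟨p', by simp [hp'], q', by simp [hq'], h2, h3⟩
    · rw [A4_deg_add, A4_deg_single T x y hne (A4_mem_edges (hD ht) hxt hyt hne), hc2 v]
      have := CharTwo.add_self_eq_zero (if v = y then (1 : ZMod 2) else 0)
      linear_combination this

omit [DecidableEq V] in
/-- propagation along a path -/
theorem A4_prop {D : Finset (Finset V)} {w : V → V → ℝ} {x y : V} {l : ℝ}
    {L : List V} (X : Finset V → ZMod 2) (h : Pth (Adj D) w x y l L)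
    (hX : ∀ v ∈ L, ∀ t ∈ D, ∀ t' ∈ D, v ∈ t → v ∈ t' → X t = X t') :
    ∀ t ∈ D, x ∈ t → ∀ t' ∈ D, y ∈ t' → X t = X t' := by
  induction h with
  | nil x => exact fun t ht hx t' ht' hx' => hX x (by simp) t ht t' ht' hx hx'
  | @cons x y z l s hxy p ih =>
    intro t ht hx t' ht' hz
    obtain ⟨hne, t1, ht1, hxt, hyt⟩ := hxy
    rw [hX x (by simp) t ht t1 ht1 hx hxt]
    exact ih (fun v hv => hX v (by simp [hv])) t1 ht1 hyt t' ht' hz

omit [DecidableEq V] in
theorem A4_ends {D : Finset (Finset V)} {w : V → V → ℝ} {x y : V} {l : ℝ}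
    {L : List V} (h : Pth (Adj D) w x y l L) : x ∈ L ∧ y ∈ L := by
  induction h with
  | nil x => simp
  | @cons x y z l s hxy p ih => exact ⟨by simp, by simp [ih.2]⟩

theorem A4_zmod (x : ZMod 2) : x = 0 ∨ x = 1 := by
  revert x; decide

/-- a boundary edge has a triangle in `D` and one outside -/
theorem A4_two {T D : Finset (Finset V)} (hs : Sph T) {e : Finset V} (he : e ∈ edges T)
    (hb : bd T (ind D) e = 1) : (∃ t ∈ D, e ⊆ t) ∧ ∃ t ∈ T, t ∉ D ∧ e ⊆ t := by
  obtain ⟨t1, t2, hne, h12⟩ := Finset.card_eq_two.1 (hs.two e he)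
  have hm1 : t1 ∈ T ∧ e ⊆ t1 := by
    have : t1 ∈ T.filter (fun t => e ⊆ t) := by rw [h12]; simp
    exact Finset.mem_filter.1 this
  have hm2 : t2 ∈ T ∧ e ⊆ t2 := by
    have : t2 ∈ T.filter (fun t => e ⊆ t) := by rw [h12]; simp
    exact Finset.mem_filter.1 this
  unfold bd at hb
  rw [h12, Finset.sum_pair hne] at hb
  unfold ind at hb
  by_cases c1 : t1 ∈ D
  · by_cases c2 : t2 ∈ D
    · simp only [c1, c2, if_true] at hb
      exact absurd hb (by decide)
    · exact ⟨⟨t1, c1, hm1.2⟩, t2, hm2.1, c2, hm2.2⟩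
  · by_cases c2 : t2 ∈ D
    · exact ⟨⟨t2, c2, hm2.2⟩, t1, hm1.1, c1, hm1.2⟩
    · simp only [c1, c2, if_false] at hb
      exact absurd hb (by decide)

/-- an edge with a triangle in `D` and one outside is in the boundary -/
theorem A4_two' {T D : Finset (Finset V)} (hs : Sph T) {e : Finset V} (he : e ∈ edges T)
    {t t' : Finset V} (ht : t ∈ D) (htT : t ∈ T) (het : e ⊆ t) (ht' : t' ∈ T) (htD : t' ∉ D)
    (het' : e ⊆ t') : bd T (ind D) e = 1 := by
  obtain ⟨t1, t2, hne, h12⟩ := Finset.card_eq_two.1 (hs.two e he)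
  have h1 : t ∈ ({t1, t2} : Finset (Finset V)) := by
    rw [← h12]; exact Finset.mem_filter.2 ⟨htT, het⟩
  have h2 : t' ∈ ({t1, t2} : Finset (Finset V)) := by
    rw [← h12]; exact Finset.mem_filter.2 ⟨ht', het'⟩
  unfold bd
  rw [h12, Finset.sum_pair hne]
  unfold ind
  rw [Finset.mem_insert, Finset.mem_singleton] at h1 h2
  rcases h1 with rfl | rfl
  · rcases h2 with rfl | rfl
    · exact absurd ht htD
    · simp [ht, htD]
  · rcases h2 with rfl | rfl
    · simp [ht, htD]
    · exact absurd ht htD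

theorem A4_edge_inj {T D : Finset (Finset V)} {n : ℕ} {G : ℤ → V} (h : Cut T D n G)
    (hn : 3 ≤ n) {i j : ℤ} (hij : ({G i, G (i + 1)} : Finset V) = {G j, G (j + 1)}) :
    (n : ℤ) ∣ i - j := by
  have h1 : G i ∈ ({G j, G (j + 1)} : Finset V) := by rw [← hij]; simp
  have h2 : G (i + 1) ∈ ({G j, G (j + 1)} : Finset V) := by rw [← hij]; simp
  rw [Finset.mem_insert, Finset.mem_singleton] at h1 h2
  rcases h1 with h1 | h1
  · exact h.inj _ _ h1
  · rcases h2 with h2 | h2
    · have a1 := h.inj _ _ h1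
      have a2 := h.inj _ _ h2
      have a3 : (n : ℤ) ∣ 2 := by
        have := dvd_sub a2 a1
        have e1 : i + 1 - j - (i - (j + 1)) = 2 := by ring
        rwa [e1] at this
      have := Int.le_of_dvd (by norm_num) a3
      omega
    · have a2 := h.inj _ _ h2
      have e1 : i + 1 - (j + 1) = i - j := by ring
      rwa [e1] at a2

theorem A4_small {n : ℤ} {x : ℤ} (h : n ∣ x) (h1 : -n < x) (h2 : x < n) : x = 0 := by
  obtain ⟨k, rfl⟩ := h
  have hn : 0 < n := by linarith
  have hk : k = 0 := by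
    have : k < 1 := by nlinarith
    have : -1 < k := by nlinarith
    omega
  simp [hk]

/-- the chain of an arc -/
noncomputable def A4_arc (G : ℤ → V) (c d : ℤ) (e : Finset V) : ZMod 2 :=
  ∑ i ∈ Ico c d, if e = {G i, G (i + 1)} then 1 else 0

theorem A4_arc_deg {T D : Finset (Finset V)} {n : ℕ} {G : ℤ → V} (h : Cut T D n G)
    (hn : 2 ≤ n) (c : ℤ) (m : ℕ) (v : V) :
    deg T (A4_arc G c (c + m)) v = (if v = G c then 1 else 0) + (if v = G (c + m) then 1 else 0) := by
  have hne : ∀ i, G i ≠ G (i + 1) := by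
    intro i hi
    have := h.inj _ _ hi
    have e1 : i - (i + 1) = -1 := by ring
    rw [e1] at this
    have := Int.le_of_dvd (by norm_num) ((Int.dvd_neg).1 this)
    omega
  induction m with
  | zero =>
    have : A4_arc G c (c + (0 : ℕ)) = fun _ => 0 := by
      funext e; unfold A4_arc; simp
    rw [this]
    have h0 : deg T (fun _ => (0 : ZMod 2)) v = 0 := by unfold deg; simp
    rw [h0]
    simp [CharTwo.add_self_eq_zero]
  | succ m ih =>
    have e1 : A4_arc G c (c + ((m + 1 : ℕ) : ℤ)) = fun e => A4_arc G c (c + m) e +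
        (if e = {G (c + m), G (c + m + 1)} then 1 else 0) := by
      funext e
      unfold A4_arc
      have e2 : Ico c (c + ((m + 1 : ℕ) : ℤ)) = insert (c + m) (Ico c (c + m)) := by
        ext x; simp only [mem_Ico, mem_insert]; push_cast; omega
      rw [e2, Finset.sum_insert (by simp), add_comm]
    rw [e1, A4_deg_add, ih, A4_deg_single T _ _ (hne _) (h.edge _)]
    have e3 : c + ((m + 1 : ℕ) : ℤ) = c + m + 1 := by push_cast; ring
    rw [e3]
    have := CharTwo.add_self_eq_zero (if v = G (c + m) then (1 : ZMod 2) else 0)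
    linear_combination this

theorem A4_arc_zero {G : ℤ → V} {c d : ℤ} {e : Finset V}
    (h : ∀ i, c ≤ i → i < d → e ≠ {G i, G (i + 1)}) : A4_arc G c d e = 0 := by
  unfold A4_arc
  apply Finset.sum_eq_zero
  intro i hi
  rw [Finset.mem_Ico] at hi
  rw [if_neg (h i hi.1 hi.2)]

theorem A4_arc_one {T D : Finset (Finset V)} {n : ℕ} {G : ℤ → V} (h : Cut T D n G)
    (hn : 3 ≤ n) {c d j : ℤ} (hd : d ≤ c + n) (hj : c ≤ j) (hj' : j < d) {e : Finset V}
    (he : e = {G j, G (j + 1)}) : A4_arc G c d e = 1 := by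
  unfold A4_arc
  rw [Finset.sum_eq_single j]
  · rw [if_pos he]
  · intro i hi hij
    rw [if_neg]
    intro h2
    rw [Finset.mem_Ico] at hi
    have h3 := A4_edge_inj h hn (h2.symm.trans he)
    have := A4_small h3 (by omega) (by omega)
    omega
  · intro h2
    exact absurd (Finset.mem_Ico.2 ⟨hj, hj'⟩) h2

end A4

theorem stCross (hdual : StDual) : StCross := by
  intro V _ T D n G hC a b c e hab hbc hce hen w l l' L L' hP hQ
  by_contra hno
  push Not at hno
  have hn : 3 ≤ n := by omega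
  have hs := hC.sph
  obtain ⟨hC', -⟩ := hdual V T D n G hC
  obtain ⟨-, hdual2⟩ := hdual V T (T \ D) n G hC'
  obtain ⟨zP, hzP1, hzP2⟩ := A4_chain hC.sub hP
  obtain ⟨m, hm⟩ : ∃ m : ℕ, a + n = c + m := ⟨(a + n - c).toNat, by omega⟩
  have hdegA := A4_arc_deg hC (by omega) c m
  rw [← hm] at hdegA
  obtain ⟨X, hX⟩ := hs.h1 (fun t => zP t + A4_arc G c (a + n) t) (by
    intro v
    rw [A4_deg_add, hzP2, hdegA, hC.per a]
    have h1 := CharTwo.add_self_eq_zero (if v = G a then (1 : ZMod 2) else 0)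
    have h2 := CharTwo.add_self_eq_zero (if v = G c then (1 : ZMod 2) else 0)
    linear_combination h1 + h2)
  have hPL := A4_ends hP
  have hQL := A4_ends hQ
  -- the path `P` does not use edges at vertices outside `L`
  have hP0 : ∀ v, v ∉ L → ∀ f : Finset V, v ∈ f → zP f = 0 := by
    intro v hv f hvf
    by_contra h0
    obtain ⟨p, hp, q, hq, -, rfl⟩ := hzP1 f h0
    rw [Finset.mem_insert, Finset.mem_singleton] at hvf
    rcases hvf with rfl | rfl
    · exact hv hp
    · exact hv hq
  -- vertices off the arc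
  have hoff : ∀ v, v ∉ L → (∀ j, c ≤ j → j ≤ a + n → v ≠ G j) → ∀ t ∈ T, ∀ t' ∈ T, v ∈ t → v ∈ t' →
      X t = X t' := by
    intro v hv hj
    apply hs.star v X
    intro f hf hvf
    rw [hX f hf, hP0 v hv f hvf, A4_arc_zero, add_zero]
    rintro i hi1 hi2 rfl
    rw [Finset.mem_insert, Finset.mem_singleton] at hvf
    rcases hvf with h1 | h1
    · exact hj i hi1 (by omega) h1
    · exact hj (i + 1) (by omega) (by omega) h1
  -- vertices inside the arc
  have hon : ∀ v, v ∉ L → ∀ j, c ≤ j → j ≤ a + n → v = G j → ∀ t ∈ T, ∀ t' ∈ T, v ∈ t → v ∈ t' →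
      X t + ind D t = X t' + ind D t' := by
    intro v hv j hj1 hj2 hvj
    have hjc : j ≠ c := by
      rintro rfl; exact hv (hvj ▸ hPL.2)
    have hja : j ≠ a + n := by
      rintro rfl
      rw [hC.per a] at hvj
      exact hv (hvj ▸ hPL.1)
    apply hs.star v (fun t => X t + ind D t)
    intro f hf hvf
    rw [A4_bd_add, hX f hf]
    rw [hP0 v hv f hvf, zero_add]
    by_cases hg : ∃ i, f = {G i, G (i + 1)}
    · rw [(hC.bdry f hf).2 hg]
      obtain ⟨i, hi⟩ := hg
      have hcase : f = {G j, G (j + 1)} ∨ f = {G (j - 1), G (j - 1 + 1)} := by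
        have h1 : v ∈ ({G i, G (i + 1)} : Finset V) := hi ▸ hvf
        rw [Finset.mem_insert, Finset.mem_singleton] at h1
        have hper : ∀ x k : ℤ, G (x + n * k) = G x := by
          intro x k
          induction k using Int.induction_on with
          | zero => simp
          | succ k ih =>
            have : x + n * ((k : ℤ) + 1) = (x + n * k) + n := by ring
            rw [this, hC.per, ih]
          | pred k ih =>
            have : x + n * (-(k : ℤ)) = (x + n * (-(k : ℤ) - 1)) + n := by ring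
            rw [this, hC.per] at ih
            exact ih
        rcases h1 with h1 | h1
        · left
          have h2 := hC.inj i j (by rw [← h1, hvj])
          obtain ⟨k, hk⟩ := h2
          have e1 : i = j + n * k := by omega
          have e2 : i + 1 = (j + 1) + n * k := by omega
          rw [hi, e2, e1, hper, hper]
        · right
          have h2 := hC.inj (i + 1) j (by rw [← h1, hvj])
          obtain ⟨k, hk⟩ := h2
          have e1 : i = (j - 1) + n * k := by omega
          have e2 : i + 1 = (j - 1 + 1) + n * k := by omega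
          rw [hi, e2, e1, hper, hper]
      rcases hcase with h1 | h1
      · rw [A4_arc_one hC hn (by omega) hj1 (by omega) h1]; decide
      · rw [A4_arc_one hC hn (by omega) (by omega) (by omega) h1]; decide
    · have h1 : bd T (ind D) f = 0 := by
        rcases A4_zmod (bd T (ind D) f) with h1 | h1
        · exact h1
        · exact absurd ((hC.bdry f hf).1 h1) hg
      rw [h1, A4_arc_zero, add_zero]
      intro i _ _ hi
      exact hg ⟨i, hi⟩
  -- constancy on the triangles of `D` around the vertices of `Q`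
  have hQX : ∀ v ∈ L', ∀ t ∈ D, ∀ t' ∈ D, v ∈ t → v ∈ t' → X t = X t' := by
    intro v hv t ht t' ht' hvt hvt'
    have hvL : v ∉ L := fun h => hno v h hv
    by_cases hj : ∃ j, c ≤ j ∧ j ≤ a + n ∧ v = G j
    · obtain ⟨j, hj1, hj2, hj3⟩ := hj
      have := hon v hvL j hj1 hj2 hj3 t (hC.sub ht) t' (hC.sub ht') hvt hvt'
      unfold ind at this
      rw [if_pos ht, if_pos ht'] at this
      exact add_right_cancel this
    · push Not at hj
      exact hoff v hvL hj t (hC.sub ht) t' (hC.sub ht') hvt hvt'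
  have hconst := A4_prop X hQ hQX
  -- constancy outside `D`
  have hout : ∀ t ∈ T \ D, ∀ t' ∈ T \ D, X t = X t' := by
    apply hdual2
    rintro f hf hg ⟨t, ht, hft⟩
    rw [hX f hf]
    rw [A4_arc_zero (fun i _ _ => hg i), add_zero]
    by_contra h0
    obtain ⟨p, hp, q, hq, ⟨hpq, t1, ht1, hp1, hq1⟩, rfl⟩ := hzP1 f h0
    rw [Finset.mem_sdiff] at ht
    have h1 : bd T (ind D) {p, q} = 1 := by
      refine A4_two' hs hf ht1 (hC.sub ht1) ?_ ht.1 ht.2 hft
      intro x hx
      rw [Finset.mem_insert, Finset.mem_singleton] at hx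
      rcases hx with rfl | rfl <;> assumption
    obtain ⟨i, hi⟩ := (hC.bdry _ hf).1 h1
    exact hg i hi
  -- the triangles at `G b` and `G e`
  obtain ⟨⟨tb, htb, hb1⟩, tb', htb', htbD, hb2⟩ :=
    A4_two hs (hC.edge b) ((hC.bdry _ (hC.edge b)).2 ⟨b, rfl⟩)
  obtain ⟨⟨te, hte, he1⟩, te', hte', hteD, he2⟩ :=
    A4_two hs (hC.edge e) ((hC.bdry _ (hC.edge e)).2 ⟨e, rfl⟩)
  have mb : ∀ {t : Finset V} {i : ℤ}, ({G i, G (i + 1)} : Finset V) ⊆ t → G i ∈ t :=
    fun h => h (by simp)
  have hbL : G b ∉ L := fun h => hno _ h hQL.1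
  have heL : G e ∉ L := fun h => hno _ h hQL.2
  have h1 : X tb = X tb' := by
    apply hoff (G b) hbL ?_ tb (hC.sub htb) tb' htb' (mb hb1) (mb hb2)
    intro j hj1 hj2 hj3
    have := A4_small (hC.inj _ _ hj3) (by omega) (by omega)
    omega
  have h2 : X te + ind D te = X te' + ind D te' :=
    hon (G e) heL e hce.le hen.le rfl te (hC.sub hte) te' hte' (mb he1) (mb he2)
  have h3 : X tb = X te := hconst tb htb (mb hb1) te hte (mb he1)
  have h4 : X tb' = X te' := hout tb' (Finset.mem_sdiff.2 ⟨htb', htbD⟩) te'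
    (Finset.mem_sdiff.2 ⟨hte', hteD⟩)
  unfold ind at h2
  rw [if_pos hte, if_neg hteD, add_zero, ← h3, h1, h4] at h2
  rcases A4_zmod (X te') with h5 | h5 <;> rw [h5] at h2 <;> exact absurd h2 (by decide)

end Pool.Agent.Lib.MP_87489e_co.HT
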