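import Mathlib
import Pool.Agent.Lib.MP_87489e_co.HT.Stmts
import Pool.Agent.Lib.MP_87489e_co.HT.Basic
import Pool.Agent.Lib.MP_87489e_co.HT.A4

set_option autoImplicit false

/-!
A5: the boundary curve under one subdivision.
-/

namespace Pool.Agent.Lib.MP_87489e_co.HT

open Finset

section A5

variable {V : Type} [DecidableEq V] {T D : Finset (Finset V)} {u v m : V}

theorem A5_mem_sub {t' : Finset V} :
    t' ∈ sub T u v m ↔ (t' ∈ T ∧ ¬ ({u, v} : Finset V) ⊆ t') ∨
      ∃ t ∈ T, ({u, v} : Finset V) ⊆ t ∧ (t' = insert m (t.erase u) ∨ t' = insert m (t.erase v)) := by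
  unfold sub
  simp only [mem_union, mem_filter, mem_image]
  constructor
  · rintro (h | ⟨t, h, rfl⟩ | ⟨t, h, rfl⟩)
    · exact Or.inl h
    · exact Or.inr ⟨t, h.1, h.2, Or.inl rfl⟩
    · exact Or.inr ⟨t, h.1, h.2, Or.inr rfl⟩
  · rintro (h | ⟨t, h1, h2, rfl | rfl⟩)
    · exact Or.inl h
    · exact Or.inr (Or.inl ⟨t, ⟨h1, h2⟩, rfl⟩)
    · exact Or.inr (Or.inr ⟨t, ⟨h1, h2⟩, rfl⟩)

theorem A5_symm : sub T u v m = sub T v u m := by
  ext t'
  rw [A5_mem_sub, A5_mem_sub, pair_comm u v]
  constructor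
  · rintro (h | ⟨t, h1, h2, h3⟩)
    · exact Or.inl h
    · exact Or.inr ⟨t, h1, h2, h3.symm⟩
  · rintro (h | ⟨t, h1, h2, h3⟩)
    · exact Or.inl h
    · exact Or.inr ⟨t, h1, h2, h3.symm⟩

theorem A5_pair_sub {t : Finset V} : ({u, v} : Finset V) ⊆ t ↔ u ∈ t ∧ v ∈ t := by
  rw [insert_subset_iff, singleton_subset_iff]

theorem A5_ins_inj (hm : ∀ t ∈ T, m ∉ t) {t t' : Finset V} (ht : t ∈ T) (ht' : t' ∈ T)
    (hu : u ∈ t) (hu' : u ∈ t') (h : insert m (t.erase u) = insert m (t'.erase u)) : t = t' := by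
  have h1 : m ∉ t.erase u := fun hh => hm t ht (mem_of_mem_erase hh)
  have h2 : m ∉ t'.erase u := fun hh => hm t' ht' (mem_of_mem_erase hh)
  have h3 : t.erase u = t'.erase u := by
    rw [← erase_insert h1, h, erase_insert h2]
  rw [← insert_erase hu, h3, insert_erase hu']

theorem A5_ins_ne (huv : u ≠ v) {t t' : Finset V} (hu' : u ∈ t') (hmu : m ≠ u) :
    insert m (t.erase u) ≠ insert m (t'.erase v) := by
  intro h
  have h1 : u ∈ insert m (t'.erase v) := mem_insert_of_mem (mem_erase.2 ⟨huv, hu'⟩)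
  rw [← h, mem_insert, mem_erase] at h1
  rcases h1 with h1 | h1
  · exact hmu h1.symm
  · exact h1.1 rfl

theorem A5_sum (hm : ∀ t ∈ T, m ∉ t) (huv : u ≠ v) (f : Finset V → ZMod 2) :
    ∑ t' ∈ sub T u v m, f t' = ∑ t ∈ T.filter (fun t => ¬ ({u, v} : Finset V) ⊆ t), f t +
      ∑ t ∈ T.filter (fun t => ({u, v} : Finset V) ⊆ t),
        (f (insert m (t.erase u)) + f (insert m (t.erase v))) := by
  unfold sub
  rw [sum_union, sum_union, sum_image, sum_image, sum_add_distrib]
  · intro t ht t' ht' h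
    rw [mem_coe, mem_filter, A5_pair_sub] at ht ht'
    exact A5_ins_inj hm ht.1 ht'.1 ht.2.2 ht'.2.2 h
  · intro t ht t' ht' h
    rw [mem_coe, mem_filter, A5_pair_sub] at ht ht'
    exact A5_ins_inj hm ht.1 ht'.1 ht.2.1 ht'.2.1 h
  · rw [disjoint_left]
    intro s hs hs'
    rw [mem_image] at hs hs'
    obtain ⟨t, ht, rfl⟩ := hs
    obtain ⟨t', ht', h⟩ := hs'
    rw [mem_filter, A5_pair_sub] at ht ht'
    exact A5_ins_ne huv ht'.2.1 (fun hh : m = u => hm t ht.1 (hh ▸ ht.2.1)) h.symm
  · rw [disjoint_left]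
    intro s hs hs'
    rw [mem_filter] at hs
    rw [mem_union, mem_image, mem_image] at hs'
    rcases hs' with ⟨t, _, rfl⟩ | ⟨t, _, rfl⟩
    · exact hm _ hs.1 (mem_insert_self _ _)
    · exact hm _ hs.1 (mem_insert_self _ _)

theorem A5_ind_old (hm : ∀ t ∈ T, m ∉ t) {t : Finset V} (ht : t ∈ T)
    (hn : ¬ ({u, v} : Finset V) ⊆ t) : ind (sub D u v m) t = ind D t := by
  have : t ∈ sub D u v m ↔ t ∈ D := by
    rw [A5_mem_sub]
    constructor
    · rintro (h | ⟨t', _, _, rfl | rfl⟩)
      · exact h.1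
      · exact absurd (mem_insert_self _ _) (hm _ ht)
      · exact absurd (mem_insert_self _ _) (hm _ ht)
    · exact fun h => Or.inl ⟨h, hn⟩
  unfold ind
  simp only [this]

theorem A5_ind_new (hD : D ⊆ T) (hm : ∀ t ∈ T, m ∉ t) (huv : u ≠ v) {t : Finset V} (ht : t ∈ T)
    (hs : ({u, v} : Finset V) ⊆ t) : ind (sub D u v m) (insert m (t.erase u)) = ind D t := by
  have hs' := hs
  rw [A5_pair_sub] at hs
  have hmu : m ≠ u := fun hh => hm t ht (hh ▸ hs.1)
  have : insert m (t.erase u) ∈ sub D u v m ↔ t ∈ D := by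
    rw [A5_mem_sub]
    constructor
    · rintro (h | ⟨t', h1, h2, h3 | h3⟩)
      · exact absurd (mem_insert_self _ _) (hm _ (hD h.1))
      · rw [A5_pair_sub] at h2
        rw [A5_ins_inj hm ht (hD h1) hs.1 h2.1 h3]
        exact h1
      · rw [A5_pair_sub] at h2
        exact absurd h3 (A5_ins_ne huv h2.1 hmu)
    · exact fun h => Or.inr ⟨t, h, hs', Or.inl rfl⟩
  unfold ind
  simp only [this]

theorem A5_ind_new' (hD : D ⊆ T) (hm : ∀ t ∈ T, m ∉ t) (huv : u ≠ v) {t : Finset V} (ht : t ∈ T)
    (hs : ({u, v} : Finset V) ⊆ t) : ind (sub D u v m) (insert m (t.erase v)) = ind D t := by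
  rw [A5_symm]
  apply A5_ind_new hD hm huv.symm ht
  rwa [pair_comm]

theorem A5_bd_eq (X : Finset V → ZMod 2) (e : Finset V) :
    bd T X e = ∑ t ∈ T, if e ⊆ t then X t else 0 := by
  unfold bd
  rw [sum_filter]

theorem A5_bd (hD : D ⊆ T) (hm : ∀ t ∈ T, m ∉ t) (huv : u ≠ v) (e : Finset V) :
    bd (sub T u v m) (ind (sub D u v m)) e =
      ∑ t ∈ T.filter (fun t => ¬ ({u, v} : Finset V) ⊆ t), (if e ⊆ t then ind D t else 0) +
      ∑ t ∈ T.filter (fun t => ({u, v} : Finset V) ⊆ t),
        ((if e ⊆ insert m (t.erase u) then ind D t else 0) +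
          (if e ⊆ insert m (t.erase v) then ind D t else 0)) := by
  rw [A5_bd_eq, A5_sum hm huv]
  congr 1
  · apply sum_congr rfl
    intro t ht
    rw [mem_filter] at ht
    rw [A5_ind_old hm ht.1 ht.2]
  · apply sum_congr rfl
    intro t ht
    rw [mem_filter] at ht
    rw [A5_ind_new hD hm huv ht.1 ht.2, A5_ind_new' hD hm huv ht.1 ht.2]

/-- an edge of a triangle containing `u, v` misses exactly one of them -/
theorem A5_one {t e : Finset V} (huv : u ≠ v) (ht : t.card = 3) (he : e.card = 2) (het : e ⊆ t)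
    (hs : ({u, v} : Finset V) ⊆ t) (hne : e ≠ {u, v}) : (u ∈ e ∧ v ∉ e) ∨ (u ∉ e ∧ v ∈ e) := by
  rw [A5_pair_sub] at hs
  by_cases hu : u ∈ e
  · by_cases hv : v ∈ e
    · exfalso
      apply hne
      symm
      apply eq_of_subset_of_card_le (A5_pair_sub.2 ⟨hu, hv⟩)
      rw [he, card_pair huv]
    · exact Or.inl ⟨hu, hv⟩
  · by_cases hv : v ∈ e
    · exact Or.inr ⟨hu, hv⟩
    · exfalso
      have h1 : e ⊆ (t.erase u).erase v := by
        intro x hx
        rw [mem_erase, mem_erase]
        exact ⟨fun h => hv (h ▸ hx), fun h => hu (h ▸ hx), het hx⟩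
      have h2 := card_le_card h1
      rw [card_erase_of_mem (mem_erase.2 ⟨huv.symm, hs.2⟩), card_erase_of_mem hs.1, ht, he] at h2
      omega

theorem A5_bd_old (h3 : ∀ t ∈ T, t.card = 3) (hD : D ⊆ T) (hm : ∀ t ∈ T, m ∉ t) (huv : u ≠ v)
    {e : Finset V} (he : e.card = 2) (hme : m ∉ e) (hne : e ≠ {u, v}) :
    bd (sub T u v m) (ind (sub D u v m)) e = bd T (ind D) e := by
  rw [A5_bd hD hm huv, A5_bd_eq,
    ← sum_filter_add_sum_filter_not T (fun t => ({u, v} : Finset V) ⊆ t), add_comm]
  congr 1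
  apply sum_congr rfl
  intro t ht
  rw [mem_filter] at ht
  have e1 : ∀ w, e ⊆ insert m (t.erase w) ↔ e ⊆ t ∧ w ∉ e := by
    intro w
    constructor
    · intro h
      refine ⟨fun x hx => ?_, fun hw => ?_⟩
      · rcases mem_insert.1 (h hx) with h1 | h1
        · exact absurd (h1 ▸ hx) hme
        · exact mem_of_mem_erase h1
      · rcases mem_insert.1 (h hw) with h1 | h1
        · exact hme (h1 ▸ hw)
        · exact (mem_erase.1 h1).1 rfl
    · rintro ⟨h1, h2⟩ x hx
      exact mem_insert_of_mem (mem_erase.2 ⟨fun h => h2 (h ▸ hx), h1 hx⟩)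
  by_cases het : e ⊆ t
  · rw [if_pos het]
    rcases A5_one huv (h3 t ht.1) he het ht.2 hne with h | h
    · rw [if_neg (fun hh => ((e1 u).1 hh).2 h.1), if_pos ((e1 v).2 ⟨het, h.2⟩), zero_add]
    · rw [if_pos ((e1 u).2 ⟨het, h.1⟩), if_neg (fun hh => ((e1 v).1 hh).2 h.2), add_zero]
  · rw [if_neg het, if_neg (fun hh => het ((e1 u).1 hh).1), if_neg (fun hh => het ((e1 v).1 hh).1),
      add_zero]

theorem A5_bd_new (hD : D ⊆ T) (hm : ∀ t ∈ T, m ∉ t) (huv : u ≠ v) (hmu : m ≠ u) :
    bd (sub T u v m) (ind (sub D u v m)) {m, u} = bd T (ind D) {u, v} := by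
  rw [A5_bd hD hm huv, A5_bd_eq]
  have e1 : ∑ t ∈ T.filter (fun t => ¬ ({u, v} : Finset V) ⊆ t),
      (if ({m, u} : Finset V) ⊆ t then ind D t else 0) = 0 := by
    apply sum_eq_zero
    intro t ht
    rw [mem_filter] at ht
    rw [if_neg]
    intro h
    exact hm t ht.1 (h (by simp))
  rw [e1, zero_add, sum_filter]
  apply sum_congr rfl
  intro t ht
  by_cases h : ({u, v} : Finset V) ⊆ t
  · rw [if_pos h, if_pos h]
    rw [A5_pair_sub] at h
    rw [if_neg, if_pos, zero_add]
    · intro x hx
      rw [mem_insert, mem_singleton] at hx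
      rcases hx with rfl | rfl
      · exact mem_insert_self _ _
      · exact mem_insert_of_mem (mem_erase.2 ⟨huv, h.1⟩)
    · intro hh
      have h1 := hh (show u ∈ ({m, u} : Finset V) by simp)
      rw [mem_insert, mem_erase] at h1
      rcases h1 with h1 | h1
      · exact hmu h1.symm
      · exact h1.1 rfl
  · rw [if_neg h, if_neg h]

theorem A5_bd_new' (hD : D ⊆ T) (hm : ∀ t ∈ T, m ∉ t) (huv : u ≠ v) (hmv : m ≠ v) :
    bd (sub T u v m) (ind (sub D u v m)) {m, v} = bd T (ind D) {u, v} := by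
  rw [A5_symm, A5_symm (T := D), A5_bd_new hD hm huv.symm hmv, pair_comm]

theorem A5_bd_third (hD : D ⊆ T) (hm : ∀ t ∈ T, m ∉ t) (huv : u ≠ v) {x : V} (hxm : x ≠ m)
    (hxu : x ≠ u) (hxv : x ≠ v) : bd (sub T u v m) (ind (sub D u v m)) {m, x} = 0 := by
  rw [A5_bd hD hm huv]
  have e1 : ∑ t ∈ T.filter (fun t => ¬ ({u, v} : Finset V) ⊆ t),
      (if ({m, x} : Finset V) ⊆ t then ind D t else 0) = 0 := by
    apply sum_eq_zero
    intro t ht
    rw [mem_filter] at ht
    rw [if_neg]
    intro h
    exact hm t ht.1 (h (by simp))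
  rw [e1, zero_add]
  apply sum_eq_zero
  intro t ht
  have e2 : ∀ w, x ≠ w → (({m, x} : Finset V) ⊆ insert m (t.erase w) ↔ x ∈ t) := by
    intro w hw
    rw [A5_pair_sub]
    constructor
    · rintro ⟨_, h⟩
      rcases mem_insert.1 h with h | h
      · exact absurd h hxm
      · exact mem_of_mem_erase h
    · intro h
      exact ⟨mem_insert_self _ _, mem_insert_of_mem (mem_erase.2 ⟨hw, h⟩)⟩
  have two : ∀ y : ZMod 2, y + y = 0 := by decide
  by_cases h : x ∈ t
  · rw [if_pos ((e2 u hxu).2 h), if_pos ((e2 v hxv).2 h), two]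
  · rw [if_neg (fun hh => h ((e2 u hxu).1 hh)), if_neg (fun hh => h ((e2 v hxv).1 hh)), add_zero]

theorem A5_edge_cases {e : Finset V} (he : e ∈ edges (sub T u v m)) :
    (m ∉ e ∧ e ∈ edges T ∧ e ≠ {u, v}) ∨ ∃ x, x ≠ m ∧ e = {m, x} := by
  obtain ⟨t', ht', het, hc⟩ := mem_edges.1 he
  by_cases hme : m ∈ e
  · right
    obtain ⟨a, b, hab, rfl⟩ := card_eq_two.1 hc
    rw [mem_insert, mem_singleton] at hme
    rcases hme with rfl | rfl
    · exact ⟨b, hab.symm, rfl⟩
    · exact ⟨a, hab, pair_comm _ _⟩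
  · left
    have key : ∀ (t : Finset V) (w : V), e ⊆ insert m (t.erase w) → e ⊆ t ∧ w ∉ e := by
      intro t w h
      refine ⟨fun x hx => ?_, fun hw => ?_⟩
      · rcases mem_insert.1 (h hx) with h1 | h1
        · exact absurd (h1 ▸ hx) hme
        · exact mem_of_mem_erase h1
      · rcases mem_insert.1 (h hw) with h1 | h1
        · exact hme (h1 ▸ hw)
        · exact (mem_erase.1 h1).1 rfl
    rcases A5_mem_sub.1 ht' with ⟨h1, h2⟩ | ⟨t, h1, _, rfl | rfl⟩
    · exact ⟨hme, mem_edges.2 ⟨t', h1, het, hc⟩, fun h => h2 (h ▸ het)⟩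
    · obtain ⟨h3, h4⟩ := key t u het
      exact ⟨hme, mem_edges.2 ⟨t, h1, h3, hc⟩, fun h => h4 (by rw [h]; simp)⟩
    · obtain ⟨h3, h4⟩ := key t v het
      exact ⟨hme, mem_edges.2 ⟨t, h1, h3, hc⟩, fun h => h4 (by rw [h]; simp)⟩

theorem A5_edge_old (h3 : ∀ t ∈ T, t.card = 3) (huv : u ≠ v) {e : Finset V} (he : e ∈ edges T)
    (hne : e ≠ {u, v}) : e ∈ edges (sub T u v m) := by
  obtain ⟨t, ht, het, hc⟩ := mem_edges.1 he
  rw [mem_edges]
  by_cases hs : ({u, v} : Finset V) ⊆ t
  · rcases A5_one huv (h3 t ht) hc het hs hne with h | h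
    · refine ⟨insert m (t.erase v), A5_mem_sub.2 (Or.inr ⟨t, ht, hs, Or.inr rfl⟩), ?_, hc⟩
      intro x hx
      exact mem_insert_of_mem (mem_erase.2 ⟨fun hh => h.2 (hh ▸ hx), het hx⟩)
    · refine ⟨insert m (t.erase u), A5_mem_sub.2 (Or.inr ⟨t, ht, hs, Or.inl rfl⟩), ?_, hc⟩
      intro x hx
      exact mem_insert_of_mem (mem_erase.2 ⟨fun hh => h.1 (hh ▸ hx), het hx⟩)
  · exact ⟨t, A5_mem_sub.2 (Or.inl ⟨ht, hs⟩), het, hc⟩

theorem A5_edge_new (huv : u ≠ v) (he : ({u, v} : Finset V) ∈ edges T) (hmu : m ≠ u) :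
    ({m, u} : Finset V) ∈ edges (sub T u v m) := by
  obtain ⟨t, ht, het, _⟩ := mem_edges.1 he
  rw [mem_edges]
  refine ⟨insert m (t.erase v), A5_mem_sub.2 (Or.inr ⟨t, ht, het, Or.inr rfl⟩), ?_, card_pair hmu⟩
  rw [A5_pair_sub] at het
  intro x hx
  rw [mem_insert, mem_singleton] at hx
  rcases hx with rfl | rfl
  · exact mem_insert_self _ _
  · exact mem_insert_of_mem (mem_erase.2 ⟨huv, het.1⟩)

theorem A5_edge_new' (huv : u ≠ v) (he : ({u, v} : Finset V) ∈ edges T) (hmv : m ≠ v) :
    ({m, v} : Finset V) ∈ edges (sub T u v m) := by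
  rw [A5_symm]
  apply A5_edge_new huv.symm _ hmv
  rwa [pair_comm]

theorem A5_mono (hD : D ⊆ T) : sub D u v m ⊆ sub T u v m := by
  intro t ht
  rw [A5_mem_sub] at ht ⊢
  rcases ht with h | ⟨t', h1, h2⟩
  · exact Or.inl ⟨hD h.1, h.2⟩
  · exact Or.inr ⟨t', hD h1, h2⟩

variable {n : ℕ} {G : ℤ → V}

theorem A5_per (C : Cut T D n G) (i q : ℤ) : G (i + n * q) = G i := by
  have hp : Function.Periodic G (n : ℤ) := C.per
  have h1 := hp.int_mul q i
  rw [mul_comm (n : ℤ) q]
  simpa using h1

theorem A5_three (C : Cut T D n G) : 3 ≤ n := by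
  have hpos := C.pos
  by_contra hlt
  have hc : n = 1 ∨ n = 2 := by omega
  rcases hc with h1 | h2
  · obtain ⟨_, _, _, hc⟩ := mem_edges.1 (C.edge 0)
    have e1 : G (0 + 1) = G 0 := by
      have := C.per 0
      rw [h1] at this
      simpa using this
    rw [e1] at hc
    simp at hc
  · have h := deg_bd C.sph (ind D) (G 0)
    unfold deg at h
    have e0 : G 0 ∈ ({G 0, G (0 + 1)} : Finset V) := by simp
    rw [sum_eq_single_of_mem ({G 0, G (0 + 1)} : Finset V) (mem_filter.2 ⟨C.edge 0, e0⟩)] at h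
    · rw [(C.bdry _ (C.edge 0)).2 ⟨0, rfl⟩] at h
      exact one_ne_zero h
    · intro e he hne
      rw [mem_filter] at he
      rcases zmod2_cases (bd T (ind D) e) with h0 | h0
      · exact h0
      · exfalso
        obtain ⟨i, hi⟩ := (C.bdry e he.1).1 h0
        apply hne
        rw [hi]
        have hper : ∀ j : ℤ, G (j + 2 * (-(i / 2))) = G j := by
          intro j
          have := A5_per C j (-(i / 2))
          rw [h2] at this
          simpa using this
        have hi2 : i + 2 * (-(i / 2)) = 0 ∨ i + 2 * (-(i / 2)) = 1 := by omega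
        rcases hi2 with h3 | h3
        · rw [← hper i, ← hper (i + 1), h3]
          have : i + 1 + 2 * (-(i / 2)) = 0 + 1 := by omega
          rw [this]
        · rw [← hper i, ← hper (i + 1), h3]
          have h4 : i + 1 + 2 * (-(i / 2)) = 0 + 2 * 1 := by omega
          have h5 : G (0 + 2 * 1) = G 0 := by
            have := A5_per C 0 1
            rw [h2] at this
            simpa using this
          rw [h4, h5, pair_comm]
          norm_num

end A5

/-- A5 -/
theorem stCutStep (hSub : StSub) : StCutStep := by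
  intro V _ T D n G u v m C huv he hm
  have h3 := C.sph.card3
  have hD := C.sub
  have hn3 : 3 ≤ n := A5_three C
  obtain ⟨t0, ht0, hs0, _⟩ := mem_edges.1 he
  rw [A5_pair_sub] at hs0
  have hmu : m ≠ u := fun h => hm t0 ht0 (h ▸ hs0.1)
  have hmv : m ≠ v := fun h => hm t0 ht0 (h ▸ hs0.2)
  have hGm : ∀ i, G i ≠ m := by
    intro i h
    obtain ⟨t, ht, hs, _⟩ := mem_edges.1 (C.edge i)
    exact hm t ht (h ▸ hs (by simp))
  have hsph : Sph (sub T u v m) := hSub V T u v m C.sph huv he hm
  by_cases hex : ∃ i, ({u, v} : Finset V) = {G i, G (i + 1)}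
  · -- insertion
    obtain ⟨i0, hi0⟩ := hex
    have hbuv : bd T (ind D) {u, v} = 1 := (C.bdry _ he).2 ⟨i0, hi0⟩
    have hswap : ∀ x, (x = u ∨ x = v) ↔ (x = G i0 ∨ x = G (i0 + 1)) := by
      intro x
      have : x ∈ ({u, v} : Finset V) ↔ x ∈ ({G i0, G (i0 + 1)} : Finset V) := by rw [hi0]
      simpa using this
    have nz : (0 : ℤ) < n := by omega
    have nz1 : (0 : ℤ) < (n : ℤ) + 1 := by omega
    set H : ℤ → V := fun i => G (i + (i0 + 1)) with hH
    set G' : ℤ → V := fun i => if i % ((n : ℤ) + 1) = n then m else H (i % ((n : ℤ) + 1)) with hG'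
    set ι : ℤ → ℤ := fun j => (j - (i0 + 1)) + (j - (i0 + 1)) / n with hι
    have hper : ∀ i q : ℤ, G (i + n * q) = G i := A5_per C
    have hG'ι : ∀ j, G' (ι j) = G j := by
      intro j
      set a := j - (i0 + 1) with ha
      have e1 := Int.emod_add_mul_ediv a n
      have r1 := Int.emod_nonneg a nz.ne'
      have r2 := Int.emod_lt_of_pos a nz
      have e2 : (a + a / n) % ((n : ℤ) + 1) = a % n := by
        have : a + a / n = a % n + ((n : ℤ) + 1) * (a / n) := by linarith
        rw [this, Int.add_mul_emod_self_left]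
        exact Int.emod_eq_of_lt r1 (by linarith)
      simp only [hG', hι]
      rw [← ha, e2, if_neg (by linarith)]
      simp only [hH]
      have e3 : j = a % n + (i0 + 1) + n * (a / n) := by linarith
      conv_rhs => rw [e3]
      rw [hper]
    -- the pairs
    have pair1 : ∀ i : ℤ, i % ((n : ℤ) + 1) = n →
        ({G' i, G' (i + 1)} : Finset V) = {m, G (i0 + 1)} := by
      intro i hi
      have e1 : (i + 1) % ((n : ℤ) + 1) = 0 := by
        rw [Int.add_emod, hi]
        rcases eq_or_ne ((1 : ℤ) % ((n : ℤ) + 1)) 1 with h | h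
        · rw [h]; exact Int.emod_self
        · exact absurd (Int.emod_eq_of_lt (by norm_num) (by linarith)) h
      simp only [hG']
      rw [if_pos hi, e1, if_neg (by linarith)]
      simp only [hH]
      rw [zero_add]
    have pair2 : ∀ i : ℤ, i % ((n : ℤ) + 1) = n - 1 →
        ({G' i, G' (i + 1)} : Finset V) = {m, G i0} := by
      intro i hi
      have e1 : (i + 1) % ((n : ℤ) + 1) = n := by
        rw [Int.add_emod, hi, Int.emod_eq_of_lt (by norm_num) (by linarith : (1 : ℤ) < (n : ℤ) + 1)]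
        rw [Int.emod_eq_of_lt (by linarith) (by linarith)]
        ring
      simp only [hG']
      rw [e1, if_pos rfl, hi, if_neg (by linarith)]
      simp only [hH]
      have e2 : (n : ℤ) - 1 + (i0 + 1) = i0 + n * 1 := by ring
      rw [e2, hper, pair_comm]
    have pair3 : ∀ i : ℤ, i % ((n : ℤ) + 1) < n - 1 →
        ({G' i, G' (i + 1)} : Finset V) = {G (i % ((n : ℤ) + 1) + (i0 + 1)),
          G (i % ((n : ℤ) + 1) + (i0 + 1) + 1)} := by
      intro i hi
      have r1 := Int.emod_nonneg i nz1.ne'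
      have e1 : (i + 1) % ((n : ℤ) + 1) = i % ((n : ℤ) + 1) + 1 := by
        rw [Int.add_emod, Int.emod_eq_of_lt (by norm_num) (by linarith : (1 : ℤ) < (n : ℤ) + 1)]
        exact Int.emod_eq_of_lt (by linarith) (by linarith)
      simp only [hG']
      rw [e1, if_neg (by linarith), if_neg (by linarith)]
      simp only [hH]
      have e2 : i % ((n : ℤ) + 1) + 1 + (i0 + 1) = i % ((n : ℤ) + 1) + (i0 + 1) + 1 := by ring
      rw [e2]
    have tri : ∀ i : ℤ, i % ((n : ℤ) + 1) = n ∨ i % ((n : ℤ) + 1) = n - 1 ∨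
        i % ((n : ℤ) + 1) < n - 1 := by
      intro i
      have r2 := Int.emod_lt_of_pos i nz1
      omega
    have old : ∀ i : ℤ, i % ((n : ℤ) + 1) < n - 1 →
        ({G' i, G' (i + 1)} : Finset V) ≠ {u, v} := by
      intro i hi h
      have r1 := Int.emod_nonneg i nz1.ne'
      rw [pair3 i hi, hi0] at h
      have d := A4_edge_inj C hn3 h
      have e1 : i % ((n : ℤ) + 1) + (i0 + 1) - i0 = i % ((n : ℤ) + 1) + 1 := by ring
      rw [e1] at d
      have := Int.le_of_dvd (by linarith) d
      linarith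
    have conv : ∀ j : ℤ, ({G j, G (j + 1)} : Finset V) ≠ {u, v} →
        ∃ i, ({G j, G (j + 1)} : Finset V) = {G' i, G' (i + 1)} := by
      intro j hj
      refine ⟨ι j, ?_⟩
      have e0 : ι (j + 1) = ι j + 1 := by
        simp only [hι]
        set a := j - (i0 + 1) with ha
        have ea : j + 1 - (i0 + 1) = a + 1 := by rw [ha]; ring
        rw [ea]
        have e1 := Int.emod_add_mul_ediv a n
        have r1 := Int.emod_nonneg a nz.ne'
        have r2 := Int.emod_lt_of_pos a nz
        have hne : a % n ≠ n - 1 := by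
          intro h
          apply hj
          rw [hi0]
          have e3 : j = i0 + n * (a / n + 1) := by
            rw [h] at e1
            rw [ha] at e1 ⊢
            linarith
          have e4 : j + 1 = i0 + 1 + n * (a / n + 1) := by linarith
          rw [e4, hper]
          conv_lhs => rw [e3]
          rw [hper]
        have r3 : a % n + 1 < n := by omega
        have e2 : (a + 1) / n = a / n := by
          have : a + 1 = (a % n + 1) + n * (a / n) := by linarith
          rw [this, Int.add_mul_ediv_left _ _ nz.ne']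
          rw [Int.ediv_eq_zero_of_lt (by linarith) r3, zero_add]
        rw [e2]; ring
      rw [hG'ι, ← e0, hG'ι]
    have pn : ({G' ((n : ℤ) - 1), G' ((n : ℤ) - 1 + 1)} : Finset V) = {m, G i0} :=
      pair2 _ (Int.emod_eq_of_lt (by linarith) (by linarith))
    have pm : ({G' (n : ℤ), G' ((n : ℤ) + 1)} : Finset V) = {m, G (i0 + 1)} :=
      pair1 _ (Int.emod_eq_of_lt (by linarith) (by linarith))
    have newedge : ∀ x, (x = u ∨ x = v) → ({m, x} : Finset V) ∈ edges (sub T u v m) := by
      rintro x (rfl | rfl)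
      · exact A5_edge_new huv he hmu
      · exact A5_edge_new' huv he hmv
    refine ⟨n + 1, G', ι, ⟨hsph, A5_mono hD, by omega, ?_, ?_, ?_, ?_⟩, ?_, ?_, hG'ι⟩
    · intro i
      simp only [hG']
      have : (i + ((n + 1 : ℕ) : ℤ)) % ((n : ℤ) + 1) = i % ((n : ℤ) + 1) := by
        push_cast
        exact Int.add_emod_right i ((n : ℤ) + 1)
      rw [this]
    · intro i j h
      have key : i % ((n : ℤ) + 1) = j % ((n : ℤ) + 1) := by
        have ri := Int.emod_nonneg i nz1.ne'
        have rj := Int.emod_nonneg j nz1.ne'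
        have si := Int.emod_lt_of_pos i nz1
        have sj := Int.emod_lt_of_pos j nz1
        simp only [hG'] at h
        by_cases h1 : i % ((n : ℤ) + 1) = n
        · by_cases h2 : j % ((n : ℤ) + 1) = n
          · rw [h1, h2]
          · rw [if_pos h1, if_neg h2] at h
            exact absurd h.symm (hGm _)
        · by_cases h2 : j % ((n : ℤ) + 1) = n
          · rw [if_neg h1, if_pos h2] at h
            exact absurd h (hGm _)
          · rw [if_neg h1, if_neg h2] at h
            have d := C.inj _ _ h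
            have e1 : i % ((n : ℤ) + 1) + (i0 + 1) - (j % ((n : ℤ) + 1) + (i0 + 1)) =
                i % ((n : ℤ) + 1) - j % ((n : ℤ) + 1) := by ring
            rw [e1] at d
            have h5 : i % ((n : ℤ) + 1) < n := by omega
            have h6 : j % ((n : ℤ) + 1) < n := by omega
            have := A4_small d (by linarith) (by linarith)
            linarith
      have := Int.emod_emod_of_dvd
      push_cast
      exact Int.dvd_of_emod_eq_zero (by rw [Int.sub_emod, key, sub_self]; exact Int.zero_emod _)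
    · intro i
      rcases tri i with h | h | h
      · rw [pair1 i h]
        exact newedge _ ((hswap _).2 (Or.inr rfl))
      · rw [pair2 i h]
        exact newedge _ ((hswap _).2 (Or.inl rfl))
      · have h1 := old i h
        rw [pair3 i h] at h1 ⊢
        exact A5_edge_old h3 huv (C.edge _) h1
    · intro e hee
      rcases A5_edge_cases hee with ⟨hme, heT, hne⟩ | ⟨x, hxm, rfl⟩
      · rw [A5_bd_old h3 hD hm huv (mem_edges.1 heT).choose_spec.2.2 hme hne, C.bdry e heT]
        constructor
        · rintro ⟨j, rfl⟩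
          exact conv j hne
        · rintro ⟨i, hi⟩
          rcases tri i with h | h | h
          · rw [pair1 i h] at hi
            exact absurd (by rw [hi]; simp) hme
          · rw [pair2 i h] at hi
            exact absurd (by rw [hi]; simp) hme
          · rw [pair3 i h] at hi
            exact ⟨_, hi⟩
      · by_cases hx : x = u ∨ x = v
        · have hb : bd (sub T u v m) (ind (sub D u v m)) {m, x} = 1 := by
            rcases hx with rfl | rfl
            · rw [A5_bd_new hD hm huv hmu, hbuv]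
            · rw [A5_bd_new' hD hm huv hmv, hbuv]
          refine ⟨fun _ => ?_, fun _ => hb⟩
          rcases (hswap x).1 hx with rfl | rfl
          · exact ⟨_, pn.symm⟩
          · exact ⟨_, pm.symm⟩
        · have hx' := hx
          rw [not_or] at hx
          rw [A5_bd_third hD hm huv hxm hx.1 hx.2]
          constructor
          · intro h; exact absurd h zero_ne_one
          · rintro ⟨i, hi⟩
            exfalso
            have hxmem : x ∈ ({m, x} : Finset V) := by simp
            have hmmem : m ∈ ({m, x} : Finset V) := by simp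
            rcases tri i with h | h | h
            · rw [hi, pair1 i h, mem_insert, mem_singleton] at hxmem
              rcases hxmem with h1 | h1
              · exact hxm h1
              · exact hx' ((hswap x).2 (Or.inr h1))
            · rw [hi, pair2 i h, mem_insert, mem_singleton] at hxmem
              rcases hxmem with h1 | h1
              · exact hxm h1
              · exact hx' ((hswap x).2 (Or.inl h1))
            · rw [hi, pair3 i h, mem_insert, mem_singleton] at hmmem
              rcases hmmem with h1 | h1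
              · exact hGm _ h1.symm
              · exact hGm _ h1.symm
    · apply strictMono_int_of_lt_succ
      intro j
      simp only [hι]
      have : (j - (i0 + 1)) / (n : ℤ) ≤ (j + 1 - (i0 + 1)) / (n : ℤ) :=
        Int.ediv_le_ediv nz (by linarith)
      linarith
    · intro j
      simp only [hι]
      have e1 : j + (n : ℤ) - (i0 + 1) = (j - (i0 + 1)) + n * 1 := by ring
      rw [e1, Int.add_mul_ediv_left _ _ nz.ne']
      push_cast
      ring
  · -- nothing happens
    push Not at hex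
    have hb0 : bd T (ind D) {u, v} = 0 := by
      rcases zmod2_cases (bd T (ind D) {u, v}) with h | h
      · exact h
      · obtain ⟨i, hi⟩ := (C.bdry _ he).1 h
        exact absurd hi (hex i)
    refine ⟨n, G, id, ⟨hsph, A5_mono hD, C.pos, C.per, C.inj, ?_, ?_⟩, strictMono_id, fun i => rfl,
      fun i => rfl⟩
    · intro i
      exact A5_edge_old h3 huv (C.edge i) (fun h => hex i h.symm)
    · intro e hee
      rcases A5_edge_cases hee with ⟨hme, heT, hne⟩ | ⟨x, hxm, rfl⟩
      · rw [A5_bd_old h3 hD hm huv (mem_edges.1 heT).choose_spec.2.2 hme hne, C.bdry e heT]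
      · have hb : bd (sub T u v m) (ind (sub D u v m)) {m, x} = 0 := by
          by_cases hxu : x = u
          · rw [hxu, A5_bd_new hD hm huv hmu, hb0]
          · by_cases hxv : x = v
            · rw [hxv, A5_bd_new' hD hm huv hmv, hb0]
            · exact A5_bd_third hD hm huv hxm hxu hxv
        rw [hb]
        constructor
        · intro h; exact absurd h zero_ne_one
        · rintro ⟨i, hi⟩
          exfalso
          have hmmem : m ∈ ({m, x} : Finset V) := by simp
          rw [hi, mem_insert, mem_singleton] at hmmem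
          rcases hmmem with h1 | h1
          · exact hGm _ h1.symm
          · exact hGm _ h1.symm

end Pool.Agent.Lib.MP_87489e_co.HT
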