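import Mathlib
import Pool.Agent.Lib.MP_87489e_co.HT.Stmts
import Pool.Agent.Lib.MP_87489e_co.HT.Basic

set_option autoImplicit false

/-!
A6: the vertices of the sphere, and those of the disc, are connected by edge paths.
-/

namespace Pool.Agent.Lib.MP_87489e_co.HT

open Finset

section A6

variable {V : Type} {T D : Finset (Finset V)}

/-- `x` can be reached from `u` by an edge path of `D` -/
def A6_reach (D : Finset (Finset V)) (w : V → V → ℝ) (u x : V) : Prop :=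
  ∃ (l : ℝ) (L : List V), Pth (Adj D) w u x l L

theorem A6_step {w : V → V → ℝ} {u x y : V} {t : Finset V} (ht : t ∈ D) (hx : x ∈ t) (hy : y ∈ t)
    (h : A6_reach D w u x) : A6_reach D w u y := by
  by_cases hxy : x = y
  · rw [← hxy]; exact h
  · obtain ⟨l, L, p⟩ := h
    obtain ⟨L', q, -⟩ := p.append (Pth.single (w := w) (⟨hxy, t, ht, hx, hy⟩ : Adj D x y))
    exact ⟨_, L', q⟩

open Classical in
/-- the indicator of the triangles with a vertex which can be reached -/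
noncomputable def A6_X (D : Finset (Finset V)) (w : V → V → ℝ) (u : V) (t : Finset V) : ZMod 2 :=
  if ∃ x ∈ t, A6_reach D w u x then 1 else 0

theorem A6_eq {w : V → V → ℝ} {u : V} {e t₁ t₂ : Finset V} (h₁ : t₁ ∈ D) (h₂ : t₂ ∈ D)
    (he₁ : e ⊆ t₁) (he₂ : e ⊆ t₂) (he : e.Nonempty) : A6_X D w u t₁ = A6_X D w u t₂ := by
  obtain ⟨y, hy⟩ := he
  have key : (∃ x ∈ t₁, A6_reach D w u x) ↔ ∃ x ∈ t₂, A6_reach D w u x := by
    constructor
    · rintro ⟨x, hx, h⟩
      exact ⟨y, he₂ hy, A6_step h₁ hx (he₁ hy) h⟩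
    · rintro ⟨x, hx, h⟩
      exact ⟨y, he₁ hy, A6_step h₂ hx (he₂ hy) h⟩
  unfold A6_X
  by_cases h : ∃ x ∈ t₁, A6_reach D w u x
  · rw [if_pos h, if_pos (key.mp h)]
  · rw [if_neg h, if_neg (fun h' => h (key.mpr h'))]

theorem A6_fin {w : V → V → ℝ} {u v : V} {t t' : Finset V} (hu : u ∈ t)
    (ht' : t' ∈ D) (hv : v ∈ t') (h : A6_X D w u t = A6_X D w u t') : A6_reach D w u v := by
  have h0 : A6_X D w u t = 1 := if_pos ⟨u, hu, 0, [u], Pth.nil u⟩
  rw [h0] at h
  by_cases h1 : ∃ x ∈ t', A6_reach D w u x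
  · obtain ⟨x, hx, hr⟩ := h1
    exact A6_step ht' hx hv hr
  · have h2 : A6_X D w u t' = 0 := if_neg h1
    rw [h2] at h
    exact absurd h (by decide)

end A6

theorem stReach (h : StDual) : StReach := by
  constructor
  · intro V _ T w hT t ht u hu t' ht' v hv
    apply A6_fin hu ht' hv
    apply hT.conn _ _ t ht t' ht'
    intro e he
    obtain ⟨t₁, h₁, t₂, h₂, -, he₁, he₂, -, hb⟩ := hT.bd_eq he
    obtain ⟨_, _, _, hc⟩ := mem_edges.mp he
    rw [hb, zmod2_add_eq_zero]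
    exact A6_eq h₁ h₂ he₁ he₂ (card_pos.mp (by omega))
  · intro V _ T D n G w C t ht u hu t' ht' v hv
    apply A6_fin hu ht' hv
    apply (h V T D n G C).2 _ _ t ht t' ht'
    intro e he hne ⟨s, hs, hes⟩
    obtain ⟨t₁, h₁, t₂, h₂, -, he₁, he₂, hall, hb⟩ := C.sph.bd_eq he
    obtain ⟨_, _, _, hc⟩ := mem_edges.mp he
    have h1 : bd T (ind D) e ≠ 1 := fun h => by
      obtain ⟨i, hi⟩ := (C.bdry e he).mp h
      exact hne i hi
    have h2 : ind D t₁ + ind D t₂ = 0 := by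
      rw [← hb]
      exact (zmod2_cases _).resolve_right h1
    have h3 := zmod2_add_eq_zero.mp h2
    have h4 : t₁ ∈ D ↔ t₂ ∈ D := by
      unfold ind at h3
      by_cases h4 : t₁ ∈ D <;> by_cases h5 : t₂ ∈ D <;> simp_all
    have h5 : t₁ ∈ D ∧ t₂ ∈ D := by
      rcases hall s (C.sub hs) hes with rfl | rfl
      · exact ⟨hs, h4.mp hs⟩
      · exact ⟨h4.mpr hs, hs⟩
    rw [hb, zmod2_add_eq_zero]
    exact A6_eq h5.1 h5.2 he₁ he₂ (card_pos.mp (by omega))

end Pool.Agent.Lib.MP_87489e_co.HT
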