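import Mathlib
import Pool.Agent.Lib.MP_87489e_co.HT.Stmts

set_option autoImplicit false

/-!
A7: the disc bounded by the symmetric curve.
-/

namespace Pool.Agent.Lib.MP_87489e_co.HT

open Finset MeasureTheory
open scoped Topology Pointwise

section A7

theorem A7_mem_edges {T : Finset (Finset E)} {e : Finset E} :
    e ∈ edges T ↔ ∃ t ∈ T, e ⊆ t ∧ e.card = 2 := by
  simp only [edges, mem_biUnion, mem_powersetCard]

/-- the antipodal set -/
noncomputable def A7_ng (t : Finset E) : Finset E := t.image fun v => -v

theorem A7_ng_ng (t : Finset E) : A7_ng (A7_ng t) = t := by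
  unfold A7_ng
  rw [image_image]
  have : ((fun v : E => -v) ∘ fun v => -v) = id := by
    funext v; simp
  rw [this, image_id]

theorem A7_ng_sub (e t : Finset E) : A7_ng e ⊆ A7_ng t ↔ e ⊆ t :=
  image_subset_image_iff neg_injective

theorem A7_ng_card (t : Finset E) : (A7_ng t).card = t.card :=
  card_image_of_injective _ neg_injective

theorem A7_ng_pair (u v : E) : A7_ng {u, v} = {-u, -v} := by
  unfold A7_ng
  rw [image_insert, image_singleton]

theorem A7_ng_sum (t : Finset E) (f : E → ZMod 2) : ∑ v ∈ A7_ng t, f v = ∑ v ∈ t, f (-v) := by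
  unfold A7_ng
  rw [sum_image]
  intro x _ y _ h
  exact neg_injective h

theorem A7_mem_ng (t : Finset E) (v : E) : v ∈ A7_ng t ↔ -v ∈ t := by
  unfold A7_ng
  rw [mem_image]
  constructor
  · rintro ⟨w, hw, rfl⟩; rwa [neg_neg]
  · intro h; exact ⟨-v, h, neg_neg v⟩

theorem A7_h : ∃ h : E → ZMod 2, ∀ v, v ≠ 0 → h (-v) = h v + 1 := by
  classical
  refine ⟨fun v => if 0 < v 0 ∨ (v 0 = 0 ∧ 0 < v 1) ∨ (v 0 = 0 ∧ v 1 = 0 ∧ 0 < v 2) then 1 else 0,
    ?_⟩
  intro v hv
  have hne : ¬ (v 0 = 0 ∧ v 1 = 0 ∧ v 2 = 0) := by
    rintro ⟨h0, h1, h2⟩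
    apply hv
    funext i
    fin_cases i <;> simpa
  have two : (1 : ZMod 2) + 1 = 0 := by decide
  simp only [Pi.neg_apply, neg_eq_zero, Left.neg_pos_iff]
  rcases lt_trichotomy (v 0) 0 with h0 | h0 | h0
  · rw [if_pos (Or.inl h0), if_neg, zero_add]
    rintro (h | ⟨h, _⟩ | ⟨h, _⟩) <;> linarith
  · rcases lt_trichotomy (v 1) 0 with h1 | h1 | h1
    · rw [if_pos (Or.inr (Or.inl ⟨h0, h1⟩)), if_neg, zero_add]
      rintro (h | ⟨_, h⟩ | ⟨_, h, _⟩) <;> linarith
    · rcases lt_trichotomy (v 2) 0 with h2 | h2 | h2
      · rw [if_pos (Or.inr (Or.inr ⟨h0, h1, h2⟩)), if_neg, zero_add]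
        rintro (h | ⟨_, h⟩ | ⟨_, _, h⟩) <;> linarith
      · exact absurd ⟨h0, h1, h2⟩ hne
      · rw [if_neg, if_pos (Or.inr (Or.inr ⟨h0, h1, h2⟩)), two]
        rintro (h | ⟨_, h⟩ | ⟨_, _, h⟩) <;> linarith
    · rw [if_neg, if_pos (Or.inr (Or.inl ⟨h0, h1⟩)), two]
      rintro (h | ⟨_, h⟩ | ⟨_, h, _⟩) <;> linarith
  · rw [if_neg, if_pos (Or.inl h0), two]
    rintro (h | ⟨h, _⟩ | ⟨h, _⟩) <;> linarith

/-- the chain `X ∘ neg` has boundary `bd X ∘ neg` -/
theorem A7_bd {T : Finset (Finset E)} (hT : ∀ t ∈ T, A7_ng t ∈ T) (X : Finset E → ZMod 2)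
    (e : Finset E) : bd T (fun t => X (A7_ng t)) e = bd T X (A7_ng e) := by
  unfold bd
  apply sum_bij (fun t _ => A7_ng t)
  · intro t ht
    rw [mem_filter] at ht ⊢
    exact ⟨hT t ht.1, (A7_ng_sub e t).2 ht.2⟩
  · intro t _ t' _ h
    rw [← A7_ng_ng t, h, A7_ng_ng]
  · intro t ht
    rw [mem_filter] at ht
    refine ⟨A7_ng t, ?_, A7_ng_ng t⟩
    rw [mem_filter]
    refine ⟨hT t ht.1, ?_⟩
    rw [← A7_ng_sub, A7_ng_ng]; exact ht.2
  · intro t _; rfl

/-- a sum of vertex functions over the edges of a triangle -/
theorem A7_tri (t : Finset E) (ht : t.card = 3) (h : E → ZMod 2) :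
    ∑ e ∈ t.powersetCard 2, ∑ v ∈ e, h v = 0 := by
  have e1 : ∑ e ∈ t.powersetCard 2, ∑ v ∈ e, h v = ∑ x ∈ t, ∑ v ∈ t.erase x, h v := by
    symm
    apply sum_bij (fun x _ => t.erase x)
    · intro x hx
      rw [mem_powersetCard]
      exact ⟨erase_subset _ _, by rw [card_erase_of_mem hx, ht]⟩
    · intro x hx y hy hxy
      by_contra hne
      have : x ∈ t.erase y := mem_erase.2 ⟨hne, hx⟩
      rw [← hxy] at this
      exact (notMem_erase x t) this
    · intro e he
      rw [mem_powersetCard] at he
      have hc : (t \ e).card = 1 := by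
        rw [card_sdiff_of_subset he.1, ht, he.2]
      obtain ⟨x, hx⟩ := card_eq_one.1 hc
      have hxt : x ∈ t \ e := by rw [hx]; exact mem_singleton_self x
      rw [mem_sdiff] at hxt
      refine ⟨x, hxt.1, ?_⟩
      symm
      apply eq_of_subset_of_card_le
      · intro y hy
        rw [mem_erase]
        exact ⟨fun hyx => hxt.2 (hyx ▸ hy), he.1 hy⟩
      · rw [card_erase_of_mem hxt.1, ht, he.2]
    · intro x _; rfl
  rw [e1]
  have e2 : ∀ x ∈ t, ∑ v ∈ t.erase x, h v = ∑ v ∈ t, h v + h x := by
    intro x hx
    rw [← add_sum_erase t h hx]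
    have : ∀ a b : ZMod 2, b = a + b + a := by decide
    exact this _ _
  rw [sum_congr rfl e2, sum_add_distrib, sum_const, ht]
  have : ∀ a : ZMod 2, (3 : ℕ) • a + a = 0 := by decide
  exact this _

theorem A7_pair {T : Finset (Finset E)} (h3 : ∀ t ∈ T, t.card = 3) (Y : Finset E → ZMod 2)
    (h : E → ZMod 2) : ∑ e ∈ edges T, bd T Y e * ∑ v ∈ e, h v = 0 := by
  unfold bd
  have e1 : ∀ e ∈ edges T, (∑ t ∈ T.filter (fun t => e ⊆ t), Y t) * ∑ v ∈ e, h v =
      ∑ t ∈ T, if e ⊆ t then Y t * ∑ v ∈ e, h v else 0 := by
    intro e _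
    rw [sum_mul, sum_filter]
  rw [sum_congr rfl e1, sum_comm]
  apply sum_eq_zero
  intro t ht
  rw [← sum_filter]
  have e2 : (edges T).filter (fun e => e ⊆ t) = t.powersetCard 2 := by
    ext e
    rw [mem_filter, A7_mem_edges, mem_powersetCard]
    constructor
    · rintro ⟨⟨_, _, _, h2⟩, h1⟩; exact ⟨h1, h2⟩
    · rintro ⟨h1, h2⟩; exact ⟨⟨t, ht, h1, h2⟩, h1⟩
  rw [e2, ← mul_sum, A7_tri t (h3 t ht) h, mul_zero]

end A7

/-- A7: the disc bounded by the symmetric curve -/
theorem stExD : StExD := by
  intro P g T k G s hP hC hG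
  classical
  have hT : ∀ t ∈ T, A7_ng t ∈ T := hC.symm
  have two : ∀ x : ZMod 2, x + x = 0 := by decide
  have g0 : g 0 = 0 := by
    apply le_antisymm
    · obtain ⟨p, _, e⟩ := hP.ex 0
      rw [← e, dotProduct_zero]
    · obtain ⟨p, hp, _⟩ := hP.ex 0
      have := hP.le p hp 0
      rwa [dotProduct_zero] at this
  have v0 : ∀ t ∈ T, ∀ v ∈ t, v ≠ 0 := by
    intro t ht v hv h
    have := hC.unit t ht v hv
    rw [h, g0] at this
    exact zero_ne_one this
  -- no antipodal points in a triangle
  have anti : ∀ t ∈ T, ∀ v ∈ t, -v ∉ t := by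
    intro t ht v hv hv'
    have hvn : v ≠ -v := by
      intro h
      apply v0 t ht v hv
      have : (2 : ℝ) • v = 0 := by
        rw [two_smul]; nth_rewrite 2 [h]; exact add_neg_cancel v
      exact (smul_eq_zero.1 this).resolve_left two_ne_zero
    obtain ⟨a, ha, hu⟩ := hC.fan 0
    have r1 : IsRep T 0 (fun _ => 0) := ⟨fun _ => le_rfl, t, ht, fun _ _ => rfl, by simp⟩
    have r2 : IsRep T 0 (fun w => if w = v ∨ w = -v then 1 else 0) := by
      refine ⟨fun w => by dsimp only; split_ifs <;> norm_num, t, ht, ?_, ?_⟩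
      · intro w hw
        dsimp only
        rw [if_neg]
        rintro (h | h)
        · exact hw (h ▸ hv)
        · exact hw (h ▸ hv')
      · have e1 : ∀ w ∈ t, (if w = v ∨ w = -v then (1 : ℝ) else 0) • w =
            if w ∈ ({v, -v} : Finset E) then w else 0 := by
          intro w _
          by_cases h : w = v ∨ w = -v
          · rw [if_pos h, if_pos (by simpa using h), one_smul]
          · rw [if_neg h, if_neg (by simpa using h), zero_smul]
        rw [sum_congr rfl e1, ← sum_filter]
        have e2 : t.filter (fun w => w ∈ ({v, -v} : Finset E)) = {v, -v} := by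
          ext w
          rw [mem_filter]
          constructor
          · exact fun h => h.2
          · intro h
            refine ⟨?_, h⟩
            rw [mem_insert, mem_singleton] at h
            rcases h with rfl | rfl
            · exact hv
            · exact hv'
        rw [e2, sum_pair hvn, add_neg_cancel]
    have := (hu _ r1).trans (hu _ r2).symm
    have := congrFun this v
    simp at this
  have edge_ne : ∀ e ∈ edges T, A7_ng e ≠ e := by
    intro e he h
    obtain ⟨t, ht, het, hc⟩ := A7_mem_edges.1 he
    have hne : e.Nonempty := by rw [← card_pos, hc]; norm_num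
    obtain ⟨v, hv⟩ := hne
    have h2 : -v ∈ e := by rw [← A7_mem_ng, h]; exact hv
    exact anti t ht v (het hv) (het h2)
  -- periodicity
  have per : ∀ i : ℤ, G (i + (2 * k : ℕ)) = G i := by
    intro i
    have e : i + ((2 * k : ℕ) : ℤ) = i + k + k := by push_cast; ring
    rw [e, hG.anti, hG.anti, neg_neg]
  have k0 := hG.pos
  have k2 : 2 ≤ k := by
    by_contra hlt
    have k1 : k = 1 := by omega
    obtain ⟨t, ht, het, _⟩ := A7_mem_edges.1 (hG.edge 0)
    have h1 : G 0 ∈ t := het (by simp)
    have h2 : G (0 + 1) ∈ t := het (by simp)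
    have h3 := hG.anti 0
    rw [k1] at h3
    have h4 : G (0 + 1) = - G 0 := by
      rw [← h3]; norm_num
    rw [h4] at h2
    exact anti t ht _ h1 h2
  have perm : ∀ i q : ℤ, G (i + q * (2 * k : ℕ)) = G i := by
    intro i q
    induction q using Int.induction_on with
    | zero => simp
    | succ q ih =>
      have e : i + ((q : ℤ) + 1) * (2 * k : ℕ) = i + q * (2 * k : ℕ) + (2 * k : ℕ) := by ring
      rw [e, per, ih]
    | pred q ih =>
      have e : i + (-(q : ℤ)) * (2 * k : ℕ) = i + (-(q : ℤ) - 1) * (2 * k : ℕ) + (2 * k : ℕ) := by ring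
      rw [e, per] at ih
      exact ih
  have perd : ∀ i j : ℤ, ((2 * k : ℕ) : ℤ) ∣ i - j → G i = G j := by
    rintro i j ⟨q, hq⟩
    have e : i = j + q * (2 * k : ℕ) := by linarith [mul_comm q ((2 * k : ℕ) : ℤ)]
    rw [e, perm]
  have einj : ∀ i j : ℤ, ({G i, G (i + 1)} : Finset E) = {G j, G (j + 1)} →
      ((2 * k : ℕ) : ℤ) ∣ i - j := by
    intro i j h
    have m1 : G i ∈ ({G j, G (j + 1)} : Finset E) := by rw [← h]; simp
    have m2 : G (i + 1) ∈ ({G j, G (j + 1)} : Finset E) := by rw [← h]; simp
    rw [mem_insert, mem_singleton] at m1 m2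
    rcases m1 with m1 | m1
    · exact hG.inj i j m1
    · rcases m2 with m2 | m2
      · exfalso
        have d1 := hG.inj _ _ m1
        have d2 := hG.inj _ _ m2
        have d3 : ((2 * k : ℕ) : ℤ) ∣ 2 := by
          have := dvd_sub d2 d1
          have e : i + 1 - j - (i - (j + 1)) = 2 := by ring
          rwa [e] at this
        have := Int.le_of_dvd (by norm_num) d3
        push_cast at this
        omega
      · have := hG.inj _ _ m2
        have e : i + 1 - (j + 1) = i - j := by ring
        rwa [e] at this
  -- the cycle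
  set γ : Finset E → ZMod 2 := fun e => if ∃ i : ℤ, e = {G i, G (i + 1)} then 1 else 0 with hγ
  have degγ : ∀ v, deg T γ v = 0 := by
    intro v
    unfold deg
    by_cases hv : ∃ i : ℤ, v = G i
    · obtain ⟨i, rfl⟩ := hv
      have e1 : ∑ e ∈ (edges T).filter (fun e => G i ∈ e), γ e =
          ∑ e ∈ ({{G (i - 1), G i}, {G i, G (i + 1)}} : Finset (Finset E)), γ e := by
        symm
        apply sum_subset
        · intro e he
          rw [mem_insert, mem_singleton] at he
          rw [mem_filter]
          rcases he with rfl | rfl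
          · refine ⟨?_, by simp⟩
            have := hG.edge (i - 1)
            rwa [sub_add_cancel] at this
          · exact ⟨hG.edge i, by simp⟩
        · intro e he hne
          rw [mem_filter] at he
          simp only [hγ]
          rw [if_neg]
          rintro ⟨j, rfl⟩
          apply hne
          have hm := he.2
          rw [mem_insert, mem_singleton] at hm
          rw [mem_insert, mem_singleton]
          rcases hm with hm | hm
          · right
            have d := hG.inj _ _ hm
            have e2 : G (i + 1) = G (j + 1) := perd _ _ (by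
              have e : i + 1 - (j + 1) = i - j := by ring
              rwa [e])
            rw [hm, e2]
          · left
            have d := hG.inj _ _ hm
            have e2 : G (i - 1) = G j := perd _ _ (by
              have e : i - 1 - j = i - (j + 1) := by ring
              rwa [e])
            rw [e2, hm]
      rw [e1, sum_pair]
      · simp only [hγ]
        rw [if_pos ⟨i - 1, by rw [sub_add_cancel]⟩, if_pos ⟨i, rfl⟩]
        exact two 1
      · intro h
        have h' := einj (i - 1) i (by rw [sub_add_cancel]; exact h)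
        have e : i - 1 - i = -1 := by ring
        rw [e, dvd_neg] at h'
        have := Int.le_of_dvd (by norm_num) h'
        push_cast at this
        omega
    · apply sum_eq_zero
      intro e he
      rw [mem_filter] at he
      simp only [hγ]
      rw [if_neg]
      rintro ⟨j, rfl⟩
      have hm := he.2
      rw [mem_insert, mem_singleton] at hm
      rcases hm with hm | hm
      · exact hv ⟨_, hm⟩
      · exact hv ⟨_, hm⟩
  obtain ⟨X, hX⟩ := hC.sph.h1 γ degγ
  have ngpair : ∀ i : ℤ, A7_ng {G i, G (i + 1)} = {G (i + k), G (i + k + 1)} := by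
    intro i
    rw [A7_ng_pair]
    have e : i + (k : ℤ) + 1 = i + 1 + k := by ring
    rw [e, hG.anti, hG.anti]
  have γsym : ∀ e, γ (A7_ng e) = γ e := by
    have imp : ∀ e, (∃ i : ℤ, e = {G i, G (i + 1)}) → ∃ i : ℤ, A7_ng e = {G i, G (i + 1)} := by
      rintro e ⟨i, rfl⟩
      exact ⟨i + k, ngpair i⟩
    intro e
    simp only [hγ]
    have : (∃ i : ℤ, A7_ng e = {G i, G (i + 1)}) ↔ ∃ i : ℤ, e = {G i, G (i + 1)} := by
      constructor
      · intro h
        have := imp _ h
        rwa [A7_ng_ng] at this
      · exact imp e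
    simp only [this]
  have edge_sym : ∀ e ∈ edges T, A7_ng e ∈ edges T := by
    intro e he
    obtain ⟨t, ht, het, hc⟩ := A7_mem_edges.1 he
    exact A7_mem_edges.2 ⟨A7_ng t, hT t ht, (A7_ng_sub _ _).2 het, by rw [A7_ng_card, hc]⟩
  have bd_add : ∀ (A B : Finset E → ZMod 2) (e : Finset E),
      bd T (fun t => A t + B t) e = bd T A e + bd T B e := by
    intro A B e; unfold bd; rw [sum_add_distrib]
  have hY : ∀ t ∈ T, ∀ t' ∈ T, X t + X (A7_ng t) = X t' + X (A7_ng t') := by
    apply hC.sph.conn (fun t => X t + X (A7_ng t))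
    intro e he
    rw [bd_add, A7_bd hT, hX e he, hX _ (edge_sym e he), γsym, two]
  obtain ⟨t0, ht0, _, _⟩ := A7_mem_edges.1 (hG.edge 0)
  -- the constant is one
  have hone : X t0 + X (A7_ng t0) = 1 := by
    by_contra hne
    have hz : ∀ t ∈ T, X (A7_ng t) = X t := by
      intro t ht
      have h1 := hY t ht t0 ht0
      have h2 : ∀ x : ZMod 2, x ≠ 1 → x = 0 := by decide
      rw [h2 _ hne] at h1
      have h3 : ∀ x y : ZMod 2, x + y = 0 → y = x := by decide
      exact h3 _ _ h1
    obtain ⟨h, hh⟩ := A7_h
    set θ : Finset E → ZMod 2 := fun t => ∑ v ∈ t, h v with hθ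
    have θsym : ∀ t ∈ T, ∀ e ⊆ t, θ (A7_ng e) = θ e + (e.card : ZMod 2) := by
      intro t ht e he
      simp only [hθ]
      rw [A7_ng_sum, sum_congr rfl (fun v hv => hh v (v0 t ht v (he hv))), sum_add_distrib,
        sum_const, nsmul_eq_mul, mul_one]
    set σ : Finset E → ZMod 2 := fun e => if ∃ i ∈ range k, e = {G (i : ℤ), G (i + 1)} then 1 else 0
      with hσ
    have σsym : ∀ e, σ e + σ (A7_ng e) = γ e := by
      intro e
      by_cases he : ∃ i : ℤ, e = {G i, G (i + 1)}
      · have e1 : γ e = 1 := by simp only [hγ]; rw [if_pos he]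
        rw [e1]
        obtain ⟨i, hi⟩ := he
        -- reduce the index
        obtain ⟨r, hr1, hr2⟩ : ∃ r : ℕ, r < 2 * k ∧ e = {G (r : ℤ), G (r + 1)} := by
          have kp : (0 : ℤ) < ((2 * k : ℕ) : ℤ) := by push_cast; omega
          have m1 := Int.emod_nonneg i kp.ne'
          have m2 := Int.emod_lt_of_pos i kp
          refine ⟨(i % ((2 * k : ℕ) : ℤ)).toNat, by omega, ?_⟩
          rw [Int.toNat_of_nonneg m1, hi]
          have m3 : ((2 * k : ℕ) : ℤ) ∣ i - i % ((2 * k : ℕ) : ℤ) := Int.dvd_self_sub_emod
          rw [perd _ _ m3, perd (i + 1) (i % ((2 * k : ℕ) : ℤ) + 1) (by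
            have e : i + 1 - (i % ((2 * k : ℕ) : ℤ) + 1) = i - i % ((2 * k : ℕ) : ℤ) := by ring
            rwa [e])]
        rcases lt_or_ge r k with hrk | hrk
        · have s1 : σ e = 1 := by
            simp only [hσ]; rw [if_pos ⟨r, mem_range.2 hrk, hr2⟩]
          have s2 : σ (A7_ng e) = 0 := by
            simp only [hσ]; rw [if_neg]
            rintro ⟨j, hj, hje⟩
            rw [mem_range] at hj
            have hje' := congrArg A7_ng hje
            rw [A7_ng_ng, ngpair, hr2] at hje'
            obtain ⟨q, hq⟩ := einj _ _ hje'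
            push_cast at hq
            have b1 : (2 * (k : ℤ)) * q < 0 := by rw [← hq]; omega
            have b2 : -(2 * (k : ℤ)) < (2 * (k : ℤ)) * q := by rw [← hq]; omega
            have kp : (0 : ℤ) < 2 * k := by omega
            have q1 : q < 0 := by
              by_contra hq0
              push Not at hq0
              nlinarith
            have q2 : -1 < q := by
              by_contra hq0
              push Not at hq0
              nlinarith
            omega
          rw [s1, s2, add_zero]
        · have s1 : σ (A7_ng e) = 1 := by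
            simp only [hσ]; rw [if_pos]
            refine ⟨r - k, mem_range.2 (by omega), ?_⟩
            have e2 : A7_ng e = A7_ng (A7_ng {G ((r - k : ℕ) : ℤ), G ((r - k : ℕ) + 1)}) := by
              rw [ngpair, hr2]
              have e3 : ((r - k : ℕ) : ℤ) + k = r := by omega
              rw [e3]
            rw [e2, A7_ng_ng]
          have s2 : σ e = 0 := by
            simp only [hσ]; rw [if_neg]
            rintro ⟨j, hj, hje⟩
            rw [mem_range] at hj
            rw [hr2] at hje
            obtain ⟨q, hq⟩ := einj _ _ hje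
            push_cast at hq
            have b1 : 0 < (2 * (k : ℤ)) * q := by rw [← hq]; omega
            have b2 : (2 * (k : ℤ)) * q < 2 * (k : ℤ) := by rw [← hq]; omega
            have kp : (0 : ℤ) < 2 * k := by omega
            have q1 : 0 < q := by
              by_contra hq0
              push Not at hq0
              nlinarith
            have q2 : q < 1 := by
              by_contra hq0
              push Not at hq0
              nlinarith
            omega
          rw [s1, s2, zero_add]
      · have e1 : γ e = 0 := by simp only [hγ]; rw [if_neg he]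
        have s1 : σ e = 0 := by
          simp only [hσ]; rw [if_neg]
          rintro ⟨j, _, hje⟩
          exact he ⟨j, hje⟩
        have s2 : σ (A7_ng e) = 0 := by
          simp only [hσ]; rw [if_neg]
          rintro ⟨j, _, hje⟩
          have hje' := congrArg A7_ng hje
          rw [A7_ng_ng, ngpair] at hje'
          exact he ⟨_, hje'⟩
        rw [e1, s1, s2, add_zero]
    -- the symmetric chain
    set Y : Finset E → ZMod 2 := fun t => X t * θ t with hYd
    have zsym : ∀ e ∈ edges T, bd T Y (A7_ng e) + σ (A7_ng e) = bd T Y e + σ e := by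
      intro e he
      have b1 : bd T Y e + bd T Y (A7_ng e) = γ e := by
        rw [← A7_bd hT, ← bd_add, ← hX e he]
        unfold bd
        apply sum_congr rfl
        intro t ht
        rw [mem_filter] at ht
        simp only [hYd]
        rw [hz t ht.1, θsym t ht.1 t (Subset.refl t), hC.sph.card3 t ht.1]
        have : ∀ x y : ZMod 2, x * y + x * (y + ((3 : ℕ) : ZMod 2)) = x := by decide
        exact this _ _
      have b2 := σsym e
      have : ∀ a b c d x : ZMod 2, a + b = x → c + d = x → b + d = a + c := by decide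
      exact this _ _ _ _ _ b1 b2
    have sum0 : ∑ e ∈ edges T, (bd T Y e + σ e) * θ e = 0 := by
      apply sum_involution (fun e _ => A7_ng e)
      · intro e he
        have hc : e.card = 2 := (A7_mem_edges.1 he).choose_spec.2.2
        obtain ⟨t, ht, het, _⟩ := A7_mem_edges.1 he
        rw [zsym e he, θsym t ht e het, hc]
        have : ∀ x y : ZMod 2, x * y + x * (y + ((2 : ℕ) : ZMod 2)) = 0 := by decide
        exact this _ _
      · intro e he _
        exact edge_ne e he
      · intro e he
        exact edge_sym e he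
      · intro e _
        exact A7_ng_ng e
    have sum1 : ∑ e ∈ edges T, bd T Y e * θ e = 0 := A7_pair hC.sph.card3 Y h
    have sum2 : ∑ e ∈ edges T, σ e * θ e = 1 := by
      have inj : ∀ i ∈ range k, ∀ j ∈ range k,
          ({G (i : ℤ), G (i + 1)} : Finset E) = {G (j : ℤ), G (j + 1)} → i = j := by
        intro i hi j hj hij
        rw [mem_range] at hi hj
        obtain ⟨q, hq⟩ := einj _ _ hij
        push_cast at hq
        have b1 : -(2 * (k : ℤ)) < (2 * (k : ℤ)) * q := by rw [← hq]; omega
        have b2 : (2 * (k : ℤ)) * q < 2 * (k : ℤ) := by rw [← hq]; omega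
        have kp : (0 : ℤ) < 2 * k := by omega
        have q1 : -1 < q := by
          by_contra hq0
          push Not at hq0
          nlinarith
        have q2 : q < 1 := by
          by_contra hq0
          push Not at hq0
          nlinarith
        have q0 : q = 0 := by omega
        rw [q0, mul_zero] at hq
        omega
      have e1 : ∑ e ∈ edges T, σ e * θ e =
          ∑ e ∈ (range k).image (fun i : ℕ => ({G (i : ℤ), G (i + 1)} : Finset E)), θ e := by
        symm
        have sub : (range k).image (fun i : ℕ => ({G (i : ℤ), G (i + 1)} : Finset E)) ⊆ edges T := by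
          intro e he
          rw [mem_image] at he
          obtain ⟨i, _, rfl⟩ := he
          exact hG.edge i
        rw [← sum_subset sub]
        · apply sum_congr rfl
          intro e he
          rw [mem_image] at he
          obtain ⟨i, hi, rfl⟩ := he
          simp only [hσ]
          rw [if_pos ⟨i, hi, rfl⟩, one_mul]
        · intro e _ he
          simp only [hσ]
          rw [if_neg, zero_mul]
          rintro ⟨i, hi, rfl⟩
          exact he (mem_image.2 ⟨i, hi, rfl⟩)
      rw [e1, sum_image (by
        intro i hi j hj hij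
        exact inj i hi j hj hij)]
      have e2 : ∀ i ∈ range k, θ ({G (i : ℤ), G (i + 1)} : Finset E) = h (G (i : ℤ)) + h (G (i + 1)) := by
        intro i _
        simp only [hθ]
        rw [sum_pair (hG.ne i)]
      rw [sum_congr rfl e2]
      have e3 : ∀ m : ℕ, ∑ i ∈ range m, (h (G (i : ℤ)) + h (G (i + 1))) = h (G 0) + h (G m) := by
        intro m
        induction m with
        | zero => simp [two]
        | succ m ih =>
          rw [sum_range_succ, ih]
          push_cast
          have : ∀ a b c : ZMod 2, a + b + (b + c) = a + c := by decide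
          exact this _ _ _
      rw [e3 k]
      have e4 : G (k : ℤ) = - G 0 := by
        have := hG.anti 0
        rwa [zero_add] at this
      obtain ⟨t, ht, het, _⟩ := A7_mem_edges.1 (hG.edge 0)
      rw [e4, hh (G 0) (v0 t ht _ (het (by simp)))]
      have : ∀ a : ZMod 2, a + (a + 1) = 1 := by decide
      exact this _
    have e5 : ∑ e ∈ edges T, (bd T Y e + σ e) * θ e =
        ∑ e ∈ edges T, bd T Y e * θ e + ∑ e ∈ edges T, σ e * θ e := by
      rw [← sum_add_distrib]
      exact sum_congr rfl (fun e _ => add_mul _ _ _)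
    rw [sum0, sum1, sum2, zero_add] at e5
    exact absurd e5 (by decide)
  -- the disc
  refine ⟨T.filter (fun t => X t = 1), ?_, ?_⟩
  · refine ⟨hC.sph, filter_subset _ _, by omega, per, ?_, hG.edge, ?_⟩
    · intro i j h
      exact hG.inj i j h
    · intro e he
      have e1 : bd T (ind (T.filter (fun t => X t = 1))) e = γ e := by
        rw [← hX e he]
        unfold bd
        apply sum_congr rfl
        intro t ht
        rw [mem_filter] at ht
        unfold ind
        by_cases h : X t = 1
        · rw [if_pos (mem_filter.2 ⟨ht.1, h⟩), h]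
        · have hnm : t ∉ T.filter (fun t => X t = 1) := fun hh => h (mem_filter.1 hh).2
          rw [if_neg hnm]
          have : ∀ x : ZMod 2, x ≠ 1 → 0 = x := by decide
          exact this _ h
      rw [e1]
      simp only [hγ]
      constructor
      · intro h
        by_contra hne
        rw [if_neg hne] at h
        exact zero_ne_one h
      · intro h
        rw [if_pos h]
  · intro t ht
    have h1 := (hY t ht t0 ht0).trans hone
    have h2 : A7_ng t ∈ T := hT t ht
    change t ∈ T.filter (fun t => X t = 1) ↔ A7_ng t ∉ T.filter (fun t => X t = 1)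
    rw [mem_filter, mem_filter]
    have : ∀ x y : ZMod 2, x + y = 1 → (x = 1 ↔ ¬ y = 1) := by decide
    have h3 := this _ _ h1
    constructor
    · rintro ⟨_, h4⟩ ⟨_, h5⟩
      exact (h3.1 h4) h5
    · intro h4
      refine ⟨ht, h3.2 fun h5 => h4 ⟨h2, h5⟩⟩

end Pool.Agent.Lib.MP_87489e_co.HT
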