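import Mathlib
import Pool.Agent.Lib.MP_87489e_co.HT.Stmts
import Pool.Agent.Lib.MP_87489e_co.HT.Basic

set_option autoImplicit false

/-!
B1: subdivision of fans.
-/

namespace Pool.Agent.Lib.MP_87489e_co.HT

open Finset MeasureTheory
open scoped Topology Pointwise

section B1

theorem B1_mem_sub {T : Finset (Finset E)} {u v m : E} {t' : Finset E} :
    t' ∈ sub T u v m ↔ (t' ∈ T ∧ ¬ ({u, v} : Finset E) ⊆ t') ∨
      ∃ t ∈ T, ({u, v} : Finset E) ⊆ t ∧ (t' = insert m (t.erase u) ∨ t' = insert m (t.erase v)) := by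
  unfold sub
  simp only [mem_union, mem_filter, mem_image]
  constructor
  · rintro (h | ⟨t, h, rfl⟩ | ⟨t, h, rfl⟩)
    · exact Or.inl h
    · exact Or.inr ⟨t, h.1, h.2, Or.inl rfl⟩
    · exact Or.inr ⟨t, h.1, h.2, Or.inr rfl⟩
  · rintro (h | ⟨t, h1, h2, rfl | rfl⟩)
    · exact Or.inl h
    · exact Or.inr (Or.inl ⟨t, ⟨h1, h2⟩, rfl⟩)
    · exact Or.inr (Or.inr ⟨t, ⟨h1, h2⟩, rfl⟩)

theorem B1_pair_sub {u v : E} {t : Finset E} : ({u, v} : Finset E) ⊆ t ↔ u ∈ t ∧ v ∈ t := by
  rw [insert_subset_iff, singleton_subset_iff]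

/-- adding a multiple of a vertex to a representation -/
theorem B1_sum (t : Finset E) (f : E → ℝ) (u : E) (hu : u ∈ t) (c : ℝ) :
    ∑ x ∈ t, (f x + if x = u then c else 0) • x = ∑ x ∈ t, f x • x + c • u := by
  have : ∀ x ∈ t, (f x + if x = u then c else 0) • x = f x • x + if x = u then c • x else 0 := by
    intro x _
    rw [add_smul]
    split_ifs <;> simp
  rw [sum_congr rfl this, sum_add_distrib, sum_ite_eq' t u, if_pos hu]

/-- the back transformation of the coefficients -/
noncomputable def B1_back (u v m : E) (a b : ℝ) (β : E → ℝ) (x : E) : ℝ :=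
  ((if x = m then 0 else β x) + (if x = u then β m * a else 0)) + (if x = v then β m * b else 0)

theorem B1_rep {T : Finset (Finset E)} {u v m : E} {a b : ℝ} (ha : 0 < a) (hb : 0 < b)
    (hm : m = a • u + b • v) (hnot : ∀ t ∈ T, m ∉ t) (mu : m ≠ u) (mv : m ≠ v)
    {y : E} {β : E → ℝ} (h : IsRep (sub T u v m) y β) :
    IsRep T y (B1_back u v m a b β) ∧ (β u = 0 ∨ β v = 0) := by
  obtain ⟨h0, t', ht', hs, hsum⟩ := h
  have nn : ∀ x, 0 ≤ B1_back u v m a b β x := by
    intro x
    unfold B1_back
    have h1 : 0 ≤ (if x = m then 0 else β x) := by split_ifs; exacts [le_rfl, h0 x]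
    have h2 : 0 ≤ (if x = u then β m * a else 0) := by
      split_ifs; exacts [mul_nonneg (h0 m) ha.le, le_rfl]
    have h3 : 0 ≤ (if x = v then β m * b else 0) := by
      split_ifs; exacts [mul_nonneg (h0 m) hb.le, le_rfl]
    linarith
  rcases B1_mem_sub.1 ht' with ⟨hT, hn⟩ | ⟨t, hT, hsub, ht⟩
  · have hmt : β m = 0 := hs m (hnot t' hT)
    have e : B1_back u v m a b β = β := by
      funext x
      unfold B1_back
      rw [hmt, zero_mul, zero_mul, ite_self, ite_self, add_zero, add_zero]
      by_cases hx : x = m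
      · rw [if_pos hx, hx, hmt]
      · rw [if_neg hx]
    refine ⟨⟨nn, t', hT, ?_, ?_⟩, ?_⟩
    · rw [e]; exact hs
    · rw [e]; exact hsum
    · rw [B1_pair_sub] at hn
      by_cases hu : u ∈ t'
      · right
        exact hs v fun hv => hn ⟨hu, hv⟩
      · left; exact hs u hu
  · rw [B1_pair_sub] at hsub
    -- the common part
    obtain ⟨w, hw, ht, hw0⟩ : ∃ w, (w = u ∨ w = v) ∧ t' = insert m (t.erase w) ∧ β w = 0 := by
      rcases ht with ht | ht
      · refine ⟨u, Or.inl rfl, ht, hs u ?_⟩
        rw [ht, mem_insert, mem_erase]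
        rintro (h | h)
        · exact mu h.symm
        · exact h.1 rfl
      · refine ⟨v, Or.inr rfl, ht, hs v ?_⟩
        rw [ht, mem_insert, mem_erase]
        rintro (h | h)
        · exact mv h.symm
        · exact h.1 rfl
    have hwt : w ∈ t := by
      rcases hw with rfl | rfl
      · exact hsub.1
      · exact hsub.2
    have hmt : m ∉ t := hnot t hT
    refine ⟨⟨nn, t, hT, ?_, ?_⟩, ?_⟩
    · intro x hx
      unfold B1_back
      have xu : x ≠ u := fun h => hx (h ▸ hsub.1)
      have xv : x ≠ v := fun h => hx (h ▸ hsub.2)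
      rw [if_neg xu, if_neg xv, add_zero, add_zero]
      by_cases hxm : x = m
      · rw [if_pos hxm]
      · rw [if_neg hxm]
        apply hs
        rw [ht, mem_insert, mem_erase]
        rintro (h | h)
        · exact hxm h
        · exact hx h.2
    · unfold B1_back
      rw [B1_sum t _ v hsub.2, B1_sum t _ u hsub.1]
      have e1 : ∑ x ∈ t, (if x = m then 0 else β x) • x = ∑ x ∈ t, β x • x := by
        apply sum_congr rfl
        intro x hx
        rw [if_neg (fun h : x = m => hmt (h ▸ hx))]
      have e2 : ∑ x ∈ t, β x • x = ∑ x ∈ t.erase w, β x • x := by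
        rw [← add_sum_erase t _ hwt, hw0, zero_smul, zero_add]
      have hme : m ∉ t.erase w := fun h => hmt (mem_of_mem_erase h)
      have e3 : y = β m • m + ∑ x ∈ t.erase w, β x • x := by
        rw [← hsum, ht, sum_insert hme]
      have e4 : ∀ c : ℝ, c • m = (c * a) • u + (c * b) • v := fun c => by rw [hm]; module
      rw [e1, e2, e3, e4 (β m)]
      abel
    · rcases hw with rfl | rfl
      · exact Or.inl hw0
      · exact Or.inr hw0

/-- the new representation -/
theorem B1_new {T : Finset (Finset E)} {u v m : E} {a b : ℝ} (ha : 0 < a) (hb : 0 < b)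
    (huv : u ≠ v) (hm : m = a • u + b • v) (hnot : ∀ t ∈ T, m ∉ t) (mu : m ≠ u) (mv : m ≠ v)
    {y : E} {α : E → ℝ} (h : IsRep T y α) : ∃ β, IsRep (sub T u v m) y β := by
  obtain ⟨h0, t, hT, hs, hsum⟩ := h
  by_cases hsub : ({u, v} : Finset E) ⊆ t
  · have hsub' := hsub
    rw [B1_pair_sub] at hsub
    have hmt : m ∉ t := hnot t hT
    have main : ∀ c : ℝ, 0 ≤ c → c * a ≤ α u → c * b ≤ α v →
        ∀ w, (w = u ∨ w = v) → (w = u → α u = c * a) → (w = v → α v = c * b) →
        ∃ β, IsRep (sub T u v m) y β := by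
      intro c hc hcu hcv w hw hwu hwv
      have hwt : w ∈ t := by
        rcases hw with rfl | rfl
        · exact hsub.1
        · exact hsub.2
      set β : E → ℝ := fun x => if x = m then c else
        (α x + (if x = u then -(c * a) else 0)) + (if x = v then -(c * b) else 0) with hβ
      have hw0 : β w = 0 := by
        simp only [hβ]
        rcases hw with rfl | rfl
        · rw [if_neg mu.symm, if_pos rfl, if_neg huv, hwu rfl]; ring
        · rw [if_neg mv.symm, if_neg huv.symm, if_pos rfl, hwv rfl]; ring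
      refine ⟨β, ?_, insert m (t.erase w), ?_, ?_, ?_⟩
      · intro x
        simp only [hβ]
        by_cases hxm : x = m
        · rw [if_pos hxm]; exact hc
        · rw [if_neg hxm]
          by_cases hxu : x = u
          · rw [if_pos hxu, if_neg (fun h => huv (hxu.symm.trans h)), hxu]; linarith
          · rw [if_neg hxu]
            by_cases hxv : x = v
            · rw [if_pos hxv, hxv]; linarith
            · rw [if_neg hxv]; linarith [h0 x]
      · rw [B1_mem_sub]
        right
        refine ⟨t, hT, hsub', ?_⟩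
        rcases hw with rfl | rfl
        · exact Or.inl rfl
        · exact Or.inr rfl
      · intro x hx
        rw [mem_insert, mem_erase, not_or] at hx
        by_cases hxw : x = w
        · rw [hxw]; exact hw0
        · have hxt : x ∉ t := fun h => hx.2 ⟨hxw, h⟩
          simp only [hβ]
          rw [if_neg hx.1, if_neg (fun h : x = u => hxt (h ▸ hsub.1)),
            if_neg (fun h : x = v => hxt (h ▸ hsub.2)),
            hs x hxt]
          ring
      · have hme : m ∉ t.erase w := fun h => hmt (mem_of_mem_erase h)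
        rw [sum_insert hme]
        have e2 : ∑ x ∈ t.erase w, β x • x = ∑ x ∈ t, β x • x := by
          rw [← add_sum_erase t _ hwt, hw0, zero_smul, zero_add]
        have e3 : ∑ x ∈ t, β x • x = ∑ x ∈ t, ((α x + (if x = u then -(c * a) else 0)) +
            (if x = v then -(c * b) else 0)) • x := by
          apply sum_congr rfl
          intro x hx
          simp only [hβ]
          rw [if_neg (fun h : x = m => hmt (h ▸ hx))]
        rw [e2, e3, B1_sum t _ v hsub.2, B1_sum t _ u hsub.1, hsum]
        have e4 : β m = c := by simp only [hβ]; rw [if_pos trivial]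
        have e5 : ∀ c : ℝ, c • m = (c * a) • u + (c * b) • v := fun c => by rw [hm]; module
        rw [e4, e5 c]
        module
    rcases le_total (α u / a) (α v / b) with hle | hle
    · apply main (α u / a) (div_nonneg (h0 u) ha.le) _ _ u (Or.inl rfl) _ _
      · rw [div_mul_cancel₀ _ ha.ne']
      · rwa [le_div_iff₀ hb] at hle
      · intro _; rw [div_mul_cancel₀ _ ha.ne']
      · intro h; exact absurd h huv
    · apply main (α v / b) (div_nonneg (h0 v) hb.le) _ _ v (Or.inr rfl) _ _
      · rwa [le_div_iff₀ ha] at hle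
      · rw [div_mul_cancel₀ _ hb.ne']
      · intro h; exact absurd h.symm huv
      · intro _; rw [div_mul_cancel₀ _ hb.ne']
  · exact ⟨α, h0, t, B1_mem_sub.2 (Or.inl ⟨hT, hsub⟩), hs, hsum⟩

end B1

/-- B1 -/
theorem stFanSub : StFanSub := by
  intro T u v m a b _ hF huv he ha hb hm
  obtain ⟨t0, ht0, hsub0, _⟩ := mem_edges.1 he
  rw [B1_pair_sub] at hsub0
  have hnot : ∀ t ∈ T, m ∉ t := by
    intro t ht hmt
    obtain ⟨α, _, hu⟩ := hF m
    have r1 : IsRep T m (fun x => 0 + if x = m then 1 else 0) := by
      refine ⟨fun x => by dsimp only; split_ifs <;> norm_num, t, ht, ?_, ?_⟩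
      · intro x hx
        dsimp only
        rw [if_neg (fun h : x = m => hx (h ▸ hmt)), add_zero]
      · have := B1_sum t (fun _ => 0) m hmt 1
        rw [this]
        simp
    have r2 : IsRep T m (fun x => (0 + if x = u then a else 0) + if x = v then b else 0) := by
      refine ⟨?_, t0, ht0, ?_, ?_⟩
      · intro x
        dsimp only
        have h2 : 0 ≤ (if x = u then a else 0) := by split_ifs; exacts [ha.le, le_rfl]
        have h3 : 0 ≤ (if x = v then b else 0) := by split_ifs; exacts [hb.le, le_rfl]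
        linarith
      · intro x hx
        dsimp only
        rw [if_neg (fun h : x = u => hx (h ▸ hsub0.1)),
          if_neg (fun h : x = v => hx (h ▸ hsub0.2)), add_zero, add_zero]
      · have e1 := B1_sum t0 (fun x => 0 + if x = u then a else 0) v hsub0.2 b
        have e2 := B1_sum t0 (fun _ => 0) u hsub0.1 a
        rw [e1, e2, hm]
        simp
    have e := (hu _ r1).trans (hu _ r2).symm
    by_cases hmu : m = u
    · have e1 := congrFun e v
      rw [if_neg (fun h => huv (hmu.symm.trans h.symm)), if_neg huv.symm, if_pos rfl] at e1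
      linarith
    · have e1 := congrFun e u
      rw [if_neg (fun h => hmu h.symm), if_pos rfl, if_neg huv] at e1
      linarith
  have mu : m ≠ u := fun h => hnot t0 ht0 (h ▸ hsub0.1)
  have mv : m ≠ v := fun h => hnot t0 ht0 (h ▸ hsub0.2)
  refine ⟨hnot, fun y => ?_⟩
  obtain ⟨α, hα, hu⟩ := hF y
  obtain ⟨β, hβ⟩ := B1_new ha hb huv hm hnot mu mv hα
  refine ⟨β, hβ, ?_⟩
  intro β' hβ'
  obtain ⟨r1, z1⟩ := B1_rep ha hb hm hnot mu mv hβ
  obtain ⟨r2, z2⟩ := B1_rep ha hb hm hnot mu mv hβ'
  have e := (hu _ r1).trans (hu _ r2).symm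
  have eu := congrFun e u
  have ev := congrFun e v
  unfold B1_back at eu ev
  rw [if_neg mu.symm, if_pos rfl, if_neg huv, if_neg mu.symm, if_pos rfl, if_neg huv] at eu
  rw [if_neg mv.symm, if_neg huv.symm, if_pos rfl, if_neg mv.symm, if_neg huv.symm, if_pos rfl] at ev
  have em : β' m = β m := by
    rcases lt_trichotomy (β' m) (β m) with h | h | h
    · exfalso
      have h1 : β' m * a < β m * a := mul_lt_mul_of_pos_right h ha
      have h2 : β' m * b < β m * b := mul_lt_mul_of_pos_right h hb
      have h3 := hβ.1 u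
      have h4 := hβ.1 v
      rcases z2 with z2 | z2 <;> linarith
    · exact h
    · exfalso
      have h1 : β m * a < β' m * a := mul_lt_mul_of_pos_right h ha
      have h2 : β m * b < β' m * b := mul_lt_mul_of_pos_right h hb
      have h3 := hβ'.1 u
      have h4 := hβ'.1 v
      rcases z1 with z1 | z1 <;> linarith
  funext x
  by_cases hx : x = m
  · rw [hx, em]
  · have ex := congrFun e x
    unfold B1_back at ex
    rw [if_neg hx, if_neg hx, em] at ex
    linarith

end Pool.Agent.Lib.MP_87489e_co.HT
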