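import Mathlib
import Pool.Agent.Lib.MP_87489e_co.HT.Stmts
import Pool.Agent.Lib.MP_87489e_co.HT.Basic

set_option autoImplicit false

namespace Pool.Agent.Lib.MP_87489e_co.HT

open Finset

/-- a form vanishing at `y` and crossing no edge vanishes at the vertices carrying `y` -/
theorem B11_killed {T : Finset (Finset E)} {h y : E} (hN : NoCross T h) (hy : h ⬝ᵥ y = 0)
    {a : E → ℝ} (ha : ∀ v, 0 ≤ a v) {t : Finset E} (ht : t ∈ T) (hs : ∑ v ∈ t, a v • v = y)
    {v : E} (hv : v ∈ t) (hav : a v ≠ 0) : h ⬝ᵥ v = 0 := by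
  have h0 : ∑ u ∈ t, a u * (h ⬝ᵥ u) = 0 := by
    rw [← hy, ← hs, dotProduct_sum]
    refine Finset.sum_congr rfl fun u _ => ?_
    rw [dotProduct_smul, smul_eq_mul]
  rcases hN t ht with h1 | h1
  · have h2 := (Finset.sum_eq_zero_iff_of_nonneg (fun u hu => mul_nonneg (ha u) (h1 u hu))).1 h0 v hv
    exact (mul_eq_zero.1 h2).resolve_left hav
  · have h3 : ∑ u ∈ t, a u * (-(h ⬝ᵥ u)) = 0 := by
      have : ∑ u ∈ t, a u * (-(h ⬝ᵥ u)) = - ∑ u ∈ t, a u * (h ⬝ᵥ u) := by
        rw [← Finset.sum_neg_distrib]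
        exact Finset.sum_congr rfl fun u _ => by ring
      rw [this, h0, neg_zero]
    have h2 := (Finset.sum_eq_zero_iff_of_nonneg (fun u hu => mul_nonneg (ha u)
      (neg_nonneg.2 (h1 u hu)))).1 h3 v hv
    have := (mul_eq_zero.1 h2).resolve_left hav
    linarith

theorem B11_par {z v : E} (hz : z ≠ 0) (h : ∀ i, (crossProduct z (Pi.single i 1)) ⬝ᵥ v = 0) :
    ∃ c : ℝ, v = c • z := by
  have h0 := h 0
  have h1 := h 1
  have h2 := h 2
  simp only [cross_apply, dotProduct, Fin.sum_univ_three, Matrix.cons_val_zero,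
    Matrix.cons_val_one, Matrix.cons_val, Pi.single_apply] at h0 h1 h2
  simp at h0 h1 h2
  obtain ⟨i, hi⟩ : ∃ i, z i ≠ 0 := by
    by_contra hno
    push Not at hno
    exact hz (funext hno)
  refine ⟨v i / z i, ?_⟩
  funext j
  simp only [Pi.smul_apply, smul_eq_mul]
  rw [div_mul_eq_mul_div, eq_div_iff hi]
  fin_cases i <;> fin_cases j <;> simp at hi ⊢ <;> linarith

theorem stPoint : StPoint := by
  classical
  intro P g hg z hz
  have hz0 : z ≠ 0 := by
    rintro rfl
    rw [hg.zero] at hz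
    exact zero_ne_one hz
  refine ⟨Finset.univ.image fun i => crossProduct z (Pi.single i 1), fun T hT hN => ?_⟩
  obtain ⟨a, ⟨ha0, t, ht, hat, hs⟩, -⟩ := hT.fan z
  refine ⟨t, ht, ?_⟩
  by_contra hzt
  have key : ∀ v ∈ t, a v ≠ 0 → v = -z := by
    intro v hv hav
    obtain ⟨c, hc⟩ := B11_par (v := v) hz0 (fun i => by
      apply B11_killed (hN _ (Finset.mem_image_of_mem _ (Finset.mem_univ i))) _ ha0 ht hs hv hav
      exact (dotProduct_comm _ _).trans (dot_self_cross z (Pi.single i 1)))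
    have h1 := hT.unit t ht v hv
    rw [hc, hg.abs_smul, hz, mul_one] at h1
    rcases abs_eq (zero_le_one) |>.1 h1 with h2 | h2
    · rw [h2, one_smul] at hc
      exact absurd (hc ▸ hv) hzt
    · rw [hc, h2]; simp
  have h1 : ∑ v ∈ t, a v • v = -((∑ v ∈ t, a v) • z) := by
    rw [Finset.sum_smul, ← Finset.sum_neg_distrib]
    refine Finset.sum_congr rfl fun v hv => ?_
    by_cases hav : a v = 0
    · simp [hav]
    · conv_lhs => rw [key v hv hav]
      rw [smul_neg]
      rw [key v hv hav]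
  rw [hs] at h1
  have h2 : (1 + ∑ v ∈ t, a v) • z = 0 := by
    rw [add_smul, one_smul]
    nth_rewrite 1 [h1]
    simp
  have h3 : 0 ≤ ∑ v ∈ t, a v := Finset.sum_nonneg fun v _ => ha0 v
  rcases smul_eq_zero.1 h2 with h4 | h4
  · linarith
  · exact hz0 h4

end Pool.Agent.Lib.MP_87489e_co.HT
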