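import Mathlib
import Pool.Agent.Lib.MP_87489e_co.HT.Stmts
import Pool.Agent.Lib.MP_87489e_co.HT.Basic
import Pool.Agent.Lib.MP_87489e_co.HT.B11

set_option autoImplicit false

namespace Pool.Agent.Lib.MP_87489e_co.HT

open Finset

theorem B12_cramer (x y v : E) (hv : (crossProduct x y) ⬝ᵥ v = 0) :
    ((crossProduct x y) ⬝ᵥ (crossProduct x y)) • v =
      (v ⬝ᵥ (crossProduct y (crossProduct x y))) • x +
      (v ⬝ᵥ (crossProduct (crossProduct x y) x)) • y := by
  have key : ∀ i, ((crossProduct x y) ⬝ᵥ (crossProduct x y)) * v i =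
      (v ⬝ᵥ (crossProduct y (crossProduct x y))) * x i +
      (v ⬝ᵥ (crossProduct (crossProduct x y) x)) * y i +
      ((crossProduct x y) ⬝ᵥ v) * (crossProduct x y) i := by
    intro i
    simp only [cross_apply, dotProduct, Fin.sum_univ_three, Matrix.cons_val_zero,
      Matrix.cons_val_one, Matrix.cons_val]
    fin_cases i <;> simp <;> ring
  funext i
  have := key i
  rw [hv, zero_mul, add_zero] at this
  simpa using this

theorem B12_vals (x y : E) :
    x ⬝ᵥ (crossProduct y (crossProduct x y)) = (crossProduct x y) ⬝ᵥ (crossProduct x y) ∧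
    y ⬝ᵥ (crossProduct y (crossProduct x y)) = 0 ∧
    x ⬝ᵥ (crossProduct (crossProduct x y) x) = 0 ∧
    y ⬝ᵥ (crossProduct (crossProduct x y) x) = (crossProduct x y) ⬝ᵥ (crossProduct x y) := by
  refine ⟨?_, ?_, ?_, ?_⟩ <;>
  · simp only [cross_apply, dotProduct, Fin.sum_univ_three, Matrix.cons_val_zero,
      Matrix.cons_val_one, Matrix.cons_val]
    ring

theorem B12_cross_ne {p x y : E} (hx : p ⬝ᵥ x = 1) (hy : p ⬝ᵥ y = 1) (hxy : x ≠ y) :
    0 < (crossProduct x y) ⬝ᵥ (crossProduct x y) := by
  have h1 : crossProduct x y ≠ 0 := by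
    intro h0
    apply hxy
    have key : ∀ i, (p ⬝ᵥ y) * x i - (p ⬝ᵥ x) * y i = (crossProduct p (crossProduct x y)) i := by
      intro i
      simp only [cross_apply, dotProduct, Fin.sum_univ_three, Matrix.cons_val_zero,
        Matrix.cons_val_one, Matrix.cons_val]
      fin_cases i <;> simp <;> ring
    funext i
    have := key i
    rw [hx, hy, h0] at this
    simp at this
    linarith
  have h2 : 0 ≤ (crossProduct x y) ⬝ᵥ (crossProduct x y) :=
    Finset.sum_nonneg fun i _ => mul_self_nonneg _
  refine lt_of_le_of_ne h2 fun h => h1 ?_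
  exact dotProduct_self_eq_zero.1 h.symm

/-- a vertex beyond `x` carrying `x + y` is `x` -/
theorem B12_key {T : Finset (Finset E)} (hF : Fan T) {x y : E} {tx : Finset E} (htx : tx ∈ T)
    (hx : x ∈ tx) {a : E → ℝ} (ha : ∀ v, 0 ≤ a v) {t : Finset E} (ht : t ∈ T)
    (hat : ∀ v, v ∉ t → a v = 0) (hs : ∑ v ∈ t, a v • v = x + y) {v : E} (hv : v ∈ t)
    {A B H : ℝ} (hA : 0 < A) (hB : B < 0) (hH : 0 < H) (hv1 : H • v = A • x + B • y) : v = x := by
  classical
  obtain ⟨r, hr, huniq⟩ := hF x
  have h1 : IsRep T x (fun u => if u = x then 1 else 0) := by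
    refine ⟨fun u => by by_cases h : u = x <;> simp [h], tx, htx, fun u hu => ?_, ?_⟩
    · show (if u = x then (1 : ℝ) else 0) = 0
      rw [if_neg]; rintro rfl; exact hu hx
    · rw [Finset.sum_eq_single x]
      · simp
      · intro b _ hb; simp [hb]
      · intro h; exact absurd hx h
  have hAB : 0 < A - B := by linarith
  have h2 : IsRep T x (fun u => (-B / (A - B)) * a u + if u = v then H / (A - B) else 0) := by
    refine ⟨fun u => ?_, t, ht, fun u hu => ?_, ?_⟩
    · have h3 : 0 ≤ (-B / (A - B)) * a u := mul_nonneg (div_nonneg (by linarith) hAB.le) (ha u)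
      have h4 : 0 ≤ (if u = v then H / (A - B) else 0) := by
        split_ifs
        · exact div_nonneg hH.le hAB.le
        · exact le_rfl
      show 0 ≤ _ + _
      linarith
    · have : u ≠ v := by rintro rfl; exact hu hv
      simp [hat u hu, this]
    · have e1 : ∑ u ∈ t, ((-B / (A - B)) * a u + if u = v then H / (A - B) else 0) • u =
          (-B / (A - B)) • (x + y) + (H / (A - B)) • v := by
        rw [← hs, Finset.smul_sum]
        have : ∀ u ∈ t, ((-B / (A - B)) * a u + if u = v then H / (A - B) else 0) • u =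
            (-B / (A - B)) • (a u • u) + (if u = v then (H / (A - B)) • v else 0) := by
          intro u _
          rw [add_smul, mul_smul]
          congr 1
          split_ifs with h
          · rw [h]
          · simp
        rw [Finset.sum_congr rfl this, Finset.sum_add_distrib]
        simp [hv]
      rw [e1]
      have e2 : (H / (A - B)) • v = (1 / (A - B)) • (A • x + B • y) := by
        rw [← hv1, smul_smul]; congr 1; ring
      rw [e2]
      funext i
      simp only [Pi.add_apply, Pi.smul_apply, smul_eq_mul]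
      field_simp
      ring
  have h3 := (huniq _ h1).trans (huniq _ h2).symm
  have h4 := congrFun h3 v
  simp only [if_true] at h4
  by_contra hne
  rw [if_neg hne] at h4
  have h5 : 0 ≤ (-B / (A - B)) * a v := mul_nonneg (div_nonneg (by linarith) hAB.le) (ha v)
  have h6 : 0 < H / (A - B) := div_pos hH hAB
  linarith

theorem B12_nocross_smul {T : Finset (Finset E)} {h : E} (hN : NoCross T h) {c : ℝ} (hc : 0 < c) :
    NoCross T (c • h) := by
  intro t ht
  rcases hN t ht with h1 | h1
  · left
    intro v hv
    rw [smul_dotProduct, smul_eq_mul]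
    exact mul_nonneg hc.le (h1 v hv)
  · right
    intro v hv
    rw [smul_dotProduct, smul_eq_mul]
    exact mul_nonpos_of_nonneg_of_nonpos hc.le (h1 v hv)

theorem B12_open_sub {x y v : E} {α β : ℝ} (hα : 0 < α) (hβ : 0 < β) (hs : α + β = 1)
    (hv : v = α • x + β • y) : openSegment ℝ x v ⊆ openSegment ℝ x y := by
  rintro z ⟨a, b, ha, hb, hab, rfl⟩
  refine ⟨a + b * α, b * β, by positivity, by positivity, ?_, ?_⟩
  · rw [add_assoc, ← mul_add, hs, mul_one, hab]
  · rw [hv]
    funext i
    simp only [Pi.add_apply, Pi.smul_apply, smul_eq_mul]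
    ring

theorem B12_seg_sub {x y v : E} (hv : v ∈ segment ℝ x y) : segment ℝ x v ⊆ segment ℝ x y :=
  (convex_segment x y).segment_subset (left_mem_segment ℝ x y) hv

open Classical in
theorem B12_main {P : Finset E} {g : E → ℝ} {T : Finset (Finset E)} (hg : PN P g) (hT : Cx g T)
    {p : E} (hp : p ∈ P) :
    ∀ n : ℕ, ∀ x y : E, g x = 1 → g y = 1 → p ⬝ᵥ x = 1 → p ⬝ᵥ y = 1 → x ≠ y →
    (∃ t ∈ T, x ∈ t) → (∃ t ∈ T, y ∈ t) → NoCross T (crossProduct x y) →
    ((T.biUnion id).filter (fun v => v ∈ openSegment ℝ x y)).card ≤ n →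
    ∃ L, Pth (Adj T) (wt g) x y (g (y - x)) L ∧ ∀ z ∈ L, z ∈ segment ℝ x y := by
  intro n
  induction n using Nat.strong_induction_on with
  | _ n ih =>
    intro x y hgx hgy hpx hpy hxy hxT hyT hN hcard
    obtain ⟨tx, htx, hxt⟩ := hxT
    obtain ⟨ty, hty, hyt⟩ := hyT
    set h := crossProduct x y with hh
    set H := h ⬝ᵥ h with hHdef
    have hH : 0 < H := B12_cross_ne hpx hpy hxy
    obtain ⟨v1x, v1y, v2x, v2y⟩ := B12_vals x y
    rw [← hh, ← hHdef] at v1x v2y
    rw [← hh] at v1y v2x
    obtain ⟨a, ⟨ha0, t, ht, hat, hs⟩, -⟩ := hT.fan (x + y)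
    have hkill : ∀ v ∈ t, a v ≠ 0 → h ⬝ᵥ v = 0 := by
      intro v hv hav
      apply B11_killed hN _ ha0 ht hs hv hav
      rw [dotProduct_add, hh, dotProduct_comm, dot_self_cross, dotProduct_comm,
        dot_cross_self, add_zero]
    have hsumA : ∑ v ∈ t, a v * (v ⬝ᵥ (crossProduct y h)) = H := by
      have : (x + y) ⬝ᵥ (crossProduct y h) = H := by rw [add_dotProduct, v1x, v1y, add_zero]
      rw [← this, ← hs, sum_dotProduct]
      exact Finset.sum_congr rfl fun v _ => by rw [smul_dotProduct, smul_eq_mul]
    have hsumB : ∑ v ∈ t, a v * (v ⬝ᵥ (crossProduct h x)) = H := by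
      have : (x + y) ⬝ᵥ (crossProduct h x) = H := by rw [add_dotProduct, v2x, v2y, zero_add]
      rw [← this, ← hs, sum_dotProduct]
      exact Finset.sum_congr rfl fun v _ => by rw [smul_dotProduct, smul_eq_mul]
    -- splitting at an inner vertex
    have hsplit : ∀ v ∈ t, h ⬝ᵥ v = 0 → 0 < v ⬝ᵥ (crossProduct y h) → 0 < v ⬝ᵥ (crossProduct h x) →
        ∃ L, Pth (Adj T) (wt g) x y (g (y - x)) L ∧ ∀ z ∈ L, z ∈ segment ℝ x y := by
      intro v hv hhv hA hB
      have hcr := B12_cramer x y v hhv
      rw [← hh, ← hHdef] at hcr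
      set A := v ⬝ᵥ (crossProduct y h) with hAd
      set B := v ⬝ᵥ (crossProduct h x) with hBd
      have hgv := hT.unit t ht v hv
      have hpv : H * (p ⬝ᵥ v) = A + B := by
        have := congrArg (fun z => p ⬝ᵥ z) hcr
        simp only [dotProduct_add, dotProduct_smul, smul_eq_mul, hpx, hpy, mul_one] at this
        exact this
      have hup : H ≤ A + B := by
        have : g (H • v) ≤ A + B := by
          rw [hcr]
          refine (hg.add_le _ _).trans ?_
          rw [hg.smul hA.le, hg.smul hB.le, hgx, hgy, mul_one, mul_one]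
        rwa [hg.smul hH.le, hgv, mul_one] at this
      have hlow : A + B ≤ H := by
        rw [← hpv]
        have := hg.le p hp v
        rw [hgv] at this
        nlinarith
      have hAB : A + B = H := le_antisymm hlow hup
      have hveq : v = (A / H) • x + (B / H) • y := by
        have e1 : v = (1 / H) • (H • v) := by
          rw [smul_smul, one_div, inv_mul_cancel₀ hH.ne', one_smul]
        rw [e1, hcr]
        funext i
        simp only [Pi.add_apply, Pi.smul_apply, smul_eq_mul]
        ring
      have hα : 0 < A / H := div_pos hA hH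
      have hβ : 0 < B / H := div_pos hB hH
      have hsum : A / H + B / H = 1 := by rw [← add_div, hAB, div_self hH.ne']
      have hpv1 : p ⬝ᵥ v = 1 := by
        have : H * (p ⬝ᵥ v) = H * 1 := by rw [hpv, hAB, mul_one]
        exact mul_left_cancel₀ hH.ne' this
      have hxv : x ≠ v := by
        intro e
        rw [← e, v2x] at hBd
        linarith
      have hvy : v ≠ y := by
        intro e
        rw [e, v1y] at hAd
        linarith
      have hvo : v ∈ openSegment ℝ x y := ⟨_, _, hα, hβ, hsum, hveq.symm⟩
      have hvm : v ∈ T.biUnion id := Finset.mem_biUnion.2 ⟨t, ht, hv⟩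
      have hsub1 : openSegment ℝ x v ⊆ openSegment ℝ x y := B12_open_sub hα hβ hsum hveq
      have hsub2 : openSegment ℝ v y ⊆ openSegment ℝ x y := by
        rw [openSegment_symm ℝ v y, openSegment_symm ℝ x y]
        exact B12_open_sub hβ hα (by linarith) (by rw [add_comm]; exact hveq)
      have hc1 : ((T.biUnion id).filter (fun u => u ∈ openSegment ℝ x v)).card <
          ((T.biUnion id).filter (fun u => u ∈ openSegment ℝ x y)).card := by
        apply Finset.card_lt_card
        rw [Finset.ssubset_iff_of_subset (Finset.monotone_filter_right _ fun u _ hu => hsub1 hu)]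
        refine ⟨v, Finset.mem_filter.2 ⟨hvm, hvo⟩, fun hm => ?_⟩
        exact hxv (right_mem_openSegment_iff.1 (Finset.mem_filter.1 hm).2)
      have hc2 : ((T.biUnion id).filter (fun u => u ∈ openSegment ℝ v y)).card <
          ((T.biUnion id).filter (fun u => u ∈ openSegment ℝ x y)).card := by
        apply Finset.card_lt_card
        rw [Finset.ssubset_iff_of_subset (Finset.monotone_filter_right _ fun u _ hu => hsub2 hu)]
        refine ⟨v, Finset.mem_filter.2 ⟨hvm, hvo⟩, fun hm => ?_⟩
        exact hvy (left_mem_openSegment_iff.1 (Finset.mem_filter.1 hm).2)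
      have hcx : crossProduct x v = (B / H) • h := by
        rw [hveq, map_add, map_smul, map_smul, cross_self, smul_zero, zero_add]
      have hcy : crossProduct v y = (A / H) • h := by
        rw [hveq, map_add, map_smul, map_smul, LinearMap.add_apply, LinearMap.smul_apply,
          LinearMap.smul_apply, cross_self, smul_zero, add_zero]
      obtain ⟨L1, hL1, hs1⟩ := ih _ (lt_of_lt_of_le hc1 hcard) x v hgx hgv hpx hpv1 hxv
        ⟨tx, htx, hxt⟩ ⟨t, ht, hv⟩ (by rw [hcx]; exact B12_nocross_smul hN hβ) le_rfl
      obtain ⟨L2, hL2, hs2⟩ := ih _ (lt_of_lt_of_le hc2 hcard) v y hgv hgy hpv1 hpy hvy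
        ⟨t, ht, hv⟩ ⟨ty, hty, hyt⟩ (by rw [hcy]; exact B12_nocross_smul hN hα) le_rfl
      obtain ⟨L, hL, hLm⟩ := hL1.append hL2
      have hw : g (v - x) + g (y - v) = g (y - x) := by
        have e1 : v - x = (B / H) • (y - x) := by
          rw [hveq]
          funext i
          have : A / H = 1 - B / H := by linarith
          simp only [Pi.add_apply, Pi.smul_apply, Pi.sub_apply, smul_eq_mul, this]
          ring
        have e2 : y - v = (A / H) • (y - x) := by
          rw [hveq]
          funext i
          have : B / H = 1 - A / H := by linarith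
          simp only [Pi.add_apply, Pi.smul_apply, Pi.sub_apply, smul_eq_mul, this]
          ring
        rw [e1, e2, hg.smul hβ.le, hg.smul hα.le, ← add_mul, add_comm (B / H), hsum, one_mul]
      rw [hw] at hL
      have hvs : v ∈ segment ℝ x y := openSegment_subset_segment ℝ x y hvo
      refine ⟨L, hL, fun z hz => ?_⟩
      rw [hLm] at hz
      rcases hz with hz | hz
      · exact B12_seg_sub hvs (hs1 z hz)
      · have := hs2 z hz
        exact (convex_segment x y).segment_subset hvs (right_mem_segment ℝ x y) this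
    by_contra hno
    -- `x` is in `t`
    have hxt' : x ∈ t := by
      obtain ⟨v, hv, hpos⟩ : ∃ v ∈ t, 0 < a v * (v ⬝ᵥ (crossProduct y h)) := by
        by_contra hc
        push Not at hc
        have := Finset.sum_nonpos hc
        linarith
      have hav : a v ≠ 0 := by
        intro h0; rw [h0, zero_mul] at hpos; exact lt_irrefl _ hpos
      have hav' : 0 < a v := lt_of_le_of_ne (ha0 v) (Ne.symm hav)
      have hA : 0 < v ⬝ᵥ (crossProduct y h) := by
        by_contra hc
        push Not at hc
        nlinarith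
      have hhv := hkill v hv hav
      have hcr := B12_cramer x y v hhv
      rw [← hh, ← hHdef] at hcr
      rcases lt_trichotomy (v ⬝ᵥ (crossProduct h x)) 0 with hB | hB | hB
      · have := B12_key hT.fan htx hxt ha0 ht hat hs hv hA hB hH hcr
        exact this ▸ hv
      · rw [hB, zero_smul, add_zero] at hcr
        have hgv := hT.unit t ht v hv
        have h1 := congrArg g hcr
        rw [hg.smul hH.le, hg.smul hA.le, hgv, hgx, mul_one, mul_one] at h1
        rw [← h1] at hcr
        have : v = x := smul_right_injective E hH.ne' hcr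
        exact this ▸ hv
      · exact absurd (hsplit v hv hhv hA hB) hno
    have hyt' : y ∈ t := by
      obtain ⟨v, hv, hpos⟩ : ∃ v ∈ t, 0 < a v * (v ⬝ᵥ (crossProduct h x)) := by
        by_contra hc
        push Not at hc
        have := Finset.sum_nonpos hc
        linarith
      have hav : a v ≠ 0 := by
        intro h0; rw [h0, zero_mul] at hpos; exact lt_irrefl _ hpos
      have hav' : 0 < a v := lt_of_le_of_ne (ha0 v) (Ne.symm hav)
      have hB : 0 < v ⬝ᵥ (crossProduct h x) := by
        by_contra hc
        push Not at hc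
        nlinarith
      have hhv := hkill v hv hav
      have hcr := B12_cramer x y v hhv
      rw [← hh, ← hHdef] at hcr
      rcases lt_trichotomy (v ⬝ᵥ (crossProduct y h)) 0 with hA | hA | hA
      · have := B12_key hT.fan hty hyt ha0 ht hat (hs.trans (add_comm x y)) hv hB hA hH
          (hcr.trans (add_comm _ _))
        exact this ▸ hv
      · rw [hA, zero_smul, zero_add] at hcr
        have hgv := hT.unit t ht v hv
        have h1 := congrArg g hcr
        rw [hg.smul hH.le, hg.smul hB.le, hgv, hgy, mul_one, mul_one] at h1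
        rw [← h1] at hcr
        have : v = y := smul_right_injective E hH.ne' hcr
        exact this ▸ hv
      · exact absurd (hsplit v hv hhv hA hB) hno
    apply hno
    refine ⟨[x, y], Pth.single (w := wt g) (R := Adj T) ⟨hxy, t, ht, hxt', hyt'⟩, fun z hz => ?_⟩
    simp only [List.mem_cons, List.not_mem_nil, or_false] at hz
    rcases hz with rfl | rfl
    · exact left_mem_segment ℝ _ _
    · exact right_mem_segment ℝ _ _

theorem stSeg (hpt : StPoint) : StSeg := by
  classical
  intro P g hg x y hF
  obtain ⟨hgx, hgy, p, hp, hpx, hpy⟩ := hF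
  obtain ⟨Hx, hx⟩ := hpt P g hg x hgx
  obtain ⟨Hy, hy⟩ := hpt P g hg y hgy
  refine ⟨Hx ∪ Hy ∪ {crossProduct x y}, fun T hT hN => ?_⟩
  have hxT := hx T hT fun h hh => hN h (by simp [hh])
  have hyT := hy T hT fun h hh => hN h (by simp [hh])
  refine ⟨hxT, hyT, ?_⟩
  by_cases hxy : x = y
  · subst hxy
    rw [sub_self, hg.zero]
    refine ⟨[x], Pth.nil x, fun z hz => ?_⟩
    rw [List.mem_singleton] at hz
    rw [hz]
    exact left_mem_segment ℝ _ _
  · exact B12_main hg hT hp _ x y hgx hgy hpx hpy hxy hxT hyT (hN _ (by simp)) le_rfl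

end Pool.Agent.Lib.MP_87489e_co.HT
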