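import Mathlib
import Pool.Agent.Lib.MP_87489e_co.HT.Stmts
import Pool.Agent.Lib.MP_87489e_co.HT.Basic
import Pool.Agent.Lib.MP_87489e_co.HT.A2

set_option autoImplicit false

/-!
B2: the octahedron on the unit sphere of the norm is a symmetric complex.
-/

namespace Pool.Agent.Lib.MP_87489e_co.HT

open Finset

section B2

variable {P : Finset E} {g : E → ℝ}

/-- the sign -/
def B2_sg (b : Bool) : ℝ := if b then 1 else -1

/-- the vertices of the octahedron -/
noncomputable def B2_a (g : E → ℝ) (i : Fin 3) (b : Bool) : E :=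
  Pi.single i (B2_sg b / g (Pi.single i 1))

theorem B2_pos (hg : PN P g) (i : Fin 3) : 0 < g (Pi.single i 1) := by
  apply hg.pos
  intro h
  have h1 := congrFun h i
  simp at h1

theorem B2_sg_ne (b : Bool) : B2_sg b ≠ 0 := by
  cases b <;> simp [B2_sg]

theorem B2_sg_abs (b : Bool) : |B2_sg b| = 1 := by
  cases b <;> simp [B2_sg]

theorem B2_sg_not (b : Bool) : B2_sg (!b) = -B2_sg b := by
  cases b <;> simp [B2_sg]

theorem B2_sg_sq (b : Bool) : B2_sg b * B2_sg b = 1 := by
  cases b <;> simp [B2_sg]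

theorem B2_smul (g : E → ℝ) (i : Fin 3) (b : Bool) :
    B2_a g i b = (B2_sg b / g (Pi.single i 1)) • (Pi.single i 1 : E) := by
  funext j
  by_cases h : j = i
  · subst h; simp [B2_a]
  · simp [B2_a, Pi.single_eq_of_ne h]

theorem B2_unit (hg : PN P g) (i : Fin 3) (b : Bool) : g (B2_a g i b) = 1 := by
  have hp := B2_pos hg i
  rw [B2_smul, hg.abs_smul, abs_div, B2_sg_abs, abs_of_pos hp]
  field_simp

theorem B2_neg (g : E → ℝ) (i : Fin 3) (b : Bool) : -B2_a g i b = B2_a g i (!b) := by
  rw [B2_smul, B2_smul, B2_sg_not, neg_div, neg_smul]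

theorem B2_inj (hg : PN P g) (i j : Fin 3) (b c : Bool) (h : B2_a g i b = B2_a g j c) :
    i = j ∧ b = c := by
  have hp := B2_pos hg i
  have h1 := congrFun h i
  have h2 : B2_sg b / g (Pi.single i 1) ≠ 0 := div_ne_zero (B2_sg_ne b) hp.ne'
  by_cases hij : i = j
  · subst hij
    refine ⟨rfl, ?_⟩
    simp only [B2_a, Pi.single_eq_same] at h1
    rw [div_left_inj' hp.ne'] at h1
    revert h1
    cases b <;> cases c <;> simp [B2_sg] <;> norm_num
  · exfalso
    simp only [B2_a, Pi.single_eq_same, Pi.single_eq_of_ne hij] at h1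
    exact h2 h1

theorem B2_sum (hg : PN P g) (f : E → ℝ) (s : Fin 3 → Bool) :
    ∑ v ∈ A2_tr (B2_a g) s, f v • v =
      fun i => f (B2_a g i (s i)) * (B2_sg (s i) / g (Pi.single i 1)) := by
  rw [A2_tr, sum_image]
  · funext j
    rw [Finset.sum_apply, sum_eq_single j]
    · simp [B2_a]
    · intro i _ hij
      simp [B2_a, Pi.single_eq_of_ne (Ne.symm hij)]
    · intro h
      exact absurd (mem_univ j) h
  · intro i _ j _ hij
    exact (B2_inj hg _ _ _ _ hij).1

/-- a representation is determined -/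
theorem B2_rep (hg : PN P g) {y : E} {f : E → ℝ} (hf : IsRep (oct (B2_a g)) y f) :
    (∀ i b, f (B2_a g i b) = max (B2_sg b * y i * g (Pi.single i 1)) 0) ∧
      ∀ v, (∀ i b, v ≠ B2_a g i b) → f v = 0 := by
  obtain ⟨h0, t, ht, h1, h2⟩ := hf
  rw [A2_mem_oct] at ht
  obtain ⟨s, rfl⟩ := ht
  constructor
  · intro i b
    have hp := B2_pos hg i
    have h3 : f (B2_a g i (s i)) * (B2_sg (s i) / g (Pi.single i 1)) = y i := by
      rw [← h2, B2_sum hg]
    by_cases hs : s i = b
    · rw [hs] at h3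
      have h4 : B2_sg b * y i * g (Pi.single i 1) = f (B2_a g i b) := by
        rw [← h3]
        have : B2_sg b * (f (B2_a g i b) * (B2_sg b / g (Pi.single i 1))) * g (Pi.single i 1) =
            (B2_sg b * B2_sg b) * f (B2_a g i b) := by
          field_simp
        rw [this, B2_sg_sq, one_mul]
      rw [h4, max_eq_left (h0 _)]
    · have h5 : s i = !b := by
        revert hs
        cases s i <;> cases b <;> decide
      have h6 : f (B2_a g i b) = 0 := by
        apply h1
        rw [A2_mem_tr (B2_inj hg)]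
        exact hs
      rw [h5, B2_sg_not] at h3
      have h4 : B2_sg b * y i * g (Pi.single i 1) = -f (B2_a g i (!b)) := by
        rw [← h3]
        have : B2_sg b * (f (B2_a g i (!b)) * (-B2_sg b / g (Pi.single i 1))) *
            g (Pi.single i 1) = -((B2_sg b * B2_sg b) * f (B2_a g i (!b))) := by
          field_simp
        rw [this, B2_sg_sq, one_mul]
      rw [h6, h4, max_eq_right]
      linarith [h0 (B2_a g i (!b))]
  · intro v hv
    apply h1
    rw [A2_mem_tr0]
    rintro ⟨i, hi⟩
    exact hv i (s i) hi.symm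

theorem B2_ex (hg : PN P g) (y : E) : ∃ f, IsRep (oct (B2_a g)) y f := by
  let s : Fin 3 → Bool := fun i => decide (0 ≤ y i)
  refine ⟨fun v => ∑ i, if v = B2_a g i (s i) then |y i| * g (Pi.single i 1) else 0, ?_, ?_⟩
  · intro v
    apply sum_nonneg
    intro i _
    split_ifs
    · exact mul_nonneg (abs_nonneg _) (B2_pos hg i).le
    · exact le_rfl
  · refine ⟨A2_tr (B2_a g) s, A2_mem_oct.mpr ⟨s, rfl⟩, ?_, ?_⟩
    · intro v hv
      apply sum_eq_zero
      intro i _
      rw [if_neg]
      intro h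
      apply hv
      rw [A2_mem_tr0]
      exact ⟨i, h.symm⟩
    · rw [B2_sum hg]
      funext i
      have hp := B2_pos hg i
      have h1 : (∑ j, if B2_a g i (s i) = B2_a g j (s j) then |y j| * g (Pi.single j 1) else 0) =
          |y i| * g (Pi.single i 1) := by
        rw [sum_eq_single i]
        · rw [if_pos rfl]
        · intro j _ hji
          rw [if_neg]
          intro h
          exact hji (B2_inj hg _ _ _ _ h).1.symm
        · intro h
          exact absurd (mem_univ i) h
      rw [h1]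
      have h2 : |y i| * g (Pi.single i 1) * (B2_sg (s i) / g (Pi.single i 1)) =
          |y i| * B2_sg (s i) := by
        field_simp
      rw [h2]
      by_cases h3 : 0 ≤ y i
      · have h4 : s i = true := decide_eq_true h3
        rw [h4, abs_of_nonneg h3]
        simp [B2_sg]
      · have h4 : s i = false := decide_eq_false h3
        rw [h4, abs_of_neg (not_le.mp h3)]
        simp [B2_sg]

theorem B2_fan (hg : PN P g) : Fan (oct (B2_a g)) := by
  intro y
  obtain ⟨f, hf⟩ := B2_ex hg y
  refine ⟨f, hf, fun f' hf' => ?_⟩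
  obtain ⟨h1, h2⟩ := B2_rep hg hf
  obtain ⟨h1', h2'⟩ := B2_rep hg hf'
  funext v
  by_cases hv : ∃ i b, v = B2_a g i b
  · obtain ⟨i, b, rfl⟩ := hv
    rw [h1, h1']
  · have hv' : ∀ i b, v ≠ B2_a g i b := fun i b h => hv ⟨i, b, h⟩
    rw [h2 v hv', h2' v hv']

end B2

theorem stBase (hO : StOct) : StBase := by
  intro P g hg
  refine ⟨oct (B2_a g), ⟨hO E (B2_a g) (B2_inj hg), B2_fan hg, ?_, ?_⟩⟩
  · intro t
    rw [A2_mem_oct]
    rintro ⟨s, rfl⟩ v
    rw [A2_mem_tr0]
    rintro ⟨i, rfl⟩
    exact B2_unit hg i (s i)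
  · intro t
    rw [A2_mem_oct]
    rintro ⟨s, rfl⟩
    rw [A2_mem_oct]
    refine ⟨fun i => !s i, ?_⟩
    rw [A2_tr, A2_tr, image_image]
    congr 1
    funext i
    exact B2_neg g i (s i)

end Pool.Agent.Lib.MP_87489e_co.HT
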