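import Mathlib
import Pool.Agent.Lib.MP_87489e_co.HT.Stmts

set_option autoImplicit false

/-!
B3: orientation. (module by helper8)
-/

namespace Pool.Agent.Lib.MP_87489e_co.HT

open Finset

namespace B3x8

/-- the function with values `p, q, r` at `u, v, w` -/
noncomputable def fn (u v w : E) (p q r : ℝ) (x : E) : ℝ :=
  if x = u then p else if x = v then q else if x = w then r else 0

theorem rep {T : Finset (Finset E)} {u v w : E} (ht : ({u, v, w} : Finset E) ∈ T)
    (huv : u ≠ v) (huw : u ≠ w) (hvw : v ≠ w) {p q r : ℝ} (hp : 0 ≤ p) (hq : 0 ≤ q) (hr : 0 ≤ r) :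
    IsRep T (p • u + q • v + r • w) (fn u v w p q r) := by
  refine ⟨?_, {u, v, w}, ht, ?_, ?_⟩
  · intro x
    unfold fn
    split_ifs <;> first | assumption | exact le_rfl
  · intro x hx
    simp only [mem_insert, mem_singleton, not_or] at hx
    simp [fn, hx.1, hx.2.1, hx.2.2]
  · rw [sum_insert (by simp [huv, huw]), sum_insert (by simp [hvw]), sum_singleton]
    simp [fn, huv.symm, huw.symm, hvw.symm, add_assoc]

theorem distinct {T : Finset (Finset E)} (hT : Sph T) {u v w : E}
    (ht : ({u, v, w} : Finset E) ∈ T) : u ≠ v ∧ u ≠ w ∧ v ≠ w := by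
  have h := hT.card3 _ ht
  refine ⟨?_, ?_, ?_⟩
  · rintro rfl
    have : ({u, u, w} : Finset E) = {u, w} := by simp
    rw [this] at h
    have := Finset.card_le_two (a := u) (b := w)
    omega
  · rintro rfl
    have : ({u, v, u} : Finset E) = {u, v} := by
      ext x; simp; tauto
    rw [this] at h
    have := Finset.card_le_two (a := u) (b := v)
    omega
  · rintro rfl
    have : ({u, v, v} : Finset E) = {u, v} := by simp
    rw [this] at h
    have := Finset.card_le_two (a := u) (b := v)
    omega

theorem det3_ne {T : Finset (Finset E)} (hT : Sph T) (hF : Fan T) {u v w : E}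
    (ht : ({u, v, w} : Finset E) ∈ T) : det3 u v w ≠ 0 := by
  obtain ⟨huv, huw, hvw⟩ := distinct hT ht
  intro h0
  have h1 : Matrix.det ![u, v, w] = 0 := by
    rw [← triple_product_eq_det]; exact h0
  obtain ⟨c, hc0, hc⟩ := Matrix.exists_vecMul_eq_zero_iff.2 h1
  have hrel : c 0 • u + c 1 • v + c 2 • w = 0 := by
    funext i
    have := congrFun hc i
    simp only [Matrix.vecMul, dotProduct, Fin.sum_univ_three, Matrix.cons_val_zero,
      Matrix.cons_val_one, Matrix.cons_val_two, Pi.zero_apply] at this
    simpa using this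
  have e1 := rep ht huv huw hvw (le_max_right (c 0) 0) (le_max_right (c 1) 0)
    (le_max_right (c 2) 0)
  have e2 := rep ht huv huw hvw (le_max_right (-c 0) 0) (le_max_right (-c 1) 0)
    (le_max_right (-c 2) 0)
  have hm : ∀ a : ℝ, max a 0 = a + max (-a) 0 := by
    intro a
    rcases le_total a 0 with h | h
    · rw [max_eq_right h, max_eq_left (by linarith)]; ring
    · rw [max_eq_left h, max_eq_right (by linarith)]; ring
  have hy : (max (c 0) 0) • u + (max (c 1) 0) • v + (max (c 2) 0) • w =
      (max (-c 0) 0) • u + (max (-c 1) 0) • v + (max (-c 2) 0) • w := by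
    rw [hm (c 0), hm (c 1), hm (c 2)]
    have : (c 0 + max (-c 0) 0) • u + (c 1 + max (-c 1) 0) • v + (c 2 + max (-c 2) 0) • w =
        (c 0 • u + c 1 • v + c 2 • w) +
          ((max (-c 0) 0) • u + (max (-c 1) 0) • v + (max (-c 2) 0) • w) := by
      module
    rw [this, hrel, zero_add]
  rw [hy] at e1
  have he := (hF _).unique e1 e2
  have hz : ∀ a : ℝ, max a 0 = max (-a) 0 → a = 0 := by
    intro a h
    have := hm a
    linarith
  apply hc0
  have hu := congrFun he u
  have hv := congrFun he v
  have hw := congrFun he w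
  simp only [fn, if_true, huv.symm, huw.symm, hvw.symm, if_false] at hu hv hw
  funext i
  fin_cases i
  · exact hz _ hu
  · exact hz _ hv
  · exact hz _ hw

theorem cramer (u v w z : E) (i : Fin 3) :
    det3 u v w * z i = det3 z v w * u i + det3 u z w * v i + det3 u v z * w i := by
  fin_cases i <;>
    simp [det3, crossProduct, dotProduct, Fin.sum_univ_three] <;> ring

theorem opp {T : Finset (Finset E)} (hT : Sph T) (hF : Fan T) {u v w z : E}
    (ht : ({u, v, w} : Finset E) ∈ T) (ht' : ({u, v, z} : Finset E) ∈ T) (hwz : w ≠ z) :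
    det3 u v w * det3 u v z < 0 := by
  obtain ⟨huv, huw, hvw⟩ := distinct hT ht
  obtain ⟨-, huz, hvz⟩ := distinct hT ht'
  have h1 := det3_ne hT hF ht
  have h2 := det3_ne hT hF ht'
  by_contra hcon
  have hpos : 0 < det3 u v w * det3 u v z :=
    lt_of_le_of_ne (not_lt.1 hcon) (Ne.symm (mul_ne_zero h1 h2))
  set α := det3 z v w / det3 u v w with hα
  set β := det3 u z w / det3 u v w with hβ
  set γ := det3 u v z / det3 u v w with hγ
  have hγ0 : 0 < γ := by
    rcases lt_or_gt_of_ne h1 with h | h
    · have : det3 u v z < 0 := by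
        by_contra h3
        nlinarith
      exact div_pos_of_neg_of_neg this h
    · have : 0 < det3 u v z := by
        by_contra h3
        nlinarith
      exact div_pos this h
  have hz : z = α • u + β • v + γ • w := by
    funext i
    have := cramer u v w z i
    simp only [Pi.add_apply, Pi.smul_apply, smul_eq_mul]
    rw [hα, hβ, hγ]
    field_simp
    linarith
  set K := |α| + |β| with hK
  have hK1 : 0 ≤ K := by positivity
  have hK2 : 0 ≤ K + α := by
    have := neg_abs_le α
    have := abs_nonneg β
    linarith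
  have hK3 : 0 ≤ K + β := by
    have := neg_abs_le β
    have := abs_nonneg α
    linarith
  have e1 := rep ht' huv huz hvz hK1 hK1 (zero_le_one (α := ℝ))
  have e2 := rep ht huv huw hvw hK2 hK3 hγ0.le
  have hy : (K + α) • u + (K + β) • v + γ • w = K • u + K • v + (1 : ℝ) • z := by
    conv_rhs => rw [hz]
    module
  rw [hy] at e2
  have he := (hF _).unique e1 e2
  have := congrFun he z
  simp [fn, huz.symm, hvz.symm, hwz.symm] at this

end B3x8

theorem stOri : StOri := fun _ hT hF =>
  ⟨fun _ _ _ h => B3x8.det3_ne hT hF h, fun _ _ _ _ h h' hn => B3x8.opp hT hF h h' hn⟩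

end Pool.Agent.Lib.MP_87489e_co.HT
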