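import Mathlib
import Pool.Agent.Lib.MP_87489e_co.HT.Stmts
import Pool.Agent.Lib.MP_87489e_co.HT.Basic

set_option autoImplicit false

/-! B4: the volume of the unit ball of a polyhedral norm is at least the sum of the volumes of the
tetrahedra over the triangles of a complex. -/

namespace Pool.Agent.Lib.MP_87489e_co.HT

open MeasureTheory Set
open scoped Pointwise

namespace B4

/-- half open simplex -/
def T1 : Set (Fin 3 → ℝ) := {x | (∀ i, 0 ≤ x i) ∧ ∑ i, x i < 1}

/-- open simplex -/
def T2 : Set (Fin 3 → ℝ) := {x | (∀ i, 0 < x i) ∧ ∑ i, x i < 1}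

theorem cross_vol : volume {x : Fin 3 → ℝ | ∑ i, |x i| < 1} = ENNReal.ofReal (8 / 6) := by
  have h := volume_sum_rpow_lt_one (Fin 3) (p := 1) le_rfl
  simp only [Real.rpow_one, Fintype.card_fin] at h
  rw [h]
  congr 1
  have e1 : Real.Gamma (1 / 1 + 1) = 1 := by
    have := Real.Gamma_nat_eq_factorial 1
    norm_num at this
    norm_num
  have e2 : Real.Gamma (((3 : ℕ) : ℝ) / 1 + 1) = 6 := by
    have := Real.Gamma_nat_eq_factorial 3
    norm_num [Nat.factorial] at this
    norm_num
  rw [e1, e2]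
  norm_num

/-- sign change -/
noncomputable def sg (s : Fin 3 → Bool) : Fin 3 → ℝ := fun i => if s i then 1 else -1

theorem flip_vol (s : Fin 3 → Bool) (A : Set (Fin 3 → ℝ)) :
    volume (Matrix.toLin' (Matrix.diagonal (sg s)) '' A) = volume A := by
  rw [Measure.addHaar_image_linearMap, LinearMap.det_toLin', Matrix.det_diagonal]
  have : |∏ i, sg s i| = 1 := by
    rw [Finset.abs_prod]
    apply Finset.prod_eq_one
    intro i _
    unfold sg
    split_ifs <;> simp
  rw [this]
  simp

theorem T1_vol : ENNReal.ofReal (1 / 6) ≤ volume T1 := by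
  have h1 : {x : Fin 3 → ℝ | ∑ i, |x i| < 1} ⊆
      ⋃ s : Fin 3 → Bool, Matrix.toLin' (Matrix.diagonal (sg s)) '' T1 := by
    intro x hx
    have hx' : ∑ i, |x i| < 1 := hx
    rw [mem_iUnion]
    refine ⟨fun i => decide (0 ≤ x i), fun i => |x i|, ⟨fun i => abs_nonneg _, hx'⟩, ?_⟩
    rw [Matrix.toLin'_apply]
    ext i
    rw [Matrix.mulVec_diagonal]
    unfold sg
    by_cases h : 0 ≤ x i
    · simp [h, abs_of_nonneg h]
    · push Not at h
      simp [not_le.mpr h, abs_of_neg h]
  have h2 : volume {x : Fin 3 → ℝ | ∑ i, |x i| < 1} ≤ 8 * volume T1 := by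
    refine (measure_mono h1).trans ((measure_iUnion_fintype_le _ _).trans ?_)
    simp only [flip_vol, Finset.sum_const, Finset.card_univ, Fintype.card_pi, Fintype.card_bool]
    simp
  rw [cross_vol] at h2
  have h3 : ENNReal.ofReal (8 / 6) = 8 * ENNReal.ofReal (1 / 6) := by
    rw [show (8 : ℝ) / 6 = 8 * (1 / 6) by norm_num, ENNReal.ofReal_mul (by norm_num)]
    norm_num
  rw [h3] at h2
  exact (ENNReal.mul_le_mul_iff_right (by norm_num) (by norm_num)).mp h2

theorem T2_vol : ENNReal.ofReal (1 / 6) ≤ volume T2 := by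
  have h1 : T1 ⊆ T2 ∪ ⋃ i : Fin 3, {x : Fin 3 → ℝ | x i = 0} := by
    intro x hx
    by_cases h : ∀ i, 0 < x i
    · exact Or.inl ⟨h, hx.2⟩
    · right
      push Not at h
      obtain ⟨i, hi⟩ := h
      rw [mem_iUnion]
      exact ⟨i, le_antisymm hi (hx.1 i)⟩
  have h2 : volume (⋃ i : Fin 3, {x : Fin 3 → ℝ | x i = 0}) = 0 := by
    rw [measure_iUnion_null_iff]
    intro i
    exact Measure.pi_hyperplane (fun _ : Fin 3 => (volume : Measure ℝ)) i 0
  calc ENNReal.ofReal (1 / 6) ≤ volume T1 := T1_vol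
    _ ≤ volume (T2 ∪ ⋃ i : Fin 3, {x : Fin 3 → ℝ | x i = 0}) := measure_mono h1
    _ ≤ volume T2 + volume (⋃ i : Fin 3, {x : Fin 3 → ℝ | x i = 0}) := measure_union_le _ _
    _ = volume T2 := by rw [h2, add_zero]

theorem T2_convex : Convex ℝ T2 := by
  intro x hx y hy a b ha hb hab
  refine ⟨fun i => ?_, ?_⟩
  · have h1 := hx.1 i
    have h2 := hy.1 i
    simp only [Pi.add_apply, Pi.smul_apply, smul_eq_mul]
    rcases ha.lt_or_eq with h | h
    · have := mul_pos h h1
      have := mul_nonneg hb h2.le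
      linarith
    · have : b = 1 := by rw [← h] at hab; linarith
      rw [← h, this]
      linarith
  · simp only [Pi.add_apply, Pi.smul_apply, smul_eq_mul, Finset.sum_add_distrib, ← Finset.mul_sum]
    have h1 := hx.2
    have h2 := hy.2
    rcases ha.lt_or_eq with h | h
    · have := mul_lt_mul_of_pos_left h1 h
      have := mul_le_mul_of_nonneg_left h2.le hb
      linarith
    · have : b = 1 := by rw [← h] at hab; linarith
      rw [← h, this]
      linarith

/-- the linear map with values `u v w` on the basis -/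
noncomputable def Lm (u v w : E) : (Fin 3 → ℝ) →ₗ[ℝ] (Fin 3 → ℝ) :=
  Matrix.toLin' (Matrix.transpose (Matrix.of ![u, v, w]))

theorem Lm_apply (u v w : E) (x : Fin 3 → ℝ) : Lm u v w x = x 0 • u + x 1 • v + x 2 • w := by
  unfold Lm
  rw [Matrix.toLin'_apply, Matrix.mulVec_transpose]
  ext j
  simp [Matrix.vecMul, dotProduct, Fin.sum_univ_three]

theorem Lm_det (u v w : E) : LinearMap.det (Lm u v w) = det3 u v w := by
  unfold Lm
  rw [LinearMap.det_toLin', Matrix.det_transpose]
  unfold det3
  rw [triple_product_eq_det]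
  rfl

theorem tet_vol (u v w : E) :
    ENNReal.ofReal |det3 u v w| * ENNReal.ofReal (1 / 6) ≤ volume (Lm u v w '' T2) := by
  rw [Measure.addHaar_image_linearMap, Lm_det]
  gcongr
  exact T2_vol

theorem distinct3 (u v w : E) (h : ({u, v, w} : Finset E).card = 3) : u ≠ v ∧ u ≠ w ∧ v ≠ w := by
  classical
  refine ⟨?_, ?_, ?_⟩
  · rintro rfl
    have : ({u, u, w} : Finset E) = {u, w} := by simp
    rw [this] at h
    have := Finset.card_le_two (a := u) (b := w)
    omega
  · rintro rfl
    have : ({u, v, u} : Finset E) = {u, v} := by ext x; simp; tauto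
    rw [this] at h
    have := Finset.card_le_two (a := u) (b := v)
    omega
  · rintro rfl
    have : ({u, v, v} : Finset E) = {u, v} := by simp
    rw [this] at h
    have := Finset.card_le_two (a := u) (b := v)
    omega

open Classical in
/-- the representation of an interior point of the cone over a triangle -/
noncomputable def rep (u v w : E) (x : Fin 3 → ℝ) (z : E) : ℝ :=
  if z = u then x 0 else if z = v then x 1 else if z = w then x 2 else 0

theorem rep_pos (u v w : E) (x : Fin 3 → ℝ) (hx : ∀ i, 0 < x i) (z : E) :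
    0 < rep u v w x z ↔ z ∈ ({u, v, w} : Finset E) := by
  classical
  unfold rep
  simp only [Finset.mem_insert, Finset.mem_singleton]
  split_ifs with h1 h2 h3
  · simp [h1, hx]
  · simp [h2, hx]
  · simp [h3, hx]
  · simp [h1, h2, h3]

theorem rep_isRep (T : Finset (Finset E)) (u v w : E) (hT : ({u, v, w} : Finset E) ∈ T)
    (hc : ({u, v, w} : Finset E).card = 3) (x : Fin 3 → ℝ) (hx : ∀ i, 0 < x i) :
    IsRep T (Lm u v w x) (rep u v w x) := by
  classical
  obtain ⟨h1, h2, h3⟩ := distinct3 u v w hc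
  refine ⟨fun z => ?_, {u, v, w}, hT, fun z hz => ?_, ?_⟩
  · unfold rep
    split_ifs
    · exact (hx 0).le
    · exact (hx 1).le
    · exact (hx 2).le
    · exact le_rfl
  · unfold rep
    simp only [Finset.mem_insert, Finset.mem_singleton, not_or] at hz
    simp [hz.1, hz.2.1, hz.2.2]
  · rw [Finset.sum_insert (by simp [h1, h2]), Finset.sum_insert (by simp [h3]),
      Finset.sum_singleton, Lm_apply]
    unfold rep
    simp [h1.symm, h2.symm, h3.symm, add_assoc]

end B4

open B4 in
/-- B4 -/
theorem stVol : StVol := by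
  classical
  intro P g T hP hC _ U V W hT
  set S : Finset E → Set (Fin 3 → ℝ) := fun t => Lm (U t) (V t) (W t) '' T2 with hS
  have hsub : ∀ t ∈ T, S t ⊆ {y : E | g y ≤ 1} := by
    rintro t ht _ ⟨x, hx, rfl⟩
    have hmem : ∀ v ∈ ({U t, V t, W t} : Finset E), g v = 1 := by
      intro v hv
      rw [← hT t ht] at hv
      exact hC.unit t ht v hv
    have hU := hmem (U t) (by simp)
    have hV := hmem (V t) (by simp)
    have hW := hmem (W t) (by simp)
    show g _ ≤ 1
    rw [Lm_apply]
    have h1 := hP.add_le (x 0 • U t + x 1 • V t) (x 2 • W t)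
    have h2 := hP.add_le (x 0 • U t) (x 1 • V t)
    rw [hP.smul (hx.1 0).le, hP.smul (hx.1 1).le, hU, hV] at h2
    rw [hP.smul (hx.1 2).le, hW] at h1
    have h3 := hx.2
    rw [Fin.sum_univ_three] at h3
    linarith
  have hdisj : (T : Set (Finset E)).PairwiseDisjoint S := by
    intro t ht t' ht' hne
    rw [Function.onFun, Set.disjoint_left]
    rintro y ⟨x, hx, hxy⟩ ⟨x', hx', hxy'⟩
    have ht0 : t ∈ T := ht
    have ht0' : t' ∈ T := ht'
    have c1 := hC.sph.card3 t ht0
    have c2 := hC.sph.card3 t' ht0'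
    rw [hT t ht0] at c1
    rw [hT t' ht0'] at c2
    have r1 := rep_isRep T (U t) (V t) (W t) (by rw [← hT t ht0]; exact ht0) c1 x hx.1
    have r2 := rep_isRep T (U t') (V t') (W t') (by rw [← hT t' ht0']; exact ht0') c2 x' hx'.1
    rw [hxy] at r1
    rw [hxy'] at r2
    have e := (hC.fan y).unique r1 r2
    apply hne
    rw [hT t ht0, hT t' ht0']
    ext z
    rw [← rep_pos (U t) (V t) (W t) x hx.1, ← rep_pos (U t') (V t') (W t') x' hx'.1, e]
  have hnull : ∀ t ∈ T, NullMeasurableSet (S t) volume := fun t _ =>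
    (T2_convex.linear_image _).nullMeasurableSet volume
  have h1 : ∑ t ∈ T, volume (S t) ≤ volume {y : E | g y ≤ 1} := by
    rw [← measure_biUnion_finset₀ (fun t ht t' ht' hne => (hdisj ht ht' hne).aedisjoint) hnull]
    exact measure_mono (iUnion₂_subset hsub)
  have h2 : ∑ t ∈ T, ENNReal.ofReal |det3 (U t) (V t) (W t)| * ENNReal.ofReal (1 / 6) ≤
      volume {y : E | g y ≤ 1} :=
    (Finset.sum_le_sum fun t _ => tet_vol (U t) (V t) (W t)).trans h1
  rw [← Finset.sum_mul, ← ENNReal.ofReal_sum_of_nonneg (fun t _ => abs_nonneg _),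
    ← ENNReal.ofReal_mul (Finset.sum_nonneg fun t _ => abs_nonneg _)] at h2
  have h3 := ENNReal.toReal_mono hP.compact_ball.measure_lt_top.ne h2
  rw [ENNReal.toReal_ofReal (mul_nonneg (Finset.sum_nonneg fun t _ => abs_nonneg _)
    (by norm_num))] at h3
  linarith

end Pool.Agent.Lib.MP_87489e_co.HT
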