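import Mathlib
import Pool.Agent.Lib.MP_87489e_co.HT.Stmts
import Pool.Agent.Lib.MP_87489e_co.HT.Basic

set_option autoImplicit false

/-!
Module B6: general facts on refinements.
-/

namespace Pool.Agent.Lib.MP_87489e_co.HT

open Finset

theorem B6_mem_sub {V : Type} [DecidableEq V] {T : Finset (Finset V)} {u v m : V} {t : Finset V} :
    t ∈ sub T u v m ↔ (t ∈ T ∧ ¬ ({u, v} : Finset V) ⊆ t) ∨
      ∃ t₀ ∈ T, ({u, v} : Finset V) ⊆ t₀ ∧
        (t = insert m (t₀.erase u) ∨ t = insert m (t₀.erase v)) := by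
  simp only [sub, mem_union, mem_filter, mem_image]
  constructor
  · rintro (h | ⟨t₀, ⟨h1, h2⟩, rfl⟩ | ⟨t₀, ⟨h1, h2⟩, rfl⟩)
    · exact Or.inl h
    · exact Or.inr ⟨t₀, h1, h2, Or.inl rfl⟩
    · exact Or.inr ⟨t₀, h1, h2, Or.inr rfl⟩
  · rintro (h | ⟨t₀, h1, h2, rfl | rfl⟩)
    · exact Or.inl h
    · exact Or.inr (Or.inl ⟨t₀, ⟨h1, h2⟩, rfl⟩)
    · exact Or.inr (Or.inr ⟨t₀, ⟨h1, h2⟩, rfl⟩)

theorem B6_sub_mono {V : Type} [DecidableEq V] {T D : Finset (Finset V)} (h : D ⊆ T) (u v m : V) :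
    sub D u v m ⊆ sub T u v m := by
  intro t ht
  rw [B6_mem_sub] at ht ⊢
  rcases ht with ⟨h1, h2⟩ | ⟨t₀, h1, h2⟩
  · exact Or.inl ⟨h h1, h2⟩
  · exact Or.inr ⟨t₀, h h1, h2⟩

theorem B6_self_mem_cone {t : Finset E} {v : E} (hv : v ∈ t) : v ∈ cone t := by
  classical
  refine ⟨fun w => if w = v then 1 else 0, fun w => by dsimp only; split_ifs <;> simp, ?_⟩
  simp [ite_smul, Finset.sum_ite_eq', hv]

theorem B6_cone_add {t : Finset E} {x y : E} (hx : x ∈ cone t) (hy : y ∈ cone t) {a b : ℝ}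
    (ha : 0 ≤ a) (hb : 0 ≤ b) : a • x + b • y ∈ cone t := by
  obtain ⟨c, hc, rfl⟩ := hx
  obtain ⟨d, hd, rfl⟩ := hy
  refine ⟨fun w => a * c w + b * d w, fun w => ?_, ?_⟩
  · exact add_nonneg (mul_nonneg ha (hc w)) (mul_nonneg hb (hd w))
  · simp only [add_smul, sum_add_distrib, mul_smul, smul_sum]

/-- the vertices of a new triangle lie in the cone of the old one -/
theorem B6_cone_new {t₀ s : Finset E} {u v m : E} {a b : ℝ} (ha : 0 < a) (hb : 0 < b)
    (hm : m = a • u + b • v) (huv : ({u, v} : Finset E) ⊆ t₀) (hs : ∀ w ∈ t₀, w ∈ cone s)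
    {t : Finset E} (ht : t = insert m (t₀.erase u) ∨ t = insert m (t₀.erase v)) :
    ∀ w ∈ t, w ∈ cone s := by
  have hmc : m ∈ cone s := by
    rw [hm]
    exact B6_cone_add (hs u (huv (by simp))) (hs v (huv (by simp))) ha.le hb.le
  intro w hw
  rcases ht with rfl | rfl
  · rw [mem_insert] at hw
    rcases hw with rfl | hw
    · exact hmc
    · exact hs w (mem_of_mem_erase hw)
  · rw [mem_insert] at hw
    rcases hw with rfl | hw
    · exact hmc
    · exact hs w (mem_of_mem_erase hw)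

theorem stRef1 (hSub : StSub) (hFan : StFanSub) : StRef1 := by
  intro P g T D T' D' hg hT hD hR
  induction hR with
  | refl =>
    refine ⟨hT.sph, hT.fan, hD, hT.unit, ?_, ?_, ?_, fun h => h⟩
    · exact fun t ht => ⟨t, ht, fun v hv => B6_self_mem_cone hv⟩
    · exact fun t ht ht' => ⟨t, ht, ht', fun v hv => B6_self_mem_cone hv⟩
    · exact fun t ht v hv => ⟨t, ht, hv⟩
  | @step T₁ D₁ u v m a b h huv he ha hb hm hgm ih =>
    obtain ⟨i1, i2, i3, i4, i5, i6, i7, i8⟩ := ih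
    obtain ⟨f1, f2⟩ := hFan T₁ u v m a b i1.card3 i2 huv he ha hb hm
    refine ⟨hSub E T₁ u v m i1 huv he f1, f2, B6_sub_mono i3 u v m, ?_, ?_, ?_, ?_, ?_⟩
    · intro t ht w hw
      rw [B6_mem_sub] at ht
      rcases ht with ⟨h1, -⟩ | ⟨t₀, h1, h2, rfl | rfl⟩
      · exact i4 t h1 w hw
      · rw [mem_insert] at hw
        rcases hw with rfl | hw
        · exact hgm
        · exact i4 t₀ h1 w (mem_of_mem_erase hw)
      · rw [mem_insert] at hw
        rcases hw with rfl | hw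
        · exact hgm
        · exact i4 t₀ h1 w (mem_of_mem_erase hw)
    · intro t ht
      rw [B6_mem_sub] at ht
      rcases ht with ⟨h1, -⟩ | ⟨t₀, h1, h2, h3⟩
      · exact i5 t h1
      · obtain ⟨s, hs, hs'⟩ := i5 t₀ h1
        exact ⟨s, hs, B6_cone_new ha hb hm h2 hs' h3⟩
    · intro t ht htD
      rw [B6_mem_sub] at ht
      rcases ht with ⟨h1, h2⟩ | ⟨t₀, h1, h2, h3⟩
      · have : t ∉ D₁ := fun h => htD (B6_mem_sub.mpr (Or.inl ⟨h, h2⟩))
        exact i6 t h1 this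
      · have : t₀ ∉ D₁ := fun h => htD (B6_mem_sub.mpr (Or.inr ⟨t₀, h, h2, h3⟩))
        obtain ⟨s, hs, hs', hs''⟩ := i6 t₀ h1 this
        exact ⟨s, hs, hs', B6_cone_new ha hb hm h2 hs'' h3⟩
    · intro t ht w hw
      obtain ⟨t₁, h1, h2⟩ := i7 t ht w hw
      by_cases h3 : ({u, v} : Finset E) ⊆ t₁
      · by_cases h4 : w = u
        · refine ⟨insert m (t₁.erase v), B6_mem_sub.mpr (Or.inr ⟨t₁, h1, h3, Or.inr rfl⟩), ?_⟩
          exact mem_insert_of_mem (mem_erase.mpr ⟨fun h5 => huv (h4.symm.trans h5), h2⟩)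
        · refine ⟨insert m (t₁.erase u), B6_mem_sub.mpr (Or.inr ⟨t₁, h1, h3, Or.inl rfl⟩), ?_⟩
          exact mem_insert_of_mem (mem_erase.mpr ⟨h4, h2⟩)
      · exact ⟨t₁, B6_mem_sub.mpr (Or.inl ⟨h1, h3⟩), h2⟩
    · intro hF t ht
      have hF₁ := i8 hF
      rw [B6_mem_sub] at ht
      rcases ht with ⟨h1, -⟩ | ⟨t₀, h1, h2, h3⟩
      · exact hF₁ t h1
      · obtain ⟨p, hp, hp'⟩ := hF₁ t₀ h1
        have hu : p ⬝ᵥ u = 1 := hp' u (h2 (by simp))
        have hv : p ⬝ᵥ v = 1 := hp' v (h2 (by simp))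
        have hpm : p ⬝ᵥ m = a + b := by
          rw [hm, dotProduct_add, dotProduct_smul, dotProduct_smul, hu, hv]
          simp
        have hle : p ⬝ᵥ m ≤ 1 := by rw [← hgm]; exact hg.le p hp m
        have hge : 1 ≤ a + b := by
          have h5 := hg.add_le (a • u) (b • v)
          rw [← hm, hgm, hg.smul ha.le, hg.smul hb.le, i4 t₀ h1 u (h2 (by simp)),
            i4 t₀ h1 v (h2 (by simp))] at h5
          linarith
        have hpm1 : p ⬝ᵥ m = 1 := by linarith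
        refine ⟨p, hp, fun w hw => ?_⟩
        rcases h3 with rfl | rfl
        · rw [mem_insert] at hw
          rcases hw with rfl | hw
          · exact hpm1
          · exact hp' w (mem_of_mem_erase hw)
        · rw [mem_insert] at hw
          rcases hw with rfl | hw
          · exact hpm1
          · exact hp' w (mem_of_mem_erase hw)

end Pool.Agent.Lib.MP_87489e_co.HT
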