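import Mathlib
import Pool.Agent.Lib.MP_87489e_co.HT.Stmts
import Pool.Agent.Lib.MP_87489e_co.HT.Basic
import Pool.Agent.Lib.MP_87489e_co.HT.B6

set_option autoImplicit false

/-!
Module B7: edges inside a cone of `D`.
-/

namespace Pool.Agent.Lib.MP_87489e_co.HT

open Finset

/-- a representation by a triangle given by arbitrary nonnegative coefficients on it -/
theorem B7_rep {T : Finset (Finset E)} {t : Finset E} (ht : t ∈ T) (a : E → ℝ)
    (ha : ∀ v ∈ t, 0 ≤ a v) : IsRep T (∑ v ∈ t, a v • v) (fun v => if v ∈ t then a v else 0) := by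
  refine ⟨fun v => ?_, t, ht, fun v hv => if_neg hv, ?_⟩
  · dsimp only
    split_ifs with h
    · exact ha v h
    · exact le_rfl
  · exact sum_congr rfl fun v hv => by simp only [if_pos hv]

/-- two nonnegative representations of the same point -/
theorem B7_unique {T : Finset (Finset E)} (hF : Fan T) {t t' : Finset E} (ht : t ∈ T)
    (ht' : t' ∈ T) (a a' : E → ℝ) (ha : ∀ v ∈ t, 0 ≤ a v) (ha' : ∀ v ∈ t', 0 ≤ a' v)
    (h : ∑ v ∈ t, a v • v = ∑ v ∈ t', a' v • v) (v : E) :
    (if v ∈ t then a v else 0) = (if v ∈ t' then a' v else 0) := by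
  have h1 := B7_rep ht a ha
  have h2 := B7_rep ht' a' ha'
  rw [← h] at h2
  exact congrFun ((hF _).unique h1 h2) v

/-- linear independence -/
theorem B7_indep {T : Finset (Finset E)} (hF : Fan T) {t : Finset E} (ht : t ∈ T)
    (a a' : E → ℝ) (h : ∑ v ∈ t, a v • v = ∑ v ∈ t, a' v • v) : ∀ v ∈ t, a v = a' v := by
  set N : ℝ := ∑ v ∈ t, (|a v| + |a' v|) with hN
  have hbd : ∀ v ∈ t, |a v| + |a' v| ≤ N := fun v hv =>
    single_le_sum (f := fun v => |a v| + |a' v|) (fun w _ => by positivity) hv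
  have h1 : ∑ v ∈ t, (a v + N) • v = ∑ v ∈ t, (a' v + N) • v := by
    simp only [add_smul, sum_add_distrib, h]
  have h2 := B7_unique hF ht ht (fun v => a v + N) (fun v => a' v + N)
    (fun v hv => by have := hbd v hv; have := neg_abs_le (a v); have := abs_nonneg (a' v); linarith)
    (fun v hv => by have := hbd v hv; have := neg_abs_le (a' v); have := abs_nonneg (a v); linarith)
    h1
  intro v hv
  have h3 := h2 v
  rw [if_pos hv, if_pos hv] at h3
  linarith

theorem B7_cone_sum {t : Finset E} (s : Finset E) (c : E → ℝ) (hc : ∀ w ∈ s, 0 ≤ c w)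
    (hs : ∀ w ∈ s, w ∈ cone t) : ∑ w ∈ s, c w • w ∈ cone t := by
  induction s using Finset.induction_on with
  | empty => exact ⟨fun _ => 0, fun _ => le_rfl, by simp⟩
  | insert w s hw ih =>
    rw [sum_insert hw]
    have h1 := ih (fun z hz => hc z (mem_insert_of_mem hz)) (fun z hz => hs z (mem_insert_of_mem hz))
    have h2 := B6_cone_add (hs w (mem_insert_self w s)) h1 (hc w (mem_insert_self w s)) zero_le_one
    rwa [one_smul] at h2

theorem stRef2 (hRef : StRef1) : StRef2 := by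
  intro P g T D T' D' hg hT hD hR t ht e he hcone
  obtain ⟨i1, i2, -, -, -, i6, -, -⟩ := hRef P g T D T' D' hg hT hD hR
  have htT : t ∈ T := hD ht
  obtain ⟨t₂, ht₂, het₂, hcard⟩ := mem_edges.mp he
  obtain ⟨v, v', hne, rfl⟩ := card_eq_two.mp hcard
  obtain ⟨α, hα, hvα⟩ := hcone v (by simp)
  obtain ⟨β, hβ, hvβ⟩ := hcone v' (by simp)
  set c : E := ∑ w ∈ t, w with hc
  -- the points near `v + v'`
  set y : ℕ → E := fun n => v + v' + ((1 : ℝ) / (n + 1)) • c with hy
  have hrep : ∀ n, ∃ s ∈ T', ∃ a : E → ℝ, (∀ w, 0 ≤ a w) ∧ ∑ w ∈ s, a w • w = y n := by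
    intro n
    obtain ⟨a, ⟨ha, s, hs, -, hsum⟩, -⟩ := i2 (y n)
    exact ⟨s, hs, a, ha, hsum⟩
  choose s hs a ha hsum using hrep
  -- infinitely many of them in one cone
  obtain ⟨t', ht', hinf⟩ : ∃ t' ∈ T', {n : ℕ | s n = t'}.Infinite := by
    by_contra hcon
    push Not at hcon
    have hfin : (⋃ t' ∈ T', {n : ℕ | s n = t'}).Finite :=
      T'.finite_toSet.biUnion fun t' ht' => hcon t' (mem_coe.mp ht')
    apply Set.infinite_univ (α := ℕ)
    refine hfin.subset fun n _ => ?_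
    simp only [Set.mem_iUnion]
    exact ⟨s n, hs n, rfl⟩
  obtain ⟨n₁, hn₁, -⟩ := hinf.exists_gt 0
  obtain ⟨n₂, hn₂, hlt⟩ := hinf.exists_gt n₁
  have hn₁' : s n₁ = t' := hn₁
  have hn₂' : s n₂ = t' := hn₂
  have e₁ : ∑ w ∈ t', a n₁ w • w = y n₁ := by rw [← hsum n₁, hn₁']
  have e₂ : ∑ w ∈ t', a n₂ w • w = y n₂ := by rw [← hsum n₂, hn₂']
  set ε₁ : ℝ := 1 / (n₁ + 1) with hε₁
  set ε₂ : ℝ := 1 / (n₂ + 1) with hε₂
  have hε : ε₂ < ε₁ := by
    rw [hε₁, hε₂]
    apply one_div_lt_one_div_of_lt (by positivity)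
    have : (n₁ : ℝ) < n₂ := by exact_mod_cast hlt
    linarith
  have hd : ε₁ - ε₂ ≠ 0 := by linarith
  -- affine coordinates
  set q : E → ℝ := fun w => (a n₁ w - a n₂ w) / (ε₁ - ε₂) with hq
  set r : E → ℝ := fun w => a n₁ w - ε₁ * q w with hr
  have hqs : ∑ w ∈ t', q w • w = c := by
    have h1 : ∑ w ∈ t', (a n₁ w - a n₂ w) • w = (ε₁ - ε₂) • c := by
      simp only [sub_smul, sum_sub_distrib, e₁, e₂, hy]
      abel
    have h2 : ∑ w ∈ t', q w • w = (ε₁ - ε₂)⁻¹ • ∑ w ∈ t', (a n₁ w - a n₂ w) • w := by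
      rw [smul_sum]
      apply sum_congr rfl
      intro w _
      rw [smul_smul]
      congr 1
      simp only [hq]
      rw [div_eq_inv_mul]
    rw [h2, h1, smul_smul, inv_mul_cancel₀ hd, one_smul]
  have hrs : ∑ w ∈ t', r w • w = v + v' := by
    have h1 : ∑ w ∈ t', r w • w = ∑ w ∈ t', a n₁ w • w - ε₁ • ∑ w ∈ t', q w • w := by
      rw [smul_sum, ← sum_sub_distrib]
      apply sum_congr rfl
      intro w _
      rw [hr, sub_smul, smul_smul]
    rw [h1, e₁, hqs, hy]
    simp only [hε₁]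
    abel
  have hr0 : ∀ w ∈ t', 0 ≤ r w := by
    intro w hw
    by_contra hneg
    push Not at hneg
    obtain ⟨N, hN⟩ := exists_nat_gt (|q w| / (- r w))
    obtain ⟨n, hn, hnN⟩ := hinf.exists_gt N
    have hn' : s n = t' := hn
    have e₃ : ∑ w ∈ t', a n w • w = y n := by rw [← hsum n, hn']
    have e₄ : ∑ w ∈ t', (r w + 1 / ((n : ℝ) + 1) * q w) • w = y n := by
      have : ∑ w ∈ t', (r w + 1 / ((n : ℝ) + 1) * q w) • w =
          ∑ w ∈ t', r w • w + (1 / ((n : ℝ) + 1)) • ∑ w ∈ t', q w • w := by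
        rw [smul_sum, ← sum_add_distrib]
        apply sum_congr rfl
        intro w _
        rw [add_smul, smul_smul]
      rw [this, hrs, hqs]
    have h5 := B7_indep i2 ht' _ _ (e₃.trans e₄.symm) w hw
    have h6 := ha n w
    rw [h5] at h6
    have h7 : (N : ℝ) < n + 1 := by
      have : (N : ℝ) < n := by exact_mod_cast hnN
      linarith
    have h8 : |q w| < (- r w) * (n + 1) := by
      rw [div_lt_iff₀ (by linarith)] at hN
      nlinarith
    have h9 : 1 / ((n : ℝ) + 1) * q w ≤ |q w| / (n + 1) := by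
      rw [div_mul_eq_mul_div, one_mul]
      gcongr
      exact le_abs_self _
    have h10 : |q w| / (n + 1) < - r w := by
      rw [div_lt_iff₀ (by positivity)]
      exact h8
    linarith
  -- `v`, `v'` are vertices of `t'`
  have hpair : ∑ w ∈ t₂, (if w = v ∨ w = v' then (1 : ℝ) else 0) • w = v + v' := by
    have h1 : ∑ w ∈ t₂, (if w = v ∨ w = v' then (1 : ℝ) else 0) • w =
        ∑ w ∈ ({v, v'} : Finset E), (if w = v ∨ w = v' then (1 : ℝ) else 0) • w := by
      symm
      apply sum_subset het₂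
      intro w _ hw
      simp only [mem_insert, mem_singleton] at hw
      rw [if_neg hw, zero_smul]
    rw [h1, sum_pair hne]
    simp
  have hmem : ∀ w ∈ ({v, v'} : Finset E), w ∈ t' := by
    intro w hw
    have hw₂ : w ∈ t₂ := het₂ hw
    have h1 := B7_unique i2 ht₂ ht' _ r (fun w _ => by split_ifs <;> norm_num) hr0
      (hpair.trans hrs.symm) w
    by_contra hcon
    rw [if_pos hw₂, if_neg hcon] at h1
    simp only [mem_insert, mem_singleton] at hw
    rw [if_pos hw] at h1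
    exact one_ne_zero h1
  refine ⟨t', ?_, hmem⟩
  by_contra htD
  obtain ⟨t₁, ht₁, ht₁D, hcone₁⟩ := i6 t' ht' htD
  -- `y n₁` has a positive representation by `t`, and one by `t₁`
  have hy₁ : y n₁ ∈ cone t₁ := by
    rw [← e₁]
    exact B7_cone_sum t' (a n₁) (fun w _ => ha n₁ w) hcone₁
  obtain ⟨b, hb, hb'⟩ := hy₁
  have hy₂ : ∑ w ∈ t, (α w + β w + ε₁) • w = y n₁ := by
    simp only [add_smul, sum_add_distrib, hvα, hvβ, hy, hε₁, hc, smul_sum]
  have hsub : t ⊆ t₁ := by
    intro w hw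
    by_contra hw₁
    have h1 := B7_unique hT.fan htT ht₁ _ b
      (fun w _ => by have := hα w; have := hβ w; have : 0 < ε₁ := by positivity
                     linarith) (fun w _ => hb w) (hy₂.trans hb'.symm) w
    rw [if_pos hw, if_neg hw₁] at h1
    have := hα w
    have := hβ w
    have : 0 < ε₁ := by positivity
    linarith
  have : t = t₁ := eq_of_subset_of_card_le hsub
    (by rw [hT.sph.card3 t htT, hT.sph.card3 t₁ ht₁])
  exact ht₁D (this ▸ ht)

end Pool.Agent.Lib.MP_87489e_co.HT
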