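import Mathlib
import Pool.Agent.Lib.MP_87489e_co.HT.Stmts
import Pool.Agent.Lib.MP_87489e_co.HT.Basic

set_option autoImplicit false

/-!
Module B8: the boundary curve of the refined disc.
-/

namespace Pool.Agent.Lib.MP_87489e_co.HT

open Finset

theorem stRef3 (hCut : StCutStep) (hFan : StFanSub) (hRef : StRef1) : StRef3 := by
  intro P g T D T' D' hg hT hD hR n G hC
  induction hR with
  | refl => exact ⟨n, G, id, hC, strictMono_id, fun i => rfl, fun i => rfl⟩
  | @step T₁ D₁ u v m a b h huv he ha hb hm hgm ih =>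
    obtain ⟨n', G', ι, hC', hι, hιn, hιG⟩ := ih
    obtain ⟨i1, i2, -⟩ := hRef P g T D T₁ D₁ hg hT hD h
    obtain ⟨f1, -⟩ := hFan T₁ u v m a b i1.card3 i2 huv he ha hb hm
    obtain ⟨n₂, G₂, κ, hC₂, hκ, hκn, hκG⟩ := hCut E T₁ D₁ n' G' u v m hC' huv he f1
    refine ⟨n₂, G₂, κ ∘ ι, hC₂, hκ.comp hι, fun i => ?_, fun i => ?_⟩
    · simp only [Function.comp_apply, hιn, hκn]
    · simp only [Function.comp_apply, hκG, hιG]

end Pool.Agent.Lib.MP_87489e_co.HT
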