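import Mathlib
import Pool.Agent.Lib.MP_87489e_co.HT.Stmts
import Pool.Agent.Lib.MP_87489e_co.HT.Basic

set_option autoImplicit false

/-!
B9, B10: flatness and mesh.
-/

namespace Pool.Agent.Lib.MP_87489e_co.HT

open Finset MeasureTheory
open scoped Topology Pointwise

/-- B9 -/
theorem stFlat : StFlat := by
  intro P g T hP hC hN t ht
  obtain ⟨p, hp, hmax⟩ := P.exists_max_image (fun p => ∑ v ∈ t, p ⬝ᵥ v) hP.nonempty
  refine ⟨p, hp, fun v hv => ?_⟩
  -- `p` is maximal at every vertex
  have key : ∀ q ∈ P, q ⬝ᵥ v ≤ p ⬝ᵥ v := by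
    intro q hq
    rcases hN p hp q hq t ht with h | h
    · have := h v hv
      rw [sub_dotProduct] at this
      linarith
    · have h1 : ∀ u ∈ t, p ⬝ᵥ u ≤ q ⬝ᵥ u := by
        intro u hu
        have := h u hu
        rw [sub_dotProduct] at this
        linarith
      have h2 : ∑ u ∈ t, p ⬝ᵥ u = ∑ u ∈ t, q ⬝ᵥ u := le_antisymm (sum_le_sum h1) (hmax q hq)
      have h3 := (sum_eq_sum_iff_of_le h1).1 h2 v hv
      rw [h3]
  obtain ⟨q, hq, e⟩ := hP.ex v
  rw [hC.unit t ht v hv] at e
  apply le_antisymm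
  · have := hP.le p hp v
    rwa [hC.unit t ht v hv] at this
  · rw [← e]; exact key q hq

/-- B10 -/
theorem stMesh : StMesh := by
  classical
  intro P g hP δ hδ
  obtain ⟨C, hC, hup⟩ := hP.upper
  obtain ⟨c, hc, hlow⟩ := hP.lower
  set η : ℝ := δ / C with hη
  have η0 : 0 < η := div_pos hδ hC
  obtain ⟨N, hN⟩ := exists_nat_ge (1 / c / η)
  refine ⟨(P ×ˢ P).image (fun x => x.1 - x.2) ∪
    (P ×ˢ ((univ : Finset (Fin 3)) ×ˢ Finset.Icc (-(N : ℤ)) N)).image
      (fun x => Pi.single x.2.1 (1 : ℝ) - ((x.2.2 : ℝ) * η) • x.1), ?_⟩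
  intro T hT hH
  have hflat : Flat P T := by
    apply stFlat P g T hP hT
    intro p hp q hq
    apply hH
    rw [mem_union]
    left
    rw [mem_image]
    exact ⟨(p, q), mem_product.2 ⟨hp, hq⟩, rfl⟩
  intro t ht u hu v hv
  obtain ⟨p, hp, hpv⟩ := hflat t ht
  have bound : ∀ x ∈ t, ∀ i, |x i| ≤ 1 / c := by
    intro x hx i
    have h1 := hlow x
    rw [hT.unit t ht x hx] at h1
    have h2 : ‖x‖ ≤ 1 / c := by rw [le_div_iff₀ hc]; linarith [mul_comm c ‖x‖]
    exact (norm_le_pi_norm x i).trans h2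
  -- the coordinates are close
  have close : ∀ x ∈ t, ∀ y ∈ t, ∀ i, y i ≤ x i + η := by
    intro x hx y hy i
    by_contra hlt
    push Not at hlt
    set j : ℤ := ⌊x i / η⌋ + 1 with hj
    have j1 : x i < (j : ℝ) * η := by
      have := Int.lt_floor_add_one (x i / η)
      rw [div_lt_iff₀ η0] at this
      rw [hj]; push_cast; exact this
    have j2 : (j : ℝ) * η ≤ x i + η := by
      have := Int.floor_le (x i / η)
      rw [le_div_iff₀ η0] at this
      rw [hj]; push_cast; linarith
    have b1 := abs_le.1 (bound x hx i)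
    have b2 := abs_le.1 (bound y hy i)
    have n1 : 1 / c ≤ N * η := by rwa [div_le_iff₀ η0] at hN
    have j3 : j ≤ N := by
      have : (j : ℝ) * η < N * η := by linarith
      have := lt_of_mul_lt_mul_right this η0.le
      exact_mod_cast this.le
    have j4 : -(N : ℤ) ≤ j := by
      have : -(N : ℝ) * η < (j : ℝ) * η := by linarith
      have := lt_of_mul_lt_mul_right this η0.le
      exact_mod_cast this.le
    have hcross := hH (Pi.single i (1 : ℝ) - ((j : ℝ) * η) • p) (by
      rw [mem_union]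
      right
      rw [mem_image]
      exact ⟨(p, (i, j)), mem_product.2 ⟨hp, mem_product.2 ⟨mem_univ _, mem_Icc.2 ⟨j4, j3⟩⟩⟩, rfl⟩) t ht
    have val : ∀ z ∈ t, (Pi.single i (1 : ℝ) - ((j : ℝ) * η) • p) ⬝ᵥ z = z i - (j : ℝ) * η := by
      intro z hz
      rw [sub_dotProduct, smul_dotProduct, hpv z hz, single_dotProduct, one_mul, smul_eq_mul, mul_one]
    rcases hcross with h | h
    · have := h x hx
      rw [val x hx] at this
      linarith
    · have := h y hy
      rw [val y hy] at this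
      linarith
  unfold wt
  have hn : ‖v - u‖ ≤ η := by
    rw [pi_norm_le_iff_of_nonneg η0.le]
    intro i
    rw [Pi.sub_apply, Real.norm_eq_abs, abs_le]
    constructor
    · linarith [close v hv u hu i]
    · linarith [close u hu v hv i]
  calc g (v - u) ≤ C * ‖v - u‖ := hup _
    _ ≤ C * η := mul_le_mul_of_nonneg_left hn hC.le
    _ = δ := by rw [hη]; field_simp

end Pool.Agent.Lib.MP_87489e_co.HT
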