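import Mathlib
import Pool.Agent.Lib.MP_87489e_co.HT.Stmts
import Pool.Agent.Lib.MP_87489e_co.HT.Basic

set_option autoImplicit false

/-! C1: a shortest path from a point of the unit sphere to its antipode exists. -/

namespace Pool.Agent.Lib.MP_87489e_co.HT

open Finset

namespace C1

variable {P : Finset E} {g : E → ℝ}

theorem chain_le (hP : PN P g) (f : ℕ → E) (i : ℕ) : ∀ n, wt g (f i) (f (i + n)) ≤
    ∑ k ∈ range n, wt g (f (i + k)) (f (i + k + 1)) := by
  intro n
  induction n with
  | zero => simp [hP.wt_self]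
  | succ n ih =>
    rw [sum_range_succ]
    have h : wt g (f i) (f (i + (n + 1))) ≤
        wt g (f i) (f (i + n)) + wt g (f (i + n)) (f (i + n + 1)) := by
      unfold wt
      have := hP.add_le (f (i + n) - f i) (f (i + n + 1) - f (i + n))
      have e : f (i + n) - f i + (f (i + n + 1) - f (i + n)) = f (i + (n + 1)) - f i := by
        rw [← add_assoc]; abel
      rwa [e] at this
    linarith

theorem short (hP : PN P g) : ∀ (m : ℕ) (f : ℕ → E), (∀ i < m, Fac P g (f i) (f (i + 1))) →
    ∃ m' ≤ P.card, ∃ f' : ℕ → E, f' 0 = f 0 ∧ f' m' = f m ∧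
      (∀ i < m', Fac P g (f' i) (f' (i + 1))) ∧
      ∑ i ∈ range m', wt g (f' i) (f' (i + 1)) ≤ ∑ i ∈ range m, wt g (f i) (f (i + 1)) := by
  intro m
  induction m using Nat.strong_induction_on with
  | _ m ih =>
    intro f hf
    by_cases hm : m ≤ P.card
    · exact ⟨m, hm, f, rfl, rfl, hf, le_rfl⟩
    · push Not at hm
      choose! q hq using fun i hi => (hf i hi).2.2
      obtain ⟨a, ha, b, hb, hab, he⟩ := Finset.exists_ne_map_eq_of_card_lt_of_maps_to
        (s := range m) (t := P) (f := q) (by rwa [card_range])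
        (fun i hi => (hq i (mem_range.mp hi)).1)
      rw [mem_range] at ha hb
      -- order the two indices
      obtain ⟨i, j, hij, hj, hqe⟩ : ∃ i j, i < j ∧ j < m ∧ q i = q j := by
        rcases Nat.lt_or_gt_of_ne hab with h | h
        · exact ⟨a, b, h, hb, he⟩
        · exact ⟨b, a, h, ha, he.symm⟩
      obtain ⟨n, rfl⟩ : ∃ n, j = i + 1 + n := ⟨j - i - 1, by omega⟩
      obtain ⟨r, rfl⟩ : ∃ r, m = i + (n + 2) + r := ⟨m - (i + (n + 2)), by omega⟩
      set f' : ℕ → E := fun k => if k ≤ i then f k else f (k + (n + 1)) with hf'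
      have e1 : ∀ k, k ≤ i → f' k = f k := fun k hk => by simp [hf', hk]
      have e2 : ∀ k, i < k → f' k = f (k + (n + 1)) := fun k hk => by simp [hf', not_le.mpr hk]
      have hstep : ∀ k < i + 1 + r, Fac P g (f' k) (f' (k + 1)) := by
        intro k hk
        rcases lt_trichotomy k i with h | h | h
        · rw [e1 k h.le, e1 (k + 1) (by omega)]
          exact hf k (by omega)
        · subst h
          rw [e1 k le_rfl, e2 (k + 1) (by omega)]
          have h1 := hf k (by omega)
          have h2 := hf (k + 1 + n) (by omega)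
          have h3 := hq k (by omega)
          have h4 := hq (k + 1 + n) (by omega)
          have e3 : k + 1 + (n + 1) = k + 1 + n + 1 := by ring
          rw [e3]
          refine ⟨h1.1, h2.2.1, q k, h3.1, h3.2.1, ?_⟩
          rw [hqe]
          exact h4.2.2
        · rw [e2 k h, e2 (k + 1) (by omega)]
          have e3 : k + 1 + (n + 1) = k + (n + 1) + 1 := by ring
          rw [e3]
          exact hf _ (by omega)
      have hlen : ∑ k ∈ range (i + 1 + r), wt g (f' k) (f' (k + 1)) ≤
          ∑ k ∈ range (i + (n + 2) + r), wt g (f k) (f (k + 1)) := by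
        rw [sum_range_add, sum_range_add _ (i + (n + 2)) r, sum_range_succ,
          sum_range_add _ i (n + 2)]
        have s1 : ∑ k ∈ range i, wt g (f' k) (f' (k + 1)) = ∑ k ∈ range i, wt g (f k) (f (k + 1)) :=
          sum_congr rfl fun k hk => by
            have := mem_range.mp hk
            rw [e1 k (by omega), e1 (k + 1) (by omega)]
        have s2 : wt g (f' i) (f' (i + 1)) ≤
            ∑ k ∈ range (n + 2), wt g (f (i + k)) (f (i + k + 1)) := by
          rw [e1 i le_rfl, e2 (i + 1) (by omega)]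
          have e3 : i + 1 + (n + 1) = i + (n + 2) := by ring
          rw [e3]
          exact chain_le hP f i (n + 2)
        have s3 : ∑ k ∈ range r, wt g (f' (i + 1 + k)) (f' (i + 1 + k + 1)) =
            ∑ k ∈ range r, wt g (f (i + (n + 2) + k)) (f (i + (n + 2) + k + 1)) :=
          sum_congr rfl fun k _ => by
            rw [e2 _ (by omega), e2 _ (by omega)]
            have e3 : i + 1 + k + (n + 1) = i + (n + 2) + k := by ring
            have e4 : i + 1 + k + 1 + (n + 1) = i + (n + 2) + k + 1 := by ring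
            rw [e3, e4]
        rw [s1, s3]
        linarith
      obtain ⟨m', hm', f'', a1, a2, a3, a4⟩ := ih (i + 1 + r) (by omega) f' hstep
      refine ⟨m', hm', f'', ?_, ?_, a3, a4.trans hlen⟩
      · rw [a1, e1 0 (Nat.zero_le _)]
      · rw [a2, e2 _ (by omega)]
        congr 1
        ring

/-- closed paths with exactly `N` steps -/
def K (P : Finset E) (g : E → ℝ) (N : ℕ) : Set (ℕ → E) :=
  {f | (∀ i, g (f i) = 1) ∧ (∀ i < N, ∃ p ∈ P, p ⬝ᵥ f i = 1 ∧ p ⬝ᵥ f (i + 1) = 1) ∧ f N = -f 0}

theorem K_compact (hP : PN P g) (N : ℕ) : IsCompact (K P g N) := by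
  have h1 : IsCompact (Set.pi Set.univ (fun _ : ℕ => {y : E | g y = 1})) :=
    isCompact_univ_pi fun _ => hP.compact_sphere
  apply h1.of_isClosed_subset
  · have e : K P g N = (⋂ i, {f : ℕ → E | g (f i) = 1}) ∩
        ((⋂ i ∈ Set.Iio N, ⋃ p ∈ P, {f : ℕ → E | p ⬝ᵥ f i = 1 ∧ p ⬝ᵥ f (i + 1) = 1}) ∩
          {f : ℕ → E | f N = -f 0}) := by
      ext f
      simp only [K, Set.mem_ofPred_eq, Set.mem_inter_iff, Set.mem_iInter, Set.mem_iUnion,
        Set.mem_Iio, exists_prop]
    rw [e]
    refine (isClosed_iInter fun i => ?_).inter ((isClosed_biInter fun i _ => ?_).inter ?_)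
    · exact isClosed_eq (hP.continuous.comp (continuous_apply i)) continuous_const
    · apply isClosed_biUnion_finset
      intro p _
      have hc : ∀ k : ℕ, Continuous (fun f : ℕ → E => p ⬝ᵥ f k) := by
        intro k
        unfold dotProduct
        fun_prop
      exact (isClosed_eq (hc i) continuous_const).inter (isClosed_eq (hc (i + 1)) continuous_const)
    · exact isClosed_eq (continuous_apply N) (continuous_apply 0).neg
  · intro f hf i _
    exact hf.1 i

theorem len_cont (hP : PN P g) (N : ℕ) :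
    Continuous (fun f : ℕ → E => ∑ i ∈ range N, wt g (f i) (f (i + 1))) := by
  unfold wt
  apply continuous_finsetSum
  intro i _
  exact hP.continuous.comp ((continuous_apply (i + 1)).sub (continuous_apply i))

/-- every path can be replaced by an element of `K` -/
theorem to_K (hP : PN P g) (x : E) (l : ℝ) (L : List E) (hx : g x = 1)
    (p : Pth (Fac P g) (wt g) x (-x) l L) :
    ∃ f ∈ K P g P.card, ∑ i ∈ range P.card, wt g (f i) (f (i + 1)) ≤ l := by
  obtain ⟨m, f, h0, hm, hstep, hl, -⟩ := p.toFun
  obtain ⟨m', hm', f', a0, am, astep, alen⟩ := short hP m f hstep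
  have hun : ∀ i ≤ m', g (f' i) = 1 := by
    intro i hi
    rcases Nat.lt_or_ge i m' with h | h
    · exact (astep i h).1
    · have : i = m' := by omega
      rw [this, am, hm, hP.neg', hx]
  refine ⟨fun i => f' (min i m'), ⟨fun i => hun _ (min_le_right _ _), ?_, ?_⟩, ?_⟩
  · intro i _
    rcases Nat.lt_or_ge i m' with h | h
    · obtain ⟨-, -, q, hq, q1, q2⟩ := astep i h
      refine ⟨q, hq, ?_, ?_⟩
      · simp only [min_eq_left h.le]; exact q1
      · simp only [min_eq_left (show i + 1 ≤ m' by omega)]; exact q2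
    · obtain ⟨q, hq, q1⟩ := hP.ex (f' m')
      rw [hun m' le_rfl] at q1
      refine ⟨q, hq, ?_, ?_⟩
      · simp only [min_eq_right h]; exact q1
      · simp only [min_eq_right (show m' ≤ i + 1 by omega)]; exact q1
  · simp only [min_eq_right hm', Nat.zero_min]
    rw [am, hm, a0, h0]
  · obtain ⟨r, hr⟩ := Nat.exists_eq_add_of_le hm'
    rw [hr, sum_range_add]
    have s1 : ∑ i ∈ range m', wt g (f' (min i m')) (f' (min (i + 1) m')) =
        ∑ i ∈ range m', wt g (f' i) (f' (i + 1)) := sum_congr rfl fun i hi => by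
      have := mem_range.mp hi
      rw [min_eq_left (by omega), min_eq_left (by omega)]
    have s2 : ∑ i ∈ range r, wt g (f' (min (m' + i) m')) (f' (min (m' + i + 1) m')) = 0 := by
      apply sum_eq_zero
      intro i _
      rw [min_eq_right (by omega), min_eq_right (by omega), hP.wt_self]
    rw [s1, s2, add_zero, hl]
    exact alen

end C1

open C1 in
/-- C1 -/
theorem stMin : StMin := by
  rintro P g hP ⟨x, l, L, hx, p⟩
  obtain ⟨f₀, hf₀, -⟩ := to_K hP x l L hx p
  obtain ⟨f, hf, hmin⟩ := (K_compact hP P.card).exists_isMinOn ⟨f₀, hf₀⟩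
    (len_cont hP P.card).continuousOn
  refine ⟨∑ i ∈ range P.card, wt g (f i) (f (i + 1)), ?_, ?_, ?_⟩
  · rcases (sum_nonneg fun i _ => hP.wt_nonneg (f i) (f (i + 1)) :
      0 ≤ ∑ i ∈ range P.card, wt g (f i) (f (i + 1))).lt_or_eq with h | h
    · exact h
    · exfalso
      have h1 := chain_le hP f 0 P.card
      simp only [zero_add] at h1
      rw [← h] at h1
      have h2 : wt g (f 0) (f P.card) = 0 := le_antisymm h1 (hP.wt_nonneg _ _)
      unfold wt at h2
      rw [hP.eq_zero, hf.2.2] at h2
      have h3 : f 0 = 0 := by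
        have : (-2 : ℝ) • f 0 = 0 := by rw [← h2]; module
        simpa using this
      have h4 := hf.1 0
      rw [h3, hP.zero] at h4
      norm_num at h4
  · intro y l' L' hy p'
    obtain ⟨f', hf', hle⟩ := to_K hP y l' L' hy p'
    exact (hmin hf').trans hle
  · refine ⟨f 0, (List.range (P.card + 1)).map f, hf.1 0, ?_⟩
    have h := Pth.ofFun (R := Fac P g) (w := wt g) P.card f
      (fun i hi => ⟨hf.1 i, hf.1 (i + 1), hf.2.1 i hi⟩)
    rwa [hf.2.2] at h

end Pool.Agent.Lib.MP_87489e_co.HT
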