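import Pool.Agent.Lib.MP_87489e_co.HT.Stmts
import Pool.Agent.Lib.MP_87489e_co.HT.Basic

set_option autoImplicit false

/-!
C2: the shortest edge curve.
-/

namespace Pool.Agent.Lib.MP_87489e_co.HT

open Finset

namespace C2

variable {P : Finset E} {g : E → ℝ} {T : Finset (Finset E)}

lemma adj_fac (hT : Cx g T) (hF : Flat P T) {u v : E} (h : Adj T u v) : Fac P g u v := by
  obtain ⟨-, t, ht, hu, hv⟩ := h
  obtain ⟨p, hp, hpt⟩ := hF t ht
  exact ⟨hT.unit t ht u hu, hT.unit t ht v hv, p, hp, hpt u hu, hpt v hv⟩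

lemma adj_neg (hT : Cx g T) {u v : E} (h : Adj T u v) : Adj T (-u) (-v) := by
  obtain ⟨hne, t, ht, hu, hv⟩ := h
  exact ⟨fun h => hne (neg_injective h), _, hT.symm t ht, mem_image_of_mem _ hu,
    mem_image_of_mem _ hv⟩

lemma adj_edge {u v : E} (h : Adj T u v) : ({u, v} : Finset E) ∈ edges T := by
  obtain ⟨hne, t, ht, hu, hv⟩ := h
  rw [mem_edges]
  refine ⟨t, ht, ?_, card_pair hne⟩
  intro x hx
  simp only [mem_insert, mem_singleton] at hx
  rcases hx with rfl | rfl
  · exact hu
  · exact hv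

lemma wt_pos (h : PN P g) {u v : E} (huv : u ≠ v) : 0 < wt g u v :=
  h.pos _ (sub_ne_zero.2 huv.symm)

end C2

open C2 in
/-- C2 -/
theorem stSigma : StSigma := by
  intro P g T s hP hT hF hS ⟨t, ht, x, hx, L, hp⟩
  obtain ⟨m, f, h0, hm, hadj, hs, -⟩ := hp.toFun
  have hx1 : g x = 1 := hT.unit t ht x hx
  have hxne : x ≠ -x := by
    intro h
    have h1 : x = 0 := by
      have h2 : x + x = 0 := by
        nth_rewrite 2 [h]
        simp
      have h3 : (2 : ℝ) • x = 0 := by rw [two_smul]; exact h2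
      exact (smul_eq_zero.1 h3).resolve_left two_ne_zero
    rw [h1, hP.zero] at hx1
    exact one_ne_zero hx1.symm
  have hm0 : 0 < m := by
    rcases Nat.eq_zero_or_pos m with h | h
    · rw [h] at hm
      exact absurd (h0.symm.trans hm) hxne
    · exact h
  have hw : ∀ i < m, 0 < wt g (f i) (f (i + 1)) := fun i hi => wt_pos hP (hadj i hi).1
  have hg : ∀ i ≤ m, g (f i) = 1 := by
    intro i hi
    rcases Nat.lt_or_ge i m with h | h
    · exact (adj_fac hT hF (hadj i h)).1
    · have : i = m := le_antisymm hi h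
      rw [this, hm, hP.neg', hx1]
  -- a partial path
  have hsub : ∀ a b : ℕ, a ≤ b → b ≤ m → ∃ L', Pth (Fac P g) (wt g) (f a) (f b)
      (∑ i ∈ Ico a b, wt g (f i) (f (i + 1))) L' := by
    intro a b hab hbm
    have h1 := Pth.ofFun (R := Fac P g) (w := wt g) (b - a) (fun i => f (a + i))
      (fun i hi => adj_fac hT hF (hadj (a + i) (by omega)))
    have e2 : a + (b - a) = b := by omega
    have e3 : ∑ i ∈ Ico a b, wt g (f i) (f (i + 1)) =
        ∑ i ∈ range (b - a), wt g (f (a + i)) (f (a + (i + 1))) := by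
      rw [sum_Ico_eq_sum_range]
      rfl
    rw [e3]
    simp only [add_zero, e2] at h1
    exact ⟨_, h1⟩
  have hlen : ∀ a b : ℕ, a ≤ b → b ≤ m → 0 ≤ ∑ i ∈ Ico a b, wt g (f i) (f (i + 1)) := by
    intro a b _ hbm
    exact sum_nonneg fun i hi => (hw i (by rw [mem_Ico] at hi; omega)).le
  have hlen' : ∀ a b : ℕ, a < b → b ≤ m → 0 < ∑ i ∈ Ico a b, wt g (f i) (f (i + 1)) := by
    intro a b hab hbm
    exact sum_pos (fun i hi => hw i (by rw [mem_Ico] at hi; omega)) ⟨a, by simp [hab]⟩
  have htot : ∀ a b : ℕ, a ≤ b → b ≤ m → s = ∑ i ∈ Ico 0 a, wt g (f i) (f (i + 1)) +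
      ∑ i ∈ Ico a b, wt g (f i) (f (i + 1)) + ∑ i ∈ Ico b m, wt g (f i) (f (i + 1)) := by
    intro a b hab hbm
    rw [sum_Ico_consecutive _ (Nat.zero_le a) hab, sum_Ico_consecutive _ (Nat.zero_le b) hbm, hs,
      range_eq_Ico]
  -- no loops
  have hinj : ∀ a b : ℕ, a < b → b ≤ m → f a ≠ f b := by
    intro a b hab hbm h
    obtain ⟨L1, p1⟩ := hsub 0 a (Nat.zero_le a) (by omega)
    obtain ⟨L2, p2⟩ := hsub b m hbm le_rfl
    rw [← h] at p2
    obtain ⟨L3, p3, -⟩ := p1.append p2
    rw [h0, hm] at p3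
    have h1 := hS x _ L3 hx1 p3
    have h2 := htot a b hab.le hbm
    have h3 := hlen' a b hab hbm
    linarith
  -- no antipodal points
  have hanti : ∀ a b : ℕ, a < b → b < m → f a ≠ -f b := by
    intro a b hab hbm h
    obtain ⟨L1, p1⟩ := hsub a b hab.le hbm.le
    have hb : f b = -f a := by rw [h, neg_neg]
    rw [hb] at p1
    have h1 := hS (f a) _ L1 (hg a (by omega)) p1
    have h2 := htot a b hab.le hbm.le
    have h3 := hlen' b m hbm le_rfl
    have h4 := hlen 0 a (Nat.zero_le a) (by omega)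
    linarith
  have hself : ∀ a ≤ m, f a ≠ -f a := by
    intro a ha h
    have h1 : f a = 0 := by
      have h2 : f a + f a = 0 := by
        nth_rewrite 2 [h]
        simp
      have h3 : (2 : ℝ) • f a = 0 := by rw [two_smul]; exact h2
      exact (smul_eq_zero.1 h3).resolve_left two_ne_zero
    have h4 := hg a ha
    rw [h1, hP.zero] at h4
    exact one_ne_zero h4.symm
  -- the curve
  have hmZ : (0 : ℤ) < m := by exact_mod_cast hm0
  set ε : ℤ → E → E := fun q y => if Even q then y else -y with hε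
  set G : ℤ → E := fun i => ε (i / m) (f (i % m).toNat) with hG
  have hGr : ∀ (q : ℤ) (r : ℕ), r < m → G (q * m + r) = ε q (f r) := by
    intro q r hr
    have hr' : (r : ℤ) < m := by exact_mod_cast hr
    have e1 : (q * m + r) / (m : ℤ) = q := by
      rw [add_comm, Int.add_mul_ediv_right _ _ hmZ.ne', Int.ediv_eq_zero_of_lt (by omega) hr',
        zero_add]
    have e2 : (q * m + r) % (m : ℤ) = r := by
      rw [add_comm, Int.add_mul_emod_self_right, Int.emod_eq_of_lt (by omega) hr']
    simp only [hG]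
    rw [e1, e2, Int.toNat_natCast]
  have hGr1 : ∀ (q : ℤ) (r : ℕ), r < m → G (q * m + r + 1) = ε q (f (r + 1)) := by
    intro q r hr
    rcases Nat.lt_or_ge (r + 1) m with h | h
    · rw [← hGr q (r + 1) h]
      congr 1
      push_cast
      ring
    · have hrm : r + 1 = m := by omega
      have e : q * (m : ℤ) + r + 1 = (q + 1) * m + ((0 : ℕ) : ℤ) := by
        rw [← hrm]
        push_cast
        ring
      rw [e, hGr (q + 1) 0 hm0, hrm, hm, h0]
      simp only [hε]
      by_cases hq : Even q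
      · rw [if_pos hq, if_neg (by rw [Int.even_add_one]; exact not_not.2 hq)]
      · rw [if_neg hq, if_pos (by rw [Int.even_add_one]; exact hq), neg_neg]
  have hdec : ∀ i : ℤ, ∃ (q : ℤ) (r : ℕ), r < m ∧ i = q * m + r := by
    intro i
    have h1 := Int.emod_nonneg i hmZ.ne'
    have h2 := Int.emod_lt_of_pos i hmZ
    refine ⟨i / m, (i % m).toNat, by omega, ?_⟩
    rw [Int.toNat_of_nonneg h1, mul_comm]
    exact (Int.mul_ediv_add_emod i m).symm
  have hadjG : ∀ i, Adj T (G i) (G (i + 1)) := by
    intro i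
    obtain ⟨q, r, hr, rfl⟩ := hdec i
    rw [hGr q r hr, hGr1 q r hr]
    simp only [hε]
    by_cases hq : Even q
    · rw [if_pos hq, if_pos hq]
      exact hadj r hr
    · rw [if_neg hq, if_neg hq]
      exact adj_neg hT (hadj r hr)
  refine ⟨m, G, hm0, ?_, ?_, fun i => adj_edge (hadjG i), fun i => (hadjG i).1, ?_⟩
  · intro i
    obtain ⟨q, r, hr, rfl⟩ := hdec i
    have e : q * (m : ℤ) + r + m = (q + 1) * m + r := by ring
    rw [e, hGr (q + 1) r hr, hGr q r hr]
    simp only [hε]
    by_cases hq : Even q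
    · rw [if_pos hq, if_neg (by rw [Int.even_add_one]; exact not_not.2 hq)]
    · rw [if_neg hq, if_pos (by rw [Int.even_add_one]; exact hq), neg_neg]
  · intro i j hij
    obtain ⟨q, r, hr, rfl⟩ := hdec i
    obtain ⟨q', r', hr', rfl⟩ := hdec j
    rw [hGr q r hr, hGr q' r' hr'] at hij
    have heq : f r = f r' → r = r' := by
      intro h
      rcases lt_trichotomy r r' with h1 | h1 | h1
      · exact absurd h (hinj r r' h1 hr'.le)
      · exact h1
      · exact absurd h.symm (hinj r' r h1 hr.le)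
    have hneg : f r ≠ -f r' := by
      intro h
      rcases lt_trichotomy r r' with h1 | h1 | h1
      · exact hanti r r' h1 hr' h
      · rw [h1] at h
        exact hself r' hr'.le h
      · exact hanti r' r h1 hr (by rw [h, neg_neg])
    have hfin : r = r' → (Even q ↔ Even q') →
        ((2 * m : ℕ) : ℤ) ∣ q * (m : ℤ) + r - (q' * m + r') := by
      intro h1 h2
      have h3 : Even (q - q') := by
        rw [Int.even_sub]
        exact h2
      obtain ⟨c, hc⟩ := h3
      refine ⟨c, ?_⟩
      rw [h1]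
      have : q = q' + (c + c) := by omega
      rw [this]
      push_cast
      ring
    simp only [hε] at hij
    by_cases hq : Even q
    · by_cases hq' : Even q'
      · rw [if_pos hq, if_pos hq'] at hij
        exact hfin (heq hij) (by tauto)
      · rw [if_pos hq, if_neg hq'] at hij
        exact absurd hij hneg
    · by_cases hq' : Even q'
      · rw [if_neg hq, if_pos hq'] at hij
        exact absurd (by rw [← hij, neg_neg]) hneg
      · rw [if_neg hq, if_neg hq'] at hij
        exact hfin (heq (neg_injective hij)) (by tauto)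
  · rw [hs]
    refine sum_congr rfl fun i hi => ?_
    have hi' := mem_range.1 hi
    have e1 := hGr 0 i hi'
    have e2 := hGr1 0 i hi'
    simp only [zero_mul, zero_add, hε, Even.zero, if_true] at e1 e2
    rw [e1, e2]

end Pool.Agent.Lib.MP_87489e_co.HT
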