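import Pool.Agent.Lib.MP_87489e_co.HT.Stmts
import Pool.Agent.Lib.MP_87489e_co.HT.Basic

set_option autoImplicit false

/-!
C3: the two cones.
-/

namespace Pool.Agent.Lib.MP_87489e_co.HT

open Finset

namespace C3

variable {T : Finset (Finset E)}

/-- a representation supported on the triangle -/
lemma rep_of_cone {t : Finset E} {y : E} (hy : y ∈ cone t) :
    ∃ a : E → ℝ, (∀ v, 0 ≤ a v) ∧ (∀ v, v ∉ t → a v = 0) ∧ ∑ v ∈ t, a v • v = y := by
  obtain ⟨a, ha, hs⟩ := hy
  refine ⟨fun v => if v ∈ t then a v else 0, fun v => ?_, fun v hv => if_neg hv, ?_⟩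
  · simp only
    split_ifs
    · exact ha v
    · exact le_rfl
  · rw [← hs]
    exact sum_congr rfl fun v hv => by simp only [if_pos hv]

lemma cone_of_supp {t e : Finset E} {y : E} {a : E → ℝ} (ha : ∀ v, 0 ≤ a v)
    (hs : ∑ v ∈ t, a v • v = y) (ht : ∀ v, v ∉ t → a v = 0) (he : ∀ v, v ∉ e → a v = 0) :
    y ∈ cone e := by
  refine ⟨a, ha, ?_⟩
  rw [← hs]
  have h1 : ∑ v ∈ t ∩ e, a v • v = ∑ v ∈ t, a v • v := by
    refine sum_subset inter_subset_left fun v hv hn => ?_
    rw [he v (fun h => hn (mem_inter.2 ⟨hv, h⟩)), zero_smul]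
  have h2 : ∑ v ∈ t ∩ e, a v • v = ∑ v ∈ e, a v • v := by
    refine sum_subset inter_subset_right fun v hv hn => ?_
    rw [ht v (fun h => hn (mem_inter.2 ⟨h, hv⟩)), zero_smul]
  rw [← h1, h2]

/-- the cone over the antipodal triangle -/
lemma cone_neg {t : Finset E} {y : E} (hy : y ∈ cone t) : -y ∈ cone (t.image fun v => -v) := by
  obtain ⟨a, ha, hs⟩ := hy
  refine ⟨fun v => a (-v), fun v => ha _, ?_⟩
  rw [sum_image (fun x _ y _ h => neg_injective h), ← hs, ← sum_neg_distrib]
  refine sum_congr rfl fun v _ => ?_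
  simp only [neg_neg, smul_neg]

lemma image_neg_neg (t : Finset E) : (t.image fun v => -v).image (fun v => -v) = t := by
  rw [image_image]
  simp

/-- the vertices of a triangle of a fan are independent: coefficients are unique -/
lemma coef_unique (hF : Fan T) {t : Finset E} (ht : t ∈ T) {c : E → ℝ}
    (hc : ∑ v ∈ t, c v • v = 0) : ∀ v ∈ t, c v = 0 := by
  intro v hv
  obtain ⟨M, hM⟩ : ∃ M : ℝ, ∀ w ∈ t, |c w| ≤ M := by
    refine ⟨∑ w ∈ t, |c w|, fun w hw => ?_⟩
    exact single_le_sum (f := fun w => |c w|) (fun _ _ => abs_nonneg _) hw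
  set a : E → ℝ := fun w => if w ∈ t then M else 0 with ha
  set b : E → ℝ := fun w => if w ∈ t then M + c w else 0 with hb
  have hM0 : ∀ w ∈ t, 0 ≤ M := fun w hw => (abs_nonneg _).trans (hM w hw)
  have h1 : IsRep T (∑ w ∈ t, M • w) a := by
    refine ⟨fun w => ?_, t, ht, fun w hw => if_neg hw, sum_congr rfl fun w hw => ?_⟩
    · simp only [ha]
      split_ifs with h
      · exact hM0 w h
      · exact le_rfl
    · simp only [ha]
      rw [if_pos hw]
  have h2 : IsRep T (∑ w ∈ t, M • w) b := by
    refine ⟨fun w => ?_, t, ht, fun w hw => if_neg hw, ?_⟩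
    · simp only [hb]
      split_ifs with h
      · have := (abs_le.1 (hM w h)).1
        linarith
      · exact le_rfl
    · have h3 : ∑ w ∈ t, b w • w = ∑ w ∈ t, (M • w + c w • w) := by
        refine sum_congr rfl fun w hw => ?_
        simp only [hb]
        rw [if_pos hw, add_smul]
      rw [h3, sum_add_distrib, hc, add_zero]
  obtain ⟨a₀, -, huniq⟩ := hF (∑ w ∈ t, M • w)
  have h4 : a v = b v := by rw [huniq a h1, huniq b h2]
  simp only [ha, hb] at h4
  rw [if_pos hv, if_pos hv] at h4
  linarith

/-- the cone over a triangle is closed -/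
lemma isClosed_cone (hF : Fan T) {t : Finset E} (ht : t ∈ T) : IsClosed (cone t) := by
  classical
  let Φ : (t → ℝ) →ₗ[ℝ] E :=
    { toFun := fun a => ∑ v : t, a v • (v : E)
      map_add' := fun a b => by simp [add_smul, sum_add_distrib]
      map_smul' := fun c a => by simp [mul_smul, smul_sum] }
  have hinj : LinearMap.ker Φ = ⊥ := by
    rw [LinearMap.ker_eq_bot']
    intro a ha
    have ha' : ∑ v : t, a v • (v : E) = 0 := ha
    set c : E → ℝ := fun v => if h : v ∈ t then a ⟨v, h⟩ else 0 with hc
    have h1 : ∑ v ∈ t, c v • v = 0 := by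
      rw [← ha', ← sum_coe_sort t (fun v => c v • v)]
      refine sum_congr rfl fun v _ => ?_
      simp only [hc]
      rw [dif_pos v.2]
    funext v
    have h2 := coef_unique hF ht h1 v v.2
    simp only [hc] at h2
    rw [dif_pos v.2] at h2
    exact h2
  have hce : Topology.IsClosedEmbedding Φ := LinearMap.isClosedEmbedding_of_injective hinj
  have himg : cone t = Φ '' {a | ∀ v, 0 ≤ a v} := by
    ext y
    constructor
    · rintro ⟨a, ha, hs⟩
      refine ⟨fun v => a v, fun v => ha v, ?_⟩
      rw [← hs, ← sum_coe_sort t (fun v => a v • v)]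
      rfl
    · rintro ⟨a, ha, rfl⟩
      refine ⟨fun v => if h : v ∈ t then a ⟨v, h⟩ else 0, fun v => ?_, ?_⟩
      · simp only
        split_ifs with h
        · exact ha _
        · exact le_rfl
      · rw [← sum_coe_sort t]
        show _ = ∑ v : t, a v • (v : E)
        refine sum_congr rfl fun v _ => ?_
        simp only [dif_pos v.2]
  rw [himg]
  refine hce.isClosedMap _ ?_
  have : {a : t → ℝ | ∀ v, 0 ≤ a v} = ⋂ v, {a | 0 ≤ a v} := by
    ext a
    simp
  rw [this]
  exact isClosed_iInter fun v => isClosed_le continuous_const (continuous_apply v)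

end C3

open C3 in
/-- C3 -/
theorem stCones : StCones := by
  intro P g T D n G hP hT hC hanti
  have hDT : ∀ t ∈ D, t ∈ T := fun t ht => hC.sub ht
  refine ⟨?_, ?_, ?_⟩
  · have : {y : E | ∃ t ∈ D, y ∈ cone t} = ⋃ t ∈ D, cone t := by
      ext y
      simp
    rw [this]
    exact Set.Finite.isClosed_biUnion (Finset.finite_toSet D)
      fun t ht => isClosed_cone hT.fan (hDT t ht)
  · intro y
    obtain ⟨a, ⟨ha, t, ht, h0, hs⟩, -⟩ := hT.fan y
    by_cases hD : t ∈ D
    · exact Or.inl ⟨t, hD, a, ha, hs⟩
    · refine Or.inr ⟨t.image fun v => -v, ?_, cone_neg ⟨a, ha, hs⟩⟩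
      by_contra h
      exact hD ((hanti t ht).2 h)
  · rintro y ⟨t, ht, hy⟩ ⟨t', ht', hy'⟩
    set t'' : Finset E := t'.image fun v => -v with ht''
    have hT'' : t'' ∈ T := hT.symm t' (hDT t' ht')
    have hD'' : t'' ∉ D := (hanti t' (hDT t' ht')).1 ht'
    have hy'' : y ∈ cone t'' := by
      have := cone_neg hy'
      rwa [neg_neg] at this
    obtain ⟨a, ha, ha0, has⟩ := rep_of_cone hy
    obtain ⟨b, hb, hb0, hbs⟩ := rep_of_cone hy''
    have hab : a = b := by
      obtain ⟨a₀, -, huniq⟩ := hT.fan y
      rw [huniq a ⟨ha, t, hDT t ht, ha0, has⟩, huniq b ⟨hb, t'', hT'', hb0, hbs⟩]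
    have ha0'' : ∀ v, v ∉ t'' → a v = 0 := by rw [hab]; exact hb0
    have hne : t ≠ t'' := fun h => hD'' (h ▸ ht)
    -- an edge of the curve with the support of `a`
    have hfin : ∀ e ∈ edges T, bd T (ind D) e ≠ 0 → (∀ v, v ∉ e → a v = 0) →
        ∃ i : ℤ, y ∈ cone {G i, G (i + 1)} := by
      intro e he hbd hsupp
      have h1 : bd T (ind D) e = 1 := (zmod2_cases _).resolve_left hbd
      obtain ⟨i, rfl⟩ := (hC.bdry e he).1 h1
      exact ⟨i, cone_of_supp ha has ha0 hsupp⟩
    by_cases hall : ∀ v, a v = 0
    · refine ⟨0, cone_of_supp ha has ha0 fun v _ => hall v⟩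
    push Not at hall
    obtain ⟨v, hv⟩ := hall
    have hvt : v ∈ t := by
      by_contra h
      exact hv (ha0 v h)
    have hvt'' : v ∈ t'' := by
      by_contra h
      exact hv (ha0'' v h)
    by_cases hw : ∃ w, w ≠ v ∧ a w ≠ 0
    · obtain ⟨w, hwv, hw0⟩ := hw
      have hwt : w ∈ t := by
        by_contra h
        exact hw0 (ha0 w h)
      have hwt'' : w ∈ t'' := by
        by_contra h
        exact hw0 (ha0'' w h)
      set e : Finset E := {v, w} with he
      have het : e ⊆ t := by
        intro x hx
        rw [he, mem_insert, mem_singleton] at hx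
        rcases hx with rfl | rfl
        · exact hvt
        · exact hwt
      have het'' : e ⊆ t'' := by
        intro x hx
        rw [he, mem_insert, mem_singleton] at hx
        rcases hx with rfl | rfl
        · exact hvt''
        · exact hwt''
      have hec : e.card = 2 := card_pair hwv.symm
      have heT : e ∈ edges T := mem_edges.2 ⟨t, hDT t ht, het, hec⟩
      refine hfin e heT ?_ ?_
      · obtain ⟨t₁, -, t₂, -, h12, -, -, hcases, hbd⟩ := hT.sph.bd_eq heT
        have c1 := hcases t (hDT t ht) het
        have c2 := hcases t'' hT'' het''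
        rw [hbd]
        rcases c1 with rfl | rfl
        · have : t₂ = t'' := by
            rcases c2 with h | h
            · exact absurd h.symm hne
            · exact h.symm
          rw [this, ind_mem ht, ind_notMem hD'', add_zero]
          exact one_ne_zero
        · have : t₁ = t'' := by
            rcases c2 with h | h
            · exact h.symm
            · exact absurd h.symm hne
          rw [this, ind_mem ht, ind_notMem hD'', zero_add]
          exact one_ne_zero
      · intro x hx
        by_contra hx0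
        have hxt : x ∈ t := by
          by_contra h
          exact hx0 (ha0 x h)
        have hxt'' : x ∈ t'' := by
          by_contra h
          exact hx0 (ha0'' x h)
        have h3 : (insert x e).card = 3 := by
          rw [card_insert_of_notMem hx, hec]
        have e1 : insert x e = t := eq_of_subset_of_card_le
          (insert_subset hxt het) (by rw [h3, hT.sph.card3 t (hDT t ht)])
        have e2 : insert x e = t'' := eq_of_subset_of_card_le
          (insert_subset hxt'' het'') (by rw [h3, hT.sph.card3 t'' hT''])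
        exact hne (e1.symm.trans e2)
    · push Not at hw
      obtain ⟨e, heT, hve, hbd⟩ : ∃ e ∈ edges T, v ∈ e ∧ bd T (ind D) e ≠ 0 := by
        by_contra hc
        push Not at hc
        have h1 := hT.sph.star v (ind D) hc t (hDT t ht) t'' hT'' hvt hvt''
        rw [ind_mem ht, ind_notMem hD''] at h1
        exact one_ne_zero h1
      exact hfin e heT hbd fun x hx => hw x (fun h => hx (h ▸ hve))

end Pool.Agent.Lib.MP_87489e_co.HT
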