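import Mathlib
import Pool.Agent.Lib.MP_87489e_co.HT.Stmts

set_option autoImplicit false

/-!
C4: the girth inequality.
-/

namespace Pool.Agent.Lib.MP_87489e_co.HT

open Finset MeasureTheory
open scoped Topology Pointwise

section C4

variable {P : Finset E} {g : E → ℝ}

theorem C4_add (h : PN P g) (x y : E) : g (x + y) ≤ g x + g y := by
  obtain ⟨p, hp, e⟩ := h.ex (x + y)
  rw [← e, dotProduct_add]
  exact add_le_add (h.le p hp x) (h.le p hp y)

theorem C4_neg (h : PN P g) (x : E) : g (-x) = g x := by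
  have key : ∀ z : E, g (-z) ≤ g z := by
    intro z
    obtain ⟨p, hp, e⟩ := h.ex (-z)
    rw [← e, dotProduct_neg, ← neg_dotProduct]
    exact h.le _ (h.neg p hp) z
  apply le_antisymm (key x)
  have := key (-x)
  rwa [neg_neg] at this

theorem C4_smul (h : PN P g) (c : ℝ) (hc : 0 ≤ c) (x : E) : g (c • x) = c * g x := by
  apply le_antisymm
  · obtain ⟨p, hp, e⟩ := h.ex (c • x)
    rw [← e, dotProduct_smul, smul_eq_mul]
    exact mul_le_mul_of_nonneg_left (h.le p hp x) hc
  · obtain ⟨p, hp, e⟩ := h.ex x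
    rw [← e]
    have := h.le p hp (c • x)
    rwa [dotProduct_smul, smul_eq_mul] at this

theorem C4_zero (h : PN P g) : g 0 = 0 := by
  have := C4_smul h 0 le_rfl 0
  simpa using this

theorem C4_nonneg (h : PN P g) (x : E) : 0 ≤ g x := by
  have h1 := C4_add h x (-x)
  rw [C4_neg h, add_neg_cancel, C4_zero h] at h1
  linarith

/-- triangle inequality in the form used below -/
theorem C4_tri (h : PN P g) (x y r : E) (e : x = y + r) : g x ≤ g y + g r := by
  rw [e]; exact C4_add h y r

theorem C4_tri3 (h : PN P g) (x y z r : E) (e : x = y + z + r) : g x ≤ g y + g z + g r := by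
  rw [e]; linarith [C4_add h (y + z) r, C4_add h y z]

/-! ### parity on the grid -/

theorem C4_par (k : ℕ) (hk : 0 < k) (e h n : ℤ → ℤ → ZMod 2)
    (sq : ∀ i j : ℤ, i + 1 ≤ j → j + 1 ≤ i + k → e i j + e (i + 1) j + h i j + h i (j + 1) = 0)
    (b0 : ∀ i, e i i = 0) (b1 : ∀ i : ℤ, e (i + 1) (i + k) = 0) (b2 : ∀ i, h i (i + 1) = 0)
    (b3 : ∀ i : ℤ, h i (i + k) = 0)
    (fl : ∀ i j : ℤ, i ≤ j → j + 1 ≤ i + k → e (i + k) (j + k) + e i j = n i j + n i (j + 1))
    (n0 : ∀ i, n i i = 0) (n1 : ∀ i : ℤ, n i (i + k) = 1) : False := by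
  have two : ∀ x : ZMod 2, x + x = 0 := by decide
  have two' : ∀ x y z w : ZMod 2, x + y + z + w = 0 → x + y = z + w := by decide
  have two'' : ∀ x y : ZMod 2, x + y = 0 → x = y := by decide
  set S : ℤ → ZMod 2 := fun i => ∑ t ∈ range k, e i (i + t) with hS
  obtain ⟨K, rfl⟩ : ∃ K, k = K + 1 := ⟨k - 1, by omega⟩
  have step : ∀ i, S (i + 1) = S i := by
    intro i
    have claim : ∀ T : ℕ, T ≤ K → ∑ t ∈ range (T + 1), e i (i + t) +
        ∑ t ∈ range T, e (i + 1) (i + 1 + t) = h i (i + (T + 1 : ℕ)) := by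
      intro T
      induction T with
      | zero =>
        intro _
        simp [b0, b2]
      | succ T ih =>
        intro hT
        have ih' := ih (by omega)
        rw [sum_range_succ (fun t : ℕ => e i (i + t)) (T + 1),
          sum_range_succ (fun t : ℕ => e (i + 1) (i + 1 + t)) T]
        have q := sq i (i + (T + 1 : ℕ)) (by push_cast; omega) (by push_cast; omega)
        have q' := two' _ _ _ _ q
        have e1 : (i + 1 + (T : ℤ)) = i + (T + 1 : ℕ) := by push_cast; ring
        have e2 : (i + ((T + 1 : ℕ) : ℤ) + 1) = i + ((T + 1 + 1 : ℕ) : ℤ) := by push_cast; ring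
        rw [e1]
        rw [e2] at q'
        calc ∑ x ∈ range (T + 1), e i (i + ↑x) + e i (i + ↑(T + 1)) +
              (∑ x ∈ range T, e (i + 1) (i + 1 + ↑x) + e (i + 1) (i + ↑(T + 1)))
            = (∑ x ∈ range (T + 1), e i (i + ↑x) + ∑ x ∈ range T, e (i + 1) (i + 1 + ↑x)) +
              (e i (i + ↑(T + 1)) + e (i + 1) (i + ↑(T + 1))) := by ring
          _ = h i (i + (T + 1 : ℕ)) + (h i (i + (T + 1 : ℕ)) + h i (i + ((T + 1 + 1 : ℕ) : ℤ))) := by
              rw [ih', q']
          _ = h i (i + ((T + 1 + 1 : ℕ) : ℤ)) := by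
              rw [← add_assoc, two, zero_add]
    have c := claim K le_rfl
    rw [b3] at c
    have c' := two'' _ _ c
    simp only [hS]
    rw [c', sum_range_succ]
    have e1 : (i + 1 + (K : ℤ)) = i + (K + 1 : ℕ) := by push_cast; ring
    rw [e1, b1, add_zero]
  have all : ∀ m : ℕ, S (0 + m) = S 0 := by
    intro m
    induction m with
    | zero => simp
    | succ m ih =>
      rw [← ih, ← step (0 + m)]
      congr 1
  have h1 := all (K + 1)
  have h2 : S (0 + (K + 1 : ℕ)) + S 0 = 1 := by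
    simp only [hS]
    rw [← sum_add_distrib]
    have : ∀ m : ℕ, m ≤ K + 1 → ∑ t ∈ range m, (e (0 + (K + 1 : ℕ)) (0 + (K + 1 : ℕ) + t) +
        e 0 (0 + t)) = n 0 0 + n 0 (0 + m) := by
      intro m
      induction m with
      | zero => intro _; simp [n0]
      | succ m ih =>
        intro hm
        rw [sum_range_succ, ih (by omega)]
        have q := fl 0 (0 + m) (by omega) (by push_cast; omega)
        have e1 : (0 + (m : ℤ) + ((K + 1 : ℕ) : ℤ)) = 0 + ((K + 1 : ℕ) : ℤ) + m := by ring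
        have e2 : (0 + (m : ℤ) + 1) = 0 + ((m + 1 : ℕ) : ℤ) := by push_cast; ring
        rw [e1, e2] at q
        rw [q]
        calc n 0 0 + n 0 (0 + ↑m) + (n 0 (0 + ↑m) + n 0 (0 + ↑(m + 1)))
            = n 0 0 + (n 0 (0 + ↑m) + n 0 (0 + ↑m)) + n 0 (0 + ↑(m + 1)) := by ring
          _ = _ := by rw [two, add_zero]
    rw [this (K + 1) le_rfl, n0, n1, zero_add]
  rw [h1, two] at h2
  exact absurd h2 (by decide)

/-- the value of an edge -/
def C4_ed (n n' l l' : Bool) : ZMod 2 :=
  if n = n' then 0 else if n then (if l then 1 else 0) else (if l' then 1 else 0)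

theorem C4_sq : ∀ n1 n2 n3 n4 l1 l2 l3 l4 : Bool,
    ((n1 = false ∨ n2 = false ∨ n3 = false ∨ n4 = false) →
      (n1 = true → n2 = true → l1 = l2) ∧ (n1 = true → n3 = true → l1 = l3) ∧
      (n1 = true → n4 = true → l1 = l4) ∧ (n2 = true → n3 = true → l2 = l3) ∧
      (n2 = true → n4 = true → l2 = l4) ∧ (n3 = true → n4 = true → l3 = l4)) →
    C4_ed n1 n4 l1 l4 + C4_ed n2 n3 l2 l3 + C4_ed n1 n2 l1 l2 + C4_ed n4 n3 l4 l3 = 0 := by
  intro n1 n2 n3 n4 l1 l2 l3 l4 h
  cases n1 <;> cases n2 <;> cases n3 <;> cases n4 <;> cases l1 <;> cases l2 <;> cases l3 <;>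
    cases l4 <;> first | rfl | (exfalso; revert h; simp)

theorem C4_fl : ∀ n n' l l' m m' : Bool,
    (n = true → n' = false → m = !l) → (n' = true → n = false → m' = !l') →
    C4_ed n n' m m' + C4_ed n n' l l' = (if n then 1 else 0) + (if n' then 1 else 0) := by
  decide

/-! ### three chords -/

theorem C4_len (h : PN P g) (G : ℤ → E) (i : ℤ) (m : ℕ) :
    g (G (i + m) - G i) ≤ ∑ t ∈ range m, wt g (G (i + t)) (G (i + t + 1)) := by
  induction m with
  | zero => simp [C4_zero h]
  | succ m ih =>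
    rw [sum_range_succ]
    have := C4_tri h (G (i + (m + 1 : ℕ)) - G i) (G (i + m) - G i) (G (i + m + 1) - G (i + m)) (by
      have : (i + ((m + 1 : ℕ) : ℤ)) = i + m + 1 := by push_cast; ring
      rw [this]; abel)
    unfold wt at *
    linarith

theorem C4_per (h : PN P g) (G : ℤ → E) (k : ℕ) (anti : ∀ i, G (i + k) = - G i) (i : ℤ) :
    ∑ t ∈ range k, wt g (G (i + t)) (G (i + t + 1)) = ∑ t ∈ range k, wt g (G t) (G (t + 1)) := by
  have step : ∀ i : ℤ, ∑ t ∈ range k, wt g (G (i + 1 + t)) (G (i + 1 + t + 1)) =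
      ∑ t ∈ range k, wt g (G (i + t)) (G (i + t + 1)) := by
    intro i
    have a1 := sum_range_succ (fun t : ℕ => wt g (G (i + t)) (G (i + t + 1))) k
    have a2 := sum_range_succ' (fun t : ℕ => wt g (G (i + t)) (G (i + t + 1))) k
    have a3 : wt g (G (i + k)) (G (i + k + 1)) = wt g (G (i + (0 : ℕ))) (G (i + (0 : ℕ) + 1)) := by
      have : i + (k : ℤ) + 1 = i + 1 + k := by ring
      rw [this, anti, anti]
      unfold wt
      rw [← C4_neg h]
      congr 1
      simp
      abel
    have a4 : ∑ t ∈ range k, wt g (G (i + 1 + t)) (G (i + 1 + t + 1)) =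
        ∑ t ∈ range k, wt g (G (i + (t + 1 : ℕ))) (G (i + (t + 1 : ℕ) + 1)) := by
      apply sum_congr rfl
      intro t _
      have : i + 1 + (t : ℤ) = i + (t + 1 : ℕ) := by push_cast; ring
      rw [this]
    rw [a4]
    linarith
  have key : ∀ i : ℤ, ∑ t ∈ range k, wt g (G (i + t)) (G (i + t + 1)) =
      ∑ t ∈ range k, wt g (G (0 + t)) (G (0 + t + 1)) := by
    intro i
    induction i using Int.induction_on with
    | zero => rfl
    | succ i ih => rw [step, ih]
    | pred i ih =>
      rw [← step (-(i : ℤ) - 1), ← ih]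
      have : -(i : ℤ) - 1 + 1 = -(i : ℤ) := by ring
      rw [this]
  rw [key i]
  simp

theorem C4_mod (G : ℤ → E) (k : ℕ) (anti : ∀ i, G (i + k) = - G i) (i q : ℤ) :
    G (i + q * k) = G i ∨ G (i + q * k) = - G i := by
  induction q using Int.induction_on with
  | zero => left; simp
  | succ q ih =>
    have : i + ((q : ℤ) + 1) * k = i + q * k + k := by ring
    rw [this, anti]
    rcases ih with ih | ih
    · right; rw [ih]
    · left; rw [ih, neg_neg]
  | pred q ih =>
    have : i + (-(q : ℤ) - 1) * k + k = i + -(q : ℤ) * k := by ring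
    have h2 := anti (i + (-(q : ℤ) - 1) * k)
    rw [this] at h2
    have h3 : G (i + (-(q : ℤ) - 1) * k) = - G (i + -(q : ℤ) * k) := by rw [h2, neg_neg]
    rw [h3]
    rcases ih with ih | ih
    · right; rw [ih]
    · left; rw [ih, neg_neg]

/-- three consecutive chords of the half curve -/
theorem C4_chords (h : PN P g) (G : ℤ → E) (k : ℕ) (anti : ∀ i, G (i + k) = - G i) (i p q : ℤ)
    (h1 : i ≤ p) (h2 : p ≤ q) (h3 : q ≤ i + k) :
    g (G p - G i) + g (G q - G p) + g (- G i - G q) ≤ ∑ t ∈ range k, wt g (G t) (G (t + 1)) := by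
  obtain ⟨m1, rfl⟩ : ∃ m : ℕ, p = i + m := ⟨(p - i).toNat, by omega⟩
  obtain ⟨m2, rfl⟩ : ∃ m : ℕ, q = i + m1 + m := ⟨(q - (i + m1)).toNat, by omega⟩
  obtain ⟨m3, e3⟩ : ∃ m : ℕ, k = m1 + m2 + m := ⟨k - (m1 + m2), by omega⟩
  have l1 := C4_len h G i m1
  have l2 := C4_len h G (i + m1) m2
  have l3 := C4_len h G (i + m1 + m2) m3
  have e4 : i + m1 + m2 + (m3 : ℤ) = i + k := by rw [e3]; push_cast; ring
  rw [e4, anti] at l3
  have l4 := C4_per h G k anti i
  have l5 : ∑ t ∈ range k, wt g (G (i + t)) (G (i + t + 1)) =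
      ∑ t ∈ range m1, wt g (G (i + t)) (G (i + t + 1)) +
      ∑ t ∈ range m2, wt g (G (i + m1 + t)) (G (i + m1 + t + 1)) +
      ∑ t ∈ range m3, wt g (G (i + m1 + m2 + t)) (G (i + m1 + m2 + t + 1)) := by
    rw [e3, sum_range_add, sum_range_add]
    push_cast
    simp only [add_assoc]
  linarith

theorem C4_three (h : PN P g) (G : ℤ → E) (k : ℕ) (hk : 0 < k) (anti : ∀ i, G (i + k) = - G i)
    (u : ∀ i, g (G i) = 1) (i j l : ℤ) (h1 : i ≤ j) (h2 : j ≤ i + k) (η : ℝ)
    (hη : g (G j - G i - G l) ≤ η) :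
    3 - 3 * η ≤ ∑ t ∈ range k, wt g (G t) (G (t + 1)) := by
  -- position of `± G l`
  obtain ⟨p, hp1, hp2, hp⟩ : ∃ p : ℤ, i ≤ p ∧ p ≤ i + k ∧ (G p = G l ∨ G p = - G l) := by
    have hk' : (0 : ℤ) < k := by exact_mod_cast hk
    refine ⟨i + (l - i) % k, ?_, ?_, ?_⟩
    · have := Int.emod_nonneg (l - i) hk'.ne'
      omega
    · have := Int.emod_lt_of_pos (l - i) hk'
      omega
    · have e := Int.emod_add_mul_ediv (l - i) k
      have e2 : l = i + (l - i) % k + ((l - i) / k) * k := by linarith [mul_comm ((l - i) / (k : ℤ)) (k : ℤ)]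
      have m := C4_mod G k anti (i + (l - i) % k) ((l - i) / k)
      rw [← e2] at m
      rcases m with m | m
      · left; rw [m]
      · right; rw [m, neg_neg]
  set a := G i with ha
  set b := G j with hb
  set d := G l with hd
  set r := b - a - d with hr
  have η0 : 0 ≤ η := (C4_nonneg h r).trans hη
  have ua : g a = 1 := u i
  have ub : g b = 1 := u j
  have ud : g d = 1 := u l
  have ur : g (-r) = g r := C4_neg h r
  have u3 : ∀ x : E, g x = 1 → g ((3 : ℝ) • x) = 3 := by
    intro x hx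
    rw [C4_smul h 3 (by norm_num), hx]; norm_num
  rcases le_total p j with hpj | hpj
  · have c := C4_chords h G k anti i p j hp1 hpj h2
    rcases hp with hp | hp
    · -- a, d, b, -a
      rw [hp, ← ha, ← hb] at c
      have t1 := C4_tri h a (b - d) (-r) (by rw [hr]; abel)
      have t2 := C4_tri3 h ((3 : ℝ) • a) (-(d - a)) (-(-a - b)) (-r) (by rw [hr]; module)
      rw [C4_neg h, C4_neg h, u3 a ua] at t2
      linarith
    · -- a, -d, b, -a
      rw [hp, ← ha, ← hb] at c
      have t1 := C4_tri h (-b) (-d - a) (-r) (by rw [hr]; abel)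
      rw [C4_neg h b] at t1
      have t2 := C4_tri3 h ((3 : ℝ) • b) (b - -d) (-(-a - b)) r (by rw [hr]; module)
      rw [C4_neg h, u3 b ub] at t2
      linarith
  · have c := C4_chords h G k anti i j p h1 hpj hp2
    rcases hp with hp | hp
    · -- a, b, d, -a
      rw [hp, ← ha, ← hb] at c
      have t1 := C4_tri h d (b - a) (-r) (by rw [hr]; abel)
      have t2 := C4_tri h (-a) (d - b) r (by rw [hr]; abel)
      rw [C4_neg h a] at t2
      have t3 := C4_tri h b (-(-a - d)) r (by rw [hr]; abel)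
      rw [C4_neg h] at t3
      linarith
    · -- a, b, -d, -a
      rw [hp, ← ha, ← hb] at c
      have t1 := C4_tri h d (b - a) (-r) (by rw [hr]; abel)
      have t2 := C4_tri3 h ((3 : ℝ) • d) (-(-d - b)) (-a - -d) (-r) (by rw [hr]; module)
      rw [C4_neg h, u3 d ud] at t2
      linarith

/-- a conflict gives a vertex close to the difference -/
theorem C4_conf (h : PN P g) (C : Set E) (hC : IsClosed C) (hU : ∀ y : E, y ∈ C ∨ -y ∈ C)
    (G : ℤ → E) (δ : ℝ) (hδ : 0 < δ) (hδ2 : δ < 1 / 20) (u : ∀ i, g (G i) = 1)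
    (hm : ∀ i, wt g (G i) (G (i + 1)) ≤ δ)
    (hI : ∀ y : E, y ∈ C → -y ∈ C → ∃ i : ℤ, y ∈ cone {G i, G (i + 1)})
    (x x' : E) (hx : x ∈ C) (hx' : -x' ∈ C) (h1 : 1 ≤ g x) (h2 : g x ≤ 1 + 2 * δ)
    (h3 : g (x - x') ≤ 2 * δ) : ∃ l : ℤ, g (x - G l) ≤ 9 * δ := by
  have hD : IsClosed {y : E | -y ∈ C} := hC.preimage continuous_neg
  have hcon : IsPreconnected (segment ℝ x x') := (convex_segment x x').isPreconnected
  have key := (isPreconnected_closed_iff.mp hcon) C {y : E | -y ∈ C} hC hD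
    (fun y _ => hU y) ⟨x, left_mem_segment ℝ x x', hx⟩ ⟨x', right_mem_segment ℝ x x', hx'⟩
  obtain ⟨y, hy, hy1, hy2⟩ := key
  obtain ⟨i, hi⟩ := hI y hy1 hy2
  obtain ⟨s, t, hs, ht, hst, rfl⟩ := hy
  set y := s • x + t • x' with hy
  have hxy : g (x - y) ≤ 2 * δ := by
    have e : x - y = t • (x - x') := by
      have : s = 1 - t := by linarith
      rw [hy, this]; module
    rw [e, C4_smul h t ht]
    have t1 : t ≤ 1 := by linarith
    have := C4_nonneg h (x - x')
    nlinarith
  have gy1 : 1 - 2 * δ ≤ g y := by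
    have := C4_tri h x y (x - y) (by abel)
    linarith
  have gy2 : g y ≤ 1 + 4 * δ := by
    have := C4_tri h y x (-(x - y)) (by abel)
    rw [C4_neg h] at this
    linarith
  refine ⟨i, ?_⟩
  obtain ⟨α, β, hα, hβ, e⟩ : ∃ α β : ℝ, 0 ≤ α ∧ 0 ≤ β ∧ y = α • G i + β • G (i + 1) := by
    obtain ⟨w, hw, e⟩ := hi
    by_cases hne : G i = G (i + 1)
    · refine ⟨w (G i), 0, hw _, le_rfl, ?_⟩
      rw [← e, hne]
      simp
    · refine ⟨w (G i), w (G (i + 1)), hw _, hw _, ?_⟩
      rw [← e, sum_pair hne]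
  set c := α + β with hc
  have c0 : 0 ≤ c := by linarith
  have hmi := hm i
  unfold wt at hmi
  have d1 : g (y - c • G i) ≤ c * δ := by
    have e1 : y - c • G i = β • (G (i + 1) - G i) := by rw [e, hc]; module
    rw [e1, C4_smul h β hβ]
    calc β * g (G (i + 1) - G i) ≤ β * δ := mul_le_mul_of_nonneg_left hmi hβ
      _ ≤ c * δ := mul_le_mul_of_nonneg_right (by linarith) hδ.le
  have gc : g (c • G i) = c := by rw [C4_smul h c c0, u, mul_one]
  have d2 : c ≤ g y + c * δ := by
    have := C4_tri h (c • G i) y (-(y - c • G i)) (by abel)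
    rw [C4_neg h, gc] at this
    linarith
  have d3 : g y ≤ c + c * δ := by
    have := C4_tri h y (c • G i) (y - c • G i) (by abel)
    rw [gc] at this
    linarith
  have c2 : c ≤ 13 / 10 := by nlinarith
  have d4 : g (c • G i - G i) ≤ |c - 1| := by
    have e1 : c • G i - G i = (c - 1) • G i := by module
    rw [e1]
    rcases le_total 0 (c - 1) with h0 | h0
    · rw [C4_smul h _ h0, u, mul_one, abs_of_nonneg h0]
    · have : (c - 1) • G i = -((1 - c) • G i) := by module
      rw [this, C4_neg h, C4_smul h _ (by linarith), u, mul_one, abs_of_nonpos h0]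
      linarith
  have d5 : |c - 1| ≤ c * δ + 2 * δ + 2 * δ := by
    rw [abs_le]
    constructor <;> nlinarith
  have d6 := C4_tri3 h (x - G i) (x - y) (y - c • G i) (c • G i - G i) (by abel)
  nlinarith

end C4

/-- C4: the girth inequality -/
theorem stGirth : StGirth := by
  intro P g h C k G δ hC hU hk hδ anti u hm hI
  by_contra hlt
  push Not at hlt
  have s0 : 0 ≤ ∑ i ∈ range k, wt g (G i) (G (i + 1)) :=
    sum_nonneg fun i _ => C4_nonneg h _
  have hδ2 : δ < 1 / 20 := by linarith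
  classical
  -- no conflict
  have nc : ∀ i j : ℤ, i ≤ j → j ≤ i + k → ∀ x' : E, 1 ≤ g (G j - G i) → g (G j - G i) ≤ 1 + 2 * δ →
      g (G j - G i - x') ≤ 2 * δ → ¬ (G j - G i ∈ C ∧ -x' ∈ C) ∧ ¬ (-(G j - G i) ∈ C ∧ x' ∈ C) := by
    intro i j h1 h2 x' h3 h4 h5
    constructor
    · rintro ⟨h6, h7⟩
      obtain ⟨l, hl⟩ := C4_conf h C hC hU G δ hδ hδ2 u hm hI (G j - G i) x' h6 h7 h3 h4 h5
      have := C4_three h G k hk anti u i j l h1 h2 _ hl
      linarith
    · rintro ⟨h6, h7⟩
      obtain ⟨l, hl⟩ := C4_conf h C hC hU G δ hδ hδ2 u hm hI (-(G j - G i)) (-x') h6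
        (by rwa [neg_neg]) (by rwa [C4_neg h]) (by rwa [C4_neg h]) (by
          have : -(G j - G i) - -x' = -(G j - G i - x') := by abel
          rwa [this, C4_neg h])
      have e : G (l + k) = - G l := anti l
      have hl' : g (G j - G i - G (l + k)) ≤ 9 * δ := by
        rw [e]
        have : G j - G i - -G l = -(-(G j - G i) - G l) := by abel
        rwa [this, C4_neg h]
      have := C4_three h G k hk anti u i j _ h1 h2 _ hl'
      linarith
  set N : ℤ → ℤ → Bool := fun i j => decide (1 ≤ g (G j - G i)) with hN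
  set L : ℤ → ℤ → Bool := fun i j => decide (G j - G i ∈ C) with hL
  have st : ∀ i, g (G (i + 1) - G i) ≤ δ := hm
  have st' : ∀ i, g (G i - G (i + 1)) ≤ δ := by
    intro i
    rw [← C4_neg h, neg_sub]; exact st i
  -- equal labels
  have lab : ∀ i j i' j' : ℤ, i ≤ j → j ≤ i + k → N i j = true →
      g (G j - G i) ≤ 1 + 2 * δ → g ((G j - G i) - (G j' - G i')) ≤ 2 * δ →
      L i j = L i' j' := by
    intro i j i' j' h1 h2 h3 h5 h7
    simp only [hN, decide_eq_true_eq] at h3
    obtain ⟨n1, n2⟩ := nc i j h1 h2 (G j' - G i') h3 h5 h7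
    simp only [hL]
    rw [decide_eq_decide]
    constructor
    · intro h8
      by_contra h9
      exact n1 ⟨h8, (hU _).resolve_left h9⟩
    · intro h8
      by_contra h9
      exact n2 ⟨(hU _).resolve_left h9, h8⟩
  have Nf : ∀ i j, N i j = false → g (G j - G i) < 1 := by
    intro i j hf
    simp only [hN, decide_eq_false_iff_not, not_le] at hf
    exact hf
  have k0 : (0 : ℤ) < k := by exact_mod_cast hk
  -- boundary values of N
  have N0 : ∀ i, N i i = false := by
    intro i; simp only [hN, sub_self, C4_zero h]; norm_num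
  have N1 : ∀ i, N i (i + 1) = false := by
    intro i
    simp only [hN, decide_eq_false_iff_not, not_le]
    linarith [st i]
  have g2 : ∀ i, g ((2 : ℝ) • G i) = 2 := by
    intro i; rw [C4_smul h 2 (by norm_num), u]; norm_num
  have N2 : ∀ i : ℤ, N i (i + k) = true := by
    intro i
    simp only [hN, decide_eq_true_eq]
    rw [anti]
    have e : -G i - G i = -((2 : ℝ) • G i) := by module
    rw [e, C4_neg h, g2]; norm_num
  have N3 : ∀ i : ℤ, N (i + 1) (i + k) = true := by
    intro i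
    simp only [hN, decide_eq_true_eq]
    rw [anti]
    have t := C4_tri h ((2 : ℝ) • G i) (-(-G i - G (i + 1))) (G i - G (i + 1)) (by module)
    rw [C4_neg h, g2] at t
    linarith [st' i]
  have Nk : ∀ i j : ℤ, N (i + k) (j + k) = N i j := by
    intro i j
    simp only [hN]
    rw [anti, anti]
    have e : -G j - -G i = -(G j - G i) := by abel
    rw [e, C4_neg h]
  -- the edges
  set e : ℤ → ℤ → ZMod 2 := fun i j => C4_ed (N i j) (N i (j + 1)) (L i j) (L i (j + 1)) with he
  set f : ℤ → ℤ → ZMod 2 := fun i j => C4_ed (N i j) (N (i + 1) j) (L i j) (L (i + 1) j) with hf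
  set n : ℤ → ℤ → ZMod 2 := fun i j => if N i j then 1 else 0 with hn
  have edz : ∀ m m' l l' : Bool, m = m' → C4_ed m m' l l' = 0 := by
    intro m m' l l' e; unfold C4_ed; rw [if_pos e]
  refine C4_par k hk e f n ?_ ?_ ?_ ?_ ?_ ?_ ?_ ?_
  · intro i j h1 h2
    -- distances in the square
    have sub4 : ∀ a b c d : E, a - b - (c - d) = (a - c) + (d - b) := by intro a b c d; abel
    have dist : ∀ a b c d : ℤ, (g (G b - G d) ≤ δ) → g (G c - G a) ≤ δ →
        g ((G b - G a) - (G d - G c)) ≤ 2 * δ := by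
      intro a b c d h1 h2
      rw [sub4]
      linarith [C4_add h (G b - G d) (G c - G a)]
    have z : ∀ i : ℤ, g (G i - G i) ≤ δ := by intro i; rw [sub_self, C4_zero h]; exact hδ.le
    have near : ∀ a b c d : ℤ, g ((G b - G a) - (G d - G c)) ≤ 2 * δ → N c d = false →
        g (G b - G a) ≤ 1 + 2 * δ := by
      intro a b c d h1 h2
      have := C4_tri h (G b - G a) (G d - G c) ((G b - G a) - (G d - G c)) (by abel)
      linarith [Nf c d h2]
    -- bound for all corners
    have cor : ∀ a b : ℤ, (a = i ∨ a = i + 1) → (b = j ∨ b = j + 1) →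
        ∀ c d : ℤ, (c = i ∨ c = i + 1) → (d = j ∨ d = j + 1) →
        g ((G b - G a) - (G d - G c)) ≤ 2 * δ := by
      intro a b ha hb c d hc hd
      apply dist
      · rcases hb with rfl | rfl <;> rcases hd with rfl | rfl
        · exact z _
        · exact st' _
        · exact st _
        · exact z _
      · rcases ha with rfl | rfl <;> rcases hc with rfl | rfl
        · exact z _
        · exact st _
        · exact st' _
        · exact z _
    have labs : (∃ c d : ℤ, (c = i ∨ c = i + 1) ∧ (d = j ∨ d = j + 1) ∧ N c d = false) →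
        ∀ a b : ℤ, (a = i ∨ a = i + 1) → (b = j ∨ b = j + 1) →
        ∀ a' b' : ℤ, (a' = i ∨ a' = i + 1) → (b' = j ∨ b' = j + 1) →
        N a b = true → N a' b' = true → L a b = L a' b' := by
      rintro ⟨c, d, hc, hd, hcd⟩ a b ha hb a' b' ha' hb' hab hab'
      refine lab a b a' b' ?_ ?_ hab ?_ (cor a b ha hb a' b' ha' hb')
      · rcases ha with rfl | rfl <;> rcases hb with rfl | rfl <;> omega
      · rcases ha with rfl | rfl <;> rcases hb with rfl | rfl <;> omega
      · exact near a b c d (cor a b ha hb c d hc hd) hcd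
    simp only [he, hf]
    apply C4_sq
    intro hex
    have hex' : ∃ c d : ℤ, (c = i ∨ c = i + 1) ∧ (d = j ∨ d = j + 1) ∧ N c d = false := by
      rcases hex with q | q | q | q
      · exact ⟨_, _, Or.inl rfl, Or.inl rfl, q⟩
      · exact ⟨_, _, Or.inr rfl, Or.inl rfl, q⟩
      · exact ⟨_, _, Or.inr rfl, Or.inr rfl, q⟩
      · exact ⟨_, _, Or.inl rfl, Or.inr rfl, q⟩
    have lb := labs hex'
    refine ⟨?_, ?_, ?_, ?_, ?_, ?_⟩
    · exact lb _ _ (Or.inl rfl) (Or.inl rfl) _ _ (Or.inr rfl) (Or.inl rfl)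
    · exact lb _ _ (Or.inl rfl) (Or.inl rfl) _ _ (Or.inr rfl) (Or.inr rfl)
    · exact lb _ _ (Or.inl rfl) (Or.inl rfl) _ _ (Or.inl rfl) (Or.inr rfl)
    · exact lb _ _ (Or.inr rfl) (Or.inl rfl) _ _ (Or.inr rfl) (Or.inr rfl)
    · exact lb _ _ (Or.inr rfl) (Or.inl rfl) _ _ (Or.inl rfl) (Or.inr rfl)
    · exact lb _ _ (Or.inr rfl) (Or.inr rfl) _ _ (Or.inl rfl) (Or.inr rfl)
  · intro i; simp only [he]; exact edz _ _ _ _ (by rw [N0, N1])
  · intro i; simp only [he]; apply edz; rw [N3]
    have : i + (k : ℤ) + 1 = i + 1 + k := by ring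
    rw [this, N2]
  · intro i; simp only [hf]; exact edz _ _ _ _ (by rw [N1, N0])
  · intro i; simp only [hf]; exact edz _ _ _ _ (by rw [N2, N3])
  · intro i j h1 h2
    simp only [he, hn]
    have e1 : j + (k : ℤ) + 1 = j + 1 + k := by ring
    rw [e1, Nk, Nk]
    -- flipping of labels
    have flip : ∀ i j : ℤ, i ≤ j → j ≤ i + k → N i j = true → g (G j - G i) ≤ 1 + 2 * δ →
        L (i + k) (j + k) = !(L i j) := by
      intro i j h1 h2 h3 h4
      simp only [hN, decide_eq_true_eq] at h3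
      obtain ⟨n1, n2⟩ := nc i j h1 h2 (G j - G i) h3 h4 (by
        rw [sub_self, C4_zero h]; linarith)
      simp only [hL]
      rw [anti, anti]
      have e : -G j - -G i = -(G j - G i) := by abel
      rw [e]
      by_cases hin : G j - G i ∈ C
      · have : ¬ (-(G j - G i) ∈ C) := fun hh => n1 ⟨hin, hh⟩
        simp only [hin, this, decide_true, decide_false, Bool.not_true]
      · have := (hU _).resolve_left hin
        simp only [hin, this, decide_true, decide_false, Bool.not_false]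
    apply C4_fl
    · intro q q'
      refine flip i j h1 (by omega) q ?_
      have t := C4_tri h (G j - G i) (G (j + 1) - G i) (G j - G (j + 1)) (by abel)
      linarith [Nf _ _ q', st' j]
    · intro q q'
      refine flip i (j + 1) (by omega) h2 q ?_
      have t := C4_tri h (G (j + 1) - G i) (G j - G i) (G (j + 1) - G j) (by abel)
      linarith [Nf _ _ q', st j]
  · intro i; simp only [hn, N0]; rfl
  · intro i; simp only [hn, N2]; rfl

end Pool.Agent.Lib.MP_87489e_co.HT
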