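import Mathlib
import Pool.Agent.Lib.MP_87489e_co.HT.Stmts
import Pool.Agent.Lib.MP_87489e_co.HT.Basic
import Pool.Agent.Lib.MP_87489e_co.HT.A4

set_option autoImplicit false

namespace Pool.Agent.Lib.MP_87489e_co.HT

open Finset

theorem D2_mono {V : Type} {R R' : V → V → Prop} {w : V → V → ℝ} {x y : V} {l : ℝ} {s : List V}
    (p : Pth R w x y l s) (hR : ∀ a ∈ s, ∀ b ∈ s, R a b → R' a b) : Pth R' w x y l s := by
  induction p with
  | nil x => exact Pth.nil x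
  | @cons x y z l s h q ih =>
    refine Pth.cons (hR x (by simp) y ?_ h) (ih fun a ha b hb => hR a (by simp [ha]) b (by simp [hb]))
    simp [q.left_mem]

theorem D2_InD_symm {D : Finset (Finset E)} {x y : E} (h : InD D x y) : InD D y x :=
  h.imp fun _ ht => ⟨ht.1, ht.2.2, ht.2.1⟩

theorem D2_mem_hull {t : Finset E} {v : E} (h : v ∈ t) : v ∈ hull t :=
  subset_convexHull ℝ _ (Finset.mem_coe.2 h)

/-- a point of the hull is in the cone -/
theorem D2_hull_cone {t : Finset E} {v : E} (h : v ∈ hull t) : v ∈ cone t := by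
  unfold hull at h
  rw [Finset.mem_convexHull] at h
  obtain ⟨w, hw0, hw1, hw2⟩ := h
  refine ⟨fun u => if u ∈ t then w u else 0, fun u => ?_, ?_⟩
  · by_cases hu : u ∈ t
    · simp [hu, hw0 u hu]
    · simp [hu]
  · rw [Finset.centerMass_eq_of_sum_1 _ _ hw1] at hw2
    rw [← hw2]
    refine Finset.sum_congr rfl fun u hu => ?_
    simp [hu]

/-- a point of the cone of norm one is in the hull of a flat triangle -/
theorem D2_cone_hull {P : Finset E} {g : E → ℝ} (hg : PN P g) {t : Finset E} {p : E} (hp : p ∈ P)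
    (hpt : ∀ v ∈ t, p ⬝ᵥ v = 1) (hgt : ∀ v ∈ t, g v = 1) {v : E} (hv : v ∈ cone t)
    (hgv : g v = 1) : v ∈ hull t := by
  obtain ⟨a, ha0, ha⟩ := hv
  have h1 : p ⬝ᵥ v = ∑ u ∈ t, a u := by
    rw [← ha, dotProduct_sum]
    refine Finset.sum_congr rfl fun u hu => ?_
    rw [dotProduct_smul, hpt u hu, smul_eq_mul, mul_one]
  have h2 : g v ≤ ∑ u ∈ t, a u := by
    rw [← ha]
    refine (hg.sum_le t fun u => a u • u).trans (le_of_eq ?_)
    refine Finset.sum_congr rfl fun u hu => ?_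
    rw [hg.smul (ha0 u), hgt u hu, mul_one]
  have h3 : ∑ u ∈ t, a u = 1 := by
    have := hg.le p hp v
    linarith
  unfold hull
  rw [Finset.mem_convexHull]
  refine ⟨a, fun u _ => ha0 u, h3, ?_⟩
  rw [Finset.centerMass_eq_of_sum_1 _ _ h3]
  exact ha

theorem D2_seg_hull {t : Finset E} {x y z : E} (hx : x ∈ hull t) (hy : y ∈ hull t)
    (hz : z ∈ segment ℝ x y) : z ∈ hull t :=
  (convex_convexHull ℝ (t : Set E)).segment_subset hx hy hz

section

variable {P : Finset E} {g : E → ℝ} {T D : Finset (Finset E)}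

/-- refinement of a path -/
theorem D2_refine (h7 : StRef2) (h12 : StSeg) (hg : PN P g) (hT : Cx g T) (hF : Flat P T)
    (hD : D ⊆ T) {x y : E} {l : ℝ} {L : List E} (p : Pth (InD D) (wt g) x y l L) :
    ∃ Hs : Finset E, ∀ T' D' : Finset (Finset E), Ref g T D T' D' → Cx g T' →
      (∀ h ∈ Hs, NoCross T' h) → ∃ L', Pth (Adj D') (wt g) x y l L' := by
  classical
  induction p with
  | nil x => exact ⟨∅, fun T' D' _ _ _ => ⟨[x], Pth.nil x⟩⟩
  | @cons x y z l s h q ih =>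
    obtain ⟨Hs1, ih⟩ := ih
    obtain ⟨t, ht, hx, hy⟩ := h
    obtain ⟨p, hp, hpt⟩ := hF t (hD ht)
    have hgt := hT.unit t (hD ht)
    have hxF := hg.flat_hull hp hpt hgt hx
    have hyF := hg.flat_hull hp hpt hgt hy
    obtain ⟨Hs2, hs2⟩ := h12 P g hg x y ⟨hxF.2, hyF.2, p, hp, hxF.1, hyF.1⟩
    refine ⟨Hs1 ∪ Hs2, fun T' D' hR hC hN => ?_⟩
    obtain ⟨L1, hL1⟩ := ih T' D' hR hC fun h hh => hN h (Finset.mem_union_left _ hh)
    obtain ⟨-, -, L2, hL2, hseg⟩ := hs2 T' hC fun h hh => hN h (Finset.mem_union_right _ hh)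
    have hL3 : Pth (Adj D') (wt g) x y (g (y - x)) L2 := by
      apply D2_mono hL2
      rintro u hu v hv ⟨huv, t', ht', hu', hv'⟩
      have he : ({u, v} : Finset E) ∈ edges T' := A4_mem_edges ht' hu' hv' huv
      obtain ⟨t'', ht'', hsub⟩ := h7 P g T D T' D' hg hT hD hR t ht {u, v} he (by
        intro w hw
        rw [Finset.mem_insert, Finset.mem_singleton] at hw
        rcases hw with rfl | rfl
        · exact D2_hull_cone (D2_seg_hull hx hy (hseg _ hu))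
        · exact D2_hull_cone (D2_seg_hull hx hy (hseg _ hv)))
      exact ⟨huv, t'', ht'', hsub (by simp), hsub (by simp)⟩
    obtain ⟨L4, hL4, -⟩ := hL3.append hL1
    exact ⟨L4, hL4⟩

theorem D2_dst_le (hg : PN P g) {x y : E} {l : ℝ} {L : List E}
    (p : Pth (InD D) (wt g) x y l L) : dst g D x y ≤ l := by
  apply csInf_le
  · refine ⟨0, ?_⟩
    rintro l' ⟨L', hL'⟩
    exact hL'.nonneg hg.wt_nonneg
  · exact ⟨L, p⟩

theorem D2_dst_ex {x y : E} (h : ∃ (l : ℝ) (L : List E), Pth (InD D) (wt g) x y l L)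
    {ε : ℝ} (hε : 0 < ε) : ∃ (l : ℝ) (L : List E), Pth (InD D) (wt g) x y l L ∧
      l < dst g D x y + ε := by
  have hne : {l | ∃ L, Pth (InD D) (wt g) x y l L}.Nonempty := by
    obtain ⟨l, L, hL⟩ := h; exact ⟨l, L, hL⟩
  obtain ⟨l, ⟨L, hL⟩, hl⟩ := Real.lt_sInf_add_pos hne hε
  exact ⟨l, L, hL, hl⟩

/-- exchange at a common vertex -/
theorem D2_share (hg : PN P g) {x₁ x₂ y y' z : E} {l₁ l₂ : ℝ} {L₁ L₂ : List E}
    (p₁ : Pth (InD D) (wt g) x₁ y l₁ L₁) (p₂ : Pth (InD D) (wt g) x₂ y' l₂ L₂) (h₁ : z ∈ L₁)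
    (h₂ : z ∈ L₂) : dst g D x₁ y' + dst g D x₂ y ≤ l₁ + l₂ := by
  obtain ⟨a1, a2, s1, s2, q1, q2, e1, -, -⟩ := p₁.split h₁
  obtain ⟨b1, b2, t1, t2, r1, r2, e2, -, -⟩ := p₂.split h₂
  obtain ⟨u, hu, -⟩ := q1.append r2
  obtain ⟨v, hv, -⟩ := r1.append q2
  have h3 := D2_dst_le hg hu
  have h4 := D2_dst_le hg hv
  linarith

end

theorem stNI (h5 : StRefine) (h6 : StRef1) (h7 : StRef2) (h8 : StRef3) (h12 : StSeg)
    (h4 : StCross) (hr : StReach) : StNI := by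
  intro P g T D n G hg hT hF hC t ht y hy y' hy' a b c e hab hbc hce hen
  classical
  have hD := hC.sub
  -- paths exist
  have hex : ∀ (i : ℤ) (y : E), y ∈ hull t → ∃ (l : ℝ) (L : List E),
      Pth (InD D) (wt g) (G i) y l L := by
    intro i y hy
    obtain ⟨⟨t0, ht0, hi0⟩, -⟩ := A4_two hC.sph (hC.edge i) ((hC.bdry _ (hC.edge i)).2 ⟨i, rfl⟩)
    have hcard := hC.sph.card3 t (hD ht)
    obtain ⟨v, hv⟩ : t.Nonempty := by
      rw [← Finset.card_pos, hcard]; norm_num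
    obtain ⟨l, L, hL⟩ := hr.2 E T D n G (wt g) hC t0 ht0 (G i) (hi0 (by simp)) t ht v hv
    have hL' : Pth (InD D) (wt g) (G i) v l L := hL.mono (by
      rintro p q ⟨-, t1, ht1, hp, hq⟩
      exact ⟨t1, ht1, D2_mem_hull hp, D2_mem_hull hq⟩)
    obtain ⟨L2, hL2, -⟩ := hL'.append (Pth.single (w := wt g) (R := InD D)
      ⟨t, ht, D2_mem_hull hv, hy⟩)
    exact ⟨_, L2, hL2⟩
  -- the four refined paths
  apply le_of_forall_pos_le_add
  intro ε hε
  have hε2 : 0 < ε / 2 := by linarith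
  obtain ⟨la, La, pa, hla⟩ := D2_dst_ex (hex a y hy) hε2
  obtain ⟨lc, Lc, pc, hlc⟩ := D2_dst_ex (hex c y hy) hε2
  obtain ⟨lb, Lb, pb, hlb⟩ := D2_dst_ex (hex b y' hy') hε2
  obtain ⟨le, Le, pe, hle⟩ := D2_dst_ex (hex e y' hy') hε2
  obtain ⟨Ha, ha⟩ := D2_refine h7 h12 hg hT hF hD pa
  obtain ⟨Hb, hb⟩ := D2_refine h7 h12 hg hT hF hD pb
  obtain ⟨Hc, hc⟩ := D2_refine h7 h12 hg hT hF hD pc
  obtain ⟨He, he⟩ := D2_refine h7 h12 hg hT hF hD pe
  obtain ⟨T', D', hR, hT', hN⟩ := h5 P g T D hg hT hD (Ha ∪ Hb ∪ (Hc ∪ He))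
  have hN' : ∀ h, h ∈ Ha ∨ h ∈ Hb ∨ h ∈ Hc ∨ h ∈ He → NoCross T' h := by
    intro h hh
    apply hN
    simp only [Finset.mem_union]
    tauto
  obtain ⟨Sa, qa⟩ := ha T' D' hR hT' fun h hh => hN' h (Or.inl hh)
  obtain ⟨Sb, qb⟩ := hb T' D' hR hT' fun h hh => hN' h (Or.inr (Or.inl hh))
  obtain ⟨Sc, qc⟩ := hc T' D' hR hT' fun h hh => hN' h (Or.inr (Or.inr (Or.inl hh)))
  obtain ⟨Se, qe⟩ := he T' D' hR hT' fun h hh => hN' h (Or.inr (Or.inr (Or.inr hh)))
  -- back to `D`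
  obtain ⟨-, -, hsub', -, hcone, -, -, -⟩ := h6 P g T D T' D' hg hT hD hR
  have hback : ∀ {x z : E} {l : ℝ} {S : List E}, Pth (Adj D') (wt g) x z l S →
      Pth (InD D) (wt g) x z l S := by
    intro x z l S q
    apply q.mono
    rintro u v ⟨-, t', ht', hu, hv⟩
    obtain ⟨t1, ht1, hc1⟩ := hcone t' ht'
    obtain ⟨p, hp, hpt⟩ := hF t1 (hD ht1)
    have hgt := hT.unit t1 (hD ht1)
    exact ⟨t1, ht1, D2_cone_hull hg hp hpt hgt (hc1 u hu) (hT'.unit t' (hsub' ht') u hu),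
      D2_cone_hull hg hp hpt hgt (hc1 v hv) (hT'.unit t' (hsub' ht') v hv)⟩
  -- crossing
  obtain ⟨n', G', ι, hC', hι, hιn, hιG⟩ := h8 P g T D T' D' hg hT hD hR n G hC
  have hsymm : ∀ u v : E, Adj D' u v → Adj D' v u := fun u v h => h.symm
  obtain ⟨Sc', qc', hSc'⟩ := qc.reverse hsymm hg.wt_symm
  obtain ⟨Se', qe', hSe'⟩ := qe.reverse hsymm hg.wt_symm
  obtain ⟨SP, qP, hSP⟩ := qa.append qc'
  obtain ⟨SQ, qQ, hSQ⟩ := qb.append qe'
  rw [← hιG a, ← hιG c] at qP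
  rw [← hιG b, ← hιG e] at qQ
  obtain ⟨z, hzP, hzQ⟩ := h4 E T' D' n' G' hC' (ι a) (ι b) (ι c) (ι e) (hι hab) (hι hbc) (hι hce)
    (by rw [← hιn]; exact hι hen) (wt g) _ _ _ _ qP qQ
  rw [hSP, hSc'] at hzP
  rw [hSQ, hSe'] at hzQ
  rcases hzP with h1 | h1 <;> rcases hzQ with h2 | h2
  · have := D2_share hg (hback qa) (hback qb) h1 h2
    refine (min_le_left _ _).trans ?_
    have h3 := le_max_left (dst g D (G b) y' - dst g D (G b) y) (dst g D (G e) y' - dst g D (G e) y)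
    linarith
  · have := D2_share hg (hback qa) (hback qe) h1 h2
    refine (min_le_left _ _).trans ?_
    have h3 := le_max_right (dst g D (G b) y' - dst g D (G b) y) (dst g D (G e) y' - dst g D (G e) y)
    linarith
  · have := D2_share hg (hback qc) (hback qb) h1 h2
    refine (min_le_right _ _).trans ?_
    have h3 := le_max_left (dst g D (G b) y' - dst g D (G b) y) (dst g D (G e) y' - dst g D (G e) y)
    linarith
  · have := D2_share hg (hback qc) (hback qe) h1 h2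
    refine (min_le_right _ _).trans ?_
    have h3 := le_max_right (dst g D (G b) y' - dst g D (G b) y) (dst g D (G e) y' - dst g D (G e) y)
    linarith

end Pool.Agent.Lib.MP_87489e_co.HT
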