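import Mathlib
import Pool.Agent.Lib.MP_87489e_co.HT.Stmts
import Pool.Agent.Lib.MP_87489e_co.HT.Basic
import Pool.Agent.Lib.MP_87489e_co.HT.A4
import Pool.Agent.Lib.MP_87489e_co.HT.D2

set_option autoImplicit false

namespace Pool.Agent.Lib.MP_87489e_co.HT

open Finset

theorem D1_sum_shift (f : ℤ → ℝ) (i : ℤ) (m : ℕ) :
    ∑ l ∈ Ico i (i + m), f l = ∑ x ∈ range m, f (i + x) := by
  induction m with
  | zero => simp
  | succ m ih =>
    have e2 : Ico i (i + ((m + 1 : ℕ) : ℤ)) = insert (i + m) (Ico i (i + m)) := by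
      ext x; simp only [mem_Ico, mem_insert]; push_cast; omega
    rw [e2, Finset.sum_insert (by simp), ih, Finset.sum_range_succ, add_comm]

theorem D1_arc_add (g : E → ℝ) (G : ℤ → E) {i j m : ℤ} (hij : i ≤ j) (hjm : j ≤ m) :
    arc g G i j + arc g G j m = arc g G i m := by
  unfold arc
  rw [← Finset.sum_union]
  · congr 1
    ext x; simp only [mem_union, mem_Ico]; omega
  · rw [Finset.disjoint_left]
    intro x hx hx'
    rw [mem_Ico] at hx hx'
    omega

theorem D1_arc_one (g : E → ℝ) (G : ℤ → E) (i : ℤ) : arc g G i (i + 1) = wt g (G i) (G (i + 1)) := by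
  unfold arc
  have : Ico i (i + 1) = {i} := by ext x; simp only [mem_Ico, mem_singleton]; omega
  rw [this, Finset.sum_singleton]

theorem D1_period {P : Finset E} {g : E → ℝ} (hg : PN P g) {T : Finset (Finset E)} {k : ℕ}
    {G : ℤ → E} {s : ℝ} (hG : Gam g T k G s) (i : ℤ) : arc g G i (i + k) = s := by
  have hstep : ∀ j : ℤ, arc g G (j + 1) (j + 1 + k) = arc g G j (j + k) := by
    intro j
    have hk := hG.pos
    have h1 := D1_arc_add g G (i := j) (j := j + 1) (m := j + k + 1) (by omega) (by omega)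
    have h2 := D1_arc_add g G (i := j) (j := j + k) (m := j + k + 1) (by omega) (by omega)
    rw [D1_arc_one] at h1 h2
    have h3 : wt g (G (j + k)) (G (j + k + 1)) = wt g (G j) (G (j + 1)) := by
      have e1 : j + k + 1 = (j + 1) + k := by ring
      rw [e1, hG.anti, hG.anti, hg.wt_neg]
    have e2 : j + 1 + (k : ℤ) = j + k + 1 := by ring
    rw [e2]
    linarith
  have h0 : arc g G 0 (0 + k) = s := by
    unfold arc
    rw [D1_sum_shift (fun l => wt g (G l) (G (l + 1))) 0 k, ← hG.len]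
    refine Finset.sum_congr rfl fun x _ => by simp
  induction i using Int.induction_on with
  | zero => exact h0
  | succ i ih => rw [hstep, ih]
  | pred i ih =>
    have := hstep (-(i : ℤ) - 1)
    rw [sub_add_cancel] at this
    rw [← this, ih]

theorem D1_ex (hr : StReach) {g : E → ℝ} {T D : Finset (Finset E)} {n : ℕ} {G : ℤ → E}
    (hC : Cut T D n G) {t : Finset E} (ht : t ∈ D) (i : ℤ) {y : E} (hy : y ∈ hull t) :
    ∃ (l : ℝ) (L : List E), Pth (InD D) (wt g) (G i) y l L := by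
  obtain ⟨⟨t0, ht0, hi0⟩, -⟩ := A4_two hC.sph (hC.edge i) ((hC.bdry _ (hC.edge i)).2 ⟨i, rfl⟩)
  have hcard := hC.sph.card3 t (hC.sub ht)
  obtain ⟨v, hv⟩ : t.Nonempty := by
    rw [← Finset.card_pos, hcard]; norm_num
  obtain ⟨l, L, hL⟩ := hr.2 E T D n G (wt g) hC t0 ht0 (G i) (hi0 (by simp)) t ht v hv
  have hL' : Pth (InD D) (wt g) (G i) v l L := hL.mono (by
    rintro p q ⟨-, t1, ht1, hp, hq⟩
    exact ⟨t1, ht1, D2_mem_hull hp, D2_mem_hull hq⟩)
  obtain ⟨L2, hL2, -⟩ := hL'.append (Pth.single (w := wt g) (R := InD D)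
    ⟨t, ht, D2_mem_hull hv, hy⟩)
  exact ⟨_, L2, hL2⟩

theorem D1_edge {T D : Finset (Finset E)} {n : ℕ} {G : ℤ → E} (hC : Cut T D n G) (i : ℤ) :
    ∃ t ∈ D, G i ∈ t ∧ G (i + 1) ∈ t := by
  obtain ⟨⟨t0, ht0, hi0⟩, -⟩ := A4_two hC.sph (hC.edge i) ((hC.bdry _ (hC.edge i)).2 ⟨i, rfl⟩)
  exact ⟨t0, ht0, hi0 (by simp), hi0 (by simp)⟩

theorem D1_path {g : E → ℝ} {T D : Finset (Finset E)} {n : ℕ} {G : ℤ → E} (hC : Cut T D n G)
    {i j : ℤ} (hij : i ≤ j) : ∃ L, Pth (InD D) (wt g) (G i) (G j) (arc g G i j) L := by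
  obtain ⟨m, rfl⟩ : ∃ m : ℕ, j = i + m := ⟨(j - i).toNat, by omega⟩
  have h := Pth.ofFun (R := InD D) (w := wt g) m (fun x => G (i + x)) (by
    intro x _
    obtain ⟨t, ht, h1, h2⟩ := D1_edge hC (i + x)
    refine ⟨t, ht, D2_mem_hull h1, ?_⟩
    have e : i + ((x + 1 : ℕ) : ℤ) = i + x + 1 := by push_cast; ring
    show G (i + ((x + 1 : ℕ) : ℤ)) ∈ hull t
    rw [e]
    exact D2_mem_hull h2)
  simp only [Nat.cast_zero, add_zero] at h
  have e3 : ∑ x ∈ range m, wt g (G (i + x)) (G (i + ((x + 1 : ℕ) : ℤ))) =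
      ∑ x ∈ range m, wt g (G (i + x)) (G (i + x + 1)) := by
    refine Finset.sum_congr rfl fun x _ => ?_
    have e : i + ((x + 1 : ℕ) : ℤ) = i + x + 1 := by push_cast; ring
    rw [e]
  rw [e3] at h
  have e4 : arc g G i (i + m) = ∑ x ∈ range m, wt g (G (i + x)) (G (i + x + 1)) := by
    unfold arc
    rw [D1_sum_shift (fun l => wt g (G l) (G (l + 1))) i m]
  rw [e4]
  exact ⟨_, h⟩

theorem stDist (hr : StReach) : StDist := by
  intro P g T D k G s hg hT hF hG hS hC
  have hD := hC.sub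
  -- (1)
  have h1 : ∀ i : ℤ, ∀ t ∈ D, ∀ y ∈ hull t, ∀ y' ∈ hull t,
      dst g D (G i) y' ≤ dst g D (G i) y + g (y' - y) := by
    intro i t ht y hy y' hy'
    have hne : {l | ∃ L, Pth (InD D) (wt g) (G i) y l L}.Nonempty := by
      obtain ⟨l, L, hL⟩ := D1_ex (g := g) hr hC ht i hy
      exact ⟨l, L, hL⟩
    have : dst g D (G i) y' - g (y' - y) ≤ dst g D (G i) y := by
      apply le_csInf hne
      rintro l ⟨L, hL⟩
      obtain ⟨L2, hL2, -⟩ := hL.append (Pth.single (w := wt g) (R := InD D) ⟨t, ht, hy, hy'⟩)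
      have := D2_dst_le hg hL2
      unfold wt at this
      linarith
    linarith
  -- paths in `D` are paths in the sphere
  have hFac : ∀ {x z : E} {l : ℝ} {S : List E}, Pth (InD D) (wt g) x z l S →
      Pth (Fac P g) (wt g) x z l S := by
    intro x z l S q
    apply q.mono
    rintro u v ⟨t, ht, hu, hv⟩
    obtain ⟨p, hp, hpt⟩ := hF t (hD ht)
    have a1 := hg.flat_hull hp hpt (hT.unit t (hD ht)) hu
    have a2 := hg.flat_hull hp hpt (hT.unit t (hD ht)) hv
    exact ⟨a1.2, a2.2, p, hp, a1.1, a2.1⟩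
  have hgG : ∀ i, g (G i) = 1 := by
    intro i
    obtain ⟨t, ht, h, -⟩ := D1_edge hC i
    exact hT.unit t (hD ht) _ h
  have hlow : ∀ i j : ℤ, i ≤ j → j ≤ i + k → ∀ (l : ℝ) (L : List E),
      Pth (InD D) (wt g) (G i) (G j) l L → arc g G i j ≤ l := by
    intro i j hij hjk l L hL
    obtain ⟨L2, hL2⟩ := D1_path (g := g) hC hjk
    obtain ⟨L3, hL3, -⟩ := hL.append hL2
    rw [hG.anti i] at hL3
    have h2 := hS (G i) _ _ (hgG i) (hFac hL3)
    have h3 := D1_arc_add g G hij hjk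
    rw [D1_period hg hG i] at h3
    linarith
  have hrev : ∀ {x z : E} {l : ℝ} {S : List E}, Pth (InD D) (wt g) x z l S →
      ∃ S', Pth (InD D) (wt g) z x l S' := by
    intro x z l S q
    obtain ⟨S', h, -⟩ := q.reverse (fun _ _ h => D2_InD_symm h) hg.wt_symm
    exact ⟨S', h⟩
  have h2 : ∀ i j : ℤ, i ≤ j → j ≤ i + k → dst g D (G i) (G j) = arc g G i j ∧
      dst g D (G j) (G i) = arc g G i j := by
    intro i j hij hjk
    obtain ⟨L, hL⟩ := D1_path (g := g) hC hij
    obtain ⟨L', hL'⟩ := hrev hL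
    constructor
    · apply le_antisymm (D2_dst_le hg hL)
      refine le_csInf (s := {l | ∃ L, Pth (InD D) (wt g) (G i) (G j) l L}) ⟨_, L, hL⟩ ?_
      rintro l ⟨L2, hL2⟩
      exact hlow i j hij hjk l L2 hL2
    · apply le_antisymm (D2_dst_le hg hL')
      refine le_csInf (s := {l | ∃ L, Pth (InD D) (wt g) (G j) (G i) l L}) ⟨_, L', hL'⟩ ?_
      rintro l ⟨L2, hL2⟩
      obtain ⟨L3, hL3⟩ := hrev hL2
      exact hlow i j hij hjk l L3 hL3
  refine ⟨h1, h2, ?_⟩
  intro i j θ hθ0 hθ1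
  -- the two cases
  have hcase : dst g D (G i) (G (j + 1)) = dst g D (G i) (G j) + wt g (G j) (G (j + 1)) ∨
      dst g D (G i) (G (j + 1)) = dst g D (G i) (G j) - wt g (G j) (G (j + 1)) := by
    have hk := hG.pos
    have hper2 : ∀ x m : ℤ, G (x + ((2 * k : ℕ) : ℤ) * m) = G x := by
      intro x m
      induction m using Int.induction_on with
      | zero => simp
      | succ m ih =>
        have : x + ((2 * k : ℕ) : ℤ) * ((m : ℤ) + 1) = (x + ((2 * k : ℕ) : ℤ) * m) + (2 * k : ℕ) := by ring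
        rw [this, hC.per, ih]
      | pred m ih =>
        have : x + ((2 * k : ℕ) : ℤ) * (-(m : ℤ)) =
            (x + ((2 * k : ℕ) : ℤ) * (-(m : ℤ) - 1)) + (2 * k : ℕ) := by ring
        rw [this, hC.per] at ih
        exact ih
    set i' := i + ((2 * k : ℕ) : ℤ) * ((j - i) / ((2 * k : ℕ) : ℤ)) with hi'
    have hi1 : G i' = G i := hper2 _ _
    have hmod : j - i' = (j - i) % ((2 * k : ℕ) : ℤ) := by
      rw [hi', Int.emod_def]; ring
    have hpos2 : (0 : ℤ) < ((2 * k : ℕ) : ℤ) := by push_cast; omega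
    have hm0 := Int.emod_nonneg (j - i) hpos2.ne'
    have hm1 := Int.emod_lt_of_pos (j - i) hpos2
    rw [← hmod] at hm0 hm1
    push_cast at hm1
    rw [← hi1]
    by_cases hjk : j + 1 ≤ i' + k
    · left
      rw [(h2 i' (j + 1) (by omega) hjk).1, (h2 i' j (by omega) (by omega)).1,
        ← D1_arc_one g G j, D1_arc_add g G (by omega) (by omega)]
    · right
      have hi2 : G i' = G (i' + (2 * k : ℕ)) := (hC.per i').symm
      rw [hi2, (h2 (j + 1) (i' + (2 * k : ℕ)) (by push_cast; omega) (by push_cast; omega)).2,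
        (h2 j (i' + (2 * k : ℕ)) (by push_cast; omega) (by push_cast; omega)).2,
        ← D1_arc_one g G j]
      have := D1_arc_add g G (i := j) (j := j + 1) (m := i' + (2 * k : ℕ)) (by omega)
        (by push_cast; omega)
      linarith
  obtain ⟨t, ht, ha, hb⟩ := D1_edge hC j
  have haH := D2_mem_hull ha
  have hbH := D2_mem_hull hb
  have hyH : G j + θ • (G (j + 1) - G j) ∈ hull t := by
    apply D2_seg_hull haH hbH
    refine ⟨1 - θ, θ, by linarith, hθ0, by ring, ?_⟩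
    rw [smul_sub, sub_smul, one_smul]
    abel
  have e1 : g (G j + θ • (G (j + 1) - G j) - G j) = θ * wt g (G j) (G (j + 1)) := by
    rw [add_sub_cancel_left, hg.smul hθ0]; rfl
  have e2 : g (G j - (G j + θ • (G (j + 1) - G j))) = θ * wt g (G j) (G (j + 1)) := by
    rw [hg.sub_comm', e1]
  have e3 : g (G (j + 1) - (G j + θ • (G (j + 1) - G j))) = (1 - θ) * wt g (G j) (G (j + 1)) := by
    have : G (j + 1) - (G j + θ • (G (j + 1) - G j)) = (1 - θ) • (G (j + 1) - G j) := by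
      rw [sub_smul, one_smul]; abel
    rw [this, hg.smul (by linarith)]; rfl
  have e4 : g (G j + θ • (G (j + 1) - G j) - G (j + 1)) = (1 - θ) * wt g (G j) (G (j + 1)) := by
    rw [hg.sub_comm', e3]
  have u1 := h1 i t ht _ haH _ hyH
  have u2 := h1 i t ht _ hyH _ haH
  have u3 := h1 i t ht _ hbH _ hyH
  have u4 := h1 i t ht _ hyH _ hbH
  rw [e1] at u1
  rw [e2] at u2
  rw [e4] at u3
  rw [e3] at u4
  rcases hcase with h3 | h3
  · rw [h3] at u3 u4 ⊢
    apply le_antisymm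
    · linarith
    · linarith
  · rw [h3] at u3 u4 ⊢
    apply le_antisymm
    · linarith
    · linarith

end Pool.Agent.Lib.MP_87489e_co.HT
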