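import Mathlib
import Pool.Agent.Lib.MP_87489e_co.HT.Stmts

set_option autoImplicit false

/-! Planar lemma (section 5 of the proof text): points in cyclic order whose crossing segments meet,
inside a compact convex set. -/

namespace Pool.Agent.Lib.MP_87489e_co.HT

open MeasureTheory Set

namespace P15

/-- the open standard triangle -/
def T0 : Set (ℝ × ℝ) := regionBetween (fun _ : ℝ => (0 : ℝ)) (fun x => 1 - x) (Ioo 0 1)

theorem vol_T0 : volume T0 = ENNReal.ofReal (1 / 2) := by
  unfold T0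
  rw [Measure.volume_eq_prod, volume_regionBetween_eq_integral]
  · congr 1
    rw [← integral_Ioc_eq_integral_Ioo, ← intervalIntegral.integral_of_le zero_le_one]
    have : (fun x : ℝ => ((fun x : ℝ => 1 - x) - fun _ : ℝ => (0 : ℝ)) x) = fun x => 1 - x := by
      ext x; simp
    rw [this, intervalIntegral.integral_sub (by simp) (by simp)]
    simp
    norm_num
  · simp
  · exact (continuous_const.sub continuous_id).integrableOn_Icc.mono_set Ioo_subset_Icc_self
  · exact measurableSet_Ioo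
  · intro x hx
    have := hx.2
    simp
    linarith

theorem tri_area (p q r : ℝ × ℝ) (N : Set (ℝ × ℝ)) (hN : IsCompact N) (hc : Convex ℝ N)
    (hp : p ∈ N) (hq : q ∈ N) (hr : r ∈ N) :
    cr (q - p) (r - p) ≤ 2 * (volume N).toReal := by
  set M : Matrix (Fin 2) (Fin 2) ℝ := !![(q - p).1, (r - p).1; (q - p).2, (r - p).2] with hM
  set L : ℝ × ℝ →ₗ[ℝ] ℝ × ℝ := Matrix.toLin (Module.Basis.finTwoProd ℝ) (Module.Basis.finTwoProd ℝ) M with hL
  have hdet : LinearMap.det L = cr (q - p) (r - p) := by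
    rw [hL, LinearMap.det_toLin, hM, Matrix.det_fin_two_of]
    unfold cr; ring
  have happ : ∀ z : ℝ × ℝ, L z = z.1 • (q - p) + z.2 • (r - p) := by
    intro z
    rw [hL, hM, Matrix.toLin_finTwoProd_apply]
    ext <;> simp <;> ring
  have hsub : (fun z => p + z) '' (L '' T0) ⊆ N := by
    rintro _ ⟨_, ⟨z, hz, rfl⟩, rfl⟩
    obtain ⟨⟨h1, h2⟩, h3, h4⟩ := hz
    simp only at h3 h4
    have : (fun z => p + z) (L z) = (1 - z.1 - z.2) • p + z.1 • q + z.2 • r := by
      simp only [happ]
      ext <;> simp <;> ring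
    rw [this]
    have h5 := hc.sum_mem (t := Finset.univ) (w := ![1 - z.1 - z.2, z.1, z.2]) (z := ![p, q, r])
      (by intro i _; fin_cases i <;> simp <;> linarith)
      (by simp [Fin.sum_univ_three]; ring)
      (by intro i _; fin_cases i <;> simp [hp, hq, hr])
    simpa [Fin.sum_univ_three] using h5
  have hvol : ENNReal.ofReal |cr (q - p) (r - p)| * ENNReal.ofReal (1 / 2) ≤ volume N := by
    calc ENNReal.ofReal |cr (q - p) (r - p)| * ENNReal.ofReal (1 / 2)
        = volume ((fun z => p + z) '' (L '' T0)) := by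
          rw [image_add_left, measure_preimage_add, Measure.addHaar_image_linearMap, hdet, vol_T0]
      _ ≤ volume N := measure_mono hsub
  rw [← ENNReal.ofReal_mul (abs_nonneg _)] at hvol
  have h6 := ENNReal.toReal_mono hN.measure_lt_top.ne hvol
  rw [ENNReal.toReal_ofReal (by positivity)] at h6
  have := le_abs_self (cr (q - p) (r - p))
  linarith

theorem half_compact (N : Set (ℝ × ℝ)) (hN : IsCompact N) (s t c : ℝ) :
    IsCompact (N ∩ {z | s * z.1 + t * z.2 ≤ c}) := by
  apply hN.inter_right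
  apply isClosed_le
  · fun_prop
  · fun_prop

theorem half_convex (N : Set (ℝ × ℝ)) (hN : Convex ℝ N) (s t c : ℝ) :
    Convex ℝ (N ∩ {z | s * z.1 + t * z.2 ≤ c}) := by
  apply hN.inter
  intro x hx y hy a b ha hb hab
  have h1 : s * x.1 + t * x.2 ≤ c := hx
  have h2 : s * y.1 + t * y.2 ≤ c := hy
  show s * (a • x + b • y).1 + t * (a • x + b • y).2 ≤ c
  simp only [Prod.fst_add, Prod.snd_add, Prod.smul_fst, Prod.smul_snd, smul_eq_mul]
  have h3 := mul_le_mul_of_nonneg_left h1 ha
  have h4 := mul_le_mul_of_nonneg_left h2 hb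
  have h5 : a * c + b * c = c := by rw [← add_mul, hab, one_mul]
  linarith

theorem line_null (s t c : ℝ) (h : s ≠ 0 ∨ t ≠ 0) :
    volume {z : ℝ × ℝ | s * z.1 + t * z.2 = c} = 0 := by
  let A : AffineSubspace ℝ (ℝ × ℝ) :=
    { carrier := {z | s * z.1 + t * z.2 = c}
      smul_vsub_vadd_mem' := by
        intro k p1 p2 p3 h1 h2 h3
        have h1' : s * p1.1 + t * p1.2 = c := h1
        have h2' : s * p2.1 + t * p2.2 = c := h2
        have h3' : s * p3.1 + t * p3.2 = c := h3
        show s * (k • (p1 - p2) + p3).1 + t * (k • (p1 - p2) + p3).2 = c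
        simp only [Prod.fst_add, Prod.snd_add, Prod.smul_fst, Prod.smul_snd, smul_eq_mul,
          Prod.fst_sub, Prod.snd_sub]
        linear_combination k * h1' - k * h2' + h3' }
  have hA : A ≠ ⊤ := by
    intro hA
    have hmem : ∀ z : ℝ × ℝ, s * z.1 + t * z.2 = c := by
      intro z
      have : z ∈ A := by rw [hA]; trivial
      exact this
    have h0 := hmem (0, 0)
    have h1 := hmem (1, 0)
    have h2 := hmem (0, 1)
    simp at h0 h1 h2
    rcases h with h | h
    · apply h; rw [h1, ← h0]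
    · apply h; rw [h2, ← h0]
  exact Measure.addHaar_affineSubspace volume A hA

theorem half_split (N : Set (ℝ × ℝ)) (hN : IsCompact N) (s t c : ℝ) (h : s ≠ 0 ∨ t ≠ 0) :
    (volume (N ∩ {z | s * z.1 + t * z.2 ≤ c})).toReal +
      (volume (N ∩ {z | (-s) * z.1 + (-t) * z.2 ≤ -c})).toReal ≤ (volume N).toReal := by
  have hm1 : MeasurableSet (N ∩ {z : ℝ × ℝ | s * z.1 + t * z.2 ≤ c}) :=
    (half_compact N hN s t c).measurableSet
  have hm2 : MeasurableSet (N ∩ {z : ℝ × ℝ | (-s) * z.1 + (-t) * z.2 ≤ -c}) :=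
    (half_compact N hN (-s) (-t) (-c)).measurableSet
  have hd : AEDisjoint volume (N ∩ {z : ℝ × ℝ | s * z.1 + t * z.2 ≤ c})
      (N ∩ {z : ℝ × ℝ | (-s) * z.1 + (-t) * z.2 ≤ -c}) := by
    apply measure_mono_null _ (line_null s t c h)
    rintro z ⟨⟨_, h1⟩, _, h2⟩
    have h1' : s * z.1 + t * z.2 ≤ c := h1
    have h2' : (-s) * z.1 + (-t) * z.2 ≤ -c := h2
    show s * z.1 + t * z.2 = c
    linarith
  have h1 : volume (N ∩ {z : ℝ × ℝ | s * z.1 + t * z.2 ≤ c}) +
      volume (N ∩ {z : ℝ × ℝ | (-s) * z.1 + (-t) * z.2 ≤ -c}) ≤ volume N := by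
    rw [← measure_union₀ hm2.nullMeasurableSet hd]
    exact measure_mono (union_subset inter_subset_left inter_subset_left)
  have hf1 : volume (N ∩ {z : ℝ × ℝ | s * z.1 + t * z.2 ≤ c}) ≠ ⊤ :=
    ((measure_mono inter_subset_left).trans_lt hN.measure_lt_top).ne
  have hf2 : volume (N ∩ {z : ℝ × ℝ | (-s) * z.1 + (-t) * z.2 ≤ -c}) ≠ ⊤ :=
    ((measure_mono inter_subset_left).trans_lt hN.measure_lt_top).ne
  rw [← ENNReal.toReal_add hf1 hf2]
  exact ENNReal.toReal_mono hN.measure_lt_top.ne h1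

end P15

open P15 in
/-- **The planar lemma.** -/
theorem planar (k : ℕ) : ∀ (ξ : ℕ → ℝ × ℝ) (N : Set (ℝ × ℝ)), IsCompact N → Convex ℝ N →
    (∀ i, i ≤ k → ξ i ∈ N) →
    (∀ a b c e, a < b → b < c → c < e → e ≤ k → ∀ s t : ℝ,
      min (s * (ξ a).1 + t * (ξ a).2) (s * (ξ c).1 + t * (ξ c).2) ≤
        max (s * (ξ b).1 + t * (ξ b).2) (s * (ξ e).1 + t * (ξ e).2)) →
    ∑ i ∈ Finset.range k, cr (ξ i) (ξ (i + 1)) + cr (ξ k) (ξ 0) ≤ 2 * (volume N).toReal := by
  induction k with
  | zero =>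
    intro ξ N _ _ _ _
    simp only [Finset.range_zero, Finset.sum_empty, zero_add]
    have : cr (ξ 0) (ξ 0) = 0 := by unfold cr; ring
    rw [this]; positivity
  | succ k ih =>
    intro ξ N hN hc hmem hcond
    have hkey : ∑ i ∈ Finset.range (k + 1), cr (ξ i) (ξ (i + 1)) + cr (ξ (k + 1)) (ξ 0) =
        (∑ i ∈ Finset.range k, cr (ξ i) (ξ (i + 1)) + cr (ξ k) (ξ 0)) +
          cr (ξ (k + 1) - ξ k) (ξ 0 - ξ k) := by
      rw [Finset.sum_range_succ]
      unfold cr
      simp only [Prod.fst_sub, Prod.snd_sub]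
      ring
    rw [hkey]
    by_cases hS : cr (ξ (k + 1) - ξ k) (ξ 0 - ξ k) ≤ 0
    · have := ih ξ N hN hc (fun i hi => hmem i (by omega))
        (fun a b c e h1 h2 h3 h4 => hcond a b c e h1 h2 h3 (by omega))
      linarith
    · push Not at hS
      -- the linear form vanishing along ξ 0 - ξ k, positive at ξ (k+1) - ξ k
      set s : ℝ := (ξ 0 - ξ k).2 with hs
      set t : ℝ := -(ξ 0 - ξ k).1 with ht
      set c : ℝ := s * (ξ k).1 + t * (ξ k).2 with hcdef
      have h0 : s * (ξ 0).1 + t * (ξ 0).2 = c := by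
        rw [hcdef, hs, ht]; simp only [Prod.fst_sub, Prod.snd_sub]; ring
      have h1 : c < s * (ξ (k + 1)).1 + t * (ξ (k + 1)).2 := by
        have : s * (ξ (k + 1)).1 + t * (ξ (k + 1)).2 - c = cr (ξ (k + 1) - ξ k) (ξ 0 - ξ k) := by
          rw [hcdef, hs, ht]; unfold cr; simp only [Prod.fst_sub, Prod.snd_sub]; ring
        linarith
      have hst : s ≠ 0 ∨ t ≠ 0 := by
        by_contra hcon
        push Not at hcon
        rw [hcon.1, hcon.2] at h1
        rw [hcon.1, hcon.2] at hcdef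
        simp at h1 hcdef
        linarith
      have hleft : ∀ i, i ≤ k → s * (ξ i).1 + t * (ξ i).2 ≤ c := by
        intro i hi
        rcases Nat.eq_zero_or_pos i with h | h
        · subst h; exact h0.le
        rcases Nat.lt_or_ge i k with h' | h'
        · have h2 := hcond 0 i k (k + 1) h h' (by omega) le_rfl (-s) (-t)
          rw [min_le_iff] at h2
          rcases h2 with h2 | h2
          · rw [le_max_iff] at h2
            rcases h2 with h2 | h2 <;> linarith
          · rw [le_max_iff] at h2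
            rcases h2 with h2 | h2 <;> linarith
        · have : i = k := by omega
          subst this; exact le_of_eq hcdef.symm
      have e1 := ih ξ _ (half_compact N hN s t c) (half_convex N hc s t c)
        (fun i hi => ⟨hmem i (by omega), hleft i hi⟩)
        (fun a b c e h1 h2 h3 h4 => hcond a b c e h1 h2 h3 (by omega))
      have e2 := tri_area (ξ k) (ξ (k + 1)) (ξ 0) _ (half_compact N hN (-s) (-t) (-c))
        (half_convex N hc (-s) (-t) (-c))
        ⟨hmem k (by omega), by show (-s) * (ξ k).1 + (-t) * (ξ k).2 ≤ -c; linarith⟩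
        ⟨hmem (k + 1) le_rfl, by
          show (-s) * (ξ (k + 1)).1 + (-t) * (ξ (k + 1)).2 ≤ -c; linarith⟩
        ⟨hmem 0 (by omega), by show (-s) * (ξ 0).1 + (-t) * (ξ 0).2 ≤ -c; linarith⟩
      have e3 := half_split N hN s t c hst
      linarith

/-- F1 -/
theorem stPlanar : StPlanar := by
  intro m ξ N hN hc hmem hNI
  unfold cyc
  exact planar m ξ N hN hc hmem (fun a b c e h1 h2 h3 h4 s t => hNI (s, t) a b c e h1 h2 h3 h4)

end Pool.Agent.Lib.MP_87489e_co.HT
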