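import Mathlib
import Pool.Agent.Lib.MP_87489e_co.HT.F1

set_option autoImplicit false

/-! Stokes' formula for two Lipschitz functions on the unit square (section 6 of the proof text). -/

namespace Pool.Agent.Lib.MP_87489e_co.HT

open MeasureTheory Set Filter Topology

/-- the shoelace term of two functions along a segment from `p` to `q` -/
def sl {X : Type*} (A B : X → ℝ) (p q : X) : ℝ := A p * B q - A q * B p


namespace S15

/-- grid point -/
noncomputable def gp (n i j : ℕ) : ℝ × ℝ := ((i : ℝ) / n, (j : ℝ) / n)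

/-- half the shoelace sum around a cell -/
noncomputable def cell (A B : ℝ × ℝ → ℝ) (n i j : ℕ) : ℝ :=
  (1 / 2) * (sl A B (gp n i j) (gp n (i + 1) j) + sl A B (gp n (i + 1) j) (gp n (i + 1) (j + 1)) +
    sl A B (gp n (i + 1) (j + 1)) (gp n i (j + 1)) + sl A B (gp n i (j + 1)) (gp n i j))

/-- half the shoelace sum around the square -/
noncomputable def bd (A B : ℝ × ℝ → ℝ) (n : ℕ) : ℝ :=
  Rn n A B (0, 0) (1, 0) + Rn n A B (1, 0) (1, 1) + Rn n A B (1, 1) (0, 1) +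
    Rn n A B (0, 1) (0, 0)

theorem sl_anti {X : Type*} (A B : X → ℝ) (p q : X) : sl A B p q = -sl A B q p := by
  unfold sl; ring

theorem Rn_sl {W : Type} [AddCommGroup W] [Module ℝ W] (n : ℕ) (A B : W → ℝ) (p q : W) :
    Rn n A B p q = (1 / 2) * ∑ k ∈ Finset.range n,
      sl A B (p + ((k : ℝ) / n) • (q - p)) (p + (((k : ℝ) + 1) / n) • (q - p)) := rfl

theorem Rn_swap {W : Type} [AddCommGroup W] [Module ℝ W] (n : ℕ) (hn : 0 < n) (A B : W → ℝ)
    (p q : W) : Rn n A B q p = -Rn n A B p q := by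
  rw [Rn_sl, Rn_sl]
  rw [← Finset.sum_range_reflect, ← mul_neg, ← Finset.sum_neg_distrib]
  congr 1
  apply Finset.sum_congr rfl
  intro k hk
  have hk' := Finset.mem_range.mp hk
  have hn' : (n : ℝ) ≠ 0 := by positivity
  rw [← sl_anti]
  have e1 : (((n - 1 - k : ℕ) : ℝ)) = (n : ℝ) - 1 - k := by
    rw [Nat.cast_sub (by omega), Nat.cast_sub (by omega)]; simp
  have h1 : q + (((n - 1 - k : ℕ) : ℝ) / n) • (p - q) = p + (((k : ℝ) + 1) / n) • (q - p) := by
    have : (((n - 1 - k : ℕ) : ℝ) / n) = 1 - ((k : ℝ) + 1) / n := by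
      rw [e1]; field_simp; ring
    rw [this]; module
  have h2 : q + ((((n - 1 - k : ℕ) : ℝ) + 1) / n) • (p - q) = p + ((k : ℝ) / n) • (q - p) := by
    have : ((((n - 1 - k : ℕ) : ℝ) + 1) / n) = 1 - (k : ℝ) / n := by
      rw [e1]; field_simp; ring
    rw [this]; module
  rw [h1, h2]

theorem bottom (A B : ℝ × ℝ → ℝ) (n j : ℕ) :
    Rn n A B (0, (j : ℝ) / n) (1, (j : ℝ) / n) =
      (1 / 2) * ∑ i ∈ Finset.range n, sl A B (gp n i j) (gp n (i + 1) j) := by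
  rw [Rn_sl]
  unfold gp
  congr 1
  apply Finset.sum_congr rfl
  intro i _
  congr 1 <;> ext <;> simp

theorem side (A B : ℝ × ℝ → ℝ) (n i : ℕ) :
    Rn n A B ((i : ℝ) / n, 0) ((i : ℝ) / n, 1) =
      (1 / 2) * ∑ j ∈ Finset.range n, sl A B (gp n i j) (gp n i (j + 1)) := by
  rw [Rn_sl]
  unfold gp
  congr 1
  apply Finset.sum_congr rfl
  intro i _
  congr 1 <;> ext <;> simp

theorem bd_eq (A B : ℝ × ℝ → ℝ) (n : ℕ) (hn : 0 < n) :
    bd A B n = ∑ i ∈ Finset.range n, ∑ j ∈ Finset.range n, cell A B n i j := by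
  have hn' : (n : ℝ) ≠ 0 := by positivity
  set h : ℕ → ℕ → ℝ := fun i j => sl A B (gp n i j) (gp n (i + 1) j) with hh
  set v : ℕ → ℕ → ℝ := fun i j => sl A B (gp n i j) (gp n i (j + 1)) with hv
  have hcell : ∀ i j, cell A B n i j = (1 / 2) * ((h i j - h i (j + 1)) + (v (i + 1) j - v i j)) := by
    intro i j
    unfold cell
    rw [sl_anti A B (gp n (i + 1) (j + 1)) (gp n i (j + 1)), sl_anti A B (gp n i (j + 1)) (gp n i j)]
    simp only [hh, hv]
    ring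
  have e1 : Rn n A B (0, 0) (1, 0) = (1 / 2) * ∑ i ∈ Finset.range n, h i 0 := by
    have := bottom A B n 0
    simp only [Nat.cast_zero, zero_div] at this
    exact this
  have e2 : Rn n A B (1, 1) (0, 1) = -((1 / 2) * ∑ i ∈ Finset.range n, h i n) := by
    rw [Rn_swap n hn]
    have := bottom A B n n
    rw [div_self hn'] at this
    rw [this]
  have e3 : Rn n A B (1, 0) (1, 1) = (1 / 2) * ∑ j ∈ Finset.range n, v n j := by
    have := side A B n n
    rw [div_self hn'] at this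
    exact this
  have e4 : Rn n A B (0, 1) (0, 0) = -((1 / 2) * ∑ j ∈ Finset.range n, v 0 j) := by
    rw [Rn_swap n hn]
    have := side A B n 0
    simp only [Nat.cast_zero, zero_div] at this
    rw [this]
  unfold bd
  rw [e1, e2, e3, e4]
  have t1 : ∑ i ∈ Finset.range n, ∑ j ∈ Finset.range n, (h i j - h i (j + 1)) =
      ∑ i ∈ Finset.range n, (h i 0 - h i n) := by
    apply Finset.sum_congr rfl
    intro i _
    rw [Finset.sum_range_sub']
  have t2 : ∑ i ∈ Finset.range n, ∑ j ∈ Finset.range n, (v (i + 1) j - v i j) =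
      ∑ j ∈ Finset.range n, (v n j - v 0 j) := by
    rw [Finset.sum_comm]
    apply Finset.sum_congr rfl
    intro j _
    rw [Finset.sum_range_sub (fun i => v i j)]
  simp_rw [hcell]
  simp_rw [← Finset.mul_sum, Finset.sum_add_distrib]
  rw [t1, t2, Finset.sum_sub_distrib, Finset.sum_sub_distrib]
  ring

theorem cell_eq (A B : ℝ × ℝ → ℝ) (n i j : ℕ) :
    cell A B n i j = (1 / 2) * ((A (gp n (i + 1) (j + 1)) - A (gp n i j)) *
      (B (gp n i (j + 1)) - B (gp n (i + 1) j)) - (A (gp n i (j + 1)) - A (gp n (i + 1) j)) *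
      (B (gp n (i + 1) (j + 1)) - B (gp n i j))) := by
  unfold cell sl; ring

/-- the closed unit square -/
def Sq : Set (ℝ × ℝ) := Icc 0 1 ×ˢ Icc 0 1

/-- the open unit square -/
def Uq : Set (ℝ × ℝ) := Ioo 0 1 ×ˢ Ioo 0 1

/-- the half open unit square -/
def Hq : Set (ℝ × ℝ) := Ico 0 1 ×ˢ Ico 0 1

theorem gp_mem (n i j : ℕ) (hn : 0 < n) (hi : i ≤ n) (hj : j ≤ n) : gp n i j ∈ Sq := by
  have hn' : (0 : ℝ) < n := by positivity
  have hi' : (i : ℝ) ≤ n := by exact_mod_cast hi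
  have hj' : (j : ℝ) ≤ n := by exact_mod_cast hj
  refine ⟨⟨?_, ?_⟩, ⟨?_, ?_⟩⟩
  · exact div_nonneg (by positivity) hn'.le
  · exact (div_le_one hn').mpr hi'
  · exact div_nonneg (by positivity) hn'.le
  · exact (div_le_one hn').mpr hj'

theorem cell_bound (A B : ℝ × ℝ → ℝ) (C : NNReal) (hA : LipschitzOnWith C A Sq)
    (hB : LipschitzOnWith C B Sq) (n i j : ℕ) (hn : 0 < n) (hi : i < n) (hj : j < n) :
    |(n : ℝ) ^ 2 * cell A B n i j| ≤ (C : ℝ) ^ 2 := by
  have hn' : (0 : ℝ) < n := by positivity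
  have key : ∀ (F : ℝ × ℝ → ℝ), LipschitzOnWith C F Sq → ∀ p q, p ∈ Sq → q ∈ Sq →
      |p.1 - q.1| ≤ 1 / n → |p.2 - q.2| ≤ 1 / n → |F p - F q| ≤ C * (1 / n) := by
    intro F hF p q hp hq h1 h2
    have := hF.dist_le_mul p hp q hq
    rw [Real.dist_eq] at this
    refine this.trans (mul_le_mul_of_nonneg_left ?_ C.2)
    rw [Prod.dist_eq, Real.dist_eq, Real.dist_eq]
    exact max_le h1 h2
  have m00 := gp_mem n i j hn (by omega) (by omega)
  have m10 := gp_mem n (i + 1) j hn (by omega) (by omega)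
  have m01 := gp_mem n i (j + 1) hn (by omega) (by omega)
  have m11 := gp_mem n (i + 1) (j + 1) hn (by omega) (by omega)
  have d : ∀ k : ℕ, |(((k + 1 : ℕ) : ℝ) / n) - (k : ℝ) / n| ≤ 1 / n := by
    intro k
    have : (((k + 1 : ℕ) : ℝ) / n) - (k : ℝ) / n = 1 / n := by push_cast; ring
    rw [this, abs_of_pos (by positivity)]
  have d' : ∀ k : ℕ, |(k : ℝ) / n - (((k + 1 : ℕ) : ℝ) / n)| ≤ 1 / n := by
    intro k; rw [abs_sub_comm]; exact d k
  have a1 := key A hA _ _ m11 m00 (d i) (d j)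
  have b1 := key B hB _ _ m11 m00 (d i) (d j)
  have a2 := key A hA _ _ m01 m10 (d' i) (d j)
  have b2 := key B hB _ _ m01 m10 (d' i) (d j)
  rw [cell_eq, abs_mul, abs_mul, abs_of_nonneg (by positivity : (0 : ℝ) ≤ (n : ℝ) ^ 2),
    abs_of_pos (by norm_num : (0 : ℝ) < 1 / 2)]
  set a := A (gp n (i + 1) (j + 1)) - A (gp n i j)
  set b := B (gp n i (j + 1)) - B (gp n (i + 1) j)
  set a' := A (gp n i (j + 1)) - A (gp n (i + 1) j)
  set b' := B (gp n (i + 1) (j + 1)) - B (gp n i j)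
  have h1 : |a * b - a' * b'| ≤ 2 * ((C : ℝ) * (1 / n)) ^ 2 := by
    have h2 : |a * b| ≤ ((C : ℝ) * (1 / n)) ^ 2 := by
      rw [abs_mul, pow_two]; exact mul_le_mul a1 b2 (abs_nonneg _) (by positivity)
    have h3 : |a' * b'| ≤ ((C : ℝ) * (1 / n)) ^ 2 := by
      rw [abs_mul, pow_two]; exact mul_le_mul a2 b1 (abs_nonneg _) (by positivity)
    have := abs_sub (a * b) (a' * b')
    linarith
  calc (n : ℝ) ^ 2 * (1 / 2 * |a * b - a' * b'|)
      ≤ (n : ℝ) ^ 2 * (1 / 2 * (2 * ((C : ℝ) * (1 / n)) ^ 2)) := by gcongr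
    _ = (C : ℝ) ^ 2 := by field_simp

theorem diff_seq (A : ℝ × ℝ → ℝ) (L : ℝ × ℝ →L[ℝ] ℝ) (z : ℝ × ℝ) (h : HasFDerivAt A L z)
    (c : ℕ → ℝ × ℝ) (hc : ∀ n : ℕ, 0 < n → ‖c n - z‖ ≤ 1 / n) :
    Tendsto (fun n : ℕ => (n : ℝ) * (A (c n) - A z - L (c n - z))) atTop (𝓝 0) := by
  have hz : Tendsto c atTop (𝓝 z) := by
    rw [tendsto_iff_norm_sub_tendsto_zero]
    refine squeeze_zero' (Eventually.of_forall fun _ => norm_nonneg _) ?_
      tendsto_one_div_atTop_nhds_zero_nat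
    filter_upwards [eventually_gt_atTop 0] with n hn using hc n hn
  have h1 := h.isLittleO.comp_tendsto hz
  rw [Metric.tendsto_atTop]
  intro ε hε
  have h2 := h1.def (show (0 : ℝ) < ε / 2 by positivity)
  obtain ⟨N, hN⟩ := eventually_atTop.mp (h2.and (eventually_gt_atTop 0))
  refine ⟨N, fun n hn => ?_⟩
  obtain ⟨h3, h4⟩ := hN n hn
  have hn' : (0 : ℝ) < n := by exact_mod_cast h4
  simp only [Function.comp] at h3
  rw [Real.dist_eq, sub_zero, abs_mul, abs_of_pos hn']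
  rw [Real.norm_eq_abs] at h3
  calc (n : ℝ) * |A (c n) - A z - L (c n - z)| ≤ n * (ε / 2 * (1 / n)) := by
        gcongr
        exact h3.trans (mul_le_mul_of_nonneg_left (hc n h4) (by positivity))
    _ = ε / 2 := by field_simp
    _ < ε := by linarith

theorem diff_two (A : ℝ × ℝ → ℝ) (L : ℝ × ℝ →L[ℝ] ℝ) (z : ℝ × ℝ) (h : HasFDerivAt A L z)
    (c c' : ℕ → ℝ × ℝ) (hc : ∀ n : ℕ, 0 < n → ‖c n - z‖ ≤ 1 / n)
    (hc' : ∀ n : ℕ, 0 < n → ‖c' n - z‖ ≤ 1 / n) (w : ℝ × ℝ)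
    (hw : ∀ n : ℕ, 0 < n → (n : ℝ) • (c n - c' n) = w) :
    Tendsto (fun n : ℕ => (n : ℝ) * (A (c n) - A (c' n))) atTop (𝓝 (L w)) := by
  have h1 := diff_seq A L z h c hc
  have h2 := diff_seq A L z h c' hc'
  have h3 : Tendsto (fun n : ℕ => L w) atTop (𝓝 (L w)) := tendsto_const_nhds
  have h4 := (h1.sub h2).add h3
  simp only [sub_zero, zero_add] at h4
  refine h4.congr' ?_
  filter_upwards [eventually_gt_atTop 0] with n hn
  rw [← hw n hn, map_smul, map_sub, map_sub, map_sub, smul_eq_mul]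
  ring

theorem floor_close (n : ℕ) (hn : 0 < n) (x : ℝ) (hx : 0 ≤ x) :
    |((⌊(n : ℝ) * x⌋₊ : ℕ) : ℝ) / n - x| ≤ 1 / n ∧
      |((⌊(n : ℝ) * x⌋₊ + 1 : ℕ) : ℝ) / n - x| ≤ 1 / n := by
  have hn' : (0 : ℝ) < n := by positivity
  have h1 := Nat.floor_le (show (0 : ℝ) ≤ (n : ℝ) * x by positivity)
  have h2 := Nat.lt_floor_add_one ((n : ℝ) * x)
  have h3 : ((⌊(n : ℝ) * x⌋₊ : ℕ) : ℝ) / n ≤ x := by
    rw [div_le_iff₀ hn']; linarith
  have h4 : x ≤ (((⌊(n : ℝ) * x⌋₊ : ℕ) : ℝ) + 1) / n := by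
    rw [le_div_iff₀ hn']; linarith
  have h5 : (((⌊(n : ℝ) * x⌋₊ : ℕ) : ℝ) + 1) / n = ((⌊(n : ℝ) * x⌋₊ : ℕ) : ℝ) / n + 1 / n := by
    ring
  push_cast
  constructor
  · rw [abs_le]; constructor <;> linarith [h5, show (0 : ℝ) < 1 / n by positivity]
  · rw [abs_le]; constructor <;> linarith [h5, show (0 : ℝ) < 1 / n by positivity]

theorem cell_tendsto (A B : ℝ × ℝ → ℝ) (z : ℝ × ℝ) (h1 : 0 ≤ z.1) (h2 : 0 ≤ z.2)
    (hA : DifferentiableAt ℝ A z) (hB : DifferentiableAt ℝ B z) :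
    Tendsto (fun n : ℕ => (n : ℝ) ^ 2 * cell A B n ⌊(n : ℝ) * z.1⌋₊ ⌊(n : ℝ) * z.2⌋₊) atTop
      (𝓝 (fderiv ℝ A z (1, 0) * fderiv ℝ B z (0, 1) -
        fderiv ℝ A z (0, 1) * fderiv ℝ B z (1, 0))) := by
  have hc : ∀ (a b : ℕ), a ≤ 1 → b ≤ 1 → ∀ n : ℕ, 0 < n →
      ‖gp n (⌊(n : ℝ) * z.1⌋₊ + a) (⌊(n : ℝ) * z.2⌋₊ + b) - z‖ ≤ 1 / n := by
    intro a b ha hb n hn
    rw [Prod.norm_def]
    apply max_le
    · rw [Real.norm_eq_abs]
      interval_cases a
      · exact (floor_close n hn z.1 h1).1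
      · exact (floor_close n hn z.1 h1).2
    · rw [Real.norm_eq_abs]
      interval_cases b
      · exact (floor_close n hn z.2 h2).1
      · exact (floor_close n hn z.2 h2).2
  have c00 := hc 0 0 (by norm_num) (by norm_num)
  have c10 := hc 1 0 (by norm_num) (by norm_num)
  have c01 := hc 0 1 (by norm_num) (by norm_num)
  have c11 := hc 1 1 (by norm_num) (by norm_num)
  have w1 : ∀ n : ℕ, 0 < n → (n : ℝ) • (gp n (⌊(n : ℝ) * z.1⌋₊ + 1) (⌊(n : ℝ) * z.2⌋₊ + 1) -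
      gp n (⌊(n : ℝ) * z.1⌋₊ + 0) (⌊(n : ℝ) * z.2⌋₊ + 0)) = (1, 1) := by
    intro n hn
    have hn' : (n : ℝ) ≠ 0 := by positivity
    unfold gp
    ext <;> simp <;> field_simp <;> ring
  have w2 : ∀ n : ℕ, 0 < n → (n : ℝ) • (gp n (⌊(n : ℝ) * z.1⌋₊ + 0) (⌊(n : ℝ) * z.2⌋₊ + 1) -
      gp n (⌊(n : ℝ) * z.1⌋₊ + 1) (⌊(n : ℝ) * z.2⌋₊ + 0)) = (-1, 1) := by
    intro n hn
    have hn' : (n : ℝ) ≠ 0 := by positivity
    unfold gp
    ext <;> simp <;> field_simp <;> ring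
  have a1 := diff_two A _ z hA.hasFDerivAt _ _ c11 c00 _ w1
  have a2 := diff_two A _ z hA.hasFDerivAt _ _ c01 c10 _ w2
  have b1 := diff_two B _ z hB.hasFDerivAt _ _ c11 c00 _ w1
  have b2 := diff_two B _ z hB.hasFDerivAt _ _ c01 c10 _ w2
  have h := ((a1.mul b2).sub (a2.mul b1)).const_mul (1 / 2 : ℝ)
  have e : (1 / 2 : ℝ) * (fderiv ℝ A z (1, 1) * fderiv ℝ B z (-1, 1) -
      fderiv ℝ A z (-1, 1) * fderiv ℝ B z (1, 1)) =
      fderiv ℝ A z (1, 0) * fderiv ℝ B z (0, 1) - fderiv ℝ A z (0, 1) * fderiv ℝ B z (1, 0) := by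
    have p1 : ((1 : ℝ), (1 : ℝ)) = (1, 0) + (0, 1) := by simp
    have p2 : ((-1 : ℝ), (1 : ℝ)) = (0, 1) - (1, 0) := by simp
    rw [p1, p2]
    simp only [map_add, map_sub]
    ring
  rw [e] at h
  refine h.congr fun n => ?_
  rw [cell_eq]
  simp only [add_zero]
  ring

/-- a half open cell -/
def cs (n i j : ℕ) : Set (ℝ × ℝ) :=
  Ico ((i : ℝ) / n) (((i : ℝ) + 1) / n) ×ˢ Ico ((j : ℝ) / n) (((j : ℝ) + 1) / n)

theorem cs_meas (n i j : ℕ) : MeasurableSet (cs n i j) := measurableSet_Ico.prod measurableSet_Ico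

theorem cs_vol (n i j : ℕ) (hn : 0 < n) : volume.real (cs n i j) = 1 / (n : ℝ) ^ 2 := by
  have hn' : (0 : ℝ) < n := by positivity
  unfold cs
  rw [measureReal_def, Measure.volume_eq_prod, Measure.prod_prod, Real.volume_Ico, Real.volume_Ico,
    ENNReal.toReal_mul]
  have : ∀ k : ℕ, ((k : ℝ) + 1) / n - (k : ℝ) / n = 1 / n := by intro k; ring
  rw [this, this, ENNReal.toReal_ofReal (by positivity)]
  field_simp

theorem mem_cs_iff (n i j : ℕ) (hn : 0 < n) (z : ℝ × ℝ) (h1 : 0 ≤ z.1) (h2 : 0 ≤ z.2) :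
    z ∈ cs n i j ↔ i = ⌊(n : ℝ) * z.1⌋₊ ∧ j = ⌊(n : ℝ) * z.2⌋₊ := by
  have hn' : (0 : ℝ) < n := by positivity
  have key : ∀ (k : ℕ) (x : ℝ), 0 ≤ x →
      (x ∈ Ico ((k : ℝ) / n) (((k : ℝ) + 1) / n) ↔ k = ⌊(n : ℝ) * x⌋₊) := by
    intro k x hx
    rw [mem_Ico, div_le_iff₀ hn', lt_div_iff₀ hn', eq_comm, Nat.floor_eq_iff (by positivity),
      mul_comm x]
  unfold cs
  rw [mem_prod, key i z.1 h1, key j z.2 h2]

/-- the step function whose integral is `bd` -/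
noncomputable def Fn (A B : ℝ × ℝ → ℝ) (n : ℕ) (z : ℝ × ℝ) : ℝ :=
  ∑ i ∈ Finset.range n, ∑ j ∈ Finset.range n,
    (cs n i j).indicator (fun _ => (n : ℝ) ^ 2 * cell A B n i j) z

theorem Fn_integral (A B : ℝ × ℝ → ℝ) (n : ℕ) (hn : 0 < n) : ∫ z, Fn A B n z = bd A B n := by
  have hn' : (n : ℝ) ≠ 0 := by positivity
  have hint : ∀ i j, Integrable ((cs n i j).indicator
      (fun _ : ℝ × ℝ => (n : ℝ) ^ 2 * cell A B n i j)) := by
    intro i j
    rw [integrable_indicator_iff (cs_meas n i j)]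
    apply integrableOn_const
    · unfold cs
      rw [Measure.volume_eq_prod, Measure.prod_prod, Real.volume_Ico, Real.volume_Ico]
      exact (ENNReal.mul_lt_top ENNReal.ofReal_lt_top ENNReal.ofReal_lt_top).ne
    · exact enorm_ne_top
  unfold Fn
  rw [bd_eq A B n hn, integral_finsetSum _ (fun i _ => integrable_finsetSum _ fun j _ => hint i j)]
  apply Finset.sum_congr rfl
  intro i _
  rw [integral_finsetSum _ (fun j _ => hint i j)]
  apply Finset.sum_congr rfl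
  intro j _
  rw [integral_indicator_const _ (cs_meas n i j), cs_vol n i j hn, smul_eq_mul]
  field_simp

theorem Fn_apply (A B : ℝ × ℝ → ℝ) (n : ℕ) (hn : 0 < n) (z : ℝ × ℝ) (hz : z ∈ Hq) :
    Fn A B n z = (n : ℝ) ^ 2 * cell A B n ⌊(n : ℝ) * z.1⌋₊ ⌊(n : ℝ) * z.2⌋₊ := by
  obtain ⟨⟨h1, h1'⟩, h2, h2'⟩ := hz
  have hn' : (0 : ℝ) < n := by positivity
  have hf : ∀ x : ℝ, 0 ≤ x → x < 1 → ⌊(n : ℝ) * x⌋₊ < n := by
    intro x hx hx'
    rw [Nat.floor_lt (by positivity)]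
    nlinarith
  unfold Fn
  rw [Finset.sum_eq_single ⌊(n : ℝ) * z.1⌋₊, Finset.sum_eq_single ⌊(n : ℝ) * z.2⌋₊]
  · rw [indicator_of_mem]
    exact (mem_cs_iff n _ _ hn z h1 h2).mpr ⟨rfl, rfl⟩
  · intro j _ hj
    apply indicator_of_notMem
    intro hcon
    exact hj ((mem_cs_iff n _ _ hn z h1 h2).mp hcon).2
  · intro hcon
    exact absurd (Finset.mem_range.mpr (hf z.2 h2 h2')) hcon
  · intro i _ hi
    apply Finset.sum_eq_zero
    intro j _
    apply indicator_of_notMem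
    intro hcon
    exact hi ((mem_cs_iff n _ _ hn z h1 h2).mp hcon).1
  · intro hcon
    exact absurd (Finset.mem_range.mpr (hf z.1 h1 h1')) hcon

theorem Fn_zero (A B : ℝ × ℝ → ℝ) (n : ℕ) (hn : 0 < n) (z : ℝ × ℝ) (hz : z ∉ Hq) :
    Fn A B n z = 0 := by
  have hn' : (0 : ℝ) < n := by positivity
  unfold Fn
  apply Finset.sum_eq_zero
  intro i hi
  apply Finset.sum_eq_zero
  intro j hj
  apply indicator_of_notMem
  rintro ⟨⟨h1, h2⟩, h3, h4⟩
  apply hz
  have key : ∀ k : ℕ, k ∈ Finset.range n → ((k : ℝ) + 1) / n ≤ 1 := by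
    intro k hk
    rw [div_le_one hn']
    have := Finset.mem_range.mp hk
    exact_mod_cast this
  have key' : ∀ k : ℕ, 0 ≤ (k : ℝ) / n := fun k => by positivity
  exact ⟨⟨(key' i).trans h1, h2.trans_le (key i hi)⟩, (key' j).trans h3, h4.trans_le (key j hj)⟩

theorem Hq_ae_Uq : (Hq : Set (ℝ × ℝ)) =ᵐ[volume] Uq := by
  unfold Hq Uq
  rw [Measure.volume_eq_prod]
  exact Measure.set_prod_ae_eq Ioo_ae_eq_Ico.symm Ioo_ae_eq_Ico.symm

theorem Uq_open : IsOpen Uq := isOpen_Ioo.prod isOpen_Ioo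

theorem Uq_sub : Uq ⊆ Sq := prod_mono Ioo_subset_Icc_self Ioo_subset_Icc_self

theorem Uq_subQ : Uq ⊆ Hq := prod_mono Ioo_subset_Ico_self Ioo_subset_Ico_self

theorem ae_diff (A : ℝ × ℝ → ℝ) (C : NNReal) (hA : LipschitzOnWith C A Sq) :
    ∀ᵐ z ∂(volume.restrict Uq), DifferentiableAt ℝ A z := by
  have h1 := (hA.mono Uq_sub).ae_differentiableWithinAt (μ := (volume : Measure (ℝ × ℝ)))
    Uq_open.measurableSet
  have h2 := ae_restrict_mem (μ := (volume : Measure (ℝ × ℝ))) Uq_open.measurableSet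
  filter_upwards [h1, h2] with z hz hz'
  exact hz.differentiableAt (Uq_open.mem_nhds hz')

/-- the Jacobian determinant -/
noncomputable def jac (A B : ℝ × ℝ → ℝ) (z : ℝ × ℝ) : ℝ :=
  fderiv ℝ A z (1, 0) * fderiv ℝ B z (0, 1) - fderiv ℝ A z (0, 1) * fderiv ℝ B z (1, 0)

/-- **Stokes' formula for two Lipschitz functions on the square.** -/
theorem stokes (A B : ℝ × ℝ → ℝ) (C : NNReal) (hA : LipschitzOnWith C A Sq)
    (hB : LipschitzOnWith C B Sq) :
    Tendsto (fun n => bd A B n) atTop (𝓝 (∫ z in Uq, jac A B z)) := by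
  have h0 : ∀ n : ℕ, 0 < n → bd A B n = ∫ z in Uq, Fn A B n z := by
    intro n hn
    rw [← Fn_integral A B n hn, ← setIntegral_congr_set Hq_ae_Uq,
      setIntegral_eq_integral_of_forall_compl_eq_zero (fun z hz => Fn_zero A B n hn z hz)]
  have h1 : Tendsto (fun n : ℕ => ∫ z in Uq, Fn A B n z) atTop (𝓝 (∫ z in Uq, jac A B z)) := by
    apply tendsto_integral_filter_of_dominated_convergence (fun _ => (C : ℝ) ^ 2)
    · apply Eventually.of_forall
      intro n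
      apply AEStronglyMeasurable.restrict
      apply Measurable.aestronglyMeasurable
      unfold Fn
      apply Finset.measurable_sum
      intro i _
      apply Finset.measurable_sum
      intro j _
      exact measurable_const.indicator (cs_meas n i j)
    · filter_upwards [eventually_gt_atTop 0] with n hn
      filter_upwards [ae_restrict_mem (μ := (volume : Measure (ℝ × ℝ))) Uq_open.measurableSet]
        with z hz
      have hz' := Uq_subQ hz
      rw [Fn_apply A B n hn z hz', Real.norm_eq_abs]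
      obtain ⟨⟨h1, h1'⟩, h2, h2'⟩ := hz'
      have hn' : (0 : ℝ) < n := by positivity
      have hf : ∀ x : ℝ, 0 ≤ x → x < 1 → ⌊(n : ℝ) * x⌋₊ < n := by
        intro x hx hx'
        rw [Nat.floor_lt (by positivity)]
        nlinarith
      exact cell_bound A B C hA hB n _ _ hn (hf _ h1 h1') (hf _ h2 h2')
    · have : IsFiniteMeasure ((volume : Measure (ℝ × ℝ)).restrict Uq) := by
        constructor
        rw [Measure.restrict_apply_univ]
        exact (measure_mono Uq_sub).trans_lt (isCompact_Icc.prod isCompact_Icc).measure_lt_top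
      exact integrable_const _
    · filter_upwards [ae_diff A C hA, ae_diff B C hB,
        ae_restrict_mem (μ := (volume : Measure (ℝ × ℝ))) Uq_open.measurableSet] with z hz1 hz2 hz3
      have hz4 := Uq_subQ hz3
      have h2 := cell_tendsto A B z hz4.1.1 hz4.2.1 hz1 hz2
      refine h2.congr' ?_
      filter_upwards [eventually_gt_atTop 0] with n hn
      exact (Fn_apply A B n hn z hz4).symm
  refine h1.congr' ?_
  filter_upwards [eventually_gt_atTop 0] with n hn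
  exact (h0 n hn).symm

end S15

open S15 in
/-- F2 -/
theorem stStokes : StStokes := by
  intro A B C hA hB
  have h := stokes A B C (hA.lipschitzOnWith (s := Sq)) (hB.lipschitzOnWith (s := Sq))
  have e : (∫ z in Uq, jac A B z) =
      ∫ p in Set.Icc (0 : ℝ) 1 ×ˢ Set.Icc (0 : ℝ) 1, cr (gr A p) (gr B p) := by
    have h1 : (Uq : Set (ℝ × ℝ)) =ᵐ[volume] (Set.Icc (0 : ℝ) 1 ×ˢ Set.Icc (0 : ℝ) 1) := by
      unfold Uq
      rw [Measure.volume_eq_prod]
      exact Measure.set_prod_ae_eq Ioo_ae_eq_Icc Ioo_ae_eq_Icc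
    rw [setIntegral_congr_set h1]
    rfl
  rw [e] at h
  exact h

end Pool.Agent.Lib.MP_87489e_co.HT
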