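import Mathlib
import Pool.Agent.Lib.MP_87489e_co.HT.F1
import Pool.Agent.Lib.MP_87489e_co.HT.F2

set_option autoImplicit false

/-! (6.1): the Stokes inequality for a family of distance functions on a triangle. -/

namespace Pool.Agent.Lib.MP_87489e_co.HT

open MeasureTheory Set Filter Topology

namespace T15

open S15

/-- the transposed derivative of the parametrisation of the triangle at the point `z` -/
def Tz (z : ℝ × ℝ) : ℝ × ℝ →ₗ[ℝ] ℝ × ℝ where
  toFun x := ((1 - z.2) * x.1 + z.2 * x.2, z.1 * (x.2 - x.1))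
  map_add' x y := by ext <;> simp <;> ring
  map_smul' c x := by ext <;> simp <;> ring

theorem det_Tz (z : ℝ × ℝ) : LinearMap.det (Tz z) = z.1 := by
  have : Tz z = Matrix.toLin (Module.Basis.finTwoProd ℝ) (Module.Basis.finTwoProd ℝ)
      !![1 - z.2, z.2; -z.1, z.1] := by
    apply LinearMap.ext
    intro x
    rw [Matrix.toLin_finTwoProd_apply]
    show ((1 - z.2) * x.1 + z.2 * x.2, z.1 * (x.2 - x.1)) = _
    ext <;> simp <;> ring
  rw [this, LinearMap.det_toLin, Matrix.det_fin_two_of]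
  ring

theorem vol_Tz (z : ℝ × ℝ) (hz : 0 ≤ z.1) (N : Set (ℝ × ℝ)) :
    (volume (Tz z '' N)).toReal = z.1 * (volume N).toReal := by
  rw [Measure.addHaar_image_linearMap, det_Tz, ENNReal.toReal_mul, abs_of_nonneg hz,
    ENNReal.toReal_ofReal hz]

theorem Tz_compact (z : ℝ × ℝ) (N : Set (ℝ × ℝ)) (hN : IsCompact N) : IsCompact (Tz z '' N) :=
  hN.image (LinearMap.continuous_of_finiteDimensional (Tz z))

theorem Tz_convex (z : ℝ × ℝ) (N : Set (ℝ × ℝ)) (hN : Convex ℝ N) : Convex ℝ (Tz z '' N) :=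
  hN.linear_image (Tz z)

/-- directional derivatives as one-sided limits -/
theorem dir_deriv (H : ℝ × ℝ → ℝ) (z : ℝ × ℝ) (hH : DifferentiableAt ℝ H z) (s t : ℝ) :
    Tendsto (fun τ : ℝ => (H (z + τ • (s, t)) - H z) / τ) (𝓝[>] 0)
      (𝓝 (s * fderiv ℝ H z (1, 0) + t * fderiv ℝ H z (0, 1))) := by
  have h1 : HasDerivAt (fun τ : ℝ => H (z + τ • (s, t))) (fderiv ℝ H z (s, t)) 0 := by
    have h2 : HasDerivAt (fun τ : ℝ => z + τ • ((s, t) : ℝ × ℝ)) (s, t) 0 := by
      have := ((hasDerivAt_id (0 : ℝ)).smul_const ((s, t) : ℝ × ℝ)).const_add z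
      simpa using this
    have h3 : HasFDerivAt H (fderiv ℝ H z) (z + (0 : ℝ) • ((s, t) : ℝ × ℝ)) := by
      rw [zero_smul, add_zero]; exact hH.hasFDerivAt
    exact h3.comp_hasDerivAt 0 h2
  have h4 := h1.tendsto_slope_zero_right
  have e : fderiv ℝ H z (s, t) = s * fderiv ℝ H z (1, 0) + t * fderiv ℝ H z (0, 1) := by
    have : ((s, t) : ℝ × ℝ) = s • ((1 : ℝ), (0 : ℝ)) + t • ((0 : ℝ), (1 : ℝ)) := by simp
    rw [this, map_add, map_smul, map_smul, smul_eq_mul, smul_eq_mul]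
  rw [e] at h4
  refine h4.congr fun τ => ?_
  simp only [zero_add, zero_smul, add_zero, smul_eq_mul]
  ring

theorem jac_eq (A B : ℝ × ℝ → ℝ) (z : ℝ × ℝ) : jac A B z = cr (gr A z) (gr B z) := rfl

theorem small_mem (z : ℝ × ℝ) (hz : z ∈ Uq) (s t : ℝ) :
    ∀ᶠ τ : ℝ in 𝓝[>] 0, z + τ • ((s, t) : ℝ × ℝ) ∈ Sq := by
  have h : ContinuousAt (fun τ : ℝ => z + τ • ((s, t) : ℝ × ℝ)) 0 := by fun_prop
  have h1 : Uq ∈ 𝓝 ((fun τ : ℝ => z + τ • ((s, t) : ℝ × ℝ)) 0) := by
    simp only [zero_smul, add_zero]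
    exact Uq_open.mem_nhds hz
  have h2 := h.eventually_mem h1
  exact (h2.filter_mono nhdsWithin_le_nhds).mono fun τ hτ => Uq_sub hτ

variable {E : Type} [AddCommGroup E] [Module ℝ E]

/-- parametrisation of the triangle `u v w` by the unit square -/
def Ph (u v w : E) (z : ℝ × ℝ) : E := u + z.1 • (v - u) + (z.1 * z.2) • (w - v)

theorem Ph_mem (u v w : E) (z : ℝ × ℝ) (hz : z ∈ Sq) : Ph u v w z ∈ convexHull ℝ {u, v, w} := by
  obtain ⟨⟨h1, h1'⟩, h2, h2'⟩ := hz
  have hc := convex_convexHull ℝ ({u, v, w} : Set E)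
  have h5 := hc.sum_mem (t := Finset.univ) (w := ![1 - z.1, z.1 * (1 - z.2), z.1 * z.2])
    (z := ![u, v, w])
    (by
      intro i _
      fin_cases i
      · simp; linarith
      · simp; exact mul_nonneg h1 (by linarith)
      · simp; exact mul_nonneg h1 h2)
    (by simp [Fin.sum_univ_three]; ring)
    (by
      intro i _
      fin_cases i
      · exact subset_convexHull ℝ _ (by simp)
      · exact subset_convexHull ℝ _ (by simp)
      · exact subset_convexHull ℝ _ (by simp))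
  have e : Ph u v w z = (1 - z.1) • u + (z.1 * (1 - z.2)) • v + (z.1 * z.2) • w := by
    unfold Ph; module
  rw [e]
  simpa [Fin.sum_univ_three] using h5

theorem Ph_sub (u v w : E) (z z' : ℝ × ℝ) : Ph u v w z - Ph u v w z' =
    ((z.1 - z'.1) - (z.1 * z.2 - z'.1 * z'.2)) • (v - u) + (z.1 * z.2 - z'.1 * z'.2) • (w - u) := by
  unfold Ph; module

theorem Rn_comp (n : ℕ) (A B : E → ℝ) (Φ : ℝ × ℝ → E) (p q : ℝ × ℝ) (P Q : E)
    (h : ∀ t : ℝ, Φ (p + t • (q - p)) = P + t • (Q - P)) :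
    Rn n (fun z => A (Φ z)) (fun z => B (Φ z)) p q = Rn n A B P Q := by
  unfold Rn
  simp only [h]

theorem bd_Ph (n : ℕ) (A B : E → ℝ) (u v w : E) :
    S15.bd (fun z => A (Ph u v w z)) (fun z => B (Ph u v w z)) n =
      Rn n A B u v + Rn n A B v w + Rn n A B w u := by
  unfold S15.bd
  rw [Rn_comp n A B (Ph u v w) (0, 0) (1, 0) u v, Rn_comp n A B (Ph u v w) (1, 0) (1, 1) v w,
    Rn_comp n A B (Ph u v w) (1, 1) (0, 1) w u, Rn_comp n A B (Ph u v w) (0, 1) (0, 0) u u]
  · have : Rn n A B u u = 0 := by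
      unfold Rn
      simp
    rw [this, add_zero]
  · intro t; unfold Ph; simp
  · intro t; unfold Ph; simp; module
  · intro t; unfold Ph; simp
  · intro t; unfold Ph; simp

theorem bound_of_compact (N : Set (ℝ × ℝ)) (hN : IsCompact N) :
    ∃ R : ℝ, 0 ≤ R ∧ ∀ x ∈ N, |x.1| ≤ R ∧ |x.2| ≤ R := by
  obtain ⟨R, hR⟩ := hN.isBounded.exists_norm_le
  refine ⟨max R 0, le_max_right _ _, fun x hx => ?_⟩
  have := hR x hx
  rw [Prod.norm_def, max_le_iff, Real.norm_eq_abs, Real.norm_eq_abs] at this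
  exact ⟨this.1.trans (le_max_left _ _), this.2.trans (le_max_left _ _)⟩

/-- the functions are Lipschitz in the parameters -/
theorem lip (u v w : E) (f g : E → ℝ) (N : Set (ℝ × ℝ)) (R : ℝ) (hR0 : 0 ≤ R)
    (hR : ∀ x ∈ N, |x.1| ≤ R ∧ |x.2| ≤ R)
    (hg : ∀ a b : ℝ, ∃ x ∈ N, g (a • (v - u) + b • (w - u)) ≤ a * x.1 + b * x.2)
    (hL : ∀ y ∈ convexHull ℝ {u, v, w}, ∀ y' ∈ convexHull ℝ {u, v, w}, f y' ≤ f y + g (y' - y)) :
    LipschitzOnWith (Real.toNNReal (5 * R)) (fun z => f (Ph u v w z)) Sq := by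
  apply LipschitzOnWith.of_dist_le_mul
  intro z₀ hz₀ z₁ hz₁
  rw [Real.coe_toNNReal _ (by positivity), Real.dist_eq]
  suffices H : ∀ z ∈ Sq, ∀ z' ∈ Sq, f (Ph u v w z) - f (Ph u v w z') ≤ 5 * R * dist z z' by
    rw [abs_le]
    constructor
    · have := H z₁ hz₁ z₀ hz₀
      rw [dist_comm] at this
      linarith
    · exact H z₀ hz₀ z₁ hz₁
  intro z hz z' hz'
  have h0 := hL _ (Ph_mem u v w z' hz') _ (Ph_mem u v w z hz)
  rw [sub_le_iff_le_add]
  refine h0.trans ?_
  rw [add_comm (5 * R * dist z z')]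
  refine add_le_add le_rfl ?_
  rw [Ph_sub]
  obtain ⟨x, hx, h1⟩ := hg ((z.1 - z'.1) - (z.1 * z.2 - z'.1 * z'.2)) (z.1 * z.2 - z'.1 * z'.2)
  refine h1.trans ?_
  obtain ⟨⟨p1, p1'⟩, p2, p2'⟩ := hz
  obtain ⟨⟨q1, q1'⟩, q2, q2'⟩ := hz'
  have hx1 := (hR x hx).1
  have hx2 := (hR x hx).2
  set d := dist z z' with hd
  have d1 : |z.1 - z'.1| ≤ d := by rw [hd, Prod.dist_eq, ← Real.dist_eq]; exact le_max_left _ _
  have d2 : |z.2 - z'.2| ≤ d := by rw [hd, Prod.dist_eq, ← Real.dist_eq]; exact le_max_right _ _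
  have d0 : 0 ≤ d := dist_nonneg
  have d3 : |z.1 * z.2 - z'.1 * z'.2| ≤ 2 * d := by
    have e : z.1 * z.2 - z'.1 * z'.2 = z.1 * (z.2 - z'.2) + (z.1 - z'.1) * z'.2 := by ring
    rw [e]
    refine (abs_add_le _ _).trans ?_
    rw [abs_mul, abs_mul, abs_of_nonneg p1, abs_of_nonneg q2]
    have h2 : z.1 * |z.2 - z'.2| ≤ 1 * d := mul_le_mul p1' d2 (abs_nonneg _) zero_le_one
    have h3 : |z.1 - z'.1| * z'.2 ≤ d * 1 := mul_le_mul d1 q2' q2 d0
    linarith
  have k1 : ((z.1 - z'.1) - (z.1 * z.2 - z'.1 * z'.2)) * x.1 ≤ 3 * d * R := by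
    refine (le_abs_self _).trans ?_
    rw [abs_mul]
    refine mul_le_mul ?_ hx1 (abs_nonneg _) (by positivity)
    have := abs_sub (z.1 - z'.1) (z.1 * z.2 - z'.1 * z'.2)
    linarith
  have k2 : (z.1 * z.2 - z'.1 * z'.2) * x.2 ≤ 2 * d * R := by
    refine (le_abs_self _).trans ?_
    rw [abs_mul]
    exact mul_le_mul d3 hx2 (abs_nonneg _) (by positivity)
  linarith

theorem Ph_step (u v w : E) (z : ℝ × ℝ) (s t τ : ℝ) :
    Ph u v w (z + τ • (s, t)) - Ph u v w z =
      (τ * (s - (z.1 * t + z.2 * s + τ * (s * t)))) • (v - u) +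
        (τ * (z.1 * t + z.2 * s + τ * (s * t))) • (w - u) := by
  rw [Ph_sub]
  simp only [Prod.fst_add, Prod.snd_add, Prod.smul_mk, smul_eq_mul]
  congr 2 <;> ring

/-- the gradients lie in the transported set -/
theorem grad_mem (u v w : E) (f g : E → ℝ) (N : Set (ℝ × ℝ)) (hN : IsCompact N)
    (hc : Convex ℝ N)
    (hg : ∀ a b : ℝ, ∃ x ∈ N, g (a • (v - u) + b • (w - u)) ≤ a * x.1 + b * x.2)
    (hL : ∀ y ∈ convexHull ℝ {u, v, w}, ∀ y' ∈ convexHull ℝ {u, v, w}, f y' ≤ f y + g (y' - y))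
    (z : ℝ × ℝ) (hz : z ∈ Uq) (hd : DifferentiableAt ℝ (fun z => f (Ph u v w z)) z) :
    gr (fun z => f (Ph u v w z)) z ∈ Tz z '' N := by
  by_contra hcon
  obtain ⟨F, c, h1, h2⟩ := geometric_hahn_banach_closed_point (Tz_convex z N hc)
    (Tz_compact z N hN).isClosed hcon
  obtain ⟨R, hR0, hR⟩ := bound_of_compact N hN
  set s := F (1, 0) with hs
  set t := F (0, 1) with ht
  have hF : ∀ p : ℝ × ℝ, F p = s * p.1 + t * p.2 := by
    intro p
    have : p = p.1 • ((1 : ℝ), (0 : ℝ)) + p.2 • ((0 : ℝ), (1 : ℝ)) := by ext <;> simp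
    conv_lhs => rw [this]
    rw [map_add, map_smul, map_smul, smul_eq_mul, smul_eq_mul, ← hs, ← ht]
    ring
  have h3 := dir_deriv _ z hd s t
  have h4 : ∀ᶠ τ : ℝ in 𝓝[>] 0, (f (Ph u v w (z + τ • (s, t))) - f (Ph u v w z)) / τ ≤
      c + τ * (2 * |s * t| * R) := by
    filter_upwards [small_mem z hz s t, self_mem_nhdsWithin] with τ hτ hτ0
    have hτ0' : 0 < τ := hτ0
    have h5 := hL _ (Ph_mem u v w z (Uq_sub hz)) _ (Ph_mem u v w _ hτ)
    rw [Ph_step] at h5
    obtain ⟨x, hx, h6⟩ := hg (τ * (s - (z.1 * t + z.2 * s + τ * (s * t))))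
      (τ * (z.1 * t + z.2 * s + τ * (s * t)))
    have h7 := h1 _ ⟨x, hx, rfl⟩
    rw [hF] at h7
    have h7' : s * ((1 - z.2) * x.1 + z.2 * x.2) + t * (z.1 * (x.2 - x.1)) < c := h7
    rw [div_le_iff₀ hτ0']
    have h8 : τ * (s * t) * (x.2 - x.1) ≤ τ * (2 * |s * t| * R) := by
      have hx1 := (hR x hx).1
      have hx2 := (hR x hx).2
      have h9 : |x.2 - x.1| ≤ 2 * R := by
        refine (abs_sub x.2 x.1).trans ?_
        linarith
      have h10 : s * t * (x.2 - x.1) ≤ |s * t| * (2 * R) := by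
        refine (le_abs_self _).trans ?_
        rw [abs_mul]
        exact mul_le_mul_of_nonneg_left h9 (abs_nonneg _)
      have := mul_le_mul_of_nonneg_left h10 hτ0'.le
      linarith
    have h11 : τ * (s - (z.1 * t + z.2 * s + τ * (s * t))) * x.1 +
        τ * (z.1 * t + z.2 * s + τ * (s * t)) * x.2 =
        τ * (s * ((1 - z.2) * x.1 + z.2 * x.2) + t * (z.1 * (x.2 - x.1)) +
          τ * (s * t) * (x.2 - x.1)) := by ring
    have h12 : τ * (s * ((1 - z.2) * x.1 + z.2 * x.2) + t * (z.1 * (x.2 - x.1)) +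
          τ * (s * t) * (x.2 - x.1)) ≤ τ * (c + τ * (2 * |s * t| * R)) := by
      apply mul_le_mul_of_nonneg_left _ hτ0'.le
      linarith
    have e : (c + τ * (2 * |s * t| * R)) * τ = τ * (c + τ * (2 * |s * t| * R)) := by ring
    rw [e]
    linarith
  have h5 : Tendsto (fun τ : ℝ => c + τ * (2 * |s * t| * R)) (𝓝[>] 0) (𝓝 c) := by
    have : Tendsto (fun τ : ℝ => c + τ * (2 * |s * t| * R)) (𝓝 0) (𝓝 (c + 0 * (2 * |s * t| * R))) :=
      (continuous_const.add (continuous_id.mul continuous_const)).tendsto 0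
    rw [zero_mul, add_zero] at this
    exact this.mono_left nhdsWithin_le_nhds
  have h6 := le_of_tendsto_of_tendsto h3 h5 h4
  have h7 : F (gr (fun z => f (Ph u v w z)) z) =
      s * fderiv ℝ (fun z => f (Ph u v w z)) z (1, 0) +
        t * fderiv ℝ (fun z => f (Ph u v w z)) z (0, 1) := hF _
  rw [h7] at h2
  linarith

/-- non-interleaving passes to the gradients -/
theorem grad_NI (u v w : E) (m : ℕ) (f : ℕ → E → ℝ)
    (hNI : ∀ y ∈ convexHull ℝ {u, v, w}, ∀ y' ∈ convexHull ℝ {u, v, w},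
      NI m (fun i => f i y' - f i y))
    (z : ℝ × ℝ) (hz : z ∈ Uq)
    (hd : ∀ i, i ≤ m → DifferentiableAt ℝ (fun z => f i (Ph u v w z)) z) (h : ℝ × ℝ) :
    NI m (fun i => h.1 * (gr (fun z => f i (Ph u v w z)) z).1 +
      h.2 * (gr (fun z => f i (Ph u v w z)) z).2) := by
  intro a b c e hab hbc hce hem
  have key : ∀ i, i ≤ m → Tendsto (fun τ : ℝ =>
      (f i (Ph u v w (z + τ • (h.1, h.2))) - f i (Ph u v w z)) / τ) (𝓝[>] 0)
      (𝓝 (h.1 * (gr (fun z => f i (Ph u v w z)) z).1 +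
      h.2 * (gr (fun z => f i (Ph u v w z)) z).2)) := fun i hi => dir_deriv _ z (hd i hi) h.1 h.2
  have ka := key a (by omega)
  have kb := key b (by omega)
  have kc := key c (by omega)
  have ke := key e (by omega)
  refine le_of_tendsto_of_tendsto (ka.min kc) (kb.max ke) ?_
  filter_upwards [small_mem z hz h.1 h.2, self_mem_nhdsWithin] with τ hτ hτ0
  have hτ0' : 0 < τ := hτ0
  have h1 := hNI _ (Ph_mem u v w z (Uq_sub hz)) _ (Ph_mem u v w _ hτ) a b c e hab hbc hce hem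
  rw [min_div_div_right hτ0'.le, max_div_div_right hτ0'.le]
  exact (div_le_div_iff_of_pos_right hτ0').mpr h1

theorem jac_meas (A B : ℝ × ℝ → ℝ) : Measurable (fun z => jac A B z) := by
  unfold jac
  exact ((measurable_fderiv_apply_const ℝ A (1, 0)).mul
    (measurable_fderiv_apply_const ℝ B (0, 1))).sub
    ((measurable_fderiv_apply_const ℝ A (0, 1)).mul (measurable_fderiv_apply_const ℝ B (1, 0)))

theorem jac_integrable (A B : ℝ × ℝ → ℝ) (C : NNReal) (hA : LipschitzOnWith C A Sq)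
    (hB : LipschitzOnWith C B Sq) : IntegrableOn (fun z => jac A B z) Uq := by
  have hfin : volume Uq ≠ ⊤ :=
    ((measure_mono Uq_sub).trans_lt (isCompact_Icc.prod isCompact_Icc).measure_lt_top).ne
  apply Measure.integrableOn_of_bounded (M := 2 * ((C : ℝ) * C)) hfin
    (jac_meas A B).aestronglyMeasurable
  filter_upwards [ae_restrict_mem (μ := (volume : Measure (ℝ × ℝ))) Uq_open.measurableSet] with z hz
  have hS : Sq ∈ 𝓝 z := Filter.mem_of_superset (Uq_open.mem_nhds hz) Uq_sub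
  have k1 := norm_fderiv_le_of_lipschitzOn ℝ hS hA
  have k2 := norm_fderiv_le_of_lipschitzOn ℝ hS hB
  have n1 : ‖((1 : ℝ), (0 : ℝ))‖ = 1 := by simp [Prod.norm_def]
  have n2 : ‖((0 : ℝ), (1 : ℝ))‖ = 1 := by simp [Prod.norm_def]
  have key : ∀ (F : ℝ × ℝ →L[ℝ] ℝ) (p : ℝ × ℝ), ‖F‖ ≤ C → ‖p‖ = 1 → |F p| ≤ C := by
    intro F p hF hp
    have := F.le_opNorm p
    rw [hp, mul_one, Real.norm_eq_abs] at this
    exact this.trans hF
  have a1 := key _ _ k1 n1
  have a2 := key _ _ k1 n2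
  have b1 := key _ _ k2 n1
  have b2 := key _ _ k2 n2
  rw [Real.norm_eq_abs]
  unfold jac
  refine (abs_sub _ _).trans ?_
  rw [abs_mul, abs_mul]
  have c1 := mul_le_mul a1 b2 (abs_nonneg _) C.2
  have c2 := mul_le_mul a2 b1 (abs_nonneg _) C.2
  linarith

theorem int_fst : ∫ z in Uq, 2 * z.1 = 1 := by
  have h := setIntegral_prod_mul (μ := (volume : Measure ℝ)) (ν := (volume : Measure ℝ))
    (fun x : ℝ => 2 * x) (fun _ : ℝ => (1 : ℝ)) (Ioo 0 1) (Ioo 0 1)
  simp only [mul_one] at h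
  unfold Uq
  rw [Measure.volume_eq_prod, h, ← integral_Ioc_eq_integral_Ioo, ← integral_Ioc_eq_integral_Ioo,
    ← intervalIntegral.integral_of_le zero_le_one, ← intervalIntegral.integral_of_le zero_le_one,
    intervalIntegral.integral_const_mul, integral_id, intervalIntegral.integral_const]
  norm_num

/-- (6.1) in the abstract form -/
theorem tri (u v w : E) (m : ℕ) (f : ℕ → E → ℝ) (g : E → ℝ) (N : Set (ℝ × ℝ)) (hN : IsCompact N)
    (hc : Convex ℝ N)
    (hg : ∀ a b : ℝ, ∃ x ∈ N, g (a • (v - u) + b • (w - u)) ≤ a * x.1 + b * x.2)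
    (hL : ∀ i ≤ m, ∀ y ∈ convexHull ℝ {u, v, w}, ∀ y' ∈ convexHull ℝ {u, v, w},
      f i y' ≤ f i y + g (y' - y))
    (hNI : ∀ y ∈ convexHull ℝ {u, v, w}, ∀ y' ∈ convexHull ℝ {u, v, w},
      NI m (fun i => f i y' - f i y)) :
    ∃ L : ℝ, L ≤ (volume N).toReal ∧ Tendsto (fun n : ℕ =>
      cyc m (fun i j => Rn n (f i) (f j) u v + Rn n (f i) (f j) v w + Rn n (f i) (f j) w u))
      atTop (𝓝 L) := by
  obtain ⟨R, hR0, hR⟩ := bound_of_compact N hN
  set H : ℕ → ℝ × ℝ → ℝ := fun i z => f i (Ph u v w z) with hH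
  have hLip : ∀ i, i ≤ m → LipschitzOnWith (Real.toNNReal (5 * R)) (H i) Sq := fun i hi =>
    lip u v w (f i) g N R hR0 hR hg (hL i hi)
  refine ⟨cyc m (fun i j => ∫ z in Uq, jac (H i) (H j) z), ?_, ?_⟩
  · have e1 : cyc m (fun i j => ∫ z in Uq, jac (H i) (H j) z) =
        ∫ z in Uq, cyc m (fun i j => jac (H i) (H j) z) := by
      unfold cyc
      rw [integral_add, integral_finsetSum]
      · intro i hi
        have := Finset.mem_range.mp hi
        exact jac_integrable _ _ _ (hLip i (by omega)) (hLip (i + 1) (by omega))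
      · apply integrable_finsetSum
        intro i hi
        have := Finset.mem_range.mp hi
        exact jac_integrable _ _ _ (hLip i (by omega)) (hLip (i + 1) (by omega))
      · exact jac_integrable _ _ _ (hLip m le_rfl) (hLip 0 (by omega))
    have hint : IntegrableOn (fun z => cyc m (fun i j => jac (H i) (H j) z)) Uq := by
      unfold cyc
      apply Integrable.add
      · apply integrable_finsetSum
        intro i hi
        have := Finset.mem_range.mp hi
        exact jac_integrable _ _ _ (hLip i (by omega)) (hLip (i + 1) (by omega))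
      · exact jac_integrable _ _ _ (hLip m le_rfl) (hLip 0 (by omega))
    have hfin : volume Uq ≠ ⊤ :=
      ((measure_mono Uq_sub).trans_lt (isCompact_Icc.prod isCompact_Icc).measure_lt_top).ne
    have hint2 : IntegrableOn (fun z : ℝ × ℝ => 2 * z.1 * (volume N).toReal) Uq := by
      apply Measure.integrableOn_of_bounded (M := 2 * (volume N).toReal) hfin
      · exact (Continuous.aestronglyMeasurable (by fun_prop))
      · filter_upwards [ae_restrict_mem (μ := (volume : Measure (ℝ × ℝ)))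
          Uq_open.measurableSet] with z hz
        have hz1 := hz.1.1
        have hz2 := hz.1.2
        rw [Real.norm_eq_abs, abs_of_nonneg (by positivity)]
        have : 0 ≤ (volume N).toReal := ENNReal.toReal_nonneg
        nlinarith
    rw [e1]
    have hae : ∀ᵐ z ∂(volume.restrict Uq), ∀ i ∈ Finset.range (m + 1),
        DifferentiableAt ℝ (H i) z := by
      rw [Filter.eventually_all_finset]
      intro i hi
      have := Finset.mem_range.mp hi
      exact ae_diff (H i) _ (hLip i (by omega))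
    have h1 : ∫ z in Uq, cyc m (fun i j => jac (H i) (H j) z) ≤
        ∫ z in Uq, 2 * z.1 * (volume N).toReal := by
      apply integral_mono_ae hint hint2
      filter_upwards [hae, ae_restrict_mem (μ := (volume : Measure (ℝ × ℝ)))
          Uq_open.measurableSet] with z hz hzU
      have hd : ∀ i, i ≤ m → DifferentiableAt ℝ (fun z => f i (Ph u v w z)) z := fun i hi =>
        hz i (Finset.mem_range.mpr (by omega))
      have h2 := stPlanar m (fun i => gr (H i) z) (Tz z '' N) (Tz_compact z N hN)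
        (Tz_convex z N hc)
        (fun i hi => grad_mem u v w (f i) g N hN hc hg (hL i hi) z hzU (hd i hi))
        (fun h => grad_NI u v w m f hNI z hzU hd h)
      rw [vol_Tz z hzU.1.1.le] at h2
      show cyc m (fun i j => cr (gr (H i) z) (gr (H j) z)) ≤ _
      linarith
    refine h1.trans ?_
    rw [integral_mul_const, int_fst, one_mul]
  · have key : ∀ i j, i ≤ m → j ≤ m → Tendsto (fun n : ℕ =>
        Rn n (f i) (f j) u v + Rn n (f i) (f j) v w + Rn n (f i) (f j) w u) atTop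
        (𝓝 (∫ z in Uq, jac (H i) (H j) z)) := by
      intro i j hi hj
      refine (stokes (H i) (H j) _ (hLip i hi) (hLip j hj)).congr fun n => ?_
      exact bd_Ph n (f i) (f j) u v w
    unfold cyc
    apply Tendsto.add
    · apply tendsto_finsetSum
      intro i hi
      have := Finset.mem_range.mp hi
      exact key i (i + 1) (by omega) (by omega)
    · exact key m 0 le_rfl (by omega)

end T15

/-- the planar projection as a linear map -/
def Ml (u v w : Fin 3 → ℝ) : (Fin 3 → ℝ) →ₗ[ℝ] ℝ × ℝ where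
  toFun x := (x ⬝ᵥ (v - u), x ⬝ᵥ (w - u))
  map_add' x y := by ext <;> simp <;> ring
  map_smul' c x := by ext <;> simp <;> ring

/-- F3 -/
theorem stLoc : StLoc := by
  intro P g u v w N m f hP hN hc hg hL hNI ε hε
  have hM : Mt u v w = Ml u v w := rfl
  have e : hull {u, v, w} = convexHull ℝ ({u, v, w} : Set E) := by
    unfold hull; simp
  rw [e] at hL hNI
  obtain ⟨L, h1, h2⟩ := T15.tri u v w m f g (Mt u v w '' N)
    (hN.image (by rw [hM]; exact LinearMap.continuous_of_finiteDimensional _))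
    (by rw [hM]; exact hc.linear_image _)
    (by
      intro a b
      obtain ⟨ξ, hξ, h⟩ := hg (a • (v - u) + b • (w - u))
      refine ⟨Mt u v w ξ, ⟨ξ, hξ, rfl⟩, h.trans (le_of_eq ?_)⟩
      rw [dotProduct_add, dotProduct_smul, dotProduct_smul]
      rfl)
    hL hNI
  have h3 := h2.eventually_lt_const (show L < L + ε by linarith)
  obtain ⟨n₀, hn⟩ := eventually_atTop.mp h3
  refine ⟨n₀, fun n hn' => ?_⟩
  have := hn n hn'
  linarith

end Pool.Agent.Lib.MP_87489e_co.HT
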