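import Mathlib
import Pool.Agent.Lib.MP_87489e_co.HT.Stmts
import Pool.Agent.Lib.MP_87489e_co.HT.B3

set_option autoImplicit false

/-!
F4: the orientation sum. (module by helper8)
-/

namespace Pool.Agent.Lib.MP_87489e_co.HT

open Finset

namespace F4x8

/-- `1` if `(x, y) = (a, b)` -/
noncomputable def pr (a b x y : E) : ℝ := if x = a ∧ y = b then 1 else 0

/-- orientation coefficient of the ordered pair `(x, y)` in the triangle `(a, b, c)` -/
noncomputable def o (a b c x y : E) : ℝ :=
  pr a b x y + pr b c x y + pr c a x y - pr a b y x - pr b c y x - pr c a y x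

theorem o_anti (a b c x y : E) : o a b c x y = - o a b c y x := by
  unfold o; ring

theorem sum_pr (S : Finset E) {a b : E} (ha : a ∈ S) (hb : b ∈ S) (ρ : E → E → ℝ) :
    ∑ x ∈ S, ∑ y ∈ S, pr a b x y * ρ x y = ρ a b := by
  rw [sum_eq_single a]
  · rw [sum_eq_single b]
    · simp [pr]
    · intro y _ hy
      simp [pr, hy]
    · intro h; exact absurd hb h
  · intro x _ hx
    apply sum_eq_zero
    intro y _
    simp [pr, hx]
  · intro h; exact absurd ha h

theorem sum_pr' (S : Finset E) {a b : E} (ha : a ∈ S) (hb : b ∈ S) (ρ : E → E → ℝ) :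
    ∑ x ∈ S, ∑ y ∈ S, pr a b y x * ρ x y = ρ b a := by
  rw [sum_comm]
  exact sum_pr S ha hb (fun x y => ρ y x)

theorem sum_o (S : Finset E) {a b c : E} (ha : a ∈ S) (hb : b ∈ S) (hc : c ∈ S)
    (ρ : E → E → ℝ) (hρ : ∀ x y, ρ x y = - ρ y x) :
    ∑ x ∈ S, ∑ y ∈ S, o a b c x y * ρ x y = 2 * (ρ a b + ρ b c + ρ c a) := by
  have : ∀ x y, o a b c x y * ρ x y = pr a b x y * ρ x y + pr b c x y * ρ x y
      + pr c a x y * ρ x y - pr a b y x * ρ x y - pr b c y x * ρ x y - pr c a y x * ρ x y := by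
    intro x y; unfold o; ring
  simp only [this, sum_add_distrib, sum_sub_distrib]
  rw [sum_pr S ha hb, sum_pr S hb hc, sum_pr S hc ha, sum_pr' S ha hb, sum_pr' S hb hc,
    sum_pr' S hc ha, hρ b a, hρ c b, hρ a c]
  ring

theorem row_pr (S : Finset E) {a b : E} (hb : b ∈ S) (x : E) :
    ∑ y ∈ S, pr a b x y = if x = a then 1 else 0 := by
  rw [sum_eq_single b]
  · simp [pr]
  · intro y _ hy; simp [pr, hy]
  · intro h; exact absurd hb h

theorem row_pr' (S : Finset E) {a b : E} (ha : a ∈ S) (x : E) :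
    ∑ y ∈ S, pr a b y x = if x = b then 1 else 0 := by
  rw [sum_eq_single a]
  · simp [pr]
  · intro y _ hy; simp [pr, hy]
  · intro h; exact absurd ha h

theorem row_o (S : Finset E) {a b c : E} (ha : a ∈ S) (hb : b ∈ S) (hc : c ∈ S) (x : E) :
    ∑ y ∈ S, o a b c x y = 0 := by
  unfold o
  simp only [sum_add_distrib, sum_sub_distrib]
  rw [row_pr S hb, row_pr S hc, row_pr S ha, row_pr' S ha, row_pr' S hb, row_pr' S hc]
  ring

theorem o_zero {a b c x y : E} (h : ¬ ({x, y} : Finset E) ⊆ {a, b, c}) : o a b c x y = 0 := by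
  have h1 : ∀ p q : E, p ∈ ({a, b, c} : Finset E) → q ∈ ({a, b, c} : Finset E) →
      pr p q x y = 0 ∧ pr p q y x = 0 := by
    intro p q hp hq
    constructor
    · unfold pr
      rw [if_neg]
      rintro ⟨rfl, rfl⟩
      exact h (by intro z hz; simp only [mem_insert, mem_singleton] at hz; rcases hz with rfl | rfl
                  · exact hp
                  · exact hq)
    · unfold pr
      rw [if_neg]
      rintro ⟨rfl, rfl⟩
      exact h (by intro z hz; simp only [mem_insert, mem_singleton] at hz; rcases hz with rfl | rfl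
                  · exact hq
                  · exact hp)
  unfold o
  rw [(h1 a b (by simp) (by simp)).1, (h1 b c (by simp) (by simp)).1, (h1 c a (by simp) (by simp)).1,
    (h1 a b (by simp) (by simp)).2, (h1 b c (by simp) (by simp)).2, (h1 c a (by simp) (by simp)).2]
  ring

theorem o_refl {a b c : E} (hab : a ≠ b) (hac : a ≠ c) (hbc : b ≠ c) (x : E) : o a b c x x = 0 := by
  unfold o; ring

theorem det3_rot (a b c : E) : det3 b c a = det3 a b c := by
  simp [det3, crossProduct, dotProduct, Fin.sum_univ_three]; ring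

theorem det3_swap (a b c : E) : det3 b a c = - det3 a b c := by
  simp [det3, crossProduct, dotProduct, Fin.sum_univ_three]; ring

/-- for an edge of a positively oriented triangle: the coefficient is the sign of the
determinant -/
theorem o_edge {a b c : E} (hab : a ≠ b) (hac : a ≠ c) (hbc : b ≠ c) (hd : 0 < det3 a b c)
    {x y : E} (hxy : x ≠ y) (h : ({x, y} : Finset E) ⊆ {a, b, c}) :
    ∃ z, ({a, b, c} : Finset E) = {x, y, z} ∧
      ((o a b c x y = 1 ∧ 0 < det3 x y z) ∨ (o a b c x y = -1 ∧ det3 x y z < 0)) := by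
  have hx : x ∈ ({a, b, c} : Finset E) := h (by simp)
  have hy : y ∈ ({a, b, c} : Finset E) := h (by simp)
  simp only [mem_insert, mem_singleton] at hx hy
  rcases hx with rfl | rfl | rfl <;> rcases hy with rfl | rfl | rfl
  · exact absurd rfl hxy
  · refine ⟨c, rfl, Or.inl ⟨?_, hd⟩⟩
    simp [o, pr, hab, hac, hbc, hab.symm, hac.symm, hbc.symm]
  · refine ⟨b, by ext t; simp; tauto, Or.inr ⟨?_, ?_⟩⟩
    · simp [o, pr, hab, hac, hbc, hab.symm, hac.symm, hbc.symm]
    · have h1 := det3_swap y x b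
      have h2 := det3_rot x b y
      have h3 := det3_rot b y x
      linarith
  · refine ⟨c, by ext t; simp; tauto, Or.inr ⟨?_, ?_⟩⟩
    · simp [o, pr, hab, hac, hbc, hab.symm, hac.symm, hbc.symm]
    · have h1 := det3_swap y x c
      linarith
  · exact absurd rfl hxy
  · refine ⟨a, by ext t; simp; tauto, Or.inl ⟨?_, ?_⟩⟩
    · simp [o, pr, hab, hac, hbc, hab.symm, hac.symm, hbc.symm]
    · rw [det3_rot a x y]; exact hd
  · refine ⟨b, by ext t; simp; tauto, Or.inl ⟨?_, ?_⟩⟩
    · simp [o, pr, hab, hac, hbc, hab.symm, hac.symm, hbc.symm]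
    · have h1 := det3_rot y b x
      have h2 := det3_rot x y b
      linarith
  · refine ⟨a, by ext t; simp; tauto, Or.inr ⟨?_, ?_⟩⟩
    · simp [o, pr, hab, hac, hbc, hab.symm, hac.symm, hbc.symm]
    · have h1 := det3_swap y x a
      have h2 := det3_rot a y x
      linarith
  · exact absurd rfl hxy

section Main

variable {T D : Finset (Finset E)} {n : ℕ} {G : ℤ → E} (hC : Cut T D n G) (hF : Fan T)
  {U V W : Finset E → E}
  (hU : ∀ t ∈ T, t = {U t, V t, W t} ∧ 0 < det3 (U t) (V t) (W t))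

/-- total coefficient -/
noncomputable def co (D : Finset (Finset E)) (U V W : Finset E → E) (x y : E) : ℝ :=
  ∑ t ∈ D, o (U t) (V t) (W t) x y

theorem co_anti (x y : E) : co D U V W x y = - co D U V W y x := by
  unfold co
  rw [← sum_neg_distrib]
  exact sum_congr rfl fun t _ => o_anti _ _ _ _ _

include hC hF hU

theorem dist3 {t : Finset E} (ht : t ∈ T) : U t ≠ V t ∧ U t ≠ W t ∧ V t ≠ W t := by
  have h : ({U t, V t, W t} : Finset E) ∈ T := by rw [← (hU t ht).1]; exact ht
  exact B3x8.distinct hC.sph h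

theorem co_eq_filter {x y : E} : co D U V W x y =
    ∑ t ∈ D.filter (fun t => ({x, y} : Finset E) ⊆ t), o (U t) (V t) (W t) x y := by
  unfold co
  rw [sum_filter]
  refine sum_congr rfl fun t ht => ?_
  split_ifs with h
  · rfl
  · apply o_zero
    rw [← (hU t (hC.sub ht)).1]; exact h

/-- the two triangles at an edge have opposite coefficients -/
theorem pair {x y : E} (hxy : x ≠ y) {t t' : Finset E} (ht : t ∈ T) (ht' : t' ∈ T) (hne : t ≠ t')
    (h : ({x, y} : Finset E) ⊆ t) (h' : ({x, y} : Finset E) ⊆ t') :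
    o (U t) (V t) (W t) x y + o (U t') (V t') (W t') x y = 0 := by
  obtain ⟨h1, h2, h3⟩ := dist3 hC hF hU ht
  obtain ⟨h1', h2', h3'⟩ := dist3 hC hF hU ht'
  obtain ⟨z, hz, hzo⟩ := o_edge h1 h2 h3 (hU t ht).2 hxy (by rw [← (hU t ht).1]; exact h)
  obtain ⟨z', hz', hzo'⟩ := o_edge h1' h2' h3' (hU t' ht').2 hxy
    (by rw [← (hU t' ht').1]; exact h')
  rw [← (hU t ht).1] at hz
  rw [← (hU t' ht').1] at hz'
  have hzz : z ≠ z' := by
    rintro rfl
    exact hne (hz.trans hz'.symm)
  have hlt := B3x8.opp hC.sph hF (hz ▸ ht) (hz' ▸ ht') hzz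
  rcases hzo with ⟨ho, hd⟩ | ⟨ho, hd⟩ <;> rcases hzo' with ⟨ho', hd'⟩ | ⟨ho', hd'⟩
  · nlinarith
  · rw [ho, ho']; ring
  · rw [ho, ho']; ring
  · nlinarith

theorem abs_one {x y : E} (hxy : x ≠ y) {t : Finset E} (ht : t ∈ T)
    (h : ({x, y} : Finset E) ⊆ t) :
    o (U t) (V t) (W t) x y = 1 ∨ o (U t) (V t) (W t) x y = -1 := by
  obtain ⟨h1, h2, h3⟩ := dist3 hC hF hU ht
  obtain ⟨z, hz, hzo⟩ := o_edge h1 h2 h3 (hU t ht).2 hxy (by rw [← (hU t ht).1]; exact h)
  rcases hzo with ⟨ho, -⟩ | ⟨ho, -⟩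
  · exact Or.inl ho
  · exact Or.inr ho

theorem mem_edges {x y : E} (hxy : x ≠ y) {t : Finset E} (ht : t ∈ T)
    (h : ({x, y} : Finset E) ⊆ t) : ({x, y} : Finset E) ∈ edges T := by
  unfold edges
  rw [mem_biUnion]
  exact ⟨t, ht, mem_powersetCard.2 ⟨h, card_pair hxy⟩⟩

theorem bd_ind {e : Finset E} : bd T (ind D) e = ((D.filter (fun t => e ⊆ t)).card : ZMod 2) := by
  unfold bd ind
  rw [← sum_filter, filter_filter, sum_const, nsmul_eq_mul, mul_one]
  congr 2
  ext t
  simp only [mem_filter]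
  constructor
  · rintro ⟨_, h, h'⟩; exact ⟨h', h⟩
  · rintro ⟨h, h'⟩; exact ⟨hC.sub h, h', h⟩

/-- off the curve the coefficient vanishes; on the curve it is `1` or `-1` -/
theorem co_cases {x y : E} (hxy : x ≠ y) :
    (co D U V W x y = 0 ∧ ¬ ∃ i, ({x, y} : Finset E) = {G i, G (i + 1)}) ∨
    ((co D U V W x y = 1 ∨ co D U V W x y = -1) ∧
      ∃ i, ({x, y} : Finset E) = {G i, G (i + 1)}) := by
  by_cases he : ({x, y} : Finset E) ∈ edges T
  · have h2 := hC.sph.two _ he
    have hb := hC.bdry _ he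
    rw [bd_ind hC hF hU] at hb
    have hsub : D.filter (fun t => ({x, y} : Finset E) ⊆ t) ⊆
        T.filter (fun t => ({x, y} : Finset E) ⊆ t) := filter_subset_filter _ hC.sub
    have hle := card_le_card hsub
    rw [h2] at hle
    have hc : (D.filter (fun t => ({x, y} : Finset E) ⊆ t)).card = 0 ∨
        (D.filter (fun t => ({x, y} : Finset E) ⊆ t)).card = 1 ∨
        (D.filter (fun t => ({x, y} : Finset E) ⊆ t)).card = 2 := by omega
    rcases hc with hc | hc | hc
    · left
      refine ⟨?_, ?_⟩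
      · rw [co_eq_filter hC hF hU, card_eq_zero.1 hc, sum_empty]
      · rw [hc] at hb
        exact fun h => by simpa using hb.2 h
    · right
      refine ⟨?_, ?_⟩
      · obtain ⟨t, ht⟩ := card_eq_one.1 hc
        have htm : t ∈ D.filter (fun t => ({x, y} : Finset E) ⊆ t) := by rw [ht]; simp
        rw [mem_filter] at htm
        rw [co_eq_filter hC hF hU, ht, sum_singleton]
        exact abs_one hC hF hU hxy (hC.sub htm.1) htm.2
      · apply hb.1
        rw [hc]; simp
    · left
      refine ⟨?_, ?_⟩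
      · obtain ⟨t, t', hne, ht⟩ := card_eq_two.1 hc
        have htm : t ∈ D.filter (fun t => ({x, y} : Finset E) ⊆ t) := by rw [ht]; simp
        have htm' : t' ∈ D.filter (fun t => ({x, y} : Finset E) ⊆ t) := by rw [ht]; simp
        rw [mem_filter] at htm htm'
        rw [co_eq_filter hC hF hU, ht, sum_pair hne]
        exact pair hC hF hU hxy (hC.sub htm.1) (hC.sub htm'.1) hne htm.2 htm'.2
      · rw [hc] at hb
        intro h
        have := hb.2 h
        exact absurd this (by decide)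
  · left
    refine ⟨?_, ?_⟩
    · rw [co_eq_filter hC hF hU]
      apply sum_eq_zero
      intro t ht
      rw [mem_filter] at ht
      exact absurd (mem_edges hC hF hU hxy (hC.sub ht.1) ht.2) he
    · rintro ⟨i, hi⟩
      exact he (hi ▸ hC.edge i)

theorem co_self (x : E) : co D U V W x x = 0 := by
  have := co_anti (D := D) (U := U) (V := V) (W := W) x x
  linarith

theorem G_ne (i : ℤ) : G i ≠ G (i + 1) := by
  intro h
  have := hC.edge i
  rw [← h] at this
  unfold edges at this
  rw [mem_biUnion] at this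
  obtain ⟨t, _, ht⟩ := this
  have := (mem_powersetCard.1 ht).2
  simp at this

/-- the vertex set -/
noncomputable def vs (T : Finset (Finset E)) : Finset E := T.biUnion id

theorem mem_vs {t : Finset E} (ht : t ∈ T) : U t ∈ vs T ∧ V t ∈ vs T ∧ W t ∈ vs T := by
  have h := (hU t ht).1
  have hm : ∀ x ∈ t, x ∈ vs T := fun x hx => mem_biUnion.2 ⟨t, ht, hx⟩
  have hm2 : ∀ x ∈ ({U t, V t, W t} : Finset E), x ∈ vs T := fun x hx => hm x (by rw [h]; exact hx)
  exact ⟨hm2 _ (by simp), hm2 _ (by simp), hm2 _ (by simp)⟩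

theorem balance (x : E) : ∑ y ∈ vs T, co D U V W x y = 0 := by
  unfold co
  rw [sum_comm]
  apply sum_eq_zero
  intro t ht
  obtain ⟨h1, h2, h3⟩ := mem_vs hC hF hU (hC.sub ht)
  exact row_o _ h1 h2 h3 x

theorem G_mem (i : ℤ) : G i ∈ vs T := by
  have h := hC.edge i
  unfold edges at h
  rw [mem_biUnion] at h
  obtain ⟨t, ht, hte⟩ := h
  exact mem_biUnion.2 ⟨t, ht, (mem_powersetCard.1 hte).1 (by simp)⟩

theorem per_mul (i m : ℤ) : G (i + m * n) = G i := by
  induction m using Int.induction_on with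
  | zero => simp
  | succ k ih =>
    rw [show i + ((k : ℤ) + 1) * n = (i + k * n) + n by ring, hC.per]; exact ih
  | pred k ih =>
    rw [← hC.per (i + (-(k : ℤ) - 1) * n), show i + (-(k : ℤ) - 1) * n + n = i + -(k : ℤ) * n by ring]
    exact ih

/-- neighbours of `G j` with non-zero coefficient -/
theorem nbr {j : ℤ} {y : E} (h : co D U V W (G j) y ≠ 0) : y = G (j + 1) ∨ y = G (j - 1) := by
  have hne : G j ≠ y := by
    rintro h1
    rw [← h1] at h
    exact h (co_self hC hF hU _)
  rcases co_cases hC hF hU hne with ⟨h0, _⟩ | ⟨_, i, hi⟩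
  · exact absurd h0 h
  · have h1 : G j ∈ ({G i, G (i + 1)} : Finset E) := by rw [← hi]; simp
    have h2 : y ∈ ({G i, G (i + 1)} : Finset E) := by rw [← hi]; simp
    simp only [mem_insert, mem_singleton] at h1 h2
    rcases h1 with h1 | h1
    · have hy : y = G (i + 1) := by
        rcases h2 with h2 | h2
        · exact absurd (h1.trans h2.symm) hne
        · exact h2
      left
      obtain ⟨m, hm⟩ := hC.inj _ _ h1
      rw [hy, ← per_mul hC hF hU (i + 1) m]
      congr 1
      rw [mul_comm]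
      linarith
    · have hy : y = G i := by
        rcases h2 with h2 | h2
        · exact h2
        · exact absurd (h1.trans h2.symm) hne
      right
      obtain ⟨m, hm⟩ := hC.inj _ _ h1
      rw [hy, ← per_mul hC hF hU i m]
      congr 1
      rw [mul_comm]
      linarith

theorem co_G (j : ℤ) : co D U V W (G j) (G (j + 1)) = 1 ∨ co D U V W (G j) (G (j + 1)) = -1 := by
  rcases co_cases hC hF hU (G_ne hC hF hU j) with ⟨_, h⟩ | ⟨h, _⟩
  · exact absurd ⟨j, rfl⟩ h
  · exact h

theorem G_ne2 (j : ℤ) : G (j + 1) ≠ G (j - 1) := by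
  intro h
  have hb := balance hC hF hU (G j)
  rw [sum_eq_single (G (j + 1))] at hb
  · rcases co_G hC hF hU j with h1 | h1 <;> rw [h1] at hb <;> norm_num at hb
  · intro y _ hy
    by_contra h1
    rcases nbr hC hF hU h1 with h2 | h2
    · exact hy h2
    · exact hy (h2.trans h.symm)
  · intro h1
    exact absurd (G_mem hC hF hU _) h1

theorem row {j : ℤ} (ρ : E → E → ℝ) : ∑ y ∈ vs T, co D U V W (G j) y * ρ (G j) y =
    co D U V W (G j) (G (j + 1)) * ρ (G j) (G (j + 1)) +
      co D U V W (G j) (G (j - 1)) * ρ (G j) (G (j - 1)) := by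
  have hsub : ({G (j + 1), G (j - 1)} : Finset E) ⊆ vs T := by
    intro z hz
    simp only [mem_insert, mem_singleton] at hz
    rcases hz with rfl | rfl <;> exact G_mem hC hF hU _
  rw [← sum_subset hsub, sum_pair (G_ne2 hC hF hU j)]
  intro y _ hy
  simp only [mem_insert, mem_singleton, not_or] at hy
  by_contra h1
  have h2 : co D U V W (G j) y ≠ 0 := fun h => h1 (by rw [h, zero_mul])
  rcases nbr hC hF hU h2 with h3 | h3
  · exact hy.1 h3
  · exact hy.2 h3

theorem co_step (j : ℤ) : co D U V W (G j) (G (j + 1)) = co D U V W (G (j - 1)) (G j) := by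
  have h1 := row hC hF hU (j := j) (fun _ _ => 1)
  simp only [mul_one] at h1
  rw [balance hC hF hU] at h1
  rw [co_anti (G (j - 1)) (G j)]
  linarith

theorem co_const (j : ℤ) : co D U V W (G j) (G (j + 1)) = co D U V W (G 0) (G 1) := by
  induction j using Int.induction_on with
  | zero => simp
  | succ k ih =>
    rw [co_step hC hF hU, ← ih]
    simp
  | pred k ih =>
    rw [← ih, co_step hC hF hU (-(k : ℤ))]
    simp

theorem main : ∃ ε₀ : ℝ, (ε₀ = 1 ∨ ε₀ = -1) ∧ ∀ ρ : E → E → ℝ, (∀ x y, ρ x y = - ρ y x) →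
    ∑ t ∈ D, (ρ (U t) (V t) + ρ (V t) (W t) + ρ (W t) (U t)) =
      ε₀ * ∑ j ∈ range n, ρ (G j) (G (j + 1)) := by
  refine ⟨co D U V W (G 0) (G 1), ?_, ?_⟩
  · simpa using co_G hC hF hU 0
  intro ρ hρ
  set c := co D U V W (G 0) (G 1) with hc
  have e1 : ∑ x ∈ vs T, ∑ y ∈ vs T, co D U V W x y * ρ x y =
      2 * ∑ t ∈ D, (ρ (U t) (V t) + ρ (V t) (W t) + ρ (W t) (U t)) := by
    unfold co
    simp only [sum_mul]
    rw [mul_sum]
    have : ∀ x ∈ vs T, ∑ y ∈ vs T, ∑ t ∈ D, o (U t) (V t) (W t) x y * ρ x y =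
        ∑ t ∈ D, ∑ y ∈ vs T, o (U t) (V t) (W t) x y * ρ x y := fun x _ => sum_comm
    rw [sum_congr rfl this, sum_comm]
    refine sum_congr rfl fun t ht => ?_
    obtain ⟨h1, h2, h3⟩ := mem_vs hC hF hU (hC.sub ht)
    exact sum_o _ h1 h2 h3 ρ hρ
  have hinj : Set.InjOn (fun j : ℕ => G (j : ℤ)) (range n : Finset ℕ) := by
    intro i hi j hj h
    simp only [coe_range, Set.mem_Iio] at hi hj
    obtain ⟨m, hm⟩ := hC.inj _ _ h
    have hm0 : m = 0 := by
      by_contra h0
      have h1 : |((i : ℤ) - j)| < n := by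
        rw [abs_lt]; constructor <;> omega
      rw [hm, abs_mul] at h1
      have h2 : 1 ≤ |m| := Int.one_le_abs h0
      have h3 : |(n : ℤ)| = n := abs_of_nonneg (by positivity)
      rw [h3] at h1
      nlinarith
    rw [hm0] at hm
    omega
  have e2 : ∑ x ∈ vs T, ∑ y ∈ vs T, co D U V W x y * ρ x y =
      ∑ j ∈ range n, ∑ y ∈ vs T, co D U V W (G (j : ℤ)) y * ρ (G (j : ℤ)) y := by
    rw [← sum_image (s := range n) (g := fun j : ℕ => G (j : ℤ))
      (f := fun x => ∑ y ∈ vs T, co D U V W x y * ρ x y) hinj]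
    symm
    apply sum_subset
    · intro x hx
      rw [mem_image] at hx
      obtain ⟨j, _, rfl⟩ := hx
      exact G_mem hC hF hU _
    · intro x _ hx
      apply sum_eq_zero
      intro y _
      by_contra h1
      have h2 : co D U V W x y ≠ 0 := fun h => h1 (by rw [h, zero_mul])
      have hne : x ≠ y := by
        rintro rfl
        exact h2 (co_self hC hF hU _)
      rcases co_cases hC hF hU hne with ⟨h0, _⟩ | ⟨_, i, hi⟩
      · exact h2 h0
      · have h3 : x ∈ ({G i, G (i + 1)} : Finset E) := by rw [← hi]; simp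
        simp only [mem_insert, mem_singleton] at h3
        have h4 : ∃ i : ℤ, x = G i := by
          rcases h3 with h3 | h3
          · exact ⟨i, h3⟩
          · exact ⟨i + 1, h3⟩
        obtain ⟨i', hi'⟩ := h4
        apply hx
        rw [mem_image]
        have hn : (0 : ℤ) < n := by exact_mod_cast hC.pos
        refine ⟨(i' % n).toNat, ?_, ?_⟩
        · rw [mem_range]
          have := Int.emod_lt_of_pos i' hn
          have := Int.emod_nonneg i' hn.ne'
          omega
        · have h5 : (((i' % n).toNat : ℕ) : ℤ) = i' % n :=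
            Int.toNat_of_nonneg (Int.emod_nonneg i' hn.ne')
          rw [h5, hi', ← per_mul hC hF hU (i' % n) (i' / n)]
          congr 1
          have := Int.emod_add_mul_ediv i' n
          linarith
  have e3 : ∀ j : ℕ, ∑ y ∈ vs T, co D U V W (G (j : ℤ)) y * ρ (G (j : ℤ)) y =
      c * (ρ (G j) (G (j + 1)) + ρ (G ((j : ℤ) - 1)) (G j)) := by
    intro j
    rw [row hC hF hU, co_const hC hF hU, co_anti (G (j : ℤ)) (G ((j : ℤ) - 1)),
      ← co_step hC hF hU, co_const hC hF hU, hρ (G (j : ℤ)) (G ((j : ℤ) - 1))]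
    ring
  have e4 : ∑ j ∈ range n, ρ (G ((j : ℤ) - 1)) (G j) = ∑ j ∈ range n, ρ (G j) (G (j + 1)) := by
    obtain ⟨m, hm⟩ : ∃ m, n = m + 1 := ⟨n - 1, by have := hC.pos; omega⟩
    rw [hm, sum_range_succ', sum_range_succ]
    have h1 : G ((m : ℤ) + 1) = G 0 := by
      have := hC.per 0
      rw [hm] at this
      push_cast at this
      rw [zero_add] at this
      exact this
    have h2 : G (-1 : ℤ) = G m := by
      have := hC.per (-1)
      rw [hm] at this
      push_cast at this
      rw [← this]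
      congr 1
      ring
    have h3 : G (((0 : ℕ) : ℤ) - 1) = G m := by
      rw [← h2]; simp
    rw [h3, h1]
    congr 1
    refine sum_congr rfl fun j _ => ?_
    rw [show (((j + 1 : ℕ) : ℤ) - 1) = j by push_cast; ring]
    push_cast
    rfl
  have e5 : ∑ x ∈ vs T, ∑ y ∈ vs T, co D U V W x y * ρ x y =
      2 * (c * ∑ j ∈ range n, ρ (G j) (G (j + 1))) := by
    rw [e2, sum_congr rfl fun j _ => e3 j, ← mul_sum, sum_add_distrib, e4]
    ring
  linarith

end Main

end F4x8

theorem stOrient : StOrient := fun _ _ _ _ hC hF _ _ _ hU => F4x8.main hC hF hU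

end Pool.Agent.Lib.MP_87489e_co.HT
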