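import Pool.Agent.Lib.MP_87489e_co.HT.Stmts

set_option autoImplicit false

/-!
F5: the circle.
-/

namespace Pool.Agent.Lib.MP_87489e_co.HT

open Finset

namespace F5

/-- cyclic sums of a periodic function -/
lemma sum_shift (g : ℤ → ℝ) (n : ℕ) (hg : ∀ j, g (j + n) = g j) (a : ℤ) :
    ∑ j ∈ range n, g (a + j) = ∑ j ∈ range n, g j := by
  have step : ∀ a : ℤ, ∑ j ∈ range n, g (a + 1 + j) = ∑ j ∈ range n, g (a + j) := by
    intro a
    have h1 := Finset.sum_range_succ (fun j : ℕ => g (a + j)) n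
    have h2 := Finset.sum_range_succ' (fun j : ℕ => g (a + j)) n
    have h3 : ∑ j ∈ range n, g (a + 1 + j) = ∑ j ∈ range n, g (a + ((j + 1 : ℕ) : ℤ)) := by
      refine Finset.sum_congr rfl fun j _ => ?_
      congr 1
      push_cast
      ring
    rw [h3]
    rw [h1, hg] at h2
    simp only [Nat.cast_zero, add_zero] at h2
    linarith
  induction a using Int.induction_on with
  | zero => simp
  | succ a ih => rw [step]; exact ih
  | pred a ih =>
    rw [← ih, ← step (-(a : ℤ) - 1)]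
    simp

lemma per_mul (φ : ℤ → ℝ) (k : ℕ) (hφ : ∀ i, φ (i + k) = φ i) (N : ℕ) (i : ℤ) :
    φ (i + N * k) = φ i := by
  induction N with
  | zero => simp
  | succ N ih =>
    rw [← ih, ← hφ (i + N * k)]
    congr 1
    push_cast
    ring

lemma F_shift (F : ℤ → ℤ → ℝ) (k : ℕ) (h3 : ∀ i j, F i (j + 2 * k) = F i j)
    (h4 : ∀ i j, F (i + 2 * k) j = F i j) (N : ℕ) (i j : ℤ) :
    F (i + N * (2 * k)) (j + N * (2 * k)) = F i j := by
  induction N with
  | zero => simp
  | succ N ih =>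
    rw [← ih, ← h4 (i + N * (2 * k)), ← h3 _ (j + N * (2 * k))]
    congr 1
    · push_cast
      ring
    · push_cast
      ring

end F5

open F5 in
/-- F5 -/
theorem stCirc : StCirc := by
  intro k φ F s hk hφ hs h1 h2 h3 h4 i
  obtain ⟨m, rfl⟩ : ∃ m, k = m + 1 := ⟨k - 1, by omega⟩
  -- partial sums
  set P : ℕ → ℝ := fun r => ∑ l ∈ Finset.range r, φ (i + l) with hP
  have hPI : ∀ r : ℕ, ∑ l ∈ Finset.Ico i (i + r), φ l = P r := by
    intro r
    induction r with
    | zero => simp [hP]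
    | succ r ih =>
      have e1 : Finset.Ico i (i + ((r + 1 : ℕ) : ℤ)) = insert (i + r) (Finset.Ico i (i + r)) := by
        ext x
        simp only [Finset.mem_Ico, Finset.mem_insert]
        push_cast
        omega
      rw [e1, Finset.sum_insert (by simp), ih]
      simp only [hP]
      rw [Finset.sum_range_succ]
      ring
  have hPI1 : ∀ r : ℕ, ∑ l ∈ Finset.Ico (i + 1) (i + ((r + 1 : ℕ) : ℤ)), φ l = P (r + 1) - φ i := by
    intro r
    have e1 : Finset.Ico i (i + ((r + 1 : ℕ) : ℤ)) =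
        insert i (Finset.Ico (i + 1) (i + ((r + 1 : ℕ) : ℤ))) := by
      ext x
      simp only [Finset.mem_Ico, Finset.mem_insert]
      push_cast
      omega
    have e2 := hPI (r + 1)
    rw [e1, Finset.sum_insert (by simp)] at e2
    linarith
  have hs0 : s = ∑ j ∈ range (m + 1), φ j := by
    rw [hs]
    have : ∀ n : ℕ, ∑ l ∈ Finset.Ico (0 : ℤ) n, φ l = ∑ j ∈ range n, φ j := by
      intro n
      induction n with
      | zero => simp
      | succ n ih =>
        have e1 : Finset.Ico (0 : ℤ) ((n + 1 : ℕ) : ℤ) = insert (n : ℤ) (Finset.Ico (0 : ℤ) n) := by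
          ext x
          simp only [Finset.mem_Ico, Finset.mem_insert]
          push_cast
          omega
        rw [e1, Finset.sum_insert (by simp), ih, Finset.sum_range_succ]
        ring
    exact this (m + 1)
  have hPs : P (m + 1) = s := by
    rw [hs0]
    exact sum_shift φ (m + 1) hφ i
  have hPadd : ∀ r, P (m + 1 + r) = s + P r := by
    intro r
    simp only [hP]
    rw [Finset.sum_range_add]
    have : ∑ l ∈ range (m + 1), φ (i + l) = s := hPs
    rw [this]
    congr 1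
    refine Finset.sum_congr rfl fun l _ => ?_
    have := hφ (i + l)
    rw [← this]
    congr 1
    push_cast
    ring
  have hP1 : P 1 = φ i := by simp [hP]
  have hP0 : P 0 = 0 := by simp [hP]
  -- values of the two distance functions
  have A1 : ∀ r : ℕ, r ≤ m + 1 → F i (i + r) = P r := by
    intro r hr
    rw [h1 i (i + r) (by omega) (by push_cast; omega), hPI]
  have A2 : ∀ r : ℕ, m + 1 ≤ r → r ≤ 2 * (m + 1) → F i (i + r) = 2 * s - P r := by
    intro r hr hr2
    rw [h2 i (i + r) (by push_cast; omega) (by push_cast; omega), hPI]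
  have B1 : ∀ r : ℕ, r ≤ m + 1 → F (i + 1) (i + ((r + 1 : ℕ) : ℤ)) = P (r + 1) - φ i := by
    intro r hr
    rw [h1 (i + 1) _ (by push_cast; omega) (by push_cast; omega), hPI1]
  have B2 : ∀ r : ℕ, m + 1 ≤ r → r ≤ 2 * (m + 1) →
      F (i + 1) (i + ((r + 1 : ℕ) : ℤ)) = 2 * s - (P (r + 1) - φ i) := by
    intro r hr hr2
    rw [h2 (i + 1) _ (by push_cast; omega) (by push_cast; omega), hPI1]
  -- the periodic summand
  set G : ℤ → ℝ := fun j => F i j * F (i + 1) (j + 1) - F i (j + 1) * F (i + 1) j with hG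
  have hGper : ∀ j, G (j + ((2 * (m + 1) : ℕ) : ℤ)) = G j := by
    intro j
    simp only [hG]
    have e1 : j + ((2 * (m + 1) : ℕ) : ℤ) = j + 2 * ((m + 1 : ℕ) : ℤ) := by push_cast; ring
    have e2 : j + ((2 * (m + 1) : ℕ) : ℤ) + 1 = j + 1 + 2 * ((m + 1 : ℕ) : ℤ) := by
      push_cast; ring
    rw [e2, e1, h3 i j, h3 (i + 1) (j + 1), h3 i (j + 1), h3 (i + 1) j]
  have hsum := sum_shift G (2 * (m + 1)) hGper (i + 1)
  have hgoal : ∑ j ∈ range (2 * (m + 1)), (F i j * F (i + 1) (j + 1) -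
      F i (j + 1) * F (i + 1) j) = ∑ j ∈ range (2 * (m + 1)), G (i + 1 + j) := by
    rw [hsum]
  rw [hgoal, show 2 * (m + 1) = (m + 1) + (m + 1) by ring, Finset.sum_range_add,
    Finset.sum_range_succ, Finset.sum_range_succ]
  -- the four parts
  have G1 : ∀ r : ℕ, r < m → G (i + 1 + r) = φ i * (P (r + 1 + 1) - P (r + 1)) := by
    intro r hr
    simp only [hG]
    rw [show i + 1 + (r : ℤ) + 1 = i + ((r + 1 + 1 : ℕ) : ℤ) by push_cast; ring,
      show i + 1 + (r : ℤ) = i + ((r + 1 : ℕ) : ℤ) by push_cast; ring,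
      A1 (r + 1) (by omega), A1 (r + 1 + 1) (by omega), B1 (r + 1) (by omega), B1 r (by omega)]
    ring
  have G2 : G (i + 1 + (m : ℤ)) = s * s - (s - φ i) * (s - φ i) := by
    simp only [hG]
    rw [show i + 1 + (m : ℤ) + 1 = i + ((m + 1 + 1 : ℕ) : ℤ) by push_cast; ring,
      show i + 1 + (m : ℤ) = i + ((m + 1 : ℕ) : ℤ) by push_cast; ring,
      A1 (m + 1) le_rfl, A2 (m + 1 + 1) (by omega) (by omega), B1 (m + 1) le_rfl,
      B1 m (by omega), hPadd 1, hPs, hP1]
    ring
  have G3 : ∀ r : ℕ, r < m → G (i + 1 + (((m + 1) + r : ℕ) : ℤ)) =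
      φ i * (P (r + 1 + 1) - P (r + 1)) := by
    intro r hr
    simp only [hG]
    rw [show i + 1 + (((m + 1) + r : ℕ) : ℤ) + 1 = i + (((m + 1 + (r + 1)) + 1 : ℕ) : ℤ) by
        push_cast; ring,
      show i + 1 + (((m + 1) + r : ℕ) : ℤ) = i + ((m + 1 + (r + 1) : ℕ) : ℤ) by push_cast; ring,
      A2 (m + 1 + (r + 1)) (by omega) (by omega),
      A2 (m + 1 + (r + 1) + 1) (by omega) (by omega),
      B2 (m + 1 + (r + 1)) (by omega) (by omega),
      show i + ((m + 1 + (r + 1) : ℕ) : ℤ) = i + (((m + 1 + r) + 1 : ℕ) : ℤ) by push_cast; ring,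
      B2 (m + 1 + r) (by omega) (by omega),
      show m + 1 + (r + 1) + 1 = m + 1 + (r + 1 + 1) by ring,
      show m + 1 + r + 1 = m + 1 + (r + 1) by ring, hPadd, hPadd]
    ring
  have G4 : G (i + 1 + (((m + 1) + m : ℕ) : ℤ)) = - (φ i * φ i) := by
    simp only [hG]
    have e1 : F i (i + 1 + (((m + 1) + m : ℕ) : ℤ) + 1) = φ i := by
      rw [show i + 1 + (((m + 1) + m : ℕ) : ℤ) + 1 = i + 1 + 2 * ((m + 1 : ℕ) : ℤ) by
        push_cast; ring, h3]
      have := A1 1 (by omega)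
      rw [hP1] at this
      exact_mod_cast this
    have e2 : F (i + 1) (i + 1 + (((m + 1) + m : ℕ) : ℤ) + 1) = 0 := by
      rw [show i + 1 + (((m + 1) + m : ℕ) : ℤ) + 1 = i + 1 + 2 * ((m + 1 : ℕ) : ℤ) by
        push_cast; ring, h3, h1 (i + 1) (i + 1) le_rfl (by push_cast; omega)]
      simp
    have e3 : F (i + 1) (i + 1 + (((m + 1) + m : ℕ) : ℤ)) = φ i := by
      rw [show i + 1 + (((m + 1) + m : ℕ) : ℤ) = i + (((m + 1 + m) + 1 : ℕ) : ℤ) by
        push_cast; ring, B2 (m + 1 + m) (by omega) (by omega),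
        show m + 1 + m + 1 = m + 1 + (m + 1) by ring, hPadd, hPs]
      ring
    rw [e1, e2, e3]
    ring
  rw [Finset.sum_congr rfl fun r hr => G1 r (Finset.mem_range.1 hr),
    Finset.sum_congr rfl fun r hr => G3 r (Finset.mem_range.1 hr), G2, G4, ← Finset.mul_sum,
    Finset.sum_range_sub (fun r => P (r + 1)) m, hPs, hP1]
  ring

end Pool.Agent.Lib.MP_87489e_co.HT
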