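import Mathlib
import Pool.Agent.Lib.MP_87489e_co.HT.Basic

set_option autoImplicit false

/-!
Elementary lemmas on the discrete circulation form.
-/

namespace Pool.Agent.Lib.MP_87489e_co.HT

open Finset

section

variable {W : Type} [AddCommGroup W] [Module ℝ W]

theorem Rn_swap (n : ℕ) (A B : W → ℝ) (x y : W) : Rn n A B x y = - Rn n B A x y := by
  unfold Rn
  rw [← mul_neg, ← sum_neg_distrib]
  congr 1
  apply sum_congr rfl
  intro k _
  ring

theorem Rn_symm (n : ℕ) (A B : W → ℝ) (x y : W) : Rn n A B x y = - Rn n A B y x := by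
  unfold Rn
  rw [← mul_neg, ← sum_neg_distrib]
  congr 1
  rw [← sum_range_reflect]
  apply sum_congr rfl
  intro k hk
  rw [mem_range] at hk
  have hn : (n : ℝ) ≠ 0 := by
    have : 0 < n := by omega
    positivity
  have h1 : ((n - 1 - k : ℕ) : ℝ) = (n : ℝ) - 1 - k := by
    have : k ≤ n - 1 := by omega
    rw [Nat.cast_sub this, Nat.cast_sub (by omega)]
    simp
  have e1 : x + (((n - 1 - k : ℕ) : ℝ) / n) • (y - x) = y + (((k : ℝ) + 1) / n) • (x - y) := by
    rw [h1]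
    have : (((n : ℝ) - 1 - k) / n) = 1 - ((k : ℝ) + 1) / n := by field_simp; ring
    rw [this]
    module
  have e2 : x + ((((n - 1 - k : ℕ) : ℝ) + 1) / n) • (y - x) = y + ((k : ℝ) / n) • (x - y) := by
    rw [h1]
    have : (((n : ℝ) - 1 - k + 1) / n) = 1 - (k : ℝ) / n := by field_simp; ring
    rw [this]
    module
  rw [e1, e2]
  ring

theorem Rn_affine {n : ℕ} (hn : 0 < n) {A B : W → ℝ} {x y : W}
    (hA : ∀ θ : ℝ, 0 ≤ θ → θ ≤ 1 → A (x + θ • (y - x)) = (1 - θ) * A x + θ * A y)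
    (hB : ∀ θ : ℝ, 0 ≤ θ → θ ≤ 1 → B (x + θ • (y - x)) = (1 - θ) * B x + θ * B y) :
    Rn n A B x y = (1 / 2) * (A x * B y - A y * B x) := by
  unfold Rn
  congr 1
  have hn' : (0 : ℝ) < n := by exact_mod_cast hn
  have key : ∀ k ∈ range n,
      (A (x + ((k : ℝ) / n) • (y - x)) * B (x + (((k : ℝ) + 1) / n) • (y - x)) -
       A (x + (((k : ℝ) + 1) / n) • (y - x)) * B (x + ((k : ℝ) / n) • (y - x))) =
      (1 / n) * (A x * B y - A y * B x) := by
    intro k hk
    rw [mem_range] at hk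
    have hk' : (k : ℝ) + 1 ≤ n := by exact_mod_cast hk
    have h0 : (0 : ℝ) ≤ (k : ℝ) / n := by positivity
    have h1 : (k : ℝ) / n ≤ 1 := by rw [div_le_one hn']; linarith
    have h2 : (0 : ℝ) ≤ ((k : ℝ) + 1) / n := by positivity
    have h3 : ((k : ℝ) + 1) / n ≤ 1 := by rw [div_le_one hn']; linarith
    rw [hA _ h0 h1, hA _ h2 h3, hB _ h0 h1, hB _ h2 h3]
    field_simp
    ring
  rw [sum_congr rfl key, sum_const, card_range, nsmul_eq_mul]
  field_simp

end

/-- cyclic sums are additive -/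
theorem cyc_neg_rev (m : ℕ) (F : ℕ → ℕ → ℝ) (hF : ∀ i j, F i j = - F j i) :
    cyc m (fun i j => F (m - i) (m - j)) = - cyc m F := by
  unfold cyc
  have h1 : ∑ i ∈ range m, F (m - i) (m - (i + 1)) = - ∑ i ∈ range m, F i (i + 1) := by
    rw [← sum_range_reflect, ← sum_neg_distrib]
    apply sum_congr rfl
    intro i hi
    rw [mem_range] at hi
    have e1 : m - (m - 1 - i) = i + 1 := by omega
    have e2 : m - (m - 1 - i + 1) = i := by omega
    rw [e1, e2]
    exact hF _ _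
  rw [h1]
  simp only [Nat.sub_self, Nat.sub_zero]
  rw [hF 0 m]
  ring

theorem cyc_sum {ι : Type} (s : Finset ι) (m : ℕ) (F : ι → ℕ → ℕ → ℝ) :
    ∑ a ∈ s, cyc m (F a) = cyc m (fun i j => ∑ a ∈ s, F a i j) := by
  unfold cyc
  rw [sum_add_distrib, sum_comm]

theorem cyc_congr {m : ℕ} {F F' : ℕ → ℕ → ℝ} (h : ∀ i j, i ≤ m → j ≤ m → F i j = F' i j) :
    cyc m F = cyc m F' := by
  unfold cyc
  congr 1
  · apply sum_congr rfl
    intro i hi
    rw [mem_range] at hi
    exact h _ _ (by omega) (by omega)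
  · exact h _ _ le_rfl (by omega)

theorem cyc_mul (c : ℝ) (m : ℕ) (F : ℕ → ℕ → ℝ) : cyc m (fun i j => c * F i j) = c * cyc m F := by
  unfold cyc
  rw [← mul_sum]
  ring

end Pool.Agent.Lib.MP_87489e_co.HT
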