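import Mathlib
import Pool.Agent.Lib.MP_87489e_co.HT.Basic
import Pool.Agent.Lib.MP_87489e_co.HT.RnLemmas
import Pool.Agent.Lib.MP_87489e_co.HT.Stmts

set_option autoImplicit false

/-!
Assembly, first part: one half of the sphere.
-/

namespace Pool.Agent.Lib.MP_87489e_co.HT

open Finset MeasureTheory
open scoped Topology Pointwise

variable {P : Finset E} {g : E → ℝ}

theorem Gam.per {T : Finset (Finset E)} {k : ℕ} {G : ℤ → E} {s : ℝ} (hG : Gam g T k G s) (i : ℤ) :
    G (i + 2 * k) = G i := by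
  have h1 := hG.anti (i + k)
  rw [hG.anti i, neg_neg] at h1
  rw [← h1]
  congr 1
  ring

theorem Gam.wt_per (h : PN P g) {T : Finset (Finset E)} {k : ℕ} {G : ℤ → E} {s : ℝ}
    (hG : Gam g T k G s) (i : ℤ) :
    wt g (G (i + k)) (G (i + k + 1)) = wt g (G i) (G (i + 1)) := by
  rw [show i + k + 1 = (i + 1) + k by ring, hG.anti, hG.anti, h.wt_neg]

/-- sum over `Ico` in `ℤ` starting at `i` -/
theorem sum_Ico_int (φ : ℤ → ℝ) (i : ℤ) (n : ℕ) :
    ∑ l ∈ Finset.Ico i (i + n), φ l = ∑ l ∈ range n, φ (i + l) := by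
  induction n with
  | zero => simp
  | succ n ih =>
    rw [sum_range_succ, ← ih]
    have : Finset.Ico i (i + ((n + 1 : ℕ) : ℤ)) = insert (i + n) (Finset.Ico i (i + n)) := by
      ext x
      simp only [mem_Ico, mem_insert]
      push_cast
      omega
    rw [this, sum_insert (by simp), add_comm]

/-- a sum over a full period -/
theorem sum_period {φ : ℤ → ℝ} {k : ℕ} (hφ : ∀ i, φ (i + k) = φ i) (i : ℤ) :
    ∑ l ∈ Finset.Ico i (i + k), φ l = ∑ l ∈ range k, φ l := by
  rw [sum_Ico_int]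
  have key : ∀ j : ℤ, ∑ l ∈ range k, φ (j + 1 + l) = ∑ l ∈ range k, φ (j + l) := by
    intro j
    have h1 := sum_range_succ (fun l : ℕ => φ (j + l)) k
    have h2 := sum_range_succ' (fun l : ℕ => φ (j + l)) k
    rw [h1] at h2
    simp only [Nat.cast_zero, add_zero] at h2
    rw [hφ j] at h2
    have h3 : ∑ l ∈ range k, φ (j + ((l + 1 : ℕ) : ℤ)) = ∑ l ∈ range k, φ (j + 1 + l) := by
      apply sum_congr rfl
      intro l _
      congr 1
      push_cast
      ring
    rw [h3] at h2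
    linarith
  have key2 : ∀ j : ℤ, ∑ l ∈ range k, φ (j + l) = ∑ l ∈ range k, φ ((0 : ℤ) + l) := by
    intro j
    induction j using Int.induction_on with
    | zero => rfl
    | succ j ih => rw [key]; exact ih
    | pred j ih =>
      have := key (-(j : ℤ) - 1)
      rw [sub_add_cancel] at this
      rw [← this]
      exact ih
  rw [key2]
  simp

theorem arc_add (g : E → ℝ) (G : ℤ → E) {i j l : ℤ} (h1 : i ≤ j) (h2 : j ≤ l) :
    arc g G i j + arc g G j l = arc g G i l := by
  unfold arc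
  rw [← sum_union]
  · congr 1
    ext x
    simp only [mem_union, mem_Ico]
    omega
  · rw [disjoint_left]
    intro x
    simp only [mem_Ico]
    omega

theorem Gam.arc_k (h : PN P g) {T : Finset (Finset E)} {k : ℕ} {G : ℤ → E} {s : ℝ}
    (hG : Gam g T k G s) (i : ℤ) : arc g G i (i + k) = s := by
  rw [arc, sum_period (fun i => hG.wt_per h i), hG.len]

theorem Gam.arc_2k (h : PN P g) {T : Finset (Finset E)} {k : ℕ} {G : ℤ → E} {s : ℝ}
    (hG : Gam g T k G s) (i : ℤ) : arc g G i (i + 2 * k) = 2 * s := by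
  rw [← arc_add g G (j := i + k) (by linarith) (by linarith), hG.arc_k h i,
    show i + 2 * (k : ℤ) = (i + k) + k by ring, hG.arc_k h]
  ring

theorem Gam.sum_2k (h : PN P g) {T : Finset (Finset E)} {k : ℕ} {G : ℤ → E} {s : ℝ}
    (hG : Gam g T k G s) : ∑ i ∈ range (2 * k), wt g (G i) (G (i + 1)) = 2 * s := by
  have h1 := hG.arc_2k h 0
  rw [arc] at h1
  rw [← h1]
  have := sum_Ico_int (fun l => wt g (G l) (G (l + 1))) 0 (2 * k)
  push_cast at this ⊢
  rw [this]
  apply sum_congr rfl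
  intro l _
  simp

/-- the distance functions restricted to the boundary curve, summed around the circle -/
theorem circ_eq (hC : StCirc) (hD : StDist) {T D : Finset (Finset E)} {k : ℕ} {G : ℤ → E} {s : ℝ}
    (h : PN P g) (hT : Cx g T) (hF : Flat P T) (hG : Gam g T k G s) (hS : Sys P g s)
    (hcut : Cut T D (2 * k) G) (i : ℤ) :
    (1 / 2) * ∑ j ∈ range (2 * k), (dst g D (G i) (G j) * dst g D (G (i + 1)) (G (j + 1)) -
      dst g D (G i) (G (j + 1)) * dst g D (G (i + 1)) (G j)) =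
    2 * wt g (G i) (G (i + 1)) * (s - wt g (G i) (G (i + 1))) := by
  obtain ⟨-, hd, -⟩ := hD P g T D k G s h hT hF hG hS hcut
  refine hC k (fun l => wt g (G l) (G (l + 1))) (fun i j => dst g D (G i) (G j)) s hG.pos
    (fun i => hG.wt_per h i) ?_ (fun i j h1 h2 => (hd i j h1 h2).1) ?_ ?_ ?_ i
  · rw [← hG.arc_k h 0, arc, zero_add]
  · intro i j h1 h2
    have h3 := (hd j (i + 2 * k) h2 (by linarith)).2
    rw [hG.per i] at h3
    show dst g D (G i) (G j) = _
    rw [h3, ← hG.arc_2k h i, ← arc_add g G (i := i) (j := j) (l := i + 2 * k)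
      (by have : (0 : ℤ) ≤ k := by positivity
          linarith) h2]
    rw [arc, arc]
    ring
  · intro i j
    show dst g D (G i) (G (j + 2 * k)) = dst g D (G i) (G j)
    rw [hG.per]
  · intro i j
    show dst g D (G (i + 2 * k)) (G j) = dst g D (G i) (G j)
    rw [hG.per]

/-- the total circulation along the boundary curve -/
theorem total_eq (hC : StCirc) (hD : StDist) {T D : Finset (Finset E)} {k : ℕ} {G : ℤ → E} {s : ℝ}
    (h : PN P g) (hT : Cx g T) (hF : Flat P T) (hG : Gam g T k G s) (hS : Sys P g s)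
    (hcut : Cut T D (2 * k) G) {n : ℕ} (hn : 0 < n) :
    cyc (2 * k - 1) (fun i i' => ∑ j ∈ range (2 * k),
      Rn n (dst g D (G i)) (dst g D (G i')) (G j) (G (j + 1))) =
    ∑ i ∈ range (2 * k), 2 * wt g (G i) (G (i + 1)) * (s - wt g (G i) (G (i + 1))) := by
  obtain ⟨-, -, ha⟩ := hD P g T D k G s h hT hF hG hS hcut
  have hk := hG.pos
  have key : ∀ i i' : ℤ, ∑ j ∈ range (2 * k),
      Rn n (dst g D (G i)) (dst g D (G i')) (G j) (G (j + 1)) =
      (1 / 2) * ∑ j ∈ range (2 * k), (dst g D (G i) (G j) * dst g D (G i') (G (j + 1)) -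
        dst g D (G i) (G (j + 1)) * dst g D (G i') (G j)) := by
    intro i i'
    rw [mul_sum]
    apply sum_congr rfl
    intro j _
    exact Rn_affine hn (fun θ h0 h1 => ha i j θ h0 h1) (fun θ h0 h1 => ha i' j θ h0 h1)
  obtain ⟨m, hm⟩ : ∃ m, 2 * k = m + 1 := ⟨2 * k - 1, by omega⟩
  have hm' : 2 * k - 1 = m := by omega
  have hr : ∑ i ∈ range (2 * k), 2 * wt g (G i) (G (i + 1)) * (s - wt g (G i) (G (i + 1))) =
      ∑ i ∈ range m, 2 * wt g (G i) (G (i + 1)) * (s - wt g (G i) (G (i + 1))) +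
      2 * wt g (G m) (G (m + 1)) * (s - wt g (G m) (G (m + 1))) := by
    rw [hm, sum_range_succ]
  rw [hm', cyc, hr]
  congr 1
  · apply sum_congr rfl
    intro i _
    rw [key]
    have := circ_eq hC hD h hT hF hG hS hcut (i : ℤ)
    rw [← this]
    push_cast
    rfl
  · rw [key]
    have h1 := circ_eq hC hD h hT hF hG hS hcut (m : ℤ)
    rw [← h1]
    have h2 : G ((m : ℤ) + 1) = G ((0 : ℕ) : ℤ) := by
      have h3 := hG.per 0
      rw [Nat.cast_zero, ← h3]
      congr 1
      have : ((2 * k : ℕ) : ℤ) = ((m + 1 : ℕ) : ℤ) := by rw [hm]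
      push_cast at this ⊢
      linarith
    rw [h2]

end Pool.Agent.Lib.MP_87489e_co.HT
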