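import Mathlib
import Pool.Agent.Lib.MP_87489e_co.HT.Z1a

set_option autoImplicit false

/-!
Assembly, second part: the inequality for one disc.
-/

namespace Pool.Agent.Lib.MP_87489e_co.HT

open Finset MeasureTheory
open scoped Topology Pointwise

variable {P : Finset E} {g : E → ℝ}

/-- circulation around the triangle `(u, v, w)`, summed cyclically over the functions `f` -/
noncomputable def circT (n m : ℕ) (f : ℕ → E → ℝ) (u v w : E) : ℝ :=
  cyc m (fun i j => Rn n (f i) (f j) u v + Rn n (f i) (f j) v w + Rn n (f i) (f j) w u)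

theorem circT_rev (n m : ℕ) (f : ℕ → E → ℝ) (u v w : E) :
    circT n m (fun i => f (m - i)) u v w = - circT n m f u v w := by
  unfold circT
  exact cyc_neg_rev m (fun i j => Rn n (f i) (f j) u v + Rn n (f i) (f j) v w +
    Rn n (f i) (f j) w u) (fun i j => by
      rw [Rn_swap n (f i) (f j) u v, Rn_swap n (f i) (f j) v w, Rn_swap n (f i) (f j) w u]
      ring)

theorem NI_rev {m : ℕ} {q : ℕ → ℝ} (h : NI m (fun i => - q i)) : NI m (fun i => q (m - i)) := by
  intro a b c e hab hbc hce hem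
  have h1 := h (m - e) (m - c) (m - b) (m - a) (by omega) (by omega) (by omega) (by omega)
  simp only at h1 ⊢
  rw [min_neg_neg, max_neg_neg, neg_le_neg_iff] at h1
  rw [min_comm, max_comm]
  exact h1

/-- both signs of the inequality on one triangle -/
theorem loc_abs (hL : StLoc) (h : PN P g) {N : Set E} (hN : IsCompact N) (hNx : Convex ℝ N)
    (hNg : ∀ y : E, ∃ ξ ∈ N, g y ≤ ξ ⬝ᵥ y) {u v w : E} {m : ℕ} {f : ℕ → E → ℝ}
    (hf : ∀ i ≤ m, ∀ y ∈ hull {u, v, w}, ∀ y' ∈ hull {u, v, w}, f i y' ≤ f i y + g (y' - y))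
    (hNI : ∀ y ∈ hull {u, v, w}, ∀ y' ∈ hull {u, v, w}, NI m (fun i => f i y' - f i y))
    {ε : ℝ} (hε : 0 < ε) : ∃ n₀ : ℕ, ∀ n : ℕ, n₀ ≤ n →
      |circT n m f u v w| ≤ (volume (Mt u v w '' N)).toReal + ε := by
  obtain ⟨n₁, h1⟩ := hL P g u v w N m f h hN hNx hNg hf hNI ε hε
  obtain ⟨n₂, h2⟩ := hL P g u v w N m (fun i => f (m - i)) h hN hNx hNg
    (fun i _ y hy y' hy' => hf (m - i) (by omega) y hy y' hy')
    (fun y hy y' hy' => NI_rev (q := fun i => f i y' - f i y) (by
      have := hNI y' hy' y hy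
      simpa using this)) ε hε
  refine ⟨max n₁ n₂, fun n hn => ?_⟩
  have h3 := h1 n ((le_max_left _ _).trans hn)
  have h4 := h2 n ((le_max_right _ _).trans hn)
  have h5 := circT_rev n m f u v w
  rw [abs_le']
  refine ⟨h3, ?_⟩
  rw [← h5]
  exact h4

/-- a choice of orientations -/
theorem exists_orient {T : Finset (Finset E)} (hO : StOri) (hT : Sph T) (hF : Fan T) :
    ∃ U V W : Finset E → E, ∀ t ∈ T, t = {U t, V t, W t} ∧ 0 < det3 (U t) (V t) (W t) := by
  have key : ∀ t : Finset E, ∃ u v w : E, t ∈ T → t = {u, v, w} ∧ 0 < det3 u v w := by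
    intro t
    by_cases ht : t ∈ T
    · obtain ⟨u, v, w, huv, huw, hvw, rfl⟩ := card_eq_three.mp (hT.card3 t ht)
      have hne := (hO T hT hF).1 u v w ht
      rcases lt_or_gt_of_ne hne with h | h
      · refine ⟨u, w, v, fun _ => ⟨?_, ?_⟩⟩
        · rw [pair_comm w v]
        · have : det3 u w v = - det3 u v w := by
            simp only [det3, cross_apply, dotProduct, Fin.sum_univ_three, Matrix.cons_val_zero,
              Matrix.cons_val_one, Matrix.cons_val]
            ring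
          rw [this]
          linarith
      · exact ⟨u, v, w, fun _ => ⟨rfl, h⟩⟩
    · exact ⟨0, 0, 0, fun h => absurd h ht⟩
  choose U V W hU using key
  exact ⟨U, V, W, fun t ht => hU t ht⟩

/-- the inequality for one disc -/
theorem half (hC : StCirc) (hD : StDist) (hNI : StNI) (hL : StLoc) (hO : StOrient)
    {T D : Finset (Finset E)} {k : ℕ} {G : ℤ → E} {s δ B : ℝ} (h : PN P g) (hT : Cx g T)
    (hF : Flat P T) (hG : Gam g T k G s) (hS : Sys P g s) (hcut : Cut T D (2 * k) G)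
    (hδ : ∀ i : ℤ, wt g (G i) (G (i + 1)) ≤ δ) {N : Set E} (hN : IsCompact N)
    (hNx : Convex ℝ N) (hNg : ∀ y : E, ∃ ξ ∈ N, g y ≤ ξ ⬝ᵥ y) {U V W : Finset E → E}
    (hU : ∀ t ∈ T, t = {U t, V t, W t} ∧ 0 < det3 (U t) (V t) (W t))
    (hB : ∀ p ∈ P, ∀ u v w : E, p ⬝ᵥ u = 1 → p ⬝ᵥ v = 1 → p ⬝ᵥ w = 1 → 0 < det3 u v w →
      (volume (Mt u v w '' N)).toReal ≤ B * det3 u v w) :
    4 * s ^ 2 - 4 * δ * s ≤ B * ∑ t ∈ D, det3 (U t) (V t) (W t) := by
  obtain ⟨ε₀, hε₀, hO'⟩ := hO T D (2 * k) G hcut hT.fan U V W hU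
  have hk := hG.pos
  set m := 2 * k - 1 with hm
  let f : ℕ → E → ℝ := fun i => dst g D (G (i : ℤ))
  obtain ⟨hd1, -, -⟩ := hD P g T D k G s h hT hF hG hS hcut
  -- the area bound
  have hA : ∀ t ∈ D, (volume (Mt (U t) (V t) (W t) '' N)).toReal ≤
      B * det3 (U t) (V t) (W t) := by
    intro t ht
    obtain ⟨h1, h2⟩ := hU t (hcut.sub ht)
    obtain ⟨p, hp, hpt⟩ := hF t (hcut.sub ht)
    have e1 : U t ∈ t := by
      have : U t ∈ ({U t, V t, W t} : Finset E) := by simp
      rwa [← h1] at this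
    have e2 : V t ∈ t := by
      have : V t ∈ ({U t, V t, W t} : Finset E) := by simp
      rwa [← h1] at this
    have e3 : W t ∈ t := by
      have : W t ∈ ({U t, V t, W t} : Finset E) := by simp
      rwa [← h1] at this
    exact hB p hp _ _ _ (hpt _ e1) (hpt _ e2) (hpt _ e3) h2
  -- the lower bound for the total circulation
  have htot : 4 * s ^ 2 - 4 * δ * s ≤
      ∑ i ∈ range (2 * k), 2 * wt g (G i) (G (i + 1)) * (s - wt g (G i) (G (i + 1))) := by
    have h1 := hG.sum_2k h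
    have h2 : ∑ i ∈ range (2 * k), 2 * wt g (G i) (G (i + 1)) * (s - δ) ≤
        ∑ i ∈ range (2 * k), 2 * wt g (G i) (G (i + 1)) * (s - wt g (G i) (G (i + 1))) := by
      apply sum_le_sum
      intro i _
      have h3 := h.wt_nonneg (G i) (G (i + 1))
      have h4 := hδ i
      apply mul_le_mul_of_nonneg_left _ (by linarith)
      linarith
    rw [← sum_mul, ← mul_sum, h1] at h2
    nlinarith
  refine htot.trans ?_
  -- compare
  apply le_of_forall_pos_le_add
  intro ε hε
  -- a common n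
  have hcard : (0 : ℝ) < (D.card : ℝ) + 1 := by
    have : (0 : ℝ) ≤ (D.card : ℝ) := Nat.cast_nonneg _
    linarith
  have hε' : 0 < ε / ((D.card : ℝ) + 1) := div_pos hε hcard
  have hloc : ∀ t ∈ D, ∃ n₀ : ℕ, ∀ n : ℕ, n₀ ≤ n → |circT n m f (U t) (V t) (W t)| ≤
      (volume (Mt (U t) (V t) (W t) '' N)).toReal + ε / (D.card + 1) := by
    intro t ht
    have ht3 := (hU t (hcut.sub ht)).1
    refine loc_abs hL h hN hNx hNg (f := f) (m := m) ?_ ?_ hε'
    · intro i _ y hy y' hy'
      rw [← ht3] at hy hy'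
      exact hd1 i t ht y hy y' hy'
    · intro y hy y' hy' a b c e hab hbc hce hem
      rw [← ht3] at hy hy'
      exact hNI P g T D (2 * k) G h hT hF hcut t ht y hy y' hy' a b c e (Int.ofNat_lt.mpr hab)
        (Int.ofNat_lt.mpr hbc) (Int.ofNat_lt.mpr hce) (by omega)
  choose! n₀ hn₀ using hloc
  let n := ∑ t ∈ D, n₀ t + 1
  have hn : ∀ t ∈ D, n₀ t ≤ n := by
    intro t ht
    have := single_le_sum (f := n₀) (fun _ _ => Nat.zero_le _) ht
    omega
  have hn0 : 0 < n := by omega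
  have h1 := total_eq hC hD h hT hF hG hS hcut hn0
  rw [← h1, ← hm]
  -- the circulation along the curve is the sum over the triangles
  have h2 : cyc m (fun i i' => ∑ j ∈ range (2 * k), Rn n (dst g D (G i)) (dst g D (G i'))
      (G j) (G (j + 1))) = ε₀ * ∑ t ∈ D, circT n m f (U t) (V t) (W t) := by
    have h3 : ∑ t ∈ D, circT n m f (U t) (V t) (W t) =
        ε₀ * cyc m (fun i i' => ∑ j ∈ range (2 * k), Rn n (dst g D (G i)) (dst g D (G i'))
          (G j) (G (j + 1))) := by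
      unfold circT
      rw [cyc_sum, ← cyc_mul]
      apply cyc_congr
      intro i i' _ _
      exact hO' (fun x y => Rn n (f i) (f i') x y) (fun x y => Rn_symm n _ _ x y)
    rw [h3, ← mul_assoc]
    rcases hε₀ with h4 | h4 <;> rw [h4] <;> ring
  rw [h2]
  calc ε₀ * ∑ t ∈ D, circT n m f (U t) (V t) (W t)
      ≤ |ε₀ * ∑ t ∈ D, circT n m f (U t) (V t) (W t)| := le_abs_self _
    _ = |∑ t ∈ D, circT n m f (U t) (V t) (W t)| := by
        rw [abs_mul]
        rcases hε₀ with h4 | h4 <;> rw [h4] <;> simp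
    _ ≤ ∑ t ∈ D, |circT n m f (U t) (V t) (W t)| := abs_sum_le_sum_abs _ _
    _ ≤ ∑ t ∈ D, (B * det3 (U t) (V t) (W t) + ε / (D.card + 1)) := by
        apply sum_le_sum
        intro t ht
        have h5 := hn₀ t ht n (hn t ht)
        have h6 := hA t ht
        linarith
    _ = B * ∑ t ∈ D, det3 (U t) (V t) (W t) + D.card * (ε / (D.card + 1)) := by
        rw [sum_add_distrib, ← mul_sum, sum_const, nsmul_eq_mul]
    _ ≤ B * ∑ t ∈ D, det3 (U t) (V t) (W t) + ε := by
        have h7 : (D.card : ℝ) * (ε / (D.card + 1)) ≤ ε := by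
          rw [mul_div_assoc', div_le_iff₀ hcard]
          nlinarith
        linarith

end Pool.Agent.Lib.MP_87489e_co.HT
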