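import Mathlib
import Pool.Agent.Lib.MP_87489e_co.HT.Z1b

set_option autoImplicit false

/-!
Assembly, third part: the core theorem.
-/

namespace Pool.Agent.Lib.MP_87489e_co.HT

open Finset MeasureTheory
open scoped Topology Pointwise

variable {P : Finset E} {g : E → ℝ}

theorem NoCross_mono {T : Finset (Finset E)} {Hs Hs' : Finset E} (hsub : Hs' ⊆ Hs)
    (h : ∀ x ∈ Hs, NoCross T x) : ∀ x ∈ Hs', NoCross T x := fun x hx => h x (hsub hx)

/-- every path in the sphere becomes an edge path -/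
theorem path_refine (hPt : StPoint) (hSeg : StSeg) (h : PN P g) {x y : E} {l : ℝ} {L : List E}
    (hx : g x = 1) (p : Pth (Fac P g) (wt g) x y l L) :
    ∃ Hs : Finset E, ∀ T : Finset (Finset E), Cx g T → (∀ h ∈ Hs, NoCross T h) →
      (∃ t ∈ T, x ∈ t) ∧ ∃ L' : List E, Pth (Adj T) (wt g) x y l L' := by
  classical
  induction p with
  | nil x =>
    obtain ⟨Hs, hHs⟩ := hPt P g h x hx
    exact ⟨Hs, fun T hT hN => ⟨hHs T hT hN, [x], Pth.nil x⟩⟩
  | @cons x' y' z' l₀ s₀ hR q ih =>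
    obtain ⟨Hs₁, h1⟩ := ih hR.2.1
    obtain ⟨Hs₂, h2⟩ := hSeg P g h x' y' hR
    refine ⟨Hs₁ ∪ Hs₂, fun T hT hN => ?_⟩
    obtain ⟨-, L₁, p1⟩ := h1 T hT (NoCross_mono subset_union_left hN)
    obtain ⟨hx', -, L₂, p2, -⟩ := h2 T hT (NoCross_mono subset_union_right hN)
    obtain ⟨L₃, p3, -⟩ := p2.append p1
    exact ⟨hx', L₃, p3⟩

theorem adj_fac {T : Finset (Finset E)} (hT : Cx g T) (hF : Flat P T) {u v : E}
    (h : Adj T u v) : Fac P g u v := by
  obtain ⟨-, t, ht, hu, hv⟩ := h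
  obtain ⟨p, hp, hpt⟩ := hF t ht
  exact ⟨hT.unit t ht u hu, hT.unit t ht v hv, p, hp, hpt u hu, hpt v hv⟩

/-- a path to the antipode exists -/
theorem exists_path (hR : StReach) {T : Finset (Finset E)} (hT : Cx g T) (hF : Flat P T) :
    ∃ (x : E) (l : ℝ) (L : List E), g x = 1 ∧ Pth (Fac P g) (wt g) x (-x) l L := by
  obtain ⟨a, ⟨-, t, ht, -⟩, -⟩ := hT.fan 0
  have hne : t.Nonempty := by
    rw [← card_pos, hT.sph.card3 t ht]
    norm_num
  obtain ⟨x, hx⟩ := hne
  have hx' : -x ∈ t.image (fun v => -v) := mem_image_of_mem _ hx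
  obtain ⟨l, L, p⟩ := hR.1 E T (wt g) hT.sph t ht x hx _ (hT.symm t ht) (-x) hx'
  exact ⟨x, l, L, hT.unit t ht x hx, p.mono (fun a b hab => adj_fac hT hF hab)⟩

/-- the core theorem from the modules -/
theorem core_of (hDual : StDual) (hReach : StReach) (hExD : StExD) (hBase : StBase) (hOri : StOri)
    (hVol : StVol) (hRef : StRefine) (hFlat : StFlat) (hMesh : StMesh) (hPt : StPoint)
    (hSeg : StSeg) (hMin : StMin) (hSig : StSigma) (hCon : StCones) (hGirth : StGirth)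
    (hDist : StDist) (hNI : StNI) (hLoc : StLoc) (hOr : StOrient) (hCirc : StCirc) :
    StCore := by
  classical
  intro P g N B h hN hNx hNg hB0 hB
  -- a first complex, flat
  obtain ⟨T₀₀, hT₀₀⟩ := hBase P g h
  let HF : Finset E := (P ×ˢ P).image (fun q => q.1 - q.2)
  have hHF : ∀ T : Finset (Finset E), Cx g T → (∀ h ∈ HF, NoCross T h) → Flat P T := by
    intro T hT hcr
    exact hFlat P g T h hT (fun p hp q hq => hcr _ (mem_image.mpr ⟨(p, q), mem_product.mpr
      ⟨hp, hq⟩, rfl⟩))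
  obtain ⟨T₀, -, -, hT₀, hcr₀⟩ := hRef P g T₀₀ ∅ h hT₀₀ (empty_subset _) HF
  have hF₀ : Flat P T₀ := hHF T₀ hT₀ hcr₀
  -- the systole
  obtain ⟨s, hs0, hS, x, L, hx, hp⟩ := hMin P g h (exists_path hReach hT₀ hF₀)
  obtain ⟨Hp, hHp⟩ := path_refine hPt hSeg h hx hp
  -- the key estimate for a given mesh
  have key : ∀ δ : ℝ, 0 < δ → 3 - 60 * δ ≤ s ∧
      8 * s ^ 2 - 8 * δ * s ≤ 6 * B * (volume {y : E | g y ≤ 1}).toReal := by
    intro δ hδ
    obtain ⟨Hm, hHm⟩ := hMesh P g h δ hδ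
    obtain ⟨T, -, -, hT, hcr⟩ := hRef P g T₀ ∅ h hT₀ (empty_subset _) (HF ∪ (Hp ∪ Hm))
    have hF : Flat P T := hHF T hT (NoCross_mono subset_union_left hcr)
    have hcr2 : ∀ h ∈ Hp ∪ Hm, NoCross T h := NoCross_mono subset_union_right hcr
    obtain ⟨⟨t, ht, hxt⟩, L', hp'⟩ := hHp T hT (NoCross_mono subset_union_left hcr2)
    have hmesh := hHm T hT (NoCross_mono subset_union_right hcr2)
    obtain ⟨k, G, hG⟩ := hSig P g T s h hT hF hS ⟨t, ht, x, hxt, L', hp'⟩
    obtain ⟨D, hcut, hsym⟩ := hExD P g T k G s h hT hG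
    have hedge : ∀ i : ℤ, ∃ t ∈ T, G i ∈ t ∧ G (i + 1) ∈ t := by
      intro i
      obtain ⟨t, ht, hsub, -⟩ := mem_edges.mp (hG.edge i)
      exact ⟨t, ht, hsub (by simp), hsub (by simp)⟩
    have hδ' : ∀ i : ℤ, wt g (G i) (G (i + 1)) ≤ δ := by
      intro i
      obtain ⟨t, ht, h1, h2⟩ := hedge i
      exact hmesh t ht _ h1 _ h2
    have hgG : ∀ i : ℤ, g (G i) = 1 := by
      intro i
      obtain ⟨t, ht, h1, -⟩ := hedge i
      exact hT.unit t ht _ h1
    constructor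
    · obtain ⟨hcl, hcov, hint⟩ := hCon P g T D (2 * k) G h hT hcut hsym
      have := hGirth P g h {y : E | ∃ t ∈ D, y ∈ cone t} k G δ hcl hcov hG.pos hδ hG.anti hgG hδ'
        hint
      rw [hG.len] at this
      exact this
    · obtain ⟨U, V, W, hU⟩ := exists_orient hOri hT.sph hT.fan
      have hcut' := (hDual E T D (2 * k) G hcut).1
      have h1 := half hCirc hDist hNI hLoc hOr h hT hF hG hS hcut hδ' hN hNx hNg hU hB
      have h2 := half hCirc hDist hNI hLoc hOr h hT hF hG hS hcut' hδ' hN hNx hNg hU hB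
      have h3 : ∑ t ∈ D, det3 (U t) (V t) (W t) + ∑ t ∈ T \ D, det3 (U t) (V t) (W t) =
          ∑ t ∈ T, |det3 (U t) (V t) (W t)| := by
        rw [add_comm, sum_sdiff hcut.sub]
        apply sum_congr rfl
        intro t ht
        rw [abs_of_pos (hU t ht).2]
      have h4 := hVol P g T h hT hF U V W (fun t ht => (hU t ht).1)
      have h5 : B * (∑ t ∈ D, det3 (U t) (V t) (W t) + ∑ t ∈ T \ D, det3 (U t) (V t) (W t)) ≤
          B * (6 * (volume {y : E | g y ≤ 1}).toReal) := by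
        rw [h3]
        exact mul_le_mul_of_nonneg_left h4 hB0
      rw [mul_add] at h5
      linarith
  -- conclude
  have hs3 : 3 ≤ s := by
    apply le_of_forall_pos_le_add
    intro ε hε
    have := (key (ε / 60) (by positivity)).1
    linarith
  have hfin : 8 * s ^ 2 ≤ 6 * B * (volume {y : E | g y ≤ 1}).toReal := by
    apply le_of_forall_pos_le_add
    intro ε hε
    have := (key (ε / (8 * s)) (by positivity)).2
    have e : 8 * (ε / (8 * s)) * s = ε := by field_simp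
    linarith
  nlinarith

end Pool.Agent.Lib.MP_87489e_co.HT
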