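import Mathlib
import Pool.Agent.Lib.MP_87489e_co.HT.A1
import Pool.Agent.Lib.MP_87489e_co.HT.A2
import Pool.Agent.Lib.MP_87489e_co.HT.A3
import Pool.Agent.Lib.MP_87489e_co.HT.A4
import Pool.Agent.Lib.MP_87489e_co.HT.A5
import Pool.Agent.Lib.MP_87489e_co.HT.A6
import Pool.Agent.Lib.MP_87489e_co.HT.A7
import Pool.Agent.Lib.MP_87489e_co.HT.B1
import Pool.Agent.Lib.MP_87489e_co.HT.B2
import Pool.Agent.Lib.MP_87489e_co.HT.B3
import Pool.Agent.Lib.MP_87489e_co.HT.B4
import Pool.Agent.Lib.MP_87489e_co.HT.B5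
import Pool.Agent.Lib.MP_87489e_co.HT.B6
import Pool.Agent.Lib.MP_87489e_co.HT.B7
import Pool.Agent.Lib.MP_87489e_co.HT.B8
import Pool.Agent.Lib.MP_87489e_co.HT.B9
import Pool.Agent.Lib.MP_87489e_co.HT.B11
import Pool.Agent.Lib.MP_87489e_co.HT.B12
import Pool.Agent.Lib.MP_87489e_co.HT.C1
import Pool.Agent.Lib.MP_87489e_co.HT.C2
import Pool.Agent.Lib.MP_87489e_co.HT.C3x70
import Pool.Agent.Lib.MP_87489e_co.HT.C4
import Pool.Agent.Lib.MP_87489e_co.HT.D1
import Pool.Agent.Lib.MP_87489e_co.HT.D2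
import Pool.Agent.Lib.MP_87489e_co.HT.F3
import Pool.Agent.Lib.MP_87489e_co.HT.F4
import Pool.Agent.Lib.MP_87489e_co.HT.F5
import Pool.Agent.Lib.MP_87489e_co.HT.Z1

set_option autoImplicit false

/-!
The core theorem, unconditionally.
-/

namespace Pool.Agent.Lib.MP_87489e_co.HT

theorem stCore : StCore := by
  have hRef := stRefine stSub stFanSub
  have h6 := stRef1 stSub stFanSub
  have h7 := stRef2 h6
  have h8 := stRef3 (stCutStep stSub) stFanSub h6
  have hSeg := stSeg stPoint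
  have hReach := stReach stDual
  exact core_of stDual hReach stExD (stBase stOct) stOri stVol hRef stFlat stMesh stPoint hSeg
    stMin stSigma stCones stGirth (stDist hReach)
    (stNI hRef h6 h7 h8 hSeg (stCross stDual) hReach) stLoc (stOrient) stCirc

end Pool.Agent.Lib.MP_87489e_co.HT
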