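import Mathlib
import Pool.Agent.Lib.MP_87489e_co.HT.Stmts
import Pool.Agent.Lib.MP_87489e_co.HT.Basic

set_option autoImplicit false

/-! B5: refinement of a symmetric complex by planes. -/

namespace Pool.Agent.Lib.MP_87489e_co.HT

open Finset

namespace B5

variable {P : Finset E} {g : E → ℝ} {T : Finset (Finset E)} {u v m : E}

theorem mem_sub {t' : Finset E} : t' ∈ sub T u v m ↔
    (t' ∈ T ∧ ¬ ({u, v} : Finset E) ⊆ t') ∨
    (∃ t ∈ T, ({u, v} : Finset E) ⊆ t ∧ t' = insert m (t.erase u)) ∨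
    (∃ t ∈ T, ({u, v} : Finset E) ⊆ t ∧ t' = insert m (t.erase v)) := by
  unfold sub
  simp only [mem_union, mem_filter, mem_image]
  constructor
  · rintro (h | ⟨t, h, rfl⟩ | ⟨t, h, rfl⟩)
    · exact Or.inl h
    · exact Or.inr (Or.inl ⟨t, h.1, h.2, rfl⟩)
    · exact Or.inr (Or.inr ⟨t, h.1, h.2, rfl⟩)
  · rintro (h | ⟨t, h1, h2, rfl⟩ | ⟨t, h1, h2, rfl⟩)
    · exact Or.inl h
    · exact Or.inr (Or.inl ⟨t, ⟨h1, h2⟩, rfl⟩)
    · exact Or.inr (Or.inr ⟨t, ⟨h1, h2⟩, rfl⟩)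

theorem pair_sub {t : Finset E} : ({u, v} : Finset E) ⊆ t ↔ u ∈ t ∧ v ∈ t := by
  rw [insert_subset_iff, singleton_subset_iff]

/-- crossing edges -/
noncomputable def crs (T : Finset (Finset E)) (h : E) : Finset (Finset E) := by
  classical
  exact (edges T).filter (fun e => ∃ x ∈ e, ∃ y ∈ e, h ⬝ᵥ x < 0 ∧ 0 < h ⬝ᵥ y)

theorem mem_crs {h : E} {e : Finset E} : e ∈ crs T h ↔
    e ∈ edges T ∧ ∃ x ∈ e, ∃ y ∈ e, h ⬝ᵥ x < 0 ∧ 0 < h ⬝ᵥ y := by
  classical
  unfold crs
  rw [mem_filter]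

theorem noCross_of_empty {h : E} (he : crs T h = ∅) : NoCross T h := by
  intro t ht
  by_contra hcon
  push Not at hcon
  obtain ⟨⟨x, hx, hx0⟩, y, hy, hy0⟩ := hcon
  have hne : x ≠ y := by rintro rfl; linarith
  have : ({x, y} : Finset E) ∈ crs T h := by
    rw [mem_crs]
    refine ⟨mem_edges.mpr ⟨t, ht, pair_sub.mpr ⟨hx, hy⟩, card_pair hne⟩, x, by simp, y, by simp,
      hx0, hy0⟩
  rw [he] at this
  simp at this

theorem crs_sub {h : E} (hm : h ⬝ᵥ m = 0) : crs (sub T u v m) h ⊆ (crs T h).erase {u, v} := by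
  intro e he
  rw [mem_crs, mem_edges] at he
  obtain ⟨⟨t', ht', het, hcard⟩, x, hx, y, hy, hx0, hy0⟩ := he
  have hne : x ≠ y := by rintro rfl; linarith
  have heq : e = {x, y} := by
    symm
    apply eq_of_subset_of_card_le (pair_sub.mpr ⟨hx, hy⟩)
    rw [hcard, card_pair hne]
  have hmx : m ≠ x := by rintro rfl; linarith
  have hmy : m ≠ y := by rintro rfl; linarith
  have hme : m ∉ e := by
    rw [heq]
    simp [hmx, hmy]
  rw [mem_erase, mem_crs, mem_edges]
  rw [mem_sub] at ht'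
  rcases ht' with ⟨h1, h2⟩ | ⟨t, h1, _, rfl⟩ | ⟨t, h1, _, rfl⟩
  · refine ⟨?_, ⟨t', h1, het, hcard⟩, x, hx, y, hy, hx0, hy0⟩
    rintro rfl
    exact h2 het
  · have hsub : e ⊆ t.erase u := by
      intro z hz
      rcases mem_insert.mp (het hz) with h | h
      · subst h; exact absurd hz hme
      · exact h
    refine ⟨?_, ⟨t, h1, hsub.trans (erase_subset _ _), hcard⟩, x, hx, y, hy, hx0, hy0⟩
    rintro rfl
    have := hsub (show u ∈ ({u, v} : Finset E) by simp)
    simp at this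
  · have hsub : e ⊆ t.erase v := by
      intro z hz
      rcases mem_insert.mp (het hz) with h | h
      · subst h; exact absurd hz hme
      · exact h
    refine ⟨?_, ⟨t, h1, hsub.trans (erase_subset _ _), hcard⟩, x, hx, y, hy, hx0, hy0⟩
    rintro rfl
    have := hsub (show v ∈ ({u, v} : Finset E) by simp)
    simp at this

theorem noCross_sub {h : E} {a b : ℝ} (ha : 0 < a) (hb : 0 < b) (hm : m = a • u + b • v)
    (hn : NoCross T h) : NoCross (sub T u v m) h := by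
  intro t' ht'
  have hdot : h ⬝ᵥ m = a * (h ⬝ᵥ u) + b * (h ⬝ᵥ v) := by
    rw [hm, dotProduct_add, dotProduct_smul, dotProduct_smul, smul_eq_mul, smul_eq_mul]
  rw [mem_sub] at ht'
  have key : ∀ t ∈ T, ({u, v} : Finset E) ⊆ t → ∀ w, (∀ z ∈ insert m (t.erase w), 0 ≤ h ⬝ᵥ z) ∨
      (∀ z ∈ insert m (t.erase w), h ⬝ᵥ z ≤ 0) := by
    intro t ht huv w
    rw [pair_sub] at huv
    rcases hn t ht with h1 | h1
    · left
      intro z hz
      rcases mem_insert.mp hz with h2 | h2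
      · rw [h2, hdot]
        have := h1 u huv.1
        have := h1 v huv.2
        positivity
      · exact h1 z (erase_subset _ _ h2)
    · right
      intro z hz
      rcases mem_insert.mp hz with h2 | h2
      · rw [h2, hdot]
        have := mul_nonneg ha.le (neg_nonneg.mpr (h1 u huv.1))
        have := mul_nonneg hb.le (neg_nonneg.mpr (h1 v huv.2))
        linarith
      · exact h1 z (erase_subset _ _ h2)
  rcases ht' with ⟨h1, h2⟩ | ⟨t, h1, h2, rfl⟩ | ⟨t, h1, h2, rfl⟩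
  · exact hn t' h1
  · exact key t h1 h2 u
  · exact key t h1 h2 v

theorem unit_sub (hT : ∀ t ∈ T, ∀ z ∈ t, g z = 1) (hm : g m = 1) :
    ∀ t ∈ sub T u v m, ∀ z ∈ t, g z = 1 := by
  intro t' ht' z hz
  rw [mem_sub] at ht'
  rcases ht' with ⟨h1, h2⟩ | ⟨t, h1, h2, rfl⟩ | ⟨t, h1, h2, rfl⟩
  · exact hT t' h1 z hz
  · rcases mem_insert.mp hz with h | h
    · rw [h, hm]
    · exact hT t h1 z (erase_subset _ _ h)
  · rcases mem_insert.mp hz with h | h
    · rw [h, hm]
    · exact hT t h1 z (erase_subset _ _ h)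

/-- no antipodal vertices in a triangle -/
theorem no_anti (hP : PN P g) (hC : Cx g T) {t : Finset E} (ht : t ∈ T) {x : E} (hx : x ∈ t)
    (hx' : -x ∈ t) : False := by
  classical
  have hx1 := hC.unit t ht x hx
  have hne : x ≠ -x := by
    intro h
    have h0 : x = 0 := by
      have : (2 : ℝ) • x = 0 := by
        have : (2 : ℝ) • x = x - (-x) := by module
        rw [this, ← h, sub_self]
      simpa using this
    rw [h0, hP.zero] at hx1
    norm_num at hx1
  have r1 : IsRep T (0 : E) (fun _ => 0) :=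
    ⟨fun _ => le_rfl, t, ht, fun _ _ => rfl, by simp⟩
  have r2 : IsRep T (0 : E) (fun z => if z = x ∨ z = -x then 1 else 0) := by
    refine ⟨fun z => ?_, t, ht, fun z hz => ?_, ?_⟩
    · dsimp only
      split_ifs <;> norm_num
    · dsimp only
      rw [if_neg]
      rintro (h | h)
      · exact hz (h ▸ hx)
      · exact hz (h ▸ hx')
    · have h1 : ∑ z ∈ t, (if z = x ∨ z = -x then (1 : ℝ) else 0) • z =
          ∑ z ∈ ({x, -x} : Finset E), (if z = x ∨ z = -x then (1 : ℝ) else 0) • z := by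
        symm
        apply sum_subset (pair_sub.mpr ⟨hx, hx'⟩)
        intro z _ hz
        simp only [mem_insert, mem_singleton] at hz
        rw [if_neg hz, zero_smul]
      rw [h1, sum_pair hne]
      simp
  have := congrFun ((hC.fan 0).unique r1 r2) x
  simp at this

/-- the antipodal triangle -/
noncomputable def ng (t : Finset E) : Finset E := t.image (fun v => -v)

theorem mem_ng {t : Finset E} {x : E} : x ∈ ng t ↔ -x ∈ t := by
  unfold ng
  rw [mem_image]
  constructor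
  · rintro ⟨y, hy, rfl⟩; rwa [neg_neg]
  · intro h; exact ⟨-x, h, neg_neg x⟩

theorem ng_insert (t : Finset E) (x w : E) :
    ng (insert x (t.erase w)) = insert (-x) ((ng t).erase (-w)) := by
  ext z
  simp only [mem_ng, mem_insert, mem_erase]
  constructor
  · rintro (h | ⟨h1, h2⟩)
    · left; rw [← h, neg_neg]
    · right; exact ⟨fun h => h1 (by rw [h, neg_neg]), h2⟩
  · rintro (h | ⟨h1, h2⟩)
    · left; rw [h, neg_neg]
    · right; exact ⟨fun h => h1 (by rw [← h, neg_neg]), h2⟩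

/-- the symmetric double step -/
theorem double (hS : StSub) (hF : StFanSub) (hP : PN P g) (hC : Cx g T) {a b : ℝ} (huv : u ≠ v)
    (he : ({u, v} : Finset E) ∈ edges T) (ha : 0 < a) (hb : 0 < b) (hm : m = a • u + b • v)
    (hg : g m = 1) :
    ({-u, -v} : Finset E) ∈ edges (sub T u v m) ∧
      Cx g (sub (sub T u v m) (-u) (-v) (-m)) := by
  obtain ⟨f1, f2⟩ := hF T u v m a b hC.sph.card3 hC.fan huv he ha hb hm
  have s1 : Sph (sub T u v m) := hS E T u v m hC.sph huv he f1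
  obtain ⟨t₀, ht₀, het₀, -⟩ := mem_edges.mp he
  rw [pair_sub] at het₀
  have hnt₀ : ng t₀ ∈ T := hC.symm t₀ ht₀
  have hu₀ : -u ∈ ng t₀ := by rw [mem_ng, neg_neg]; exact het₀.1
  have hv₀ : -v ∈ ng t₀ := by rw [mem_ng, neg_neg]; exact het₀.2
  have hmu : -u ≠ m := fun h => f1 _ hnt₀ (h ▸ hu₀)
  have hmv : -v ≠ m := fun h => f1 _ hnt₀ (h ▸ hv₀)
  have hnuv : (-u : E) ≠ -v := fun h => huv (neg_injective h)
  have hnosub : ∀ t ∈ T, ({-u, -v} : Finset E) ⊆ t → ¬ ({u, v} : Finset E) ⊆ t := by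
    intro t ht h1 h2
    exact no_anti hP hC ht (pair_sub.mp h2).1 (pair_sub.mp h1).1
  have hedge : ({-u, -v} : Finset E) ∈ edges (sub T u v m) := by
    rw [mem_edges]
    refine ⟨ng t₀, ?_, pair_sub.mpr ⟨hu₀, hv₀⟩, card_pair hnuv⟩
    rw [mem_sub]
    exact Or.inl ⟨hnt₀, hnosub _ hnt₀ (pair_sub.mpr ⟨hu₀, hv₀⟩)⟩
  have hm' : -m = a • (-u) + b • (-v) := by rw [hm]; module
  obtain ⟨f3, f4⟩ := hF _ (-u) (-v) (-m) a b s1.card3 f2 hnuv hedge ha hb hm'
  refine ⟨hedge, hS E _ _ _ _ s1 hnuv hedge f3, f4, ?_, ?_⟩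
  · exact unit_sub (unit_sub hC.unit hg) (by rw [hP.neg', hg])
  · -- new triangles of the first step do not contain both antipodes
    have hnew : ∀ t ∈ T, ({u, v} : Finset E) ⊆ t → ∀ w, ¬ ({-u, -v} : Finset E) ⊆ insert m (t.erase w) := by
      intro t ht h1 w h2
      rw [pair_sub] at h1 h2
      rcases mem_insert.mp h2.1 with h3 | h3
      · exact hmu h3
      · exact no_anti hP hC ht h1.1 (mem_of_mem_erase h3)
    have hsymm1 : ∀ t ∈ T, ({u, v} : Finset E) ⊆ t → ng t ∈ T ∧ ({-u, -v} : Finset E) ⊆ ng t := by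
      intro t ht h1
      rw [pair_sub] at h1
      refine ⟨hC.symm t ht, pair_sub.mpr ⟨?_, ?_⟩⟩
      · rw [mem_ng, neg_neg]; exact h1.1
      · rw [mem_ng, neg_neg]; exact h1.2
    have hsymm2 : ∀ t ∈ T, ({-u, -v} : Finset E) ⊆ t → ng t ∈ T ∧ ({u, v} : Finset E) ⊆ ng t := by
      intro t ht h1
      rw [pair_sub] at h1
      exact ⟨hC.symm t ht, pair_sub.mpr ⟨mem_ng.mpr h1.1, mem_ng.mpr h1.2⟩⟩
    have hA : ∀ t ∈ T, ({u, v} : Finset E) ⊆ t → ∀ w, w = u ∨ w = v →
        ng (insert m (t.erase w)) ∈ sub (sub T u v m) (-u) (-v) (-m) := by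
      intro t ht h1 w hw
      obtain ⟨h2, h3⟩ := hsymm1 t ht h1
      have h4 : ng t ∈ sub T u v m := mem_sub.mpr (Or.inl ⟨h2, hnosub _ h2 h3⟩)
      rw [ng_insert, mem_sub]
      rcases hw with rfl | rfl
      · exact Or.inr (Or.inl ⟨ng t, h4, h3, rfl⟩)
      · exact Or.inr (Or.inr ⟨ng t, h4, h3, rfl⟩)
    have hB : ∀ t ∈ sub T u v m, ({-u, -v} : Finset E) ⊆ t → t ∈ T := by
      intro t ht h1
      rcases mem_sub.mp ht with h | ⟨t1, ht1, h2, rfl⟩ | ⟨t1, ht1, h2, rfl⟩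
      · exact h.1
      · exact absurd h1 (hnew t1 ht1 h2 u)
      · exact absurd h1 (hnew t1 ht1 h2 v)
    intro t' ht'
    show ng t' ∈ _
    rcases mem_sub.mp ht' with ⟨h1, h2⟩ | ⟨t, h1, h2, rfl⟩ | ⟨t, h1, h2, rfl⟩
    · rcases mem_sub.mp h1 with ⟨h3, h4⟩ | ⟨t, h3, h4, rfl⟩ | ⟨t, h3, h4, rfl⟩
      · have h5 : ng t' ∈ T := hC.symm t' h3
        rw [mem_sub]
        refine Or.inl ⟨mem_sub.mpr (Or.inl ⟨h5, ?_⟩), ?_⟩
        · intro h6
          apply h2
          rw [pair_sub, mem_ng, mem_ng] at h6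
          exact pair_sub.mpr h6
        · intro h6
          apply h4
          rw [pair_sub, mem_ng, mem_ng, neg_neg, neg_neg] at h6
          exact pair_sub.mpr h6
      · exact hA t h3 h4 u (Or.inl rfl)
      · exact hA t h3 h4 v (Or.inr rfl)
    · have h3 := hB t h1 h2
      obtain ⟨h4, h5⟩ := hsymm2 t h3 h2
      rw [ng_insert, neg_neg, neg_neg, mem_sub]
      exact Or.inl ⟨mem_sub.mpr (Or.inr (Or.inl ⟨ng t, h4, h5, rfl⟩)), hnew _ h4 h5 u⟩
    · have h3 := hB t h1 h2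
      obtain ⟨h4, h5⟩ := hsymm2 t h3 h2
      rw [ng_insert, neg_neg, neg_neg, mem_sub]
      exact Or.inl ⟨mem_sub.mpr (Or.inr (Or.inr ⟨ng t, h4, h5, rfl⟩)), hnew _ h4 h5 v⟩

/-- one form -/
theorem one (hS : StSub) (hF : StFanSub) (hP : PN P g) (T D : Finset (Finset E)) (h : E)
    (Hs : Finset E) : ∀ (n : ℕ) (T₁ D₁ : Finset (Finset E)), (crs T₁ h).card = n →
    Ref g T D T₁ D₁ → Cx g T₁ → (∀ h' ∈ Hs, NoCross T₁ h') →
    ∃ T' D' : Finset (Finset E), Ref g T D T' D' ∧ Cx g T' ∧ NoCross T' h ∧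
      ∀ h' ∈ Hs, NoCross T' h' := by
  intro n
  induction n using Nat.strong_induction_on with
  | _ n ih =>
    intro T₁ D₁ hn hR hC hH
    rcases (crs T₁ h).eq_empty_or_nonempty with h0 | ⟨e, he⟩
    · exact ⟨T₁, D₁, hR, hC, noCross_of_empty h0, hH⟩
    · obtain ⟨hedge, x, hx, y, hy, hx0, hy0⟩ := mem_crs.mp he
      obtain ⟨t, ht, het, hcard⟩ := mem_edges.mp hedge
      have hne : x ≠ y := by rintro rfl; linarith
      have heq : e = {x, y} := by
        symm
        apply eq_of_subset_of_card_le (pair_sub.mpr ⟨hx, hy⟩)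
        rw [hcard, card_pair hne]
      subst heq
      have hxu := hC.unit t ht x (het hx)
      have hyu := hC.unit t ht y (het hy)
      set m₀ : E := (h ⬝ᵥ y) • x + (-(h ⬝ᵥ x)) • y with hm₀
      have hx0' : 0 < -(h ⬝ᵥ x) := by linarith
      have hm0 : m₀ ≠ 0 := by
        intro hz
        have e1 : (h ⬝ᵥ y) • x = (-(h ⬝ᵥ x)) • (-y) := by
          have := hz
          rw [hm₀] at this
          rw [smul_neg]
          exact eq_neg_of_add_eq_zero_left this
        have e2 := congrArg g e1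
        rw [hP.smul hy0.le, hP.smul hx0'.le, hP.neg', hxu, hyu, mul_one, mul_one] at e2
        rw [e2] at e1
        have e3 : x = -y := smul_right_injective E hx0'.ne' e1
        apply no_anti hP hC ht (het hy)
        rw [← e3]
        exact het hx
      have hg0 : 0 < g m₀ := hP.pos m₀ hm0
      set m : E := (g m₀)⁻¹ • m₀ with hmdef
      have hgm : g m = 1 := by
        rw [hmdef, hP.smul (inv_nonneg.mpr hg0.le)]
        field_simp
      have hm : m = ((g m₀)⁻¹ * (h ⬝ᵥ y)) • x + ((g m₀)⁻¹ * (-(h ⬝ᵥ x))) • y := by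
        rw [hmdef, hm₀, smul_add, smul_smul, smul_smul]
      have ha : 0 < (g m₀)⁻¹ * (h ⬝ᵥ y) := mul_pos (inv_pos.mpr hg0) hy0
      have hb : 0 < (g m₀)⁻¹ * (-(h ⬝ᵥ x)) := mul_pos (inv_pos.mpr hg0) hx0'
      have hhm : h ⬝ᵥ m = 0 := by
        rw [hm, dotProduct_add, dotProduct_smul, dotProduct_smul, smul_eq_mul, smul_eq_mul]
        ring
      obtain ⟨d1, d2⟩ := double hS hF hP hC hne hedge ha hb hm hgm
      have hnxy : (-x : E) ≠ -y := fun h => hne (neg_injective h)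
      have hm' : -m = ((g m₀)⁻¹ * (h ⬝ᵥ y)) • (-x) + ((g m₀)⁻¹ * (-(h ⬝ᵥ x))) • (-y) := by
        rw [hm]; module
      have hgm' : g (-m) = 1 := by rw [hP.neg', hgm]
      have R1 := Ref.step hR hne hedge ha hb hm hgm
      have R2 := Ref.step R1 hnxy d1 ha hb hm' hgm'
      have hlt : (crs (sub (sub T₁ x y m) (-x) (-y) (-m)) h).card < n := by
        have c1 : crs (sub (sub T₁ x y m) (-x) (-y) (-m)) h ⊆ crs (sub T₁ x y m) h :=
          (crs_sub (by rw [dotProduct_neg, hhm, neg_zero])).trans (erase_subset _ _)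
        have c2 : crs (sub T₁ x y m) h ⊆ (crs T₁ h).erase {x, y} := crs_sub hhm
        calc (crs (sub (sub T₁ x y m) (-x) (-y) (-m)) h).card
            ≤ ((crs T₁ h).erase {x, y}).card := card_le_card (c1.trans c2)
          _ < (crs T₁ h).card := card_erase_lt_of_mem he
          _ = n := hn
      exact ih _ hlt _ _ rfl R2 d2
        (fun h' hh' => noCross_sub ha hb hm' (noCross_sub ha hb hm (hH h' hh')))

end B5

open B5 in
/-- B5 -/
theorem stRefine (hS : StSub) (hF : StFanSub) : StRefine := by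
  classical
  intro P g T D hP hC _ Hs
  induction Hs using Finset.induction_on with
  | empty => exact ⟨T, D, Ref.refl, hC, by simp⟩
  | insert h Hs _ ih =>
    obtain ⟨T₁, D₁, hR, hC₁, hH⟩ := ih
    obtain ⟨T', D', r1, r2, r3, r4⟩ := one hS hF hP T D h Hs _ T₁ D₁ rfl hR hC₁ hH
    refine ⟨T', D', r1, r2, ?_⟩
    intro h' hh'
    rcases mem_insert.mp hh' with rfl | h''
    · exact r3
    · exact r4 h' h''

end Pool.Agent.Lib.MP_87489e_co.HT
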