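import Mathlib
import Pool.Agent.Lib.MP_87489e_co.HT.Stmts
import Pool.Agent.Lib.MP_87489e_co.Coord
import Pool.Agent.Lib.MP_87489e_co.Ord.Ray

set_option autoImplicit false

/-!
G1: the area of the projection of a convex body is at most `3/4` of the volume of a hull.
-/

namespace Pool.Agent.Lib.MP_87489e_co.HT.G1

open MeasureTheory Set Pointwise Pool.Agent.Lib.MP_87489e_co
open scoped Topology

/-- the matrix with rows `u`, `v - u`, `w - u` -/
def Mx (u v w : E) : Matrix (Fin 3) (Fin 3) ℝ := Matrix.of ![u, v - u, w - u]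

theorem Mx_det (u v w : E) : (Mx u v w).det = det3 u v w := by
  simp only [Mx, Matrix.det_fin_three, det3, crossProduct, Matrix.of_apply, dotProduct,
    Fin.sum_univ_three, Matrix.cons_val_zero, Matrix.cons_val_one, LinearMap.mk₂_apply,
    Matrix.cons_val, Pi.sub_apply]
  ring

theorem toLin_apply (u v w x : E) (i : Fin 3) :
    Matrix.toLin' (Mx u v w) x i = ![u, v - u, w - u] i ⬝ᵥ x := by
  rw [Matrix.toLin'_apply]
  rfl

/-- the planar volume of the projection -/
theorem proj_volume (u v w : E) (K : Set E) :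
    volume (Mt u v w '' K) =
      volume (Prod.snd '' (hatL 2 '' (Matrix.toLin' (Mx u v w) '' K))) := by
  have h := (volume_preserving_finTwoArrow ℝ).measure_preimage_equiv (Mt u v w '' K)
  rw [← h]
  congr 1
  ext y
  simp only [mem_preimage, mem_image, exists_exists_and_eq_and]
  constructor
  · rintro ⟨x, hx, he⟩
    refine ⟨x, hx, ?_⟩
    have h1 : x ⬝ᵥ (v - u) = y 0 := congrArg Prod.fst he
    have h2 : x ⬝ᵥ (w - u) = y 1 := congrArg Prod.snd he
    funext i
    fin_cases i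
    · change Matrix.toLin' (Mx u v w) x 1 = y 0
      rw [toLin_apply, ← h1, dotProduct_comm]
      rfl
    · change Matrix.toLin' (Mx u v w) x 2 = y 1
      rw [toLin_apply, ← h2, dotProduct_comm]
      rfl
  · rintro ⟨x, hx, rfl⟩
    refine ⟨x, hx, ?_⟩
    change (x ⬝ᵥ (v - u), x ⬝ᵥ (w - u)) = (Matrix.toLin' (Mx u v w) x 1,
      Matrix.toLin' (Mx u v w) x 2)
    rw [toLin_apply, toLin_apply, dotProduct_comm x, dotProduct_comm x]
    rfl

end Pool.Agent.Lib.MP_87489e_co.HT.G1

namespace Pool.Agent.Lib.MP_87489e_co.HT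

open MeasureTheory Set Pointwise Pool.Agent.Lib.MP_87489e_co G1
open scoped Topology

theorem stArea : StArea := by
  intro K hKc hK hKi p hp u v w hpu hpv hpw hdet
  have hdet' : LinearMap.det (Matrix.toLin' (Mx u v w)) = det3 u v w := by
    rw [LinearMap.det_toLin', Mx_det]
  have hne : LinearMap.det (Matrix.toLin' (Mx u v w)) ≠ 0 := by
    rw [hdet']; exact hdet.ne'
  let A : (Fin 3 → ℝ) ≃ₗ[ℝ] (Fin 3 → ℝ) := LinearMap.equivOfDetNeZero _ hne
  have hAL : (A : (Fin 3 → ℝ) →ₗ[ℝ] (Fin 3 → ℝ)) = Matrix.toLin' (Mx u v w) := rfl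
  have hAx : ∀ x, A x = Matrix.toLin' (Mx u v w) x := fun x => rfl
  set K' := A '' K with hK'
  have hK'c : IsCompact K' := hKc.image (LinearMap.continuous_of_finiteDimensional
    (A : (Fin 3 → ℝ) →ₗ[ℝ] (Fin 3 → ℝ)))
  have hK'x : Convex ℝ K' := hK.linear_image (A : (Fin 3 → ℝ) →ₗ[ℝ] (Fin 3 → ℝ))
  have hAp : A p = Pi.single 0 1 := by
    funext i
    rw [hAx, toLin_apply]
    fin_cases i
    · change u ⬝ᵥ p = _
      rw [dotProduct_comm, hpu]
      simp
    · change (v - u) ⬝ᵥ p = _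
      rw [sub_dotProduct, dotProduct_comm, dotProduct_comm u, hpu, hpv]
      simp
    · change (w - u) ⬝ᵥ p = _
      rw [sub_dotProduct, dotProduct_comm, dotProduct_comm u, hpu, hpw]
      simp
  obtain ⟨a, ha, b, hb, hab⟩ := hp
  have hab' : b + p = a := by rw [← hab]; simp
  have hb' : A b ∈ K' := ⟨b, hb, rfl⟩
  have hb1 : A b + Pi.single 0 1 ∈ K' := by
    rw [← hAp, ← map_add, hab']
    exact ⟨a, ha, rfl⟩
  -- the hull
  set Kh := hatL 2 '' K' with hKh
  have hKhc : IsCompact Kh := hK'c.image (hatL_cont 2)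
  have hKhx : Convex ℝ Kh := hK'x.linear_image (hatL 2)
  have h0 : ((hatL 2 (A b)).1, (hatL 2 (A b)).2) ∈ Kh := ⟨_, hb', rfl⟩
  have h1 : ((hatL 2 (A b)).1 + 1, (hatL 2 (A b)).2) ∈ Kh := by
    refine ⟨_, hb1, ?_⟩
    rw [map_add, hat_single_zero]
    ext
    · simp
    · simp
  have hproj := proj_le (volume : Measure (Fin 2 → ℝ)) hKhc hKhx h0 h1
  rw [hat_volume] at hproj
  have hvol : volume (convexHull ℝ (K' ∪ ((Pi.single 0 1 : Fin 3 → ℝ) +ᵥ K'))) =
      volume K' + volume (Prod.snd '' Kh) := by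
    rw [← hat_volume, hat_hull, hull_volume _ hKhc hKhx, hat_volume]
  have hsup : volume (convexHull ℝ (K' ∪ ((Pi.single 0 1 : Fin 3 → ℝ) +ᵥ K'))) ≤ supHull K' :=
    le_iSup_of_le _ (le_iSup_of_le (chord_meets hb' hb1) le_rfl)
  have hlin := supHull_linear A.symm K'
  have hback : A.symm '' K' = K := by
    rw [hK', image_image]
    simp
  rw [hback] at hlin
  have hds : LinearMap.det (A.symm : (Fin 3 → ℝ) →ₗ[ℝ] (Fin 3 → ℝ)) = (det3 u v w)⁻¹ := by
    have h := LinearEquiv.det_symm_mul_det A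
    rw [hAL, hdet'] at h
    exact eq_inv_of_mul_eq_one_left h
  rw [hds, abs_of_pos (inv_pos.mpr hdet)] at hlin
  -- finiteness
  have hS : supHull K ≠ ⊤ := Ord.supHull_ne_top hKc hK
  have hS' : supHull K' ≠ ⊤ := Ord.supHull_ne_top hK'c hK'x
  have hVp : volume K' ≠ ⊤ := hK'c.measure_lt_top.ne
  have hPp : volume (Prod.snd '' Kh) ≠ ⊤ := (hKhc.image continuous_snd).measure_lt_top.ne
  have e1 : (volume (Prod.snd '' Kh)).toReal ≤ 3 * (volume K').toReal := by
    have h := ENNReal.toReal_mono (ENNReal.mul_ne_top (ENNReal.natCast_ne_top _) hVp) hproj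
    rw [ENNReal.toReal_mul] at h
    simpa using h
  have e2 : (volume K').toReal + (volume (Prod.snd '' Kh)).toReal ≤ (supHull K').toReal := by
    rw [← ENNReal.toReal_add hVp hPp, ← hvol]
    exact ENNReal.toReal_mono hS' hsup
  have e3 : (det3 u v w)⁻¹ * (supHull K').toReal ≤ (supHull K).toReal := by
    have h := ENNReal.toReal_mono hS hlin
    rw [ENNReal.toReal_mul, ENNReal.toReal_ofReal (inv_pos.mpr hdet).le] at h
    exact h
  have e4 : (supHull K').toReal ≤ det3 u v w * (supHull K).toReal := by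
    have h := mul_le_mul_of_nonneg_left e3 hdet.le
    rwa [← mul_assoc, mul_inv_cancel₀ hdet.ne', one_mul] at h
  have e5 : volume (Mt u v w '' K) = volume (Prod.snd '' Kh) := by
    rw [proj_volume]
    rfl
  rw [e5]
  nlinarith

end Pool.Agent.Lib.MP_87489e_co.HT
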