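import Mathlib
import Pool.Agent.Lib.MP_87489e_co.HT.Stmts
import Pool.Agent.Lib.MP_87489e_co.Ord.Bound
import Pool.Agent.Lib.MP_87489e_co.Ord.Main
import Pool.Agent.Lib.MP_87489e_co.Ord.Mono
import Pool.Agent.Lib.MP_87489e_co.Ord.Model
import Pool.Agent.Lib.MP_87489e_co.Ord.Polar
import Pool.Agent.Lib.MP_87489e_co.Ord.Cov
import Pool.Agent.Lib.MP_87489e_co.Ord.Hom
import Pool.Agent.Lib.MP_87489e_co.Ord.Union

set_option autoImplicit false

/-!
G2: the planar difference body inequality.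
-/

namespace Pool.Agent.Lib.MP_87489e_co.HT.G2

open MeasureTheory Set Pointwise Pool.Agent.Lib.MP_87489e_co

theorem ray : Ord.StRay := Ord.stRay Ord.stUnion Ord.stHom

theorem mainIneq : Ord.StMain :=
  Ord.stMain Ord.stPolar Ord.stCov ray Ord.stRadial Ord.stModel Ord.stMono

theorem planar {K : Set (Fin 2 → ℝ)} (hKc : IsCompact K) (hKx : Convex ℝ K)
    (hKi : (interior K).Nonempty) : (volume (K - K)).toReal ≤ 6 * (volume K).toReal := by
  obtain ⟨hS, hm⟩ := mainIneq 2 K le_rfl hKc hKx hKi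
  have hV := Ord.vol_pos hKc hKi
  have hgap := Ord.hull_gap ray Ord.stRadial le_rfl hKc hKx hKi
  set V := (volume K).toReal
  set S := (supHull K).toReal
  set D := (volume (K - K)).toReal
  have hD : 0 ≤ D := ENNReal.toReal_nonneg
  have hmo := Ord.stMono 2 V (S - V) (2 * V) (by norm_num) hV (by linarith)
    (by push_cast at hS; linarith) (by push_cast; linarith)
  have hlow : Ord.low 2 V (2 * V) = V / 6 := by
    rw [Ord.low]
    have : ((2 : ℕ).centralBinom : ℝ) = 6 := by
      norm_num [Nat.centralBinom, Nat.choose]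
    rw [this]
    push_cast
    field_simp
    ring
  rw [hlow] at hmo
  have h1 : D * (V / 6) ≤ V ^ 2 := (mul_le_mul_of_nonneg_left hmo hD).trans hm
  have h2 : V * D ≤ V * (6 * V) := by nlinarith
  exact le_of_mul_le_mul_left h2 hV

end Pool.Agent.Lib.MP_87489e_co.HT.G2

namespace Pool.Agent.Lib.MP_87489e_co.HT

open MeasureTheory Set Pointwise Pool.Agent.Lib.MP_87489e_co

theorem stRS : StRS := by
  intro A hAc hAx hAi
  let e : (Fin 2 → ℝ) ≃L[ℝ] ℝ × ℝ := ContinuousLinearEquiv.finTwoArrow ℝ ℝ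
  have hvol : ∀ B : Set (ℝ × ℝ), volume (e ⁻¹' B) = volume B := by
    intro B
    exact (volume_preserving_finTwoArrow ℝ).measure_preimage_equiv B
  have hdiff : e ⁻¹' A - e ⁻¹' A = e ⁻¹' (A - A) := by
    ext x
    simp only [mem_sub, mem_preimage]
    constructor
    · rintro ⟨a, ha, b, hb, rfl⟩
      exact ⟨e a, ha, e b, hb, (map_sub e a b).symm⟩
    · rintro ⟨a, ha, b, hb, h⟩
      refine ⟨e.symm a, by simpa using ha, e.symm b, by simpa using hb, ?_⟩
      rw [← map_sub, h, e.symm_apply_apply]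
  have h := G2.planar (K := e ⁻¹' A) (e.toHomeomorph.isCompact_preimage.mpr hAc)
    (hAx.linear_preimage (e : (Fin 2 → ℝ) →ₗ[ℝ] ℝ × ℝ)) ?_
  · rw [hdiff, hvol, hvol] at h
    exact h
  · have h1 : e ⁻¹' (interior A) = interior (e ⁻¹' A) := e.toHomeomorph.preimage_interior A
    rw [← h1]
    exact hAi.preimage e.surjective

end Pool.Agent.Lib.MP_87489e_co.HT
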