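import Mathlib
import Pool.Agent.Lib.MP_87489e_co.HT.Stmts
import Pool.Agent.Lib.MP_87489e_co.HT.Basic

set_option autoImplicit false

/-! G3: approximation of a symmetric convex body by polyhedral norms with vertices in it. -/

namespace Pool.Agent.Lib.MP_87489e_co.HT

open Finset MeasureTheory
open scoped Topology Pointwise

namespace G3

/-- the l1 norm -/
def l1 (y : E) : ℝ := ∑ i, |y i|

theorem l1_nonneg (y : E) : 0 ≤ l1 y := sum_nonneg fun _ _ => abs_nonneg _

theorem l1_pos (y : E) (hy : y ≠ 0) : 0 < l1 y := by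
  obtain ⟨i, hi⟩ := Function.ne_iff.mp hy
  have h1 : |y i| ≤ l1 y := single_le_sum (f := fun i => |y i|) (fun _ _ => abs_nonneg _) (mem_univ i)
  have h2 : 0 < |y i| := abs_pos.mpr hi
  linarith

theorem dot_le (x y : E) (ρ : ℝ) (hx : ‖x‖ ≤ ρ) : x ⬝ᵥ y ≤ ρ * l1 y := by
  unfold dotProduct l1
  rw [mul_sum]
  apply sum_le_sum
  intro i _
  calc x i * y i ≤ |x i * y i| := le_abs_self _
    _ = |x i| * |y i| := abs_mul _ _
    _ ≤ ρ * |y i| := by
        apply mul_le_mul_of_nonneg_right _ (abs_nonneg _)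
        exact (norm_le_pi_norm x i).trans hx

/-- the sign vector -/
noncomputable def sv (r : ℝ) (y : E) : E := fun i => if 0 ≤ y i then r else -r

theorem sv_dot (r : ℝ) (y : E) : sv r y ⬝ᵥ y = r * l1 y := by
  unfold dotProduct l1 sv
  rw [mul_sum]
  apply sum_congr rfl
  intro i _
  split_ifs with h
  · rw [abs_of_nonneg h]
  · rw [abs_of_neg (not_le.mp h)]; ring

theorem sv_norm (r : ℝ) (hr : 0 ≤ r) (y : E) : ‖sv r y‖ ≤ r := by
  rw [pi_norm_le_iff_of_nonneg hr]
  intro i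
  unfold sv
  split_ifs
  · rw [Real.norm_eq_abs, abs_of_nonneg hr]
  · rw [Real.norm_eq_abs, abs_neg, abs_of_nonneg hr]

end G3

open G3 in
/-- G3 -/
theorem stApprox : StApprox := by
  classical
  intro N hN h0 hneg ε hε
  obtain ⟨r, hr, hball⟩ := Metric.nhds_basis_closedBall.mem_iff.mp h0
  set δ : ℝ := min 1 (ε / 7) with hδ
  have hδ0 : 0 < δ := lt_min one_pos (by positivity)
  have hδ1 : δ ≤ 1 := min_le_left _ _
  have hδ2 : δ ≤ ε / 7 := min_le_right _ _
  set ρ : ℝ := r * δ / (1 + δ) with hρ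
  have hρ0 : 0 < ρ := by positivity
  have hrρ : r - ρ = r / (1 + δ) := by rw [hρ]; field_simp; ring
  have hrρ0 : 0 < r - ρ := by rw [hrρ]; positivity
  obtain ⟨F, hFN, hFfin, hcov⟩ := hN.finite_cover_balls hρ0
  set P : Finset E := hFfin.toFinset ∪ hFfin.toFinset.image (fun x => -x) with hP
  have hPN : ∀ p ∈ P, p ∈ N := by
    intro p hp
    rw [hP, mem_union, mem_image] at hp
    rcases hp with h | ⟨q, h, rfl⟩
    · exact hFN (hFfin.mem_toFinset.mp h)
    · exact hneg q (hFN (hFfin.mem_toFinset.mp h))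
  have hPneg : ∀ p ∈ P, -p ∈ P := by
    intro p hp
    rw [hP, mem_union, mem_image] at hp ⊢
    rcases hp with h | ⟨q, h, rfl⟩
    · exact Or.inr ⟨p, h, rfl⟩
    · rw [neg_neg]; exact Or.inl h
  have hnet : ∀ x ∈ N, ∃ p ∈ P, ‖x - p‖ ≤ ρ := by
    intro x hx
    obtain ⟨p, hp, hxp⟩ := Set.mem_iUnion₂.mp (hcov hx)
    refine ⟨p, ?_, ?_⟩
    · rw [hP, mem_union]; exact Or.inl (hFfin.mem_toFinset.mpr hp)
    · rw [← dist_eq_norm]; exact (Metric.mem_ball.mp hxp).le
  have hne : P.Nonempty := by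
    obtain ⟨p, hp, -⟩ := hnet 0 (mem_of_mem_nhds h0)
    exact ⟨p, hp⟩
  set g : E → ℝ := fun y => P.sup' hne (fun p => p ⬝ᵥ y) with hg
  have hle : ∀ p ∈ P, ∀ y, p ⬝ᵥ y ≤ g y := fun p hp y =>
    le_sup' (f := fun p : E => p ⬝ᵥ y) hp
  have hsup : ∀ x ∈ N, ∀ y, x ⬝ᵥ y ≤ g y + ρ * l1 y := by
    intro x hx y
    obtain ⟨p, hp, hxp⟩ := hnet x hx
    have h1 := dot_le (x - p) y ρ hxp
    rw [sub_dotProduct] at h1
    have h2 := hle p hp y
    linarith
  have hlow : ∀ y, (r - ρ) * l1 y ≤ g y := by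
    intro y
    have h1 := hsup (sv r y) (hball (by
      rw [mem_closedBall_zero_iff]; exact sv_norm r hr.le y)) y
    rw [sv_dot] at h1
    linarith
  have hPNg : PN P g := by
    refine ⟨hle, ?_, hPneg, ?_⟩
    · intro y
      obtain ⟨p, hp, he⟩ := exists_mem_eq_sup' hne (fun p : E => p ⬝ᵥ y)
      exact ⟨p, hp, he.symm⟩
    · intro y hy
      have := hlow y
      have h1 := mul_pos hrρ0 (l1_pos y hy)
      linarith
  refine ⟨P, g, hPNg, hPN, ?_⟩
  have hpolfin : volume (pol N) ≠ ⊤ := by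
    have hsub : pol N ⊆ Metric.closedBall (0 : E) (1 / r) := by
      intro y hy
      rw [mem_closedBall_zero_iff, pi_norm_le_iff_of_nonneg (by positivity)]
      intro i
      have h1 := hy (sv r y) (hball (by
        rw [mem_closedBall_zero_iff]; exact sv_norm r hr.le y))
      rw [sv_dot] at h1
      have h2 : |y i| ≤ l1 y :=
        single_le_sum (f := fun i => |y i|) (fun _ _ => abs_nonneg _) (mem_univ i)
      rw [Real.norm_eq_abs, le_div_iff₀ hr]
      nlinarith
    exact ((measure_mono hsub).trans_lt (isCompact_closedBall 0 (1 / r)).measure_lt_top).ne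
  have hsub : {y : E | g y ≤ 1} ⊆ (1 + δ) • pol N := by
    intro y hy
    have hy' : g y ≤ 1 := hy
    rw [Set.mem_smul_set]
    refine ⟨(1 + δ)⁻¹ • y, ?_, by rw [smul_smul, mul_inv_cancel₀ (by positivity), one_smul]⟩
    intro x hx
    have h1 := hsup x hx y
    have h2 := hlow y
    rw [hrρ] at h2
    have h3 : ρ * l1 y ≤ δ * g y := by
      have e : ρ * l1 y = δ * (r / (1 + δ) * l1 y) := by rw [hρ]; ring
      rw [e]
      exact mul_le_mul_of_nonneg_left h2 hδ0.le
    have h4 : δ * g y ≤ δ := by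
      calc δ * g y ≤ δ * 1 := mul_le_mul_of_nonneg_left hy' hδ0.le
        _ = δ := mul_one δ
    rw [dotProduct_smul, smul_eq_mul, inv_mul_le_iff₀ (by positivity)]
    linarith
  have h1 : volume {y : E | g y ≤ 1} ≤ ENNReal.ofReal ((1 + δ) ^ 3) * volume (pol N) := by
    refine (measure_mono hsub).trans (le_of_eq ?_)
    rw [Measure.addHaar_smul]
    have : Module.finrank ℝ E = 3 := by simp [E]
    rw [this, abs_of_pos (by positivity)]
  have h2 := ENNReal.toReal_mono (ENNReal.mul_ne_top ENNReal.ofReal_ne_top hpolfin) h1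
  rw [ENNReal.toReal_mul, ENNReal.toReal_ofReal (by positivity)] at h2
  refine h2.trans ?_
  apply mul_le_mul_of_nonneg_right _ ENNReal.toReal_nonneg
  have e : (1 + δ) ^ 3 = 1 + 3 * δ + 3 * (δ * δ) + δ * (δ * δ) := by ring
  have h3 : δ * δ ≤ δ := by nlinarith
  have h4 : δ * (δ * δ) ≤ δ := by nlinarith
  rw [e]
  linarith

end Pool.Agent.Lib.MP_87489e_co.HT
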