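import Pool.Agent.Lib.MP_87489e_co.HT.Stmts
import Pool.Agent.Lib.MP_87489e_co.HT.Basic

set_option autoImplicit false

/-!
G4: the polar of the difference body of the simplex.
-/

namespace Pool.Agent.Lib.MP_87489e_co.HT

open Finset MeasureTheory
open scoped Topology Pointwise

namespace G4

/-- the shear -/
def A (i : Fin 3) : Matrix (Fin 3) (Fin 3) ℝ :=
  fun l m => if l = m then 1 else if m = i then -1 else 0

lemma det_A (i : Fin 3) : (A i).det = 1 := by
  fin_cases i <;> simp [A, Matrix.det_fin_three]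

lemma A_apply_self (i : Fin 3) (y : E) : Matrix.toLin' (A i) y i = y i := by
  rw [Matrix.toLin'_apply]
  fin_cases i <;> simp [A, Matrix.mulVec, dotProduct, Fin.sum_univ_three]

lemma A_apply_ne (i l : Fin 3) (h : l ≠ i) (y : E) :
    Matrix.toLin' (A i) y l = y l - y i := by
  rw [Matrix.toLin'_apply]
  fin_cases i <;> fin_cases l <;>
    simp [A, Matrix.mulVec, dotProduct, Fin.sum_univ_three] at h ⊢ <;> ring

/-- the box -/
def lo (i : Fin 3) : E := fun l => if l = i then -1 else 0

def hi (i : Fin 3) : E := fun l => if l = i then 0 else 1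

lemma vol_box (i : Fin 3) : volume (Set.Icc (lo i) (hi i)) = 1 := by
  rw [Real.volume_Icc_pi]
  refine prod_eq_one fun l _ => ?_
  unfold lo hi
  split_ifs <;> simp

lemma vol_piece (i : Fin 3) :
    volume ((Matrix.toLin' (A i)) ⁻¹' (Set.Icc (lo i) (hi i))) = 1 := by
  have hd : LinearMap.det (Matrix.toLin' (A i)) = 1 := by
    rw [LinearMap.det_toLin', det_A]
  rw [Measure.addHaar_preimage_linearMap volume (by rw [hd]; exact one_ne_zero), hd, vol_box]
  simp

lemma vol_cube : volume (Set.Icc (0 : E) 1) = 1 := by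
  rw [Real.volume_Icc_pi]
  simp

lemma single_mem (i : Fin 3) : (Pi.single i 1 : E) ∈ Tn 3 := by
  refine ⟨fun j => ?_, ?_⟩
  · by_cases h : j = i
    · rw [h, Pi.single_eq_same]
      exact zero_le_one
    · rw [Pi.single_eq_of_ne h]
  · rw [Finset.sum_pi_single']
    simp

lemma zero_mem : (0 : E) ∈ Tn 3 := ⟨fun _ => le_rfl, by simp⟩

end G4

open G4 in
/-- G4 -/
theorem stUpper : StUpper := by
  unfold StUpper
  have hsub : pol (Tn 3 - Tn 3) ⊆ Set.Icc (0 : E) 1 ∪
      ⋃ i ∈ (univ : Finset (Fin 3)), (Matrix.toLin' (A i)) ⁻¹' (Set.Icc (lo i) (hi i)) := by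
    intro y hy
    have h1 : ∀ i, y i ≤ 1 := by
      intro i
      have := hy (Pi.single i 1) ⟨_, single_mem i, 0, zero_mem, by simp⟩
      simpa using this
    have h2 : ∀ i, -1 ≤ y i := by
      intro i
      have := hy (-Pi.single i 1) ⟨0, zero_mem, _, single_mem i, by simp⟩
      simp only [neg_dotProduct, single_dotProduct, one_mul] at this
      linarith
    have h3 : ∀ i j, y i - y j ≤ 1 := by
      intro i j
      have := hy (Pi.single i 1 - Pi.single j 1) ⟨_, single_mem i, _, single_mem j, rfl⟩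
      simpa [sub_dotProduct] using this
    by_cases h0 : ∀ i, 0 ≤ y i
    · left
      exact ⟨fun i => h0 i, fun i => h1 i⟩
    · right
      push Not at h0
      obtain ⟨i, hi0⟩ := h0
      obtain ⟨j, -, hj⟩ := exists_min_image univ y ⟨i, mem_univ i⟩
      rw [Set.mem_iUnion₂]
      refine ⟨j, mem_univ j, ?_⟩
      rw [Set.mem_preimage, Set.mem_Icc]
      have hj0 : y j ≤ 0 := (hj i (mem_univ i)).trans hi0.le
      constructor
      · intro l
        unfold lo
        by_cases hl : l = j
        · rw [if_pos hl, hl, A_apply_self]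
          exact h2 j
        · rw [if_neg hl, A_apply_ne j l hl]
          linarith [hj l (mem_univ l)]
      · intro l
        unfold hi
        by_cases hl : l = j
        · rw [if_pos hl, hl, A_apply_self]
          exact hj0
        · rw [if_neg hl, A_apply_ne j l hl]
          exact h3 l j
  calc volume (pol (Tn 3 - Tn 3)) ≤ volume (Set.Icc (0 : E) 1 ∪
        ⋃ i ∈ (univ : Finset (Fin 3)), (Matrix.toLin' (A i)) ⁻¹' (Set.Icc (lo i) (hi i))) :=
        measure_mono hsub
    _ ≤ volume (Set.Icc (0 : E) 1) + volume (⋃ i ∈ (univ : Finset (Fin 3)),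
        (Matrix.toLin' (A i)) ⁻¹' (Set.Icc (lo i) (hi i))) := measure_union_le _ _
    _ ≤ 1 + ∑ i ∈ (univ : Finset (Fin 3)), volume ((Matrix.toLin' (A i)) ⁻¹'
        (Set.Icc (lo i) (hi i))) := by
        rw [vol_cube]
        exact add_le_add le_rfl (measure_biUnion_finset_le _ _)
    _ = 4 := by
        simp only [vol_piece]
        norm_num

end Pool.Agent.Lib.MP_87489e_co.HT
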