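import Mathlib
import Pool.Agent.Lib.MP_87489e_co.HT.Basic
import Pool.Agent.Lib.MP_87489e_co.HT.Stmts
import Pool.Agent.Lib.MP_87489e_co.Ord.Ray

set_option autoImplicit false

/-!
From the core theorem to convex bodies.
-/

namespace Pool.Agent.Lib.MP_87489e_co.HT

open Finset MeasureTheory
open scoped Topology Pointwise

/-- `Mt u v w` as a linear map -/
def MtL (u v w : E) : E →ₗ[ℝ] ℝ × ℝ where
  toFun := Mt u v w
  map_add' x y := by
    ext <;> simp [Mt, add_dotProduct] <;> ring
  map_smul' c x := by
    ext <;> simp [Mt, smul_dotProduct] <;> ring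

theorem MtL_apply (u v w x : E) : MtL u v w x = Mt u v w x := rfl

theorem MtL_surj {u v w : E} (h : det3 u v w ≠ 0) : Function.Surjective (MtL u v w) := by
  -- if not surjective there is a nonzero form vanishing on the image
  intro q
  -- solve using w × u, u × v and v × w
  -- x = α (w × u) + β (u × v) : x·(v - u) = α det, x·(w - u) = β det
  set d := det3 u v w with hd
  refine ⟨(q.1 / d) • (crossProduct w u) + (q.2 / d) • (crossProduct u v), ?_⟩
  have e1 : (crossProduct w u) ⬝ᵥ v = d := by
    simp only [hd, det3, cross_apply, dotProduct, Fin.sum_univ_three, Matrix.cons_val_zero,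
      Matrix.cons_val_one, Matrix.cons_val]
    ring
  have e2 : (crossProduct w u) ⬝ᵥ u = 0 := by
    simp only [cross_apply, dotProduct, Fin.sum_univ_three, Matrix.cons_val_zero,
      Matrix.cons_val_one, Matrix.cons_val]
    ring
  have e3 : (crossProduct w u) ⬝ᵥ w = 0 := by
    simp only [cross_apply, dotProduct, Fin.sum_univ_three, Matrix.cons_val_zero,
      Matrix.cons_val_one, Matrix.cons_val]
    ring
  have e4 : (crossProduct u v) ⬝ᵥ w = d := by
    simp only [hd, det3, cross_apply, dotProduct, Fin.sum_univ_three, Matrix.cons_val_zero,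
      Matrix.cons_val_one, Matrix.cons_val]
    ring
  have e5 : (crossProduct u v) ⬝ᵥ u = 0 := by
    simp only [cross_apply, dotProduct, Fin.sum_univ_three, Matrix.cons_val_zero,
      Matrix.cons_val_one, Matrix.cons_val]
    ring
  have e6 : (crossProduct u v) ⬝ᵥ v = 0 := by
    simp only [cross_apply, dotProduct, Fin.sum_univ_three, Matrix.cons_val_zero,
      Matrix.cons_val_one, Matrix.cons_val]
    ring
  rw [MtL_apply, Mt]
  ext
  · simp only [add_dotProduct, smul_dotProduct, dotProduct_sub, e1, e2, e5, e6, smul_eq_mul]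
    field_simp
    ring
  · simp only [add_dotProduct, smul_dotProduct, dotProduct_sub, e2, e3, e4, e5, smul_eq_mul]
    field_simp
    ring

/-- the inequality for convex bodies -/
theorem body_ineq (hCore : StCore) (hArea : StArea) (hRS : StRS) (hApp : StApprox)
    {K : Set E} (hKc : IsCompact K) (hKx : Convex ℝ K) (hKi : (interior K).Nonempty) :
    8 / 3 ≤ (volume (pol (K - K))).toReal * (supHull K).toReal := by
  set H := (supHull K).toReal with hH
  set L := (volume (pol (K - K))).toReal with hL
  have hH0 : 0 ≤ H := ENNReal.toReal_nonneg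
  have hL0 : 0 ≤ L := ENNReal.toReal_nonneg
  have hNc : IsCompact (K - K) := by
    rw [sub_eq_add_neg]
    exact hKc.add hKc.neg
  have hNx : Convex ℝ (K - K) := hKx.sub hKx
  have hN0 : K - K ∈ 𝓝 (0 : E) := diff_nhds hKi
  have hNs : ∀ x ∈ K - K, -x ∈ K - K := by
    rintro _ ⟨a, ha, b, hb, rfl⟩
    exact ⟨b, hb, a, ha, by simp⟩
  have key : ∀ ε : ℝ, 0 < ε → 8 / 3 ≤ L * H + ε * (L * H) := by
    intro ε hε
    obtain ⟨P, g, h, hP, hv⟩ := hApp (K - K) hNc hN0 hNs ε hε
    have h1 := hCore P g (K - K) (9 / 2 * H) h hNc hNx ?_ (by positivity) ?_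
    · have h2 : 9 / 2 * H * (volume {y : E | g y ≤ 1}).toReal ≤ 9 / 2 * H * ((1 + ε) * L) :=
        mul_le_mul_of_nonneg_left hv (by positivity)
      nlinarith
    · intro y
      obtain ⟨p, hp, he⟩ := h.ex y
      exact ⟨p, hP p hp, he.ge⟩
    · intro p hp u v w hu hv' hw hdet
      have himg : Mt u v w '' (K - K) = Mt u v w '' K - Mt u v w '' K := by
        have := Set.image_sub (MtL u v w) (s := K) (t := K)
        exact this
      rw [himg]
      have hcont : Continuous (MtL u v w) := LinearMap.continuous_of_finiteDimensional _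
      have hA1 : IsCompact (Mt u v w '' K) := hKc.image hcont
      have hA2 : Convex ℝ (Mt u v w '' K) := hKx.linear_image (MtL u v w)
      have hopen : IsOpenMap (MtL u v w) := by
        have := (LinearMap.toContinuousLinearMap (MtL u v w)).isOpenMap (MtL_surj hdet.ne')
        exact this
      have hA3 : (interior (Mt u v w '' K)).Nonempty := by
        have h3 : MtL u v w '' (interior K) ⊆ interior (Mt u v w '' K) :=
          interior_maximal (Set.image_mono interior_subset) (hopen _ isOpen_interior)
        exact (hKi.image _).mono h3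
      have h4 := hRS _ hA1 hA2 hA3
      have h5 := hArea K hKc hKx hKi p (hP p hp) u v w hu hv' hw hdet
      linarith
  apply le_of_forall_pos_le_add
  intro ε hε
  by_cases h0 : L * H = 0
  · have := key 1 one_pos
    rw [h0] at this
    linarith
  · have hpos : 0 < L * H := lt_of_le_of_ne (by positivity) (Ne.symm h0)
    have := key (ε / (L * H)) (by positivity)
    rwa [div_mul_cancel₀ _ h0] at this

end Pool.Agent.Lib.MP_87489e_co.HT
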