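import Mathlib
import Pool.Agent.Lib.MP_87489e_co.HT.Z2
import Pool.Agent.Lib.MP_87489e_co.Ord.SimplexDiff

set_option autoImplicit false

/-!
Holmes-Thompson constant: definitions and the two bounds, from the modules.
-/

namespace Pool.Agent.Lib.MP_87489e_co.HT

open Finset MeasureTheory
open scoped Topology Pointwise

/-- the polar of half the difference body -/
theorem pol_half (N : Set E) : pol ((1 / 2 : ℝ) • N) = (2 : ℝ) • pol N := by
  ext y
  rw [Set.mem_smul_set_iff_inv_smul_mem₀ (by norm_num : (2:ℝ) ≠ 0)]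
  constructor
  · intro h x hx
    have := h ((1 / 2 : ℝ) • x) (Set.smul_mem_smul_set hx)
    rw [smul_dotProduct] at this
    rw [dotProduct_smul]
    simpa using this
  · rintro h _ ⟨x, hx, rfl⟩
    have := h x hx
    rw [dotProduct_smul] at this
    simp only [smul_dotProduct]
    simpa using this

theorem vol_pol_half (N : Set E) : volume (pol ((1 / 2 : ℝ) • N)) = 8 * volume (pol N) := by
  rw [pol_half, Measure.addHaar_smul]
  simp only [Module.finrank_fintype_fun_eq_card, Fintype.card_fin]
  congr 1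
  norm_num

theorem pol_ne_top {N : Set E} (hN : N ∈ 𝓝 (0 : E)) : volume (pol N) ≠ ⊤ := by
  obtain ⟨r, hr, hball⟩ := Metric.mem_nhds_iff.mp hN
  have hsub : pol N ⊆ Metric.closedBall (0 : E) (2 / r) := by
    intro y hy
    rw [mem_closedBall_zero_iff, pi_norm_le_iff_of_nonneg (by positivity)]
    intro i
    have key : ∀ σ : ℝ, |σ| = 1 → σ * y i ≤ 2 / r := by
      intro σ hσ
      have hmem : (Pi.single i (σ * (r / 2)) : E) ∈ N := by
        apply hball
        rw [mem_ball_zero_iff, Pi.norm_single, Real.norm_eq_abs, abs_mul, hσ, one_mul,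
          abs_of_pos (by positivity)]
        linarith
      have := hy _ hmem
      rw [single_dotProduct] at this
      rw [le_div_iff₀ hr]
      linarith
    rw [Real.norm_eq_abs, abs_le']
    exact ⟨by have := key 1 (by norm_num); linarith, by have := key (-1) (by norm_num); linarith⟩
  exact ne_top_of_le_ne_top (isCompact_closedBall (0 : E) (2 / r)).measure_lt_top.ne
    (measure_mono hsub)

/-- lower bound in `ENNReal` -/
theorem lower_enn (hCore : StCore) (hArea : StArea) (hRS : StRS) (hApp : StApprox)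
    {K : Set E} (hKc : IsCompact K) (hKx : Convex ℝ K) (hKi : (interior K).Nonempty) :
    ENNReal.ofReal (64 / 3) ≤ volume (pol ((1 / 2 : ℝ) • (K - K))) * supHull K := by
  have h := body_ineq hCore hArea hRS hApp hKc hKx hKi
  rw [vol_pol_half]
  have h1 : volume (pol (K - K)) ≠ ⊤ := pol_ne_top (diff_nhds hKi)
  have h2 : supHull K ≠ ⊤ := Ord.supHull_ne_top hKc hKx
  rw [← ENNReal.toReal_mul] at h
  have h3 : ENNReal.ofReal (8 / 3) ≤ volume (pol (K - K)) * supHull K := by
    rw [← ENNReal.ofReal_toReal (ENNReal.mul_ne_top h1 h2)]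
    exact ENNReal.ofReal_le_ofReal h
  have h4 : ENNReal.ofReal (64 / 3) = 8 * ENNReal.ofReal (8 / 3) := by
    have : (8 : ENNReal) = ENNReal.ofReal 8 := by norm_num
    rw [this, ← ENNReal.ofReal_mul (by norm_num)]
    norm_num
  rw [h4, mul_assoc]
  gcongr

/-- the simplex -/
theorem upper_enn (hU : StUpper) :
    volume (pol ((1 / 2 : ℝ) • (Tn 3 - Tn 3))) * supHull (Tn 3) ≤ ENNReal.ofReal (64 / 3) := by
  rw [vol_pol_half]
  have hS : supHull (Tn 3) ≤ 4 * volume (Tn 3) := by
    refine iSup_le fun p => iSup_le fun hp => ?_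
    obtain ⟨_, ⟨a, ha, rfl⟩, ha1⟩ := hp
    have := hull_le_general (Tn_compact 3) (Tn_convex 3) p ha (by simpa [add_comm] using ha1)
    exact_mod_cast this
  have h1 : volume (Tn 3) ≤ ENNReal.ofReal (1 / 6) := by
    have := Tn_volume_le 3
    simpa [Nat.factorial] using this
  calc 8 * volume (pol (Tn 3 - Tn 3)) * supHull (Tn 3) ≤ 8 * 4 * (4 * ENNReal.ofReal (1 / 6)) := by
        gcongr
        · exact hU
        · exact hS.trans (by gcongr)
    _ = ENNReal.ofReal (64 / 3) := by
        have h8 : (8 : ENNReal) = ENNReal.ofReal 8 := by norm_num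
        have h4 : (4 : ENNReal) = ENNReal.ofReal 4 := by norm_num
        rw [h8, h4, ← ENNReal.ofReal_mul (by norm_num), ← ENNReal.ofReal_mul (by norm_num),
          ← ENNReal.ofReal_mul (by norm_num)]
        norm_num

end Pool.Agent.Lib.MP_87489e_co.HT
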